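import Mathlib

/-!
# Two-row Kronecker theorem: definitions (helper73)

Irreducible characters of the symmetric group by the determinantal formula, Kronecker
coefficients, stretched positivity, and the chain system (an explicit system of linear
inequalities) whose integer solutions are counted in the theorem.
-/

namespace H73TR

open Finset

variable {n l : ℕ}

/-- The number of letters `j` in the word `f`. -/
def content (f : Fin n → Fin l) (j : Fin l) : ℤ := ((univ.filter fun i => f i = j).card : ℤ)

/-- The permutation character of `S_n` on the words with content `κ`: the number of words `f` with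
`κ j` letters `j` for all `j` which are fixed by `σ` (it is `0` if some `κ j` is negative or if the
sum of the `κ j` is not `n`). -/
def permChar (κ : Fin l → ℤ) (σ : Equiv.Perm (Fin n)) : ℤ :=
  ((univ.filter fun f : Fin n → Fin l =>
    (∀ i, f (σ i) = f i) ∧ ∀ j, content f j = κ j).card : ℤ)

/-- The vector `lam + δ - wδ`, `δ = (l-1, …, 1, 0)`. -/
def shiftVec (lam : Fin l → ℕ) (w : Equiv.Perm (Fin l)) (i : Fin l) : ℤ :=
  (lam i : ℤ) + (((w i : Fin l) : ℕ) : ℤ) - ((i : ℕ) : ℤ)

/-- The irreducible character of `S_n` indexed by the partition `lam` of `n`, by the determinantal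
formula: the alternating sum over `w` of the permutation characters with content
`lam + δ - wδ`. -/
def chi (lam : Fin l → ℕ) (σ : Equiv.Perm (Fin n)) : ℤ :=
  ∑ w : Equiv.Perm (Fin l), ((Equiv.Perm.sign w : ℤˣ) : ℤ) * permChar (shiftVec lam w) σ

/-- The Kronecker coefficient of three partitions of `n`. -/
def kron (n : ℕ) {l : ℕ} (lam mu nu : Fin l → ℕ) : ℚ :=
  (∑ σ : Equiv.Perm (Fin n), ((chi lam σ * chi mu σ * chi nu σ : ℤ) : ℚ)) / (n.factorial : ℚ)

/-- Rational distributions with `l` parts. -/
structure IsDistribution (a : Fin l → ℚ) : Prop where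
  anti : Antitone a
  nonneg : ∀ i, 0 ≤ a i
  sum : ∑ i, a i = 1

/-- Stretched-positive triples: some multiple consists of integral partitions with a positive
Kronecker coefficient. -/
def StretchedPositive (a b c : Fin l → ℚ) : Prop :=
  ∃ k : ℕ, 1 ≤ k ∧ ∃ lam mu nu : Fin l → ℕ, (∀ i, (lam i : ℚ) = k * a i) ∧
    (∀ i, (mu i : ℚ) = k * b i) ∧ (∀ i, (nu i : ℚ) = k * c i) ∧ 0 < kron k lam mu nu

/-- The vector `(p, q, 0, …, 0)`. -/
def twoRow {R : Type*} [Zero R] (l : ℕ) (p q : R) (i : Fin l) : R :=
  if (i : ℕ) = 0 then p else if (i : ℕ) = 1 then q else 0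

/-! ## The chain system -/

/-- The rows `x^0, …, x^(l-1)` are given by `x`, all later rows are `a`; all entries with column
index `≥ l` are `0`. -/
def ext {R : Type*} [Zero R] (a : Fin l → R) (x : Fin l → Fin l → R) (k i : ℕ) : R :=
  if hi : i < l then (if hk : k < l then x ⟨k, hk⟩ ⟨i, hi⟩ else a ⟨i, hi⟩) else 0

/-- The inequalities of the chain system. -/
inductive Row (l : ℕ)
  /-- `|x^0| ≤ s` -/
  | sizeLe : Row l
  /-- `|x^0| ≥ s` -/
  | sizeGe : Row l
  /-- `x^k_i ≤ x^(k+1)_i` -/
  | le (k i : Fin l) : Row l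
  /-- `x^(k+1)_(i+1) ≤ x^k_i` -/
  | inter (k i : Fin l) : Row l
  /-- `|x^(k+1)| - |x^k| ≤ b_k - x^0_k` -/
  | wtLe (k : Fin l) : Row l
  /-- `|x^(k+1)| - |x^k| ≥ b_k - x^0_k` -/
  | wtGe (k : Fin l) : Row l
  /-- `x^0_k + ∑_(r<i) (x^(k+1)_r - x^k_r) ≥ x^0_(k+1) + ∑_(r≤i) (x^(k+2)_r - x^(k+1)_r)` for
  `k + 1 < l` (no condition for `k = l - 1`) -/
  | dom (k i : Fin l) : Row l
  deriving DecidableEq, Fintype

/-- The difference of the two sides of an inequality of the chain system (a linear function of
`a, b, s, x`); the inequality says that it is nonnegative. -/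
def Row.gap {R : Type*} [CommRing R] (a b : Fin l → R) (s : R) (x : Fin l → Fin l → R) :
    Row l → R
  | .sizeLe => s - ∑ i ∈ range l, ext a x 0 i
  | .sizeGe => (∑ i ∈ range l, ext a x 0 i) - s
  | .le k i => ext a x (k + 1) i - ext a x k i
  | .inter k i => ext a x k i - ext a x (k + 1) (i + 1)
  | .wtLe k => b k - ext a x 0 k - ∑ i ∈ range l, (ext a x (k + 1) i - ext a x k i)
  | .wtGe k => (∑ i ∈ range l, (ext a x (k + 1) i - ext a x k i)) - (b k - ext a x 0 k)
  | .dom k i => if (k : ℕ) + 1 < l then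
      (ext a x 0 k + ∑ r ∈ range i, (ext a x (k + 1) r - ext a x k r)) -
        (ext a x 0 (k + 1) + ∑ r ∈ range (i + 1), (ext a x (k + 2) r - ext a x (k + 1) r))
      else 0

/-- The chain system with data `a, b, s`: all inequalities hold for `x`. -/
def IsChain {R : Type*} [CommRing R] [LE R] (a b : Fin l → R) (s : R)
    (x : Fin l → Fin l → R) : Prop :=
  ∀ ρ : Row l, 0 ≤ ρ.gap a b s x

/-- The slice `P(s)`: the real solutions of the chain system. -/
def Slice (a b : Fin l → ℚ) (s : ℝ) : Set (Fin l → Fin l → ℝ) :=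
  {x | IsChain (fun i => (a i : ℝ)) (fun i => (b i : ℝ)) s x}

/-- The linear form of a row: the row says that it is at most something affine in `a, b, s`. -/
def Row.lin (ρ : Row l) (x : Fin l → Fin l → ℝ) : ℝ :=
  -(ρ.gap (fun _ => 0) (fun _ => 0) 0 x)

/-- The number of integer solutions of the chain system. -/
noncomputable def chainCount (lam mu : Fin l → ℕ) (p : ℤ) : ℕ :=
  Nat.card {x : Fin l → Fin l → ℤ //
    IsChain (fun i => (lam i : ℤ)) (fun i => (mu i : ℤ)) p x}

end H73TR
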