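import Pool.Agent.Lib.H73TR.Defs

/-!
# Two-row Kronecker theorem: auxiliary definitions for Part I (helper73)
-/

namespace H73TR

open Finset

variable {l : ℕ}

/-- `δ = (l-1, …, 1, 0)`. -/
def delta (l : ℕ) (i : Fin l) : ℤ := (l : ℤ) - 1 - ((i : ℕ) : ℤ)

/-- The sign of a permutation as an integer. -/
def sg (w : Equiv.Perm (Fin l)) : ℤ := ((Equiv.Perm.sign w : ℤˣ) : ℤ)

/-- Alternating functions on `ℤ^l`. -/
def Alternating (F : (Fin l → ℤ) → ℤ) : Prop :=
  ∀ (w : Equiv.Perm (Fin l)) (g : Fin l → ℤ), F (fun i => g (w i)) = sg w * F g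

/-- Functions which vanish on vectors with a negative entry. -/
def NegZero (F : (Fin l → ℤ) → ℤ) : Prop :=
  ∀ g : Fin l → ℤ, (∃ i, g i < 0) → F g = 0

/-- Convolution with the complete homogeneous polynomial `h_r`. -/
def hconv (r : ℕ) (F : (Fin l → ℤ) → ℤ) (g : Fin l → ℤ) : ℤ :=
  ∑ β ∈ piAntidiag (univ : Finset (Fin l)) r, F (fun i => g i - (β i : ℤ))

/-- The next entry of a vector (`0` after the last one). -/
def nxt (lam : Fin l → ℕ) (i : Fin l) : ℕ := if h : (i : ℕ) + 1 < l then lam ⟨i + 1, h⟩ else 0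

/-- The previous entry of a vector (of no importance at the first place). -/
def prv (lam : Fin l → ℕ) (i : Fin l) : ℕ := lam ⟨(i : ℕ) - 1, lt_of_le_of_lt (Nat.sub_le _ _) i.2⟩

/-- `lam / τ` is a horizontal strip. -/
def Strip (τ lam : Fin l → ℕ) : Prop := (∀ i, τ i ≤ lam i) ∧ ∀ i, nxt lam i ≤ τ i

instance (τ lam : Fin l → ℕ) : Decidable (Strip τ lam) := by unfold Strip; infer_instance

/-- All `τ` such that `lam / τ` is a horizontal strip of size `r`. -/
def strips (lam : Fin l → ℕ) (r : ℕ) : Finset (Fin l → ℕ) :=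
  (Fintype.piFinset fun i => range (lam i + 1)).filter fun τ =>
    Strip τ lam ∧ ∑ i, τ i + r = ∑ i, lam i

/-- Chains of `J` horizontal strips from `ρ` to `lam`. -/
def chains (J : ℕ) (ρ lam : Fin l → ℕ) : Finset (Fin (J + 1) → Fin l → ℕ) :=
  (Fintype.piFinset fun _ => Fintype.piFinset fun i => range (lam i + 1)).filter fun y =>
    y 0 = ρ ∧ y (Fin.last J) = lam ∧ ∀ j : Fin J, Strip (y j.castSucc) (y j.succ)

/-- The weight of a chain: the sizes of its strips. -/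
def wt {J : ℕ} (y : Fin (J + 1) → Fin l → ℕ) (j : Fin J) : ℤ :=
  ∑ i, (y j.succ i : ℤ) - ∑ i, (y j.castSucc i : ℤ)

/-- The number of `J`-tuples of vectors in `ℕ^l` with sizes `r` and sum `κ`. -/
noncomputable def colCount (J : ℕ) (r : Fin J → ℤ) (κ : Fin l → ℤ) : ℕ :=
  Nat.card {β : Fin J → Fin l → ℕ //
    (∀ j, ∑ i, (β j i : ℤ) = r j) ∧ ∀ i, ∑ j, (β j i : ℤ) = κ i}

/-- The number of pairs of `l × l` matrices over `ℕ` of sizes `p`, `q` whose sum has the row sums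
`κ` and the column sums `κ'`. -/
noncomputable def pairCount (κ κ' : Fin l → ℤ) (p q : ℤ) : ℕ :=
  Nat.card {M : Fin 2 → Fin l → Fin l → ℕ //
    (∀ i, ∑ t, ∑ j, (M t i j : ℤ) = κ i) ∧ (∀ j, ∑ t, ∑ i, (M t i j : ℤ) = κ' j) ∧
      (∑ i, ∑ j, (M 0 i j : ℤ) = p) ∧ ∑ i, ∑ j, (M 1 i j : ℤ) = q}

/-- The signed sum over both determinantal formulas. -/
noncomputable def signedCount (lam mu : Fin l → ℕ) (p q : ℤ) : ℤ :=
  ∑ w : Equiv.Perm (Fin l), ∑ v : Equiv.Perm (Fin l),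
    sg w * sg v * (pairCount (shiftVec lam w) (shiftVec mu v) p q : ℤ)

/-- Number of letters `k` (cells of the `k`-th strip) in row `r` of a chain, for natural number
indices (`0` outside the range). -/
def cells (y : Fin (l + 1) → Fin l → ℕ) (k r : ℕ) : ℤ :=
  if h : k < l ∧ r < l then
    (y (Fin.succ ⟨k, h.1⟩) ⟨r, h.2⟩ : ℤ) - (y (Fin.castSucc ⟨k, h.1⟩) ⟨r, h.2⟩ : ℤ) else 0

/-- Chains which stay dominant when they are read after `τ` (right to left, top to bottom). -/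
def Good (τ : Fin l → ℕ) (y : Fin (l + 1) → Fin l → ℕ) : Prop :=
  ∀ (k : ℕ) (h : k + 1 < l) (i : Fin l),
    (τ ⟨k + 1, h⟩ : ℤ) + ∑ r ∈ range ((i : ℕ) + 1), cells y (k + 1) r ≤
      (τ ⟨k, (Nat.lt_succ_self k).trans h⟩ : ℤ) + ∑ r ∈ range (i : ℕ), cells y k r

/-- The toggle of the middle row `b` between `a` and `c` from the row `i` on, with cut `e` in
row `i`. -/
def tog (a b c : Fin l → ℕ) (i : Fin l) (e : ℕ) (r : Fin l) : ℕ :=
  if r < i then b r
  else if r = i then max (a r) (nxt c r) + (c r - e) - b r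
  else max (a r) (nxt c r) + min (c r) (prv a r) - b r

end H73TR
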