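import Mathlib

/-!
# Two-row Kronecker theorem: families of rational polytopes (helper73)
-/

namespace H73TR

open Finset

/-- A system of linear inequalities `A_r x ≤ b_r + s c_r` with a parameter `s`; integer rows,
rational right sides. -/
structure Sys (ι κ : Type) where
  /-- the rows -/
  A : κ → ι → ℤ
  /-- the constant terms of the right sides -/
  b : κ → ℚ
  /-- the coefficients of `s` -/
  c : κ → ℚ

/-- The slice `P(s)`. -/
def Sys.P {ι κ : Type} [Fintype ι] (S : Sys ι κ) (s : ℝ) : Set (ι → ℝ) :=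
  {x | ∀ r, ∑ i, (S.A r i : ℝ) * x i ≤ (S.b r : ℝ) + s * (S.c r : ℝ)}

/-- The number of lattice points of `k P(j / k)`. -/
noncomputable def Sys.L {ι κ : Type} [Fintype ι] (S : Sys ι κ) (k : ℕ) (j : ℤ) : ℕ :=
  Nat.card {x : ι → ℤ // ∀ r, ((∑ i, S.A r i * x i : ℤ) : ℚ) ≤ (k : ℚ) * S.b r + (j : ℚ) * S.c r}

/-- The hypotheses on a family of polytopes: all slices are in a bounded set and have
`0 ≤ s ≤ 1`, the middle slice is nonempty, the numbers of lattice points are symmetric and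
decrease away from the middle. -/
structure Sys.Nice {ι κ : Type} [Fintype ι] (S : Sys ι κ) (q : ℕ) : Prop where
  q_pos : 1 ≤ q
  bdd : ∃ R : ℝ, ∀ (s : ℝ) (x : ι → ℝ), x ∈ S.P s → 0 ≤ s ∧ s ≤ 1 ∧ ∀ i, |x i| ≤ R
  ne : (S.P (1 / 2)).Nonempty
  symm : ∀ k : ℕ, q ∣ k → ∀ j : ℤ, S.L k j = S.L k ((k : ℤ) - j)
  mono : ∀ k : ℕ, q ∣ k → ∀ j : ℤ, (k : ℤ) ≤ 2 * j → S.L k (j + 1) ≤ S.L k j

/-- The result of the reduction to full-dimensional slices: for `1 - T ≤ s ≤ T` the slice `P(s)`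
is `p0 + s p1 + e(P'(s))`, `e` the injective linear map given by integer vectors `e j`, the slices
`P'(s)` are uniformly bounded and have interior points for `1 - T < s < T`, and the numbers of
lattice points agree for `k, j` divisible by `N`. -/
structure Reduced {ι κ : Type} [Fintype ι] (S : Sys ι κ) (T : ℚ) (d N : ℕ) (S' : Sys (Fin d) κ)
    (p0 p1 : ι → ℚ) (e : Fin d → ι → ℤ) : Prop where
  N_pos : 1 ≤ N
  inj : ∀ y : Fin d → ℝ, (∀ i, ∑ j, y j * (e j i : ℝ) = 0) → y = 0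
  slice : ∀ s : ℝ, 1 - (T : ℝ) ≤ s → s ≤ (T : ℝ) → ∀ x : ι → ℝ, x ∈ S.P s ↔
    ∃ y ∈ S'.P s, ∀ i, x i = (p0 i : ℝ) + s * (p1 i : ℝ) + ∑ j, y j * (e j i : ℝ)
  interior : ∀ s : ℝ, 1 - (T : ℝ) < s → s < (T : ℝ) → (interior (S'.P s)).Nonempty
  count : ∀ (k : ℕ) (j : ℤ), 0 < k → N ∣ k → (N : ℤ) ∣ j → (1 - T) * k ≤ (j : ℚ) →
    (j : ℚ) ≤ T * k → S.L k j = S'.L k j
  bdd : ∃ R : ℝ, ∀ s : ℝ, 1 - (T : ℝ) ≤ s → s ≤ (T : ℝ) → ∀ y ∈ S'.P s, ∀ i, |y i| ≤ R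

end H73TR
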