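import Pool.Agent.Lib.H73TR.Defs
import Pool.Agent.Lib.H73TR.Defs3

/-!
# Two-row Kronecker theorem: the chain system as a family of polytopes (helper73)
-/

namespace H73TR

variable {l : ℕ}

/-- The coefficient of the unknown `p` in the linear form of a row. -/
def Row.coef (ρ : Row l) (p : Fin l × Fin l) : ℤ :=
  -(ρ.gap (R := ℤ) (fun _ => 0) (fun _ => 0) 0 (fun k i => if (k, i) = p then 1 else 0))

/-- The chain system with data `a, b` as a family of polytopes with parameter `s`. -/
def sysOf (a b : Fin l → ℚ) : Sys (Fin l × Fin l) (Row l) where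
  A ρ p := ρ.coef p
  b ρ := ρ.gap a b 0 (fun _ _ => 0)
  c ρ := ρ.gap (fun _ => 0) (fun _ => 0) 1 (fun _ _ => 0)

end H73TR
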