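import Mathlib

/-!
# F1a (M): integer basis of the kernel of an integer matrix

Let `K` be the kernel of `A` in `ℤ^ι`: a submodule of a free `ℤ`-module of finite rank, so it has a
`ℤ`-basis `e_1, …, e_d` (`Submodule.basisOfPid` / `Module.Free`).  The real kernel is the real span
of the `e_j` (`ℝ` is flat over `ℤ`; or: the rank over `ℚ` and over `ℝ` of an integer matrix is the
same, and the rational kernel is the rational span of `K`; or by the argument of `R1`: write a real
solution as `∑ θ_k q_k` with `θ_k` linearly independent over `ℚ` and `q_k` rational vectors, then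
every `q_k` is in the rational kernel), and the `e_j` are linearly independent over `ℝ` (linear
independence over `ℤ`, hence over `ℚ`, of integer vectors; again by flatness or by determinants).
-/

namespace H73TR

open Finset

/-- Common denominator of a finite family of rationals. -/
private theorem F1a_denom {α : Type} [Fintype α] (x : α → ℚ) :
    ∃ (D : ℕ) (z : α → ℤ), 0 < D ∧ ∀ a, (z a : ℚ) = D * x a := by
  classical
  refine ⟨∏ a, (x a).den, fun a => (x a).num * ((∏ b, (x b).den) / (x a).den : ℕ), ?_, ?_⟩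
  · exact Finset.prod_pos fun a _ => (x a).den_pos
  · intro a
    have hdvd : (x a).den ∣ ∏ b, (x b).den := Finset.dvd_prod_of_mem _ (Finset.mem_univ a)
    obtain ⟨c, hc⟩ := hdvd
    have hpos : 0 < (x a).den := (x a).den_pos
    show (((x a).num * (((∏ b, (x b).den) / (x a).den : ℕ) : ℤ) : ℤ) : ℚ) =
      ((∏ b, (x b).den : ℕ) : ℚ) * x a
    rw [hc, Nat.mul_div_cancel_left c hpos]
    have h1 : ((x a).num : ℚ) = (x a).den * x a := by
      have h2 := Rat.num_div_den (x a)
      have h3 : ((x a).den : ℚ) ≠ 0 := by exact_mod_cast hpos.ne'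
      field_simp at h2
      linarith
    push_cast
    rw [h1]
    ring

theorem kernel_basis {ι κ : Type} [Fintype ι] [Finite κ] (A : κ → ι → ℤ) :
    ∃ (d : ℕ) (e : Fin d → ι → ℤ),
      (∀ y : Fin d → ℝ, (∀ i, ∑ j, y j * (e j i : ℝ) = 0) → y = 0) ∧
      (∀ x : ι → ℤ, (∀ r, ∑ i, A r i * x i = 0) ↔ ∃ y : Fin d → ℤ, ∀ i, x i = ∑ j, y j * e j i) ∧
      (∀ x : ι → ℝ, (∀ r, ∑ i, (A r i : ℝ) * x i = 0) ↔
        ∃ y : Fin d → ℝ, ∀ i, x i = ∑ j, y j * (e j i : ℝ)) := by
  classical
  let f : (ι → ℤ) →ₗ[ℤ] (κ → ℤ) :=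
    { toFun := fun x r => ∑ i, A r i * x i
      map_add' := by
        intro x y
        funext r
        simp [mul_add, Finset.sum_add_distrib]
      map_smul' := by
        intro m x
        funext r
        simp only [Pi.smul_apply, smul_eq_mul, RingHom.id_apply, Finset.mul_sum]
        exact Finset.sum_congr rfl fun i _ => by ring }
  let K : Submodule ℤ (ι → ℤ) := LinearMap.ker f
  have hK : ∀ x : ι → ℤ, x ∈ K ↔ ∀ r, ∑ i, A r i * x i = 0 := by
    intro x
    rw [LinearMap.mem_ker]
    exact funext_iff
  let b := Module.finBasis ℤ K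
  set d := Module.finrank ℤ K with hd
  let e : Fin d → ι → ℤ := fun j => (b j : ι → ℤ)
  have heK : ∀ j r, ∑ i, A r i * e j i = 0 := fun j => (hK _).1 (b j).2
  -- integer part
  have hint : ∀ x : ι → ℤ, (∀ r, ∑ i, A r i * x i = 0) ↔
      ∃ y : Fin d → ℤ, ∀ i, x i = ∑ j, y j * e j i := by
    intro x
    constructor
    · intro hx
      refine ⟨fun j => b.repr ⟨x, (hK x).2 hx⟩ j, fun i => ?_⟩
      have h1 := b.sum_repr ⟨x, (hK x).2 hx⟩
      have h2 := congrArg (fun z : K => (z : ι → ℤ) i) h1
      have h3 : ((∑ j, b.repr ⟨x, (hK x).2 hx⟩ j • b j : K) : ι → ℤ) i =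
          ∑ j, b.repr ⟨x, (hK x).2 hx⟩ j * e j i := by
        rw [Submodule.coe_sum, Finset.sum_apply]
        exact Finset.sum_congr rfl fun j _ => rfl
      exact h2.symm.trans h3
    · rintro ⟨y, hy⟩ r
      have h1 : ∑ i, A r i * x i = ∑ j, y j * ∑ i, A r i * e j i := by
        simp only [hy, Finset.mul_sum]
        rw [Finset.sum_comm]
        exact Finset.sum_congr rfl fun j _ => Finset.sum_congr rfl fun i _ => by ring
      rw [h1]
      exact Finset.sum_eq_zero fun j _ => by rw [heK j r, mul_zero]
  have hind : ∀ y : Fin d → ℤ, (∀ i, ∑ j, y j * e j i = 0) → y = 0 := by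
    intro y hy
    have h1 : ∑ j, y j • b j = 0 := by
      apply Subtype.ext
      funext i
      have h2 := hy i
      simpa [e] using h2
    funext j
    exact Fintype.linearIndependent_iff.1 b.linearIndependent y h1 j
  -- rational part
  have hindQ : ∀ y : Fin d → ℚ, (∀ i, ∑ j, y j * (e j i : ℚ) = 0) → y = 0 := by
    intro y hy
    obtain ⟨D, z, hD, hz⟩ := F1a_denom y
    have h1 : z = 0 := by
      apply hind
      intro i
      have h2 : ((∑ j, z j * e j i : ℤ) : ℚ) = 0 := by
        push_cast
        simp only [hz]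
        have h3 : ∑ j, (D : ℚ) * y j * (e j i : ℚ) = D * ∑ j, y j * (e j i : ℚ) := by
          rw [Finset.mul_sum]
          exact Finset.sum_congr rfl fun j _ => by ring
        rw [h3, hy i, mul_zero]
      exact_mod_cast h2
    funext j
    have h4 := hz j
    rw [h1] at h4
    have h5 : (D : ℚ) ≠ 0 := by exact_mod_cast hD.ne'
    simp only [Pi.zero_apply, Int.cast_zero] at h4
    rcases mul_eq_zero.1 h4.symm with h6 | h6
    · exact absurd h6 h5
    · exact h6
  have hQ : ∀ x : ι → ℚ, (∀ r, ∑ i, (A r i : ℚ) * x i = 0) →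
      ∃ y : Fin d → ℚ, ∀ i, x i = ∑ j, y j * (e j i : ℚ) := by
    intro x hx
    obtain ⟨D, z, hD, hz⟩ := F1a_denom x
    have h5 : (D : ℚ) ≠ 0 := by exact_mod_cast hD.ne'
    have h1 : ∀ r, ∑ i, A r i * z i = 0 := by
      intro r
      have h2 : ((∑ i, A r i * z i : ℤ) : ℚ) = 0 := by
        push_cast
        simp only [hz]
        have h3 : ∑ i, (A r i : ℚ) * ((D : ℚ) * x i) = D * ∑ i, (A r i : ℚ) * x i := by
          rw [Finset.mul_sum]
          exact Finset.sum_congr rfl fun j _ => by ring
        rw [h3, hx r, mul_zero]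
      exact_mod_cast h2
    obtain ⟨y, hy⟩ := (hint z).1 h1
    refine ⟨fun j => (y j : ℚ) / D, fun i => ?_⟩
    have h6 : ((z i : ℤ) : ℚ) = ∑ j, (y j : ℚ) * (e j i : ℚ) := by
      rw [hy i]; push_cast; rfl
    have h7 : x i = (z i : ℚ) / D := by
      rw [hz i]; field_simp
    rw [h7, h6, Finset.sum_div]
    exact Finset.sum_congr rfl fun j _ => by ring
  -- real part
  let θ := Module.Basis.ofVectorSpace ℚ ℝ
  have hlin : ∀ {α : Type} [Fintype α] (m : α → ℤ) (x : α → ℝ) (k : _),
      θ.repr (∑ a, (m a : ℝ) * x a) k = ∑ a, (m a : ℚ) * θ.repr (x a) k := by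
    intro α _ m x k
    have h1 : ∑ a, (m a : ℝ) * x a = ∑ a, (m a : ℚ) • x a := by
      refine Finset.sum_congr rfl fun a _ => ?_
      rw [Rat.smul_def]
      push_cast
      rfl
    rw [h1, map_sum, Finsupp.finsetSum_apply]
    refine Finset.sum_congr rfl fun a _ => ?_
    rw [map_smul, Finsupp.smul_apply, smul_eq_mul]
  refine ⟨d, e, ?_, hint, ?_⟩
  · intro y hy
    funext j
    have h1 : θ.repr (y j) = 0 := by
      ext k
      have h2 : (fun j => θ.repr (y j) k) = 0 := by
        apply hindQ
        intro i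
        have h3 := hlin (fun j => e j i) y k
        have h4 : ∑ j, (e j i : ℝ) * y j = 0 := by
          rw [← hy i]
          exact Finset.sum_congr rfl fun j _ => mul_comm _ _
        rw [h4, map_zero, Finsupp.zero_apply] at h3
        rw [h3]
        exact Finset.sum_congr rfl fun j _ => mul_comm _ _
      exact congrFun h2 j
    have h5 : y j = 0 := by
      have := congrArg θ.repr.symm h1
      simpa using this
    exact h5
  · intro x
    constructor
    · intro hx
      have hker : ∀ k, ∃ y : Fin d → ℚ, ∀ i, θ.repr (x i) k = ∑ j, y j * (e j i : ℚ) := by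
        intro k
        apply hQ (fun i => θ.repr (x i) k)
        intro r
        have h3 := hlin (A r) x k
        rw [hx r, map_zero, Finsupp.zero_apply] at h3
        exact h3.symm
      choose q hq using hker
      set S := (Finset.univ : Finset ι).biUnion (fun i => (θ.repr (x i)).support) with hS
      have hxi : ∀ i, x i = ∑ k ∈ S, (θ.repr (x i) k : ℝ) * θ k := by
        intro i
        have h1 := θ.linearCombination_repr (x i)
        rw [Finsupp.linearCombination_apply, Finsupp.sum] at h1
        calc x i = ∑ k ∈ (θ.repr (x i)).support, (θ.repr (x i) k) • θ k := h1.symm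
          _ = ∑ k ∈ S, (θ.repr (x i) k) • θ k := by
              apply Finset.sum_subset
              · intro k hk
                exact Finset.mem_biUnion.2 ⟨i, Finset.mem_univ _, hk⟩
              · intro k _ hk
                rw [Finsupp.notMem_support_iff.1 hk, zero_smul]
          _ = _ := Finset.sum_congr rfl fun k _ => by rw [Rat.smul_def]
      refine ⟨fun j => ∑ k ∈ S, (q k j : ℝ) * θ k, fun i => ?_⟩
      rw [hxi i]
      simp only [Finset.sum_mul]
      rw [Finset.sum_comm]
      refine Finset.sum_congr rfl fun k _ => ?_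
      rw [hq k i]
      push_cast
      rw [Finset.sum_mul]
      exact Finset.sum_congr rfl fun j _ => by ring
    · rintro ⟨y, hy⟩ r
      have h1 : ∑ i, (A r i : ℝ) * x i = ∑ j, y j * ((∑ i, A r i * e j i : ℤ) : ℝ) := by
        simp only [hy, Finset.mul_sum]
        rw [Finset.sum_comm]
        refine Finset.sum_congr rfl fun j _ => ?_
        push_cast
        rw [Finset.mul_sum]
        exact Finset.sum_congr rfl fun i _ => by ring
      rw [h1]
      exact Finset.sum_eq_zero fun j _ => by rw [heK j r, Int.cast_zero, mul_zero]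

end H73TR
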