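import Pool.Agent.Lib.H73TR.Defs3

/-!
# F1b (M): points which are strict in all rows but the implicit equalities

For each row `r` not in `I` there are `s_r ∈ [1-T, T]` and `x_r ∈ P(s_r)` with a strict inequality
in row `r`.  The average `(s̄, x̄)` of these finitely many points (if `I` is everything take any
point) has `x̄ ∈ P(s̄)` and is strict in all rows not in `I`.  If `1 - T < s < T` then
`s = θ s̄ + (1-θ) s''` with `0 < θ ≤ 1` and `s'' ∈ [1-T, T]`; take `x'' ∈ P(s'')`;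
`θ x̄ + (1-θ) x''` is in `P(s)` and strict in all rows not in `I`.
-/

namespace H73TR

open Finset

/-- Convex combinations of points of two slices. -/
private theorem F1b_convex {ι κ : Type} [Fintype ι] (S : Sys ι κ) {s s' θ : ℝ} (h0 : 0 ≤ θ)
    (h1 : θ ≤ 1) (x x' : ι → ℝ) (r : κ)
    (hx : ∑ i, (S.A r i : ℝ) * x i ≤ (S.b r : ℝ) + s * (S.c r : ℝ))
    (hx' : ∑ i, (S.A r i : ℝ) * x' i ≤ (S.b r : ℝ) + s' * (S.c r : ℝ)) :
    ∑ i, (S.A r i : ℝ) * (θ * x i + (1 - θ) * x' i) ≤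
      (S.b r : ℝ) + (θ * s + (1 - θ) * s') * (S.c r : ℝ) := by
  have e : ∑ i, (S.A r i : ℝ) * (θ * x i + (1 - θ) * x' i) =
      θ * ∑ i, (S.A r i : ℝ) * x i + (1 - θ) * ∑ i, (S.A r i : ℝ) * x' i := by
    rw [Finset.mul_sum, Finset.mul_sum, ← Finset.sum_add_distrib]
    exact Finset.sum_congr rfl fun i _ => by ring
  rw [e]
  have e1 := mul_le_mul_of_nonneg_left hx h0
  have e2 := mul_le_mul_of_nonneg_left hx' (by linarith : 0 ≤ 1 - θ)
  linarith

private theorem F1b_convex_lt {ι κ : Type} [Fintype ι] (S : Sys ι κ) {s s' θ : ℝ} (h0 : 0 < θ)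
    (h1 : θ ≤ 1) (x x' : ι → ℝ) (r : κ)
    (hx : ∑ i, (S.A r i : ℝ) * x i < (S.b r : ℝ) + s * (S.c r : ℝ))
    (hx' : ∑ i, (S.A r i : ℝ) * x' i ≤ (S.b r : ℝ) + s' * (S.c r : ℝ)) :
    ∑ i, (S.A r i : ℝ) * (θ * x i + (1 - θ) * x' i) <
      (S.b r : ℝ) + (θ * s + (1 - θ) * s') * (S.c r : ℝ) := by
  have e : ∑ i, (S.A r i : ℝ) * (θ * x i + (1 - θ) * x' i) =
      θ * ∑ i, (S.A r i : ℝ) * x i + (1 - θ) * ∑ i, (S.A r i : ℝ) * x' i := by
    rw [Finset.mul_sum, Finset.mul_sum, ← Finset.sum_add_distrib]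
    exact Finset.sum_congr rfl fun i _ => by ring
  rw [e]
  have e1 := mul_lt_mul_of_pos_left hx h0
  have e2 := mul_le_mul_of_nonneg_left hx' (by linarith : 0 ≤ 1 - θ)
  linarith

theorem exists_strict {ι κ : Type} [Fintype ι] [Finite κ] (S : Sys ι κ) {T : ℝ}
    (hT : 1 / 2 < T) (hne : ∀ s : ℝ, 1 - T ≤ s → s ≤ T → (S.P s).Nonempty) {s : ℝ}
    (hs0 : 1 - T < s) (hs1 : s < T) :
    ∃ x ∈ S.P s, ∀ r, (∃ s' : ℝ, 1 - T ≤ s' ∧ s' ≤ T ∧ ∃ x' ∈ S.P s',
        ∑ i, (S.A r i : ℝ) * x' i < (S.b r : ℝ) + s' * (S.c r : ℝ)) →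
      ∑ i, (S.A r i : ℝ) * x i < (S.b r : ℝ) + s * (S.c r : ℝ) := by
  classical
  have : Fintype κ := Fintype.ofFinite κ
  -- one row
  have hone : ∀ r, (∃ s' : ℝ, 1 - T ≤ s' ∧ s' ≤ T ∧ ∃ x' ∈ S.P s',
        ∑ i, (S.A r i : ℝ) * x' i < (S.b r : ℝ) + s' * (S.c r : ℝ)) →
      ∃ x ∈ S.P s, ∑ i, (S.A r i : ℝ) * x i < (S.b r : ℝ) + s * (S.c r : ℝ) := by
    rintro r ⟨s', h1, h2, x', hx', hlt⟩
    have key : ∀ (s'' θ : ℝ), 1 - T ≤ s'' → s'' ≤ T → 0 < θ → θ ≤ 1 →
        θ * s' + (1 - θ) * s'' = s →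
        ∃ x ∈ S.P s, ∑ i, (S.A r i : ℝ) * x i < (S.b r : ℝ) + s * (S.c r : ℝ) := by
      intro s'' θ h3 h4 h5 h6 h7
      obtain ⟨x'', hx''⟩ := hne s'' h3 h4
      refine ⟨fun i => θ * x' i + (1 - θ) * x'' i, ?_, ?_⟩
      · intro r'
        rw [← h7]
        exact F1b_convex S h5.le h6 x' x'' r' (hx' r') (hx'' r')
      · rw [← h7]
        exact F1b_convex_lt S h5 h6 x' x'' r hlt (hx'' r)
    rcases lt_trichotomy s' s with h | h | h
    · have hT' : 0 < T - s' := by linarith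
      refine key T ((T - s) / (T - s')) (by linarith) le_rfl (div_pos (by linarith) hT')
        ((div_le_one hT').2 (by linarith)) ?_
      field_simp
      ring
    · exact ⟨x', h ▸ hx', h ▸ hlt⟩
    · have hT' : 0 < s' - (1 - T) := by linarith
      refine key (1 - T) ((s - (1 - T)) / (s' - (1 - T))) le_rfl (by linarith)
        (div_pos (by linarith) hT') ((div_le_one hT').2 (by linarith)) ?_
      field_simp
      ring
  have hall : ∀ F : Finset κ, ∃ x ∈ S.P s, ∀ r ∈ F,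
      (∃ s' : ℝ, 1 - T ≤ s' ∧ s' ≤ T ∧ ∃ x' ∈ S.P s',
        ∑ i, (S.A r i : ℝ) * x' i < (S.b r : ℝ) + s' * (S.c r : ℝ)) →
      ∑ i, (S.A r i : ℝ) * x i < (S.b r : ℝ) + s * (S.c r : ℝ) := by
    intro F
    induction F using Finset.induction_on with
    | empty =>
      obtain ⟨x, hx⟩ := hne s hs0.le hs1.le
      exact ⟨x, hx, fun r hr => absurd hr (Finset.notMem_empty r)⟩
    | insert r F _ ih =>
      obtain ⟨x, hx, hxF⟩ := ih
      by_cases hr : ∃ s' : ℝ, 1 - T ≤ s' ∧ s' ≤ T ∧ ∃ x' ∈ S.P s',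
          ∑ i, (S.A r i : ℝ) * x' i < (S.b r : ℝ) + s' * (S.c r : ℝ)
      · obtain ⟨x', hx', hlt⟩ := hone r hr
        have e : (1 / 2 : ℝ) * s + (1 - 1 / 2) * s = s := by ring
        refine ⟨fun i => 1 / 2 * x' i + (1 - 1 / 2) * x i, ?_, ?_⟩
        · intro r'
          have := F1b_convex S (θ := 1 / 2) (s := s) (s' := s) (by norm_num) (by norm_num) x' x r'
            (hx' r') (hx r')
          rwa [e] at this
        · intro r' hr' hs'
          rcases Finset.mem_insert.1 hr' with h | h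
          · rw [h]
            have := F1b_convex_lt S (θ := 1 / 2) (s := s) (s' := s) (by norm_num) (by norm_num)
              x' x r hlt (hx r)
            rwa [e] at this
          · have h1 := hxF r' h hs'
            have := F1b_convex_lt S (θ := 1 / 2) (s := s) (s' := s) (by norm_num) (by norm_num)
              x x' r' h1 (hx' r')
            rw [e] at this
            have e2 : ∑ i, (S.A r' i : ℝ) * (1 / 2 * x' i + (1 - 1 / 2) * x i) =
                ∑ i, (S.A r' i : ℝ) * (1 / 2 * x i + (1 - 1 / 2) * x' i) :=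
              Finset.sum_congr rfl fun i _ => by ring
            rw [e2]
            exact this
      · refine ⟨x, hx, fun r' hr' hs' => ?_⟩
        rcases Finset.mem_insert.1 hr' with h | h
        · exact absurd (h ▸ hs') hr
        · exact hxF r' h hs'
  obtain ⟨x, hx, h⟩ := hall Finset.univ
  exact ⟨x, hx, fun r hr => h r (Finset.mem_univ r) hr⟩

end H73TR
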