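import Mathlib

/-!
# R1 (M): rational solutions near real solutions

Let `W` be the `ℚ`-span of `1` and the `x i` in `ℝ` (finite-dimensional); choose a `ℚ`-basis
`θ_0 = 1, θ_1, …, θ_m` of `W` and write `x i = ∑_k q_(i,k) θ_k`.  In the equation
`∑_i A_(r,i) x_i = β_r · 1` compare coefficients: `∑_i A_(r,i) q_(i,k) = 0` for `k ≥ 1`,
`= β_r` for `k = 0`.  So for ALL real `t_1, …, t_m` the vector `y i = q_(i,0) + ∑_(k≥1) q_(i,k) t_k`
is a solution; take `t_k` rational and close to `θ_k`.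
(Basis containing `1`: extend the linearly independent family `{1}`, or argue with a linear
`ℚ`-retraction `W → ℚ`; alternatively: induction / Gauss elimination.)
-/

namespace H73TR

open Finset

theorem rat_approx {ι κ : Type} [Fintype ι] [Finite κ] (A : κ → ι → ℤ) (β : κ → ℚ) (x : ι → ℝ)
    (hx : ∀ r, ∑ i, (A r i : ℝ) * x i = (β r : ℝ)) {ε : ℝ} (hε : 0 < ε) :
    ∃ y : ι → ℚ, (∀ r, ∑ i, (A r i : ℚ) * y i = β r) ∧ ∀ i, |x i - (y i : ℝ)| < ε := by
  classical
  let g : Option ι → ℝ := fun o => o.elim 1 x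
  let W : Submodule ℚ ℝ := Submodule.span ℚ (Set.range g)
  have : FiniteDimensional ℚ W := FiniteDimensional.span_of_finite ℚ (Set.finite_range g)
  let b := Module.finBasis ℚ W
  have h1 : (1 : ℝ) ∈ W := Submodule.subset_span ⟨none, rfl⟩
  have hxi : ∀ i, x i ∈ W := fun i => Submodule.subset_span ⟨some i, rfl⟩
  let o : W := ⟨1, h1⟩
  let X : ι → W := fun i => ⟨x i, hxi i⟩
  have hexp : ∀ w : W, ∑ k, ((b.repr w k : ℚ) : ℝ) * ((b k : W) : ℝ) = (w : ℝ) := by
    intro w
    have h2 := congrArg (W.subtype) (b.sum_repr w)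
    rw [map_sum] at h2
    rw [← W.subtype_apply w, ← h2]
    refine Finset.sum_congr rfl fun k _ => ?_
    rw [map_smul, Rat.smul_def]
    rfl
  let θ : Fin (Module.finrank ℚ W) → ℝ := fun k => ((b k : W) : ℝ)
  let F : W → (Fin (Module.finrank ℚ W) → ℝ) → ℝ := fun w t =>
    ∑ k, ((b.repr w k : ℚ) : ℝ) * t k
  have hFc : ∀ w, Continuous (F w) := fun w =>
    continuous_finsetSum _ fun k _ => continuous_const.mul (continuous_apply k)
  have hF1 : F o θ = 1 := hexp o
  have hFx : ∀ i, F (X i) θ = x i := fun i => hexp (X i)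
  have hev : ∀ᶠ t in nhds θ, F o t ≠ 0 ∧ ∀ i, |x i - F (X i) t / F o t| < ε := by
    refine Filter.Eventually.and ?_ ?_
    · exact (hFc o).continuousAt.eventually_ne (by rw [hF1]; exact one_ne_zero)
    · rw [Filter.eventually_all]
      intro i
      have hc : Filter.Tendsto (fun t => |x i - F (X i) t / F o t|) (nhds θ)
          (nhds |x i - F (X i) θ / F o θ|) :=
        (tendsto_const_nhds.sub (((hFc (X i)).tendsto θ).div ((hFc o).tendsto θ)
          (by rw [hF1]; exact one_ne_zero))).abs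
      rw [hF1, hFx, div_one, sub_self, abs_zero] at hc
      exact hc.eventually_lt_const hε
  have hdense : DenseRange (Pi.map (fun (_ : Fin (Module.finrank ℚ W)) (q : ℚ) => (q : ℝ))) :=
    DenseRange.piMap fun _ => Rat.denseRange_cast
  obtain ⟨t, ht1, ht2⟩ := hdense.mem_nhds hev
  let φ : W →ₗ[ℚ] ℚ := b.constr ℚ t
  have hφ : ∀ w : W, ((φ w : ℚ) : ℝ) = F w (Pi.map (fun _ (q : ℚ) => (q : ℝ)) t) := by
    intro w
    show (((b.constr ℚ t) w : ℚ) : ℝ) = _
    rw [Module.Basis.constr_apply_fintype]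
    simp only [Module.Basis.equivFun_apply, smul_eq_mul, Rat.cast_sum, Rat.cast_mul, F, Pi.map_apply]
  have hφo : φ o ≠ 0 := by
    intro h0
    apply ht1
    rw [← hφ o, h0, Rat.cast_zero]
  refine ⟨fun i => φ (X i) / φ o, fun r => ?_, fun i => ?_⟩
  · have h3 : ∑ i, (A r i : ℚ) • X i = (β r : ℚ) • o := by
      apply Subtype.ext
      have h4 := hx r
      simp only [Submodule.coe_sum, Submodule.coe_smul, Rat.smul_def, X, o, mul_one, Rat.cast_intCast]
      exact h4
    have h5 := congrArg φ h3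
    rw [map_sum, map_smul] at h5
    simp only [map_smul, smul_eq_mul] at h5
    have h6 : ∑ i, (A r i : ℚ) * (φ (X i) / φ o) = (∑ i, (A r i : ℚ) * φ (X i)) / φ o := by
      rw [Finset.sum_div]
      exact Finset.sum_congr rfl fun i _ => by rw [mul_div_assoc]
    rw [h6, h5, mul_div_assoc, div_self hφo, mul_one]
  · have h7 := ht2 i
    rw [← hφ, ← hφ, ← Rat.cast_div] at h7
    exact h7

end H73TR
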