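import Pool.Agent.Lib.H73TR.Defs3
import Pool.Agent.Lib.H73TR.R1

/-!
# F1c (S/M): a rational affine section of the implicit equalities

Let `I` be a set of rows which are tight at all points of all `P(s)`, `1 - T ≤ s ≤ T`.  Take
`x' ∈ P(1-T)`, `x'' ∈ P(T)`; the real vectors `p1 = (x'' - x') / (2T - 1)`, `p0 = x' - (1-T) p1`
satisfy `A_r p0 = b_r`, `A_r p1 = c_r` for `r ∈ I` (solve the two equations).  By `rat_approx`
there are rational solutions `p0`, `p1` (two separate systems with rows `r ∈ I`).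
-/

namespace H73TR

open Finset

theorem exists_section {ι κ : Type} [Fintype ι] [Finite κ] (S : Sys ι κ) {T : ℝ}
    (hT : 1 / 2 < T) (hne : ∀ s : ℝ, 1 - T ≤ s → s ≤ T → (S.P s).Nonempty) (I : Set κ)
    (hI : ∀ r ∈ I, ∀ s : ℝ, 1 - T ≤ s → s ≤ T → ∀ x ∈ S.P s,
      ∑ i, (S.A r i : ℝ) * x i = (S.b r : ℝ) + s * (S.c r : ℝ)) :
    ∃ p0 p1 : ι → ℚ, (∀ r ∈ I, ∑ i, (S.A r i : ℚ) * p0 i = S.b r) ∧
      ∀ r ∈ I, ∑ i, (S.A r i : ℚ) * p1 i = S.c r := by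
  have hT2 : (0 : ℝ) < 2 * T - 1 := by linarith
  obtain ⟨x', hx'⟩ := hne (1 - T) le_rfl (by linarith)
  obtain ⟨x'', hx''⟩ := hne T (by linarith) le_rfl
  have e' : ∀ r ∈ I, ∑ i, (S.A r i : ℝ) * x' i = (S.b r : ℝ) + (1 - T) * (S.c r : ℝ) :=
    fun r hr => hI r hr (1 - T) le_rfl (by linarith) x' hx'
  have e'' : ∀ r ∈ I, ∑ i, (S.A r i : ℝ) * x'' i = (S.b r : ℝ) + T * (S.c r : ℝ) :=
    fun r hr => hI r hr T (by linarith) le_rfl x'' hx''
  have h1 : ∀ r ∈ I, ∑ i, (S.A r i : ℝ) * ((x'' i - x' i) / (2 * T - 1)) = (S.c r : ℝ) := by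
    intro r hr
    have h : ∑ i, (S.A r i : ℝ) * ((x'' i - x' i) / (2 * T - 1)) =
        (∑ i, (S.A r i : ℝ) * x'' i - ∑ i, (S.A r i : ℝ) * x' i) / (2 * T - 1) := by
      rw [← Finset.sum_sub_distrib, Finset.sum_div]
      exact Finset.sum_congr rfl (fun i _ => by ring)
    rw [h, e' r hr, e'' r hr, div_eq_iff hT2.ne']
    ring
  have h0 : ∀ r ∈ I, ∑ i, (S.A r i : ℝ) * (x' i - (1 - T) * ((x'' i - x' i) / (2 * T - 1))) =
      (S.b r : ℝ) := by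
    intro r hr
    have h : ∑ i, (S.A r i : ℝ) * (x' i - (1 - T) * ((x'' i - x' i) / (2 * T - 1))) =
        ∑ i, (S.A r i : ℝ) * x' i -
          (1 - T) * ∑ i, (S.A r i : ℝ) * ((x'' i - x' i) / (2 * T - 1)) := by
      rw [Finset.mul_sum, ← Finset.sum_sub_distrib]
      exact Finset.sum_congr rfl (fun i _ => by ring)
    rw [h, e' r hr, h1 r hr]
    ring
  obtain ⟨p0, hp0, -⟩ := rat_approx (fun r : I => S.A (r : κ)) (fun r : I => S.b (r : κ)) _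
    (fun r => h0 (r : κ) r.2) one_pos
  obtain ⟨p1, hp1, -⟩ := rat_approx (fun r : I => S.A (r : κ)) (fun r : I => S.c (r : κ)) _
    (fun r => h1 (r : κ) r.2) one_pos
  exact ⟨p0, p1, fun r hr => hp0 ⟨r, hr⟩, fun r hr => hp1 ⟨r, hr⟩⟩

end H73TR
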