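import Pool.Agent.Lib.H73TR.F1a
import Pool.Agent.Lib.H73TR.F1b
import Pool.Agent.Lib.H73TR.F1c

/-!
# F1d (M/L): reduction to full-dimensional slices

Let `I` be the set of rows which are tight at all points of all `P(s)`, `1-T ≤ s ≤ T`; `e` from
`kernel_basis` for the rows in `I`; `p0, p1` from `exists_section`; `N ≥ 1` a common denominator
of the entries of `p0`, `p1`.  Define `S'.A r j = ∑_i A_(r,i) e_j(i)`,
`S'.b r = b_r - A_r p0`, `S'.c r = c_r - A_r p1`.
slice: if `x = p0 + s p1 + ∑ y_j e_j` then `A_r x = A_r p0 + s A_r p1 + (S'.A r)·y`, so `x ∈ P(s)` iff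
`y ∈ P'(s)`; and every `x ∈ P(s)` has this form: `A_r (x - p0 - s p1) = 0` for `r ∈ I`, so
`kernel_basis` applies.
interior: for `1-T < s < T` let `x ∈ P(s)` be strict in all rows not in `I` (`exists_strict`), `y`
its coordinates; the rows in `I` of `S'` are `0 ≤ 0`, all others are strict at `y`, so a
neighbourhood of `y` is in `P'(s)`.
count: `k p0 + j p1` is an integer vector if `N` divides `k` and `j`; the integer solutions `x` of
`A x ≤ k b + j c` satisfy `x / k ∈ P(j/k)`, `1-T ≤ j/k ≤ T`, so `x - k p0 - j p1` is an integer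
vector killed by the rows in `I`, so equal to `∑ y_j e_j` with `y ∈ ℤ^d` unique; this is a
bijection with the integer points counted by `S'.L k j`.
bdd: `y ↦ ∑ y_j e_j` is an injective linear map of finite-dimensional spaces, so `‖y‖` is bounded by
a constant times `‖∑ y_j e_j‖`, which is bounded by `bdd` of `S` and `p0`, `p1`.
-/

namespace H73TR

open Finset

private theorem F1d_ident {R : Type*} [CommRing R] {ι : Type} [Fintype ι] {d : ℕ}
    (A p0 p1 : ι → R) (e : Fin d → ι → R) (s : R) (y : Fin d → R) :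
    ∑ i, A i * (p0 i + s * p1 i + ∑ j, y j * e j i) =
      ∑ i, A i * p0 i + s * ∑ i, A i * p1 i + ∑ j, (∑ i, A i * e j i) * y j := by
  have h1 : ∑ i, A i * ∑ j, y j * e j i = ∑ j, (∑ i, A i * e j i) * y j := by
    simp_rw [Finset.mul_sum, Finset.sum_mul]
    rw [Finset.sum_comm]
    exact sum_congr rfl fun j _ => sum_congr rfl fun i _ => by ring
  have h2 : ∑ i, A i * (s * p1 i) = s * ∑ i, A i * p1 i := by
    rw [Finset.mul_sum]
    exact sum_congr rfl fun i _ => by ring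
  simp_rw [mul_add, Finset.sum_add_distrib]
  rw [h1, h2]

private theorem F1d_den (q : ℚ) (N k : ℤ) (h : (q.den : ℤ) ∣ N) (hk : N ∣ k) :
    ∃ z : ℤ, (z : ℚ) = k * q := by
  obtain ⟨m, hm⟩ := h.trans hk
  refine ⟨m * q.num, ?_⟩
  rw [hm]
  push_cast
  have h1 : (q.den : ℚ) * q = q.num := Rat.den_mul_eq_num q
  calc (m : ℚ) * q.num = m * (q.den * q) := by rw [h1]
    _ = q.den * m * q := by ring

theorem exists_reduced {ι κ : Type} [Fintype ι] [Finite κ] (S : Sys ι κ) {q : ℕ} (hS : S.Nice q)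
    {T : ℚ} (hT : 1 / 2 < T)
    (hne : ∀ s : ℝ, 1 - (T : ℝ) ≤ s → s ≤ (T : ℝ) → (S.P s).Nonempty) :
    ∃ (d N : ℕ) (S' : Sys (Fin d) κ) (p0 p1 : ι → ℚ) (e : Fin d → ι → ℤ),
      Reduced S T d N S' p0 p1 e := by
  have hT' : (1 : ℝ) / 2 < (T : ℝ) := by
    have h : (((1 : ℚ) / 2 : ℚ) : ℝ) < (T : ℝ) := by exact_mod_cast hT
    push_cast at h
    exact h
  set I : Set κ := {r | ∀ s : ℝ, 1 - (T : ℝ) ≤ s → s ≤ (T : ℝ) → ∀ x ∈ S.P s,
      ∑ i, (S.A r i : ℝ) * x i = (S.b r : ℝ) + s * (S.c r : ℝ)} with hIdef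
  obtain ⟨p0, p1, hp0, hp1⟩ := exists_section S hT' hne I (fun r hr => hr)
  obtain ⟨d, e, einj, eint, ereal⟩ := kernel_basis (fun r : I => S.A r.1)
  -- real versions of the equations for `p0`, `p1`
  have hp0r : ∀ r ∈ I, ∑ i, (S.A r i : ℝ) * (p0 i : ℝ) = (S.b r : ℝ) := by
    intro r hr
    exact_mod_cast hp0 r hr
  have hp1r : ∀ r ∈ I, ∑ i, (S.A r i : ℝ) * (p1 i : ℝ) = (S.c r : ℝ) := by
    intro r hr
    exact_mod_cast hp1 r hr
  -- the vectors `e j` are in the kernel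
  have heker : ∀ r ∈ I, ∀ j, ∑ i, S.A r i * e j i = 0 := by
    intro r hr j
    refine (eint (e j)).2 ⟨Pi.single j 1, fun i => ?_⟩ ⟨r, hr⟩
    rw [Finset.sum_eq_single j]
    · simp
    · intro b _ hb
      simp [hb]
    · intro h
      exact absurd (mem_univ j) h
  set S' : Sys (Fin d) κ :=
    { A := fun r j => ∑ i, S.A r i * e j i
      b := fun r => S.b r - ∑ i, (S.A r i : ℚ) * p0 i
      c := fun r => S.c r - ∑ i, (S.A r i : ℚ) * p1 i } with hS'
  have hA' : ∀ r j, (S'.A r j : ℝ) = ∑ i, (S.A r i : ℝ) * (e j i : ℝ) := by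
    intro r j
    simp [hS']
  have hb' : ∀ r, (S'.b r : ℝ) = (S.b r : ℝ) - ∑ i, (S.A r i : ℝ) * (p0 i : ℝ) := by
    intro r
    simp [hS']
  have hc' : ∀ r, (S'.c r : ℝ) = (S.c r : ℝ) - ∑ i, (S.A r i : ℝ) * (p1 i : ℝ) := by
    intro r
    simp [hS']
  -- the key identity
  have key : ∀ (r : κ) (s : ℝ) (y : Fin d → ℝ) (x : ι → ℝ),
      (∀ i, x i = (p0 i : ℝ) + s * (p1 i : ℝ) + ∑ j, y j * (e j i : ℝ)) →
      ((S.b r : ℝ) + s * (S.c r : ℝ)) - ∑ i, (S.A r i : ℝ) * x i =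
        ((S'.b r : ℝ) + s * (S'.c r : ℝ)) - ∑ j, (S'.A r j : ℝ) * y j := by
    intro r s y x hx
    have h1 : ∑ i, (S.A r i : ℝ) * x i = ∑ i, (S.A r i : ℝ) * (p0 i : ℝ) +
        s * ∑ i, (S.A r i : ℝ) * (p1 i : ℝ) + ∑ j, (S'.A r j : ℝ) * y j := by
      rw [Finset.sum_congr rfl fun i _ => by rw [hx i], F1d_ident]
      congr 1
      exact sum_congr rfl fun j _ => by rw [hA']
    rw [h1, hb', hc']
    ring
  -- coordinates
  have coord : ∀ s : ℝ, 1 - (T : ℝ) ≤ s → s ≤ (T : ℝ) → ∀ x ∈ S.P s,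
      ∃ y : Fin d → ℝ, ∀ i, x i = (p0 i : ℝ) + s * (p1 i : ℝ) + ∑ j, y j * (e j i : ℝ) := by
    intro s h0 h1 x hx
    obtain ⟨y, hy⟩ := (ereal (fun i => x i - p0 i - s * p1 i)).1 (by
      rintro ⟨r, hr⟩
      have h2 := hr s h0 h1 x hx
      have h3 := hp0r r hr
      have h4 := hp1r r hr
      show ∑ i, (S.A r i : ℝ) * (x i - p0 i - s * p1 i) = 0
      have h5 : ∑ i, (S.A r i : ℝ) * (x i - p0 i - s * p1 i) =
          ∑ i, (S.A r i : ℝ) * x i - ∑ i, (S.A r i : ℝ) * (p0 i : ℝ) -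
            s * ∑ i, (S.A r i : ℝ) * (p1 i : ℝ) := by
        rw [Finset.mul_sum, ← Finset.sum_sub_distrib, ← Finset.sum_sub_distrib]
        exact sum_congr rfl fun i _ => by ring
      rw [h5, h2, h3, h4]
      ring)
    refine ⟨y, fun i => ?_⟩
    rw [← hy i]
    ring
  have hslice : ∀ s : ℝ, 1 - (T : ℝ) ≤ s → s ≤ (T : ℝ) → ∀ x : ι → ℝ, x ∈ S.P s ↔
      ∃ y ∈ S'.P s, ∀ i, x i = (p0 i : ℝ) + s * (p1 i : ℝ) + ∑ j, y j * (e j i : ℝ) := by
    intro s h0 h1 x
    constructor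
    · intro hx
      obtain ⟨y, hy⟩ := coord s h0 h1 x hx
      refine ⟨y, fun r => ?_, hy⟩
      have h2 := key r s y x hy
      have h3 := hx r
      linarith
    · rintro ⟨y, hyP, hy⟩ r
      have h2 := key r s y x hy
      have h3 := hyP r
      linarith
  -- denominators
  set N : ℕ := (∏ i, (p0 i).den) * ∏ i, (p1 i).den with hN
  have hNpos : 1 ≤ N := by
    rw [hN]
    exact Nat.mul_pos (Finset.prod_pos fun i _ => (p0 i).den_pos)
      (Finset.prod_pos fun i _ => (p1 i).den_pos)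
  have hN0 : ∀ i, ((p0 i).den : ℤ) ∣ (N : ℤ) := by
    intro i
    rw [hN]
    exact Int.natCast_dvd_natCast.2
      ((Finset.dvd_prod_of_mem (fun i => (p0 i).den) (mem_univ i)).mul_right _)
  have hN1 : ∀ i, ((p1 i).den : ℤ) ∣ (N : ℤ) := by
    intro i
    rw [hN]
    exact Int.natCast_dvd_natCast.2
      ((Finset.dvd_prod_of_mem (fun i => (p1 i).den) (mem_univ i)).mul_left _)
  refine ⟨d, N, S', p0, p1, e, ?_⟩
  refine { N_pos := hNpos, inj := einj, slice := hslice, interior := ?_, count := ?_, bdd := ?_ }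
  · intro s h0 h1
    obtain ⟨x, hx, hxs⟩ := exists_strict S hT' hne h0 h1
    obtain ⟨y, hy⟩ := coord s h0.le h1.le x hx
    refine ⟨y, ?_⟩
    have hopen : IsOpen {y' : Fin d → ℝ | ∀ r : κ, r ∉ I →
        ∑ j, (S'.A r j : ℝ) * y' j < (S'.b r : ℝ) + s * (S'.c r : ℝ)} := by
      simp only [Set.ofPred_forall]
      refine isOpen_iInter_of_finite fun r => ?_
      by_cases hr : r ∉ I
      · simp only [hr, not_false_eq_true, Set.iInter_true]
        exact isOpen_lt (by fun_prop) continuous_const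
      · simp [hr]
    refine mem_interior.2 ⟨_, ?_, hopen, ?_⟩
    · intro y' hy' r
      by_cases hr : r ∈ I
      · have h2 : ∀ j, (S'.A r j : ℝ) = 0 := by
          intro j
          have h3 := heker r hr j
          show ((∑ i, S.A r i * e j i : ℤ) : ℝ) = 0
          rw [h3]
          simp
        have h4 : (S'.b r : ℝ) = 0 := by rw [hb', hp0r r hr, sub_self]
        have h5 : (S'.c r : ℝ) = 0 := by rw [hc', hp1r r hr, sub_self]
        rw [h4, h5]
        simp [h2]
      · exact (hy' r hr).le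
    · intro r hr
      have h2 : ∃ s' : ℝ, 1 - (T : ℝ) ≤ s' ∧ s' ≤ (T : ℝ) ∧ ∃ x' ∈ S.P s',
          ∑ i, (S.A r i : ℝ) * x' i < (S.b r : ℝ) + s' * (S.c r : ℝ) := by
        rw [hIdef, Set.mem_ofPred_eq] at hr
        push Not at hr
        obtain ⟨s', h3, h4, x', h5, h6⟩ := hr
        exact ⟨s', h3, h4, x', h5, lt_of_le_of_ne (h5 r) h6⟩
      have h3 := hxs r h2
      have h4 := key r s y x hy
      linarith
  · intro k j hk hNk hNj h0 h1
    have hkq : (0 : ℚ) < (k : ℚ) := by exact_mod_cast hk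
    have hkr : (0 : ℝ) < (k : ℝ) := by exact_mod_cast hk
    have hNk' : (N : ℤ) ∣ (k : ℤ) := Int.natCast_dvd_natCast.2 hNk
    choose P0 hP0 using fun i => F1d_den (p0 i) N k (hN0 i) hNk'
    choose P1 hP1 using fun i => F1d_den (p1 i) N j (hN1 i) hNj
    -- the identity over the rationals
    have keyq : ∀ (r : κ) (y : Fin d → ℤ) (x : ι → ℤ),
        (∀ i, x i = P0 i + P1 i + ∑ j, y j * e j i) →
        ((k : ℚ) * S.b r + (j : ℚ) * S.c r) - ((∑ i, S.A r i * x i : ℤ) : ℚ) =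
          ((k : ℚ) * S'.b r + (j : ℚ) * S'.c r) - ((∑ j, S'.A r j * y j : ℤ) : ℚ) := by
      intro r y x hx
      have h2 : (∑ i, S.A r i * x i : ℤ) = ∑ i, S.A r i * P0 i + ∑ i, S.A r i * P1 i +
          ∑ j, S'.A r j * y j := by
        have h3 := F1d_ident (R := ℤ) (S.A r) P0 P1 e 1 y
        simp only [one_mul] at h3
        rw [Finset.sum_congr rfl fun i _ => by rw [hx i], h3]
      rw [h2]
      push_cast
      have h4 : ∑ i, (S.A r i : ℚ) * (P0 i : ℚ) = (k : ℚ) * ∑ i, (S.A r i : ℚ) * p0 i := by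
        rw [Finset.mul_sum]
        refine sum_congr rfl fun i _ => ?_
        rw [hP0 i]
        push_cast
        ring
      have h5 : ∑ i, (S.A r i : ℚ) * (P1 i : ℚ) = (j : ℚ) * ∑ i, (S.A r i : ℚ) * p1 i := by
        rw [Finset.mul_sum]
        refine sum_congr rfl fun i _ => ?_
        rw [hP1 i]
        ring
      rw [h4, h5]
      show _ = ((k : ℚ) * (S.b r - ∑ i, (S.A r i : ℚ) * p0 i) +
        (j : ℚ) * (S.c r - ∑ i, (S.A r i : ℚ) * p1 i)) - _
      ring
    refine (Nat.card_eq_of_bijective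
      (fun y : {y : Fin d → ℤ // ∀ r, ((∑ j, S'.A r j * y j : ℤ) : ℚ) ≤
          (k : ℚ) * S'.b r + (j : ℚ) * S'.c r} =>
        (⟨fun i => P0 i + P1 i + ∑ j, y.1 j * e j i, fun r => by
          have h2 := keyq r y.1 (fun i => P0 i + P1 i + ∑ j, y.1 j * e j i) (fun i => rfl)
          have h3 := y.2 r
          linarith⟩ : {x : ι → ℤ // ∀ r, ((∑ i, S.A r i * x i : ℤ) : ℚ) ≤
            (k : ℚ) * S.b r + (j : ℚ) * S.c r})) ⟨?_, ?_⟩).symm
    · intro y y' hyy
      have h2 : ∀ i, P0 i + P1 i + ∑ j, y.1 j * e j i = P0 i + P1 i + ∑ j, y'.1 j * e j i :=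
        fun i => congrFun (Subtype.ext_iff.1 hyy) i
      have h3 : (fun j => ((y.1 j - y'.1 j : ℤ) : ℝ)) = 0 := by
        refine einj _ fun i => ?_
        have h4 : ∑ j, (y.1 j - y'.1 j) * e j i = 0 := by
          have h5 := h2 i
          simp_rw [sub_mul]
          rw [Finset.sum_sub_distrib]
          linarith
        exact_mod_cast h4
      refine Subtype.ext (funext fun j => ?_)
      have h4 : ((y.1 j - y'.1 j : ℤ) : ℝ) = 0 := congrFun h3 j
      have h5 : (y.1 j - y'.1 j : ℤ) = 0 := by exact_mod_cast h4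
      linarith
    · rintro ⟨x, hx⟩
      have hs0 : 1 - (T : ℝ) ≤ (j : ℝ) / (k : ℝ) := by
        rw [le_div_iff₀ hkr]
        exact_mod_cast h0
      have hs1 : (j : ℝ) / (k : ℝ) ≤ (T : ℝ) := by
        rw [div_le_iff₀ hkr]
        exact_mod_cast h1
      have hxr : ∀ r, ∑ i, (S.A r i : ℝ) * (x i : ℝ) ≤
          (k : ℝ) * (S.b r : ℝ) + (j : ℝ) * (S.c r : ℝ) := by
        intro r
        exact_mod_cast hx r
      have hscale : ∀ r, ∑ i, (S.A r i : ℝ) * ((x i : ℝ) / (k : ℝ)) =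
          (∑ i, (S.A r i : ℝ) * (x i : ℝ)) / (k : ℝ) := by
        intro r
        rw [Finset.sum_div]
        exact sum_congr rfl fun i _ => by ring
      have hz : (fun i => (x i : ℝ) / (k : ℝ)) ∈ S.P ((j : ℝ) / (k : ℝ)) := by
        intro r
        show ∑ i, (S.A r i : ℝ) * ((x i : ℝ) / (k : ℝ)) ≤ _
        rw [hscale, div_le_iff₀ hkr]
        have h2 := hxr r
        have h3 : ((S.b r : ℝ) + (j : ℝ) / (k : ℝ) * (S.c r : ℝ)) * (k : ℝ) =
            (k : ℝ) * (S.b r : ℝ) + (j : ℝ) * (S.c r : ℝ) := by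
          field_simp
        rw [h3]
        exact h2
      obtain ⟨y, hy⟩ := (eint (fun i => x i - P0 i - P1 i)).1 (by
        rintro ⟨r, hr⟩
        show ∑ i, S.A r i * (x i - P0 i - P1 i) = 0
        have h2 := hr _ hs0 hs1 _ hz
        rw [hscale, div_eq_iff hkr.ne'] at h2
        have h3 : ((S.b r : ℝ) + (j : ℝ) / (k : ℝ) * (S.c r : ℝ)) * (k : ℝ) =
            (k : ℝ) * (S.b r : ℝ) + (j : ℝ) * (S.c r : ℝ) := by
          field_simp
        rw [h3] at h2
        have h4 : ((∑ i, S.A r i * x i : ℤ) : ℚ) = (k : ℚ) * S.b r + (j : ℚ) * S.c r := by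
          exact_mod_cast h2
        have h5 : ((∑ i, S.A r i * P0 i : ℤ) : ℚ) = (k : ℚ) * S.b r := by
          rw [← hp0 r hr, Finset.mul_sum]
          push_cast
          refine sum_congr rfl fun i _ => ?_
          rw [hP0 i]
          push_cast
          ring
        have h6 : ((∑ i, S.A r i * P1 i : ℤ) : ℚ) = (j : ℚ) * S.c r := by
          rw [← hp1 r hr, Finset.mul_sum]
          push_cast
          refine sum_congr rfl fun i _ => ?_
          rw [hP1 i]
          ring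
        have h7 : ∑ i, S.A r i * (x i - P0 i - P1 i) =
            ∑ i, S.A r i * x i - ∑ i, S.A r i * P0 i - ∑ i, S.A r i * P1 i := by
          rw [← Finset.sum_sub_distrib, ← Finset.sum_sub_distrib]
          exact sum_congr rfl fun i _ => by ring
        have h8 : ((∑ i, S.A r i * (x i - P0 i - P1 i) : ℤ) : ℚ) = 0 := by
          rw [h7, Int.cast_sub, Int.cast_sub, h4, h5, h6]
          ring
        exact_mod_cast h8)
      have hxy : ∀ i, x i = P0 i + P1 i + ∑ j, y j * e j i := by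
        intro i
        have h2 := hy i
        linarith
      refine ⟨⟨y, fun r => ?_⟩, Subtype.ext (funext fun i => (hxy i).symm)⟩
      have h2 := keyq r y x hxy
      have h3 := hx r
      linarith
  · obtain ⟨R, hR⟩ := hS.bdd
    -- the linear map
    set L : (Fin d → ℝ) →ₗ[ℝ] (ι → ℝ) :=
      { toFun := fun y i => ∑ j, y j * (e j i : ℝ)
        map_add' := by
          intro y z
          funext i
          simp [add_mul, Finset.sum_add_distrib]
        map_smul' := by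
          intro t y
          funext i
          simp [Finset.mul_sum, mul_assoc] } with hL
    have hker : LinearMap.ker L = ⊥ := by
      rw [LinearMap.ker_eq_bot']
      intro y hy
      exact einj y fun i => congrFun hy i
    obtain ⟨K, -, hK⟩ := L.exists_antilipschitzWith hker
    set B : ℝ := |R| + ∑ i, |(p0 i : ℝ)| + ∑ i, |(p1 i : ℝ)| with hB
    have hB0 : 0 ≤ B := by
      rw [hB]
      exact add_nonneg (add_nonneg (abs_nonneg _) (Finset.sum_nonneg fun i _ => abs_nonneg _))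
        (Finset.sum_nonneg fun i _ => abs_nonneg _)
    refine ⟨K * B, fun s h0 h1 y hy i => ?_⟩
    have hx := (hslice s h0 h1 (fun i => (p0 i : ℝ) + s * (p1 i : ℝ) +
      ∑ j, y j * (e j i : ℝ))).2 ⟨y, hy, fun i => rfl⟩
    obtain ⟨hs0, hs1, hxb⟩ := hR s _ hx
    have h2 : ‖L y‖ ≤ B := by
      refine (pi_norm_le_iff_of_nonneg hB0).2 fun i => ?_
      have h3 := hxb i
      have h4 : |(p0 i : ℝ)| ≤ ∑ i, |(p0 i : ℝ)| :=
        Finset.single_le_sum (f := fun i => |(p0 i : ℝ)|) (fun i _ => abs_nonneg _) (mem_univ i)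
      have h5 : |(p1 i : ℝ)| ≤ ∑ i, |(p1 i : ℝ)| :=
        Finset.single_le_sum (f := fun i => |(p1 i : ℝ)|) (fun i _ => abs_nonneg _) (mem_univ i)
      have h6 : |s * (p1 i : ℝ)| ≤ |(p1 i : ℝ)| := by
        rw [abs_mul, abs_of_nonneg hs0]
        exact mul_le_of_le_one_left (abs_nonneg _) hs1
      have h7 : L y i = ((p0 i : ℝ) + s * (p1 i : ℝ) + ∑ j, y j * (e j i : ℝ)) -
          (p0 i : ℝ) - s * (p1 i : ℝ) := by
        show ∑ j, y j * (e j i : ℝ) = _
        ring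
      rw [Real.norm_eq_abs, h7]
      have h8 := abs_sub (((p0 i : ℝ) + s * (p1 i : ℝ) + ∑ j, y j * (e j i : ℝ)) -
          (p0 i : ℝ)) (s * (p1 i : ℝ))
      have h9 := abs_sub ((p0 i : ℝ) + s * (p1 i : ℝ) + ∑ j, y j * (e j i : ℝ)) (p0 i : ℝ)
      have h10 := le_abs_self R
      rw [hB]
      linarith
    have h3 : ‖y‖ ≤ K * ‖L y‖ := by
      have h4 := hK.le_mul_dist y 0
      rw [map_zero, dist_zero_right, dist_zero_right] at h4
      exact h4
    calc |y i| = ‖y i‖ := (Real.norm_eq_abs _).symm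
      _ ≤ ‖y‖ := norm_le_pi_norm y i
      _ ≤ K * ‖L y‖ := h3
      _ ≤ K * B := mul_le_mul_of_nonneg_left h2 K.2

end H73TR
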