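import Pool.Agent.Lib.H73TR.Defs3

/-!
# F2 (M): lattice points and volume

For `k = m M`, `j = m j₀`, `s = j₀ / M`: an integer vector `x` satisfies `A x ≤ k b + j c` iff
`x / k ∈ P(s)`.  `P(s)` is bounded, closed and convex, so its frontier is a null set
(`Convex.addHaar_frontier`), and the number of points of `k⁻¹ ℤ^d` in `P(s)` divided by `k^d` tends to
its volume (Mathlib: `tendsto_card_div_pow_atTop_volume` in `Analysis/BoxIntegral/UnitPartition`,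
or `ZLattice.covolume.tendsto_card_div_pow`), along `k = m M`.
-/

namespace H73TR

open MeasureTheory Filter Topology

private theorem F2_convex {d : ℕ} {κ : Type} (S : Sys (Fin d) κ) (s : ℝ) : Convex ℝ (S.P s) := by
  intro x hx y hy a b ha hb hab r
  have h1 := hx r
  have h2 := hy r
  have h3 : ∑ i, (S.A r i : ℝ) * (a • x + b • y) i =
      a * (∑ i, (S.A r i : ℝ) * x i) + b * (∑ i, (S.A r i : ℝ) * y i) := by
    rw [Finset.mul_sum, Finset.mul_sum, ← Finset.sum_add_distrib]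
    refine Finset.sum_congr rfl fun i _ => ?_
    simp only [Pi.add_apply, Pi.smul_apply, smul_eq_mul]
    ring
  rw [h3]
  calc a * (∑ i, (S.A r i : ℝ) * x i) + b * (∑ i, (S.A r i : ℝ) * y i)
      ≤ a * ((S.b r : ℝ) + s * (S.c r : ℝ)) + b * ((S.b r : ℝ) + s * (S.c r : ℝ)) :=
        add_le_add (mul_le_mul_of_nonneg_left h1 ha) (mul_le_mul_of_nonneg_left h2 hb)
    _ = (S.b r : ℝ) + s * (S.c r : ℝ) := by rw [← add_mul, hab, one_mul]

private theorem F2_closed {d : ℕ} {κ : Type} (S : Sys (Fin d) κ) (s : ℝ) : IsClosed (S.P s) := by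
  have h1 : S.P s = ⋂ r, {x : Fin d → ℝ | ∑ i, (S.A r i : ℝ) * x i ≤
      (S.b r : ℝ) + s * (S.c r : ℝ)} := by
    ext x
    simp only [Sys.P, Set.mem_setOf_eq, Set.mem_iInter]
  rw [h1]
  refine isClosed_iInter fun r => isClosed_le ?_ continuous_const
  exact continuous_finset_sum _ fun i _ => continuous_const.mul (continuous_apply i)

private theorem F2_iff {d : ℕ} {κ : Type} (S : Sys (Fin d) κ) {s : ℝ} {M : ℕ} (hM : 1 ≤ M)
    {j₀ : ℤ} (hj : (j₀ : ℝ) = (M : ℝ) * s) {m : ℕ} (hm : 1 ≤ m) (x : Fin d → ℤ) (r : κ) :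
    (((∑ i, S.A r i * x i : ℤ) : ℚ) ≤
      ((m * M : ℕ) : ℚ) * S.b r + (((m : ℤ) * j₀ : ℤ) : ℚ) * S.c r) ↔
    ∑ i, (S.A r i : ℝ) * ((x i : ℝ) / ((m * M : ℕ) : ℝ)) ≤ (S.b r : ℝ) + s * (S.c r : ℝ) := by
  have hk : (0 : ℝ) < ((m * M : ℕ) : ℝ) := by
    exact_mod_cast Nat.mul_pos hm hM
  have h1 : ∑ i, (S.A r i : ℝ) * ((x i : ℝ) / ((m * M : ℕ) : ℝ)) =
      (∑ i, (S.A r i : ℝ) * (x i : ℝ)) / ((m * M : ℕ) : ℝ) := by
    rw [Finset.sum_div]
    refine Finset.sum_congr rfl fun i _ => ?_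
    rw [mul_div_assoc]
  rw [h1, div_le_iff₀ hk, ← Rat.cast_le (K := ℝ)]
  have h2 : (((∑ i, S.A r i * x i : ℤ) : ℚ) : ℝ) = ∑ i, (S.A r i : ℝ) * (x i : ℝ) := by
    push_cast
    rfl
  have h3 : ((((m * M : ℕ) : ℚ) * S.b r + (((m : ℤ) * j₀ : ℤ) : ℚ) * S.c r : ℚ) : ℝ) =
      ((S.b r : ℝ) + s * (S.c r : ℝ)) * ((m * M : ℕ) : ℝ) := by
    push_cast
    rw [hj]
    ring
  rw [h2, h3]

open scoped Pointwise in
private theorem F2_card {d : ℕ} {κ : Type} (S : Sys (Fin d) κ) {s : ℝ} {M : ℕ} (hM : 1 ≤ M)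
    {j₀ : ℤ} (hj : (j₀ : ℝ) = (M : ℝ) * s) {m : ℕ} (hm : 1 ≤ m) :
    S.L (m * M) ((m : ℤ) * j₀) = Nat.card ↑(S.P s ∩ (((m * M : ℕ) : ℝ)⁻¹ •
      (Submodule.span ℤ (Set.range (Pi.basisFun ℝ (Fin d))) : Set (Fin d → ℝ)))) := by
  have hk : (0 : ℝ) < ((m * M : ℕ) : ℝ) := by
    exact_mod_cast Nat.mul_pos hm hM
  have hmem : ∀ y : Fin d → ℝ, y ∈ (((m * M : ℕ) : ℝ)⁻¹ •
      (Submodule.span ℤ (Set.range (Pi.basisFun ℝ (Fin d))) : Set (Fin d → ℝ))) ↔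
      ∀ i, ∃ z : ℤ, (z : ℝ) = ((m * M : ℕ) : ℝ) * y i := by
    intro y
    rw [Set.mem_inv_smul_set_iff₀ hk.ne', SetLike.mem_coe, Module.Basis.mem_span_iff_repr_mem]
    refine forall_congr' fun i => ?_
    rw [Pi.basisFun_repr, Set.mem_range]
    rfl
  rw [Sys.L]
  refine Nat.card_congr (Equiv.ofBijective (fun x => ⟨fun i => (x.1 i : ℝ) / ((m * M : ℕ) : ℝ),
    fun r => (F2_iff S hM hj hm x.1 r).1 (x.2 r), (hmem _).2 fun i =>
      ⟨x.1 i, (mul_div_cancel₀ _ hk.ne').symm⟩⟩) ⟨?_, ?_⟩)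
  · intro x y hxy
    have h1 := congrArg Subtype.val hxy
    refine Subtype.ext (funext fun i => ?_)
    have h2 := congrFun h1 i
    have h3 : (x.1 i : ℝ) / ((m * M : ℕ) : ℝ) = (y.1 i : ℝ) / ((m * M : ℕ) : ℝ) := h2
    rw [div_left_inj' hk.ne'] at h3
    exact_mod_cast h3
  · rintro ⟨y, hy1, hy2⟩
    choose z hz using (hmem y).1 hy2
    have h4 : (fun i => (z i : ℝ) / ((m * M : ℕ) : ℝ)) = y := by
      funext i
      rw [hz i, mul_div_cancel_left₀ _ hk.ne']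
    refine ⟨⟨z, fun r => (F2_iff S hM hj hm z r).2 ?_⟩, Subtype.ext h4⟩
    have h5 := hy1 r
    rw [← h4] at h5
    exact h5

theorem count_asymp {d : ℕ} {κ : Type} [Finite κ] (S : Sys (Fin d) κ) {s : ℝ} {R : ℝ}
    (hb : ∀ y ∈ S.P s, ∀ i, |y i| ≤ R) {M : ℕ} (hM : 1 ≤ M) {j₀ : ℤ}
    (hj : (j₀ : ℝ) = (M : ℝ) * s) :
    Tendsto (fun m : ℕ => (S.L (m * M) ((m : ℤ) * j₀) : ℝ) / ((m * M : ℕ) : ℝ) ^ d) atTop
      (𝓝 (volume (S.P s)).toReal) := by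
  have hbd : Bornology.IsBounded (S.P s) := by
    refine (Metric.isBounded_Icc (fun _ : Fin d => -R) (fun _ : Fin d => R)).subset ?_
    intro y hy
    exact ⟨fun i => (abs_le.1 (hb y hy i)).1, fun i => (abs_le.1 (hb y hy i)).2⟩
  have h1 := tendsto_card_div_pow_atTop_volume (S.P s) hbd (F2_closed S s).measurableSet
    ((F2_convex S s).addHaar_frontier volume)
  have h2 : Tendsto (fun m : ℕ => m * M) atTop atTop :=
    tendsto_atTop_mono (fun m => Nat.le_mul_of_pos_right m hM) tendsto_id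
  have h3 := h1.comp h2
  refine Tendsto.congr' ?_ h3
  filter_upwards [eventually_ge_atTop 1] with m hm
  rw [F2_card S hM hj hm, Function.comp_apply, Fintype.card_fin]

end H73TR
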