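import Pool.Agent.Lib.H73TR.Defs3
import Pool.Agent.Lib.H31.BrunnMinkowski

/-!
# F3 (M): Brunn-Minkowski for the slices

`(1-θ) P(s₀) + θ P(s₁) ⊆ P((1-θ) s₀ + θ s₁)` (the system is linear in `(s, x)`).  Use
`brunn_minkowski_add` (Pool.Agent.Lib.H31.BrunnMinkowski; read its namespace there) for the
interiors of `(1-θ) P(s₀)` and `θ P(s₁)` if both have interior points (`0 < θ < 1`; the frontier of
a convex set is a null set, volumes scale by `t^d`; the volumes in `EuclideanSpace ℝ (Fin d)` and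
`Fin d → ℝ` agree, `EuclideanSpace.volume_preserving_measurableEquiv` or
`PiLp.volume_preserving_ofLp`).  If one of the slices, say `P(s₀)`, has empty interior, its volume
is `0`, and for a point `x₀ ∈ P(s₀)` the set `(1-θ) x₀ + θ P(s₁)` of volume `θ^d V(s₁)` is in the
slice.
-/

namespace H73TR

open MeasureTheory

open Pointwise in
private theorem f3_vol {d : ℕ} (A : Set (Fin d → ℝ)) {r : ℝ} (hr : 0 < r) :
    (volume (r • A)).toReal = r ^ d * (volume A).toReal := by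
  rw [Measure.addHaar_smul, Module.finrank_fintype_fun_eq_card, Fintype.card_fin,
    abs_of_pos (pow_pos hr d), ENNReal.toReal_mul, ENNReal.toReal_ofReal (pow_pos hr d).le]

open Pointwise in
private theorem f3_vol_ne {d : ℕ} (A : Set (Fin d → ℝ)) (hA : volume A ≠ ⊤) (r : ℝ) :
    volume (r • A) ≠ ⊤ := by
  rw [Measure.addHaar_smul]
  exact ENNReal.mul_ne_top ENNReal.ofReal_ne_top hA

private theorem f3_root {d : ℕ} (hd : 1 ≤ d) {m : ℝ} (hm : 0 ≤ m) :
    (m ^ d) ^ (1 / (d : ℝ)) = m := by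
  rw [one_div]
  exact Real.pow_rpow_inv_natCast hm (by omega)

private theorem f3_root' {d : ℕ} (hd : 1 ≤ d) {m : ℝ} (hm : 0 ≤ m) :
    (m ^ (1 / (d : ℝ))) ^ d = m := by
  rw [one_div]
  exact Real.rpow_inv_natCast_pow hm (by omega)

open Pointwise in
/-- One of the two sets may be a null set. -/
private theorem f3_null {d : ℕ} (hd : 1 ≤ d) {A B C : Set (Fin d → ℝ)} {θ : ℝ} (h0 : 0 < θ)
    (hA : A.Nonempty) (hC : volume C ≠ ⊤) (h : ∀ x ∈ A, ∀ y ∈ B, (1 - θ) • x + θ • y ∈ C) :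
    θ * (volume B).toReal ^ (1 / (d : ℝ)) ≤ (volume C).toReal ^ (1 / (d : ℝ)) := by
  obtain ⟨x, hx⟩ := hA
  have hsub : (1 - θ) • x +ᵥ (θ • B) ⊆ C := by
    rintro _ ⟨_, ⟨y, hy, rfl⟩, rfl⟩
    exact h x hx y hy
  have h1 : volume (θ • B) ≤ volume C := by
    rw [← measure_vadd volume ((1 - θ) • x) (θ • B)]
    exact measure_mono hsub
  have h2 : θ ^ d * (volume B).toReal ≤ (volume C).toReal := by
    rw [← f3_vol B h0]
    exact ENNReal.toReal_mono hC h1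
  have hd0 : (0 : ℝ) ≤ 1 / (d : ℝ) := by positivity
  calc θ * (volume B).toReal ^ (1 / (d : ℝ))
      = (θ ^ d) ^ (1 / (d : ℝ)) * (volume B).toReal ^ (1 / (d : ℝ)) := by rw [f3_root hd h0.le]
    _ = (θ ^ d * (volume B).toReal) ^ (1 / (d : ℝ)) :=
        (Real.mul_rpow (pow_pos h0 d).le ENNReal.toReal_nonneg).symm
    _ ≤ _ := Real.rpow_le_rpow (by positivity) h2 hd0

open Pointwise in
private theorem f3_gen {d : ℕ} (hd : 1 ≤ d) {A B C : Set (Fin d → ℝ)} {θ : ℝ} (h0 : 0 < θ)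
    (h1 : θ < 1) (hA : A.Nonempty) (hB : B.Nonempty) (hAm : MeasurableSet A)
    (hBm : MeasurableSet B) (hCm : MeasurableSet C) (hAf : volume A ≠ ⊤) (hBf : volume B ≠ ⊤)
    (hC : volume C ≠ ⊤) (h : ∀ x ∈ A, ∀ y ∈ B, (1 - θ) • x + θ • y ∈ C) :
    (1 - θ) * (volume A).toReal ^ (1 / (d : ℝ)) + θ * (volume B).toReal ^ (1 / (d : ℝ)) ≤
      (volume C).toReal ^ (1 / (d : ℝ)) := by
  have hd0 : (0 : ℝ) < 1 / (d : ℝ) := by
    have : (0 : ℝ) < (d : ℝ) := by exact_mod_cast hd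
    positivity
  rcases eq_or_lt_of_le (ENNReal.toReal_nonneg (a := volume A)) with hA0 | hA0
  · rw [← hA0, Real.zero_rpow hd0.ne', mul_zero, zero_add]
    exact f3_null hd h0 hA hC h
  rcases eq_or_lt_of_le (ENNReal.toReal_nonneg (a := volume B)) with hB0 | hB0
  · rw [← hB0, Real.zero_rpow hd0.ne', mul_zero, add_zero]
    refine f3_null hd (by linarith : 0 < 1 - θ) hB hC ?_
    intro x hx y hy
    have := h y hy x hx
    rw [show (1 : ℝ) - (1 - θ) = θ by ring, add_comm]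
    exact this
  obtain ⟨α, hα⟩ : ∃ α : ℝ, α = (volume A).toReal ^ (1 / (d : ℝ)) := ⟨_, rfl⟩
  obtain ⟨β, hβ⟩ : ∃ β : ℝ, β = (volume B).toReal ^ (1 / (d : ℝ)) := ⟨_, rfl⟩
  have hα0 : 0 < α := by rw [hα]; exact Real.rpow_pos_of_pos hA0 _
  have hβ0 : 0 < β := by rw [hβ]; exact Real.rpow_pos_of_pos hB0 _
  have hαd : α ^ d = (volume A).toReal := by rw [hα]; exact f3_root' hd hA0.le
  have hβd : β ^ d = (volume B).toReal := by rw [hβ]; exact f3_root' hd hB0.le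
  rw [← hα, ← hβ]
  obtain ⟨m, hm⟩ : ∃ m : ℝ, m = (1 - θ) * α + θ * β := ⟨_, rfl⟩
  have hθ : 0 < 1 - θ := by linarith
  have hm0 : 0 < m := by rw [hm]; positivity
  rw [← hm]
  have key := Pool.Agent.Lib.H31.brunn_minkowski_mul_pi d (A := α⁻¹ • A) (B := β⁻¹ • B)
    (C := m⁻¹ • C) (hAm.const_smul₀ _) (hBm.const_smul₀ _) (hCm.const_smul₀ _)
    (a := (1 - θ) * α / m) (b := θ * β / m) (by positivity) (by positivity)
    (by rw [← add_div, ← hm, div_self hm0.ne']) ?_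
  · have eA : volume (α⁻¹ • A) = 1 := by
      rw [← ENNReal.ofReal_toReal (f3_vol_ne A hAf α⁻¹), f3_vol A (inv_pos.mpr hα0), ← hαd,
        ← mul_pow, inv_mul_cancel₀ hα0.ne', one_pow, ENNReal.ofReal_one]
    have eB : volume (β⁻¹ • B) = 1 := by
      rw [← ENNReal.ofReal_toReal (f3_vol_ne B hBf β⁻¹), f3_vol B (inv_pos.mpr hβ0), ← hβd,
        ← mul_pow, inv_mul_cancel₀ hβ0.ne', one_pow, ENNReal.ofReal_one]
    rw [eA, eB, ENNReal.one_rpow, ENNReal.one_rpow, one_mul] at key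
    have h2 := ENNReal.toReal_mono (f3_vol_ne C hC m⁻¹) key
    rw [ENNReal.toReal_one, f3_vol C (inv_pos.mpr hm0), inv_pow] at h2
    have h3 : m ^ d ≤ (volume C).toReal := by
      have h4 : 0 < m ^ d := pow_pos hm0 d
      rw [← div_eq_inv_mul, le_div_iff₀ h4, one_mul] at h2
      exact h2
    calc m = (m ^ d) ^ (1 / (d : ℝ)) := (f3_root hd hm0.le).symm
      _ ≤ _ := Real.rpow_le_rpow (by positivity) h3 hd0.le
  · rintro _ ⟨x, hx, rfl⟩ _ ⟨y, hy, rfl⟩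
    refine ⟨(1 - θ) • x + θ • y, h x hx y hy, ?_⟩
    simp only [smul_add, smul_smul]
    congr 1
    · congr 1
      field_simp
    · congr 1
      field_simp

private theorem f3_closed {d : ℕ} {κ : Type} (S : Sys (Fin d) κ) (s : ℝ) : IsClosed (S.P s) := by
  have : S.P s = ⋂ r, {x : Fin d → ℝ | ∑ i, (S.A r i : ℝ) * x i ≤ (S.b r : ℝ) + s * (S.c r : ℝ)} := by
    ext x
    simp [Sys.P]
  rw [this]
  apply isClosed_iInter
  intro r
  exact isClosed_le (by fun_prop) continuous_const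

theorem bm_slices {d : ℕ} (hd : 1 ≤ d) {κ : Type} [Finite κ] (S : Sys (Fin d) κ) {s₀ s₁ θ R : ℝ}
    (h0 : 0 ≤ θ) (h1 : θ ≤ 1) (hne0 : (S.P s₀).Nonempty) (hne1 : (S.P s₁).Nonempty)
    (hb : ∀ s ∈ ({s₀, s₁, (1 - θ) * s₀ + θ * s₁} : Set ℝ), ∀ y ∈ S.P s, ∀ i, |y i| ≤ R) :
    (1 - θ) * (volume (S.P s₀)).toReal ^ (1 / (d : ℝ)) +
        θ * (volume (S.P s₁)).toReal ^ (1 / (d : ℝ)) ≤
      (volume (S.P ((1 - θ) * s₀ + θ * s₁))).toReal ^ (1 / (d : ℝ)) := by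
  have hfin : ∀ s ∈ ({s₀, s₁, (1 - θ) * s₀ + θ * s₁} : Set ℝ), volume (S.P s) ≠ ⊤ := by
    intro s hs
    have hsub : S.P s ⊆ Set.Icc (fun _ => -R) (fun _ => R) := by
      intro y hy
      exact ⟨fun i => (abs_le.mp (hb s hs y hy i)).1, fun i => (abs_le.mp (hb s hs y hy i)).2⟩
    exact (lt_of_le_of_lt (measure_mono hsub) isCompact_Icc.measure_lt_top).ne
  rcases eq_or_lt_of_le h0 with h | h
  · subst h
    simp
  rcases eq_or_lt_of_le h1 with h' | h'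
  · subst h'
    simp
  refine f3_gen hd h h' hne0 hne1 (f3_closed S _).measurableSet (f3_closed S _).measurableSet
    (f3_closed S _).measurableSet (hfin _ (by simp)) (hfin _ (by simp)) (hfin _ (by simp)) ?_
  intro x hx y hy r
  have h2 := hx r
  have h3 := hy r
  have h4 : ∑ i, (S.A r i : ℝ) * ((1 - θ) • x + θ • y) i =
      (1 - θ) * ∑ i, (S.A r i : ℝ) * x i + θ * ∑ i, (S.A r i : ℝ) * y i := by
    rw [Finset.mul_sum, Finset.mul_sum, ← Finset.sum_add_distrib]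
    refine Finset.sum_congr rfl fun i _ => ?_
    simp only [Pi.add_apply, Pi.smul_apply, smul_eq_mul]
    ring
  rw [h4]
  have h5 := mul_le_mul_of_nonneg_left h2 (by linarith : 0 ≤ 1 - θ)
  have h6 := mul_le_mul_of_nonneg_left h3 h.le
  have h7 : (1 - θ) * ((S.b r : ℝ) + s₀ * (S.c r : ℝ)) + θ * ((S.b r : ℝ) + s₁ * (S.c r : ℝ)) =
      (S.b r : ℝ) + ((1 - θ) * s₀ + θ * s₁) * (S.c r : ℝ) := by ring
  linarith

end H73TR
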