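import Pool.Agent.Lib.H73TR.F4a

/-!
# F4b (M): a body which contains the mean of two bodies of the same volume

Transfer `bm_equality_all` to `Fin d → ℝ` (the identity to `EuclideanSpace ℝ (Fin d)` preserves the
volume and convexity).  `(A + B)/2 ⊆ C` has volume at most `vol C ≤ vol A = vol B`, so
`B = x + A`; then `(A + B)/2 = A + x/2` (`A` is convex) is a compact convex subset of `C` of the same
volume `> 0`.  They are equal: `C` has interior points (positive volume and convex), `C` is the
closure of its interior, and if the interior of `C` were not contained in the closed set `A + x/2`,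
the difference would contain a nonempty open set and `vol C > vol A`.
-/

open MeasureTheory

namespace H73TR

private theorem F4b_interior {E : Type*} [NormedAddCommGroup E] [NormedSpace ℝ E]
    [FiniteDimensional ℝ E] [MeasurableSpace E] [BorelSpace E] (μ : Measure E)
    [μ.IsAddHaarMeasure] {A : Set E} (hA : Convex ℝ A) (hpos : 0 < μ A) :
    (interior A).Nonempty := by
  by_contra h
  rw [Set.not_nonempty_iff_eq_empty] at h
  have h1 : A ⊆ frontier A := by
    rw [frontier, h, Set.sdiff_empty]
    exact subset_closure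
  have h2 := measure_mono (μ := μ) h1
  rw [hA.addHaar_frontier μ] at h2
  exact absurd (le_antisymm h2 zero_le) hpos.ne'

theorem eq_of_subset_of_volume {d : ℕ} {A C : Set (Fin d → ℝ)} (hC : Convex ℝ C)
    (hAk : IsCompact A) (hCk : IsCompact C) (hAC : A ⊆ C) (hpos : 0 < volume A)
    (hCA : volume C ≤ volume A) : A = C := by
  have hint : (interior C).Nonempty :=
    F4b_interior volume hC (hpos.trans_le (measure_mono hAC))
  have hsub : interior C ⊆ A := by
    by_contra hn
    rw [Set.not_subset] at hn
    obtain ⟨z, hz, hzA⟩ := hn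
    have hopen : IsOpen (interior C \ A) := isOpen_interior.sdiff hAk.isClosed
    have hU : 0 < volume (interior C \ A) := hopen.measure_pos volume ⟨z, hz, hzA⟩
    have hdisj : Disjoint A (interior C \ A) := Set.disjoint_sdiff_right
    have h1 : volume A + volume (interior C \ A) ≤ volume C := by
      rw [← measure_union hdisj hopen.measurableSet]
      apply measure_mono
      exact Set.union_subset hAC (Set.sdiff_subset.trans interior_subset)
    have h2 : volume A + volume (interior C \ A) ≤ volume A + 0 := by
      rw [add_zero]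
      exact h1.trans hCA
    have h3 := (ENNReal.add_le_add_iff_left hAk.measure_lt_top.ne).1 h2
    exact absurd (le_antisymm h3 zero_le) hU.ne'
  refine Set.Subset.antisymm hAC ?_
  calc C ⊆ closure C := subset_closure
    _ = closure (interior C) := (hC.closure_interior_eq_closure_of_nonempty_interior hint).symm
    _ ⊆ A := closure_minimal hsub hAk.isClosed

theorem bm_eq_mid {d : ℕ} (hd : 1 ≤ d) {A B C : Set (Fin d → ℝ)} (hA : Convex ℝ A)
    (hB : Convex ℝ B) (hC : Convex ℝ C) (hAk : IsCompact A) (hBk : IsCompact B)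
    (hCk : IsCompact C) (hmid : ∀ x ∈ A, ∀ y ∈ B, (1 / 2 : ℝ) • (x + y) ∈ C)
    (hpos : 0 < volume A) (hAB : volume A = volume B) (hCA : volume C ≤ volume A) :
    ∃ w : Fin d → ℝ, C = (fun x => x + w) '' A := by
  have hvp := PiLp.volume_preserving_ofLp (Fin d)
  let L : EuclideanSpace ℝ (Fin d) ≃L[ℝ] (Fin d → ℝ) := EuclideanSpace.equiv (Fin d) ℝ
  have hLof : ∀ x, L x = WithLp.ofLp x := fun x => rfl
  have hvol : ∀ S : Set (Fin d → ℝ), IsCompact S → volume (L ⁻¹' S) = volume S := by
    intro S hS
    exact hvp.measure_preimage hS.measurableSet.nullMeasurableSet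
  have hcpt : ∀ S : Set (Fin d → ℝ), IsCompact S → IsCompact (L ⁻¹' S) := by
    intro S hS
    exact L.toHomeomorph.isCompact_preimage.2 hS
  have hcvx : ∀ S : Set (Fin d → ℝ), Convex ℝ S → Convex ℝ (L ⁻¹' S) := by
    intro S hS
    exact hS.linear_preimage L.toLinearEquiv.toLinearMap
  have hposB : 0 < volume B := hAB ▸ hpos
  obtain ⟨x, hx⟩ := bm_equality_all hd (hcvx A hA) (hcvx B hB) (hcpt A hAk) (hcpt B hBk)
    (F4b_interior volume (hcvx A hA) (by rw [hvol A hAk]; exact hpos))
    (F4b_interior volume (hcvx B hB) (by rw [hvol B hBk]; exact hposB))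
    (by rw [hvol A hAk, hvol B hBk, hAB])
    (by
      rw [hvol A hAk]
      refine le_trans ?_ hCA
      rw [← hvol C hCk]
      apply measure_mono
      rintro z ⟨p, ⟨a, ha, rfl⟩, q, ⟨b, hb, rfl⟩, rfl⟩
      show L ((1 / 2 : ℝ) • a + (1 / 2 : ℝ) • b) ∈ C
      rw [← smul_add, map_smul, map_add]
      exact hmid _ ha _ hb)
  refine ⟨(1 / 2 : ℝ) • L x, ?_⟩
  symm
  apply eq_of_subset_of_volume hC _ hCk
  · rintro _ ⟨y, hy, rfl⟩
    have hyB : x + L.symm y ∈ L ⁻¹' B := by
      rw [hx]
      refine ⟨L.symm y, ?_, rfl⟩
      show L (L.symm y) ∈ A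
      rwa [L.apply_symm_apply]
    have hyB' : L x + y ∈ B := by
      have : L (x + L.symm y) ∈ B := hyB
      rwa [map_add, L.apply_symm_apply] at this
    have h1 := hmid y hy _ hyB'
    have e : (1 / 2 : ℝ) • (y + (L x + y)) = y + (1 / 2 : ℝ) • L x := by
      rw [smul_add, smul_add, add_comm ((1 / 2 : ℝ) • L x), ← add_assoc, ← add_smul]
      norm_num
    rwa [e] at h1
  · rw [Set.image_add_right, measure_preimage_add_right]
    exact hpos
  · rw [Set.image_add_right, measure_preimage_add_right]
    exact hCA
  · exact hAk.image (continuous_id.add continuous_const)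

end H73TR
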