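import Pool.Agent.Lib.H73TR.F2
import Pool.Agent.Lib.H73TR.F3

/-!
# F5a (M): the volumes are symmetric and largest in the middle

Let `s` be rational, `1-T ≤ s ≤ T`, and `M ≥ 1` a multiple of `q N` with `N ∣ M s` (integer).  For
`m ≥ 1` and `k = m M`, `j = m (M s)`: `S'.L k j = S.L k j = S.L k (k - j) = S'.L k (k - j)`
(`count`, `symm`), and `k - j = m (M - M s)`; divide by `k^d` and use `count_asymp` for `s` and
`1 - s`.
Second part (rational `s`, `d ≥ 1`): `bm_slices` with `s₀ = s`, `s₁ = 1 - s`, `θ = 1/2`; for `d = 0`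
the volume of a nonempty set is that of the point.
-/

namespace H73TR

open MeasureTheory

theorem vol_symm {ι κ : Type} [Fintype ι] [Finite κ] {S : Sys ι κ} {q : ℕ} (hS : S.Nice q)
    {T : ℚ} (hT : 1 / 2 < T) {d N : ℕ} {S' : Sys (Fin d) κ} {p0 p1 : ι → ℚ} {e : Fin d → ι → ℤ}
    (hR : Reduced S T d N S' p0 p1 e) {s : ℚ} (h0 : 1 - T ≤ s) (h1 : s ≤ T) :
    (volume (S'.P (s : ℝ))).toReal = (volume (S'.P (1 - (s : ℝ)))).toReal := by
  obtain ⟨R, hRb⟩ := hR.bdd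
  have h0R : 1 - (T : ℝ) ≤ (s : ℝ) := by exact_mod_cast h0
  have h1R : (s : ℝ) ≤ (T : ℝ) := by exact_mod_cast h1
  obtain ⟨M, hMd⟩ : ∃ M : ℕ, M = q * N * s.den := ⟨_, rfl⟩
  obtain ⟨j₀, hjd⟩ : ∃ j₀ : ℤ, j₀ = (q : ℤ) * N * s.num := ⟨_, rfl⟩
  have hM : 1 ≤ M := by
    rw [hMd]
    exact Nat.mul_pos (Nat.mul_pos hS.q_pos hR.N_pos) s.den_pos
  have hjQ : (j₀ : ℚ) = (M : ℚ) * s := by
    rw [hjd, hMd]
    push_cast
    rw [mul_assoc ((q : ℚ) * N), mul_comm (s.den : ℚ) s, Rat.mul_den_eq_num]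
  have hjR : (j₀ : ℝ) = (M : ℝ) * (s : ℝ) := by exact_mod_cast hjQ
  have hjR' : (((M : ℤ) - j₀ : ℤ) : ℝ) = (M : ℝ) * (1 - (s : ℝ)) := by
    push_cast
    rw [hjR]
    ring
  have hNM : N ∣ M := by
    rw [hMd, mul_comm q N, mul_assoc]
    exact Dvd.intro _ rfl
  have hqM : q ∣ M := by
    rw [hMd, mul_assoc]
    exact Dvd.intro _ rfl
  have hNj : (N : ℤ) ∣ j₀ := by
    rw [hjd, mul_comm (q : ℤ) N, mul_assoc]
    exact Dvd.intro _ rfl
  have e1 := count_asymp S' (fun y hy i => hRb s h0R h1R y hy i) hM hjR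
  have e2 := count_asymp S' (fun y hy i => hRb (1 - s) (by linarith) (by linarith) y hy i) hM hjR'
  refine tendsto_nhds_unique_of_eventuallyEq e1 e2 ?_
  filter_upwards [Filter.eventually_ge_atTop 1] with m hm
  have hk0 : 0 < m * M := Nat.mul_pos hm hM
  have hNk : N ∣ m * M := Dvd.dvd.mul_left hNM m
  have hqk : q ∣ m * M := Dvd.dvd.mul_left hqM m
  have hkQ : (0 : ℚ) < (m : ℚ) * M := by exact_mod_cast hk0
  have c1 : (((m : ℤ) * j₀ : ℤ) : ℚ) = s * ((m : ℚ) * M) := by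
    push_cast
    rw [hjQ]
    ring
  have c2 : (((m : ℤ) * ((M : ℤ) - j₀) : ℤ) : ℚ) = (1 - s) * ((m : ℚ) * M) := by
    push_cast
    rw [hjQ]
    ring
  have d1 : S.L (m * M) ((m : ℤ) * j₀) = S'.L (m * M) ((m : ℤ) * j₀) := by
    refine hR.count _ _ hk0 hNk (Dvd.dvd.mul_left hNj _) ?_ ?_
    · rw [c1]
      push_cast
      exact mul_le_mul_of_nonneg_right h0 hkQ.le
    · rw [c1]
      push_cast
      exact mul_le_mul_of_nonneg_right h1 hkQ.le
  have d2 : S.L (m * M) ((m : ℤ) * ((M : ℤ) - j₀)) = S'.L (m * M) ((m : ℤ) * ((M : ℤ) - j₀)) := by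
    refine hR.count _ _ hk0 hNk (Dvd.dvd.mul_left (dvd_sub (Int.natCast_dvd_natCast.2 hNM) hNj) _)
      ?_ ?_
    · rw [c2]
      push_cast
      exact mul_le_mul_of_nonneg_right (by linarith) hkQ.le
    · rw [c2]
      push_cast
      exact mul_le_mul_of_nonneg_right (by linarith) hkQ.le
  have d3 := hS.symm (m * M) hqk ((m : ℤ) * j₀)
  have d4 : ((m * M : ℕ) : ℤ) - (m : ℤ) * j₀ = (m : ℤ) * ((M : ℤ) - j₀) := by
    push_cast
    ring
  rw [d4] at d3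
  rw [← d1, ← d2, d3]

theorem vol_le_mid {ι κ : Type} [Fintype ι] [Finite κ] {S : Sys ι κ} {q : ℕ} (hS : S.Nice q)
    {T : ℚ} (hT : 1 / 2 < T) (hne : ∀ s : ℝ, 1 - (T : ℝ) ≤ s → s ≤ (T : ℝ) → (S.P s).Nonempty)
    {d N : ℕ} {S' : Sys (Fin d) κ} {p0 p1 : ι → ℚ} {e : Fin d → ι → ℤ}
    (hR : Reduced S T d N S' p0 p1 e) {s : ℚ} (h0 : 1 - T ≤ s) (h1 : s ≤ T) :
    (volume (S'.P (s : ℝ))).toReal ≤ (volume (S'.P (1 / 2 : ℝ))).toReal := by
  obtain ⟨R, hRb⟩ := hR.bdd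
  have h0R : 1 - (T : ℝ) ≤ (s : ℝ) := by exact_mod_cast h0
  have h1R : (s : ℝ) ≤ (T : ℝ) := by exact_mod_cast h1
  have hTR : (1 / 2 : ℝ) < (T : ℝ) := by
    have h2 : ((1 / 2 : ℚ) : ℝ) < (T : ℝ) := Rat.cast_lt.2 hT
    norm_num at h2 ⊢
    exact h2
  have hne' : ∀ t : ℝ, 1 - (T : ℝ) ≤ t → t ≤ (T : ℝ) → (S'.P t).Nonempty := by
    intro t ht0 ht1
    obtain ⟨x, hx⟩ := hne t ht0 ht1
    obtain ⟨y, hy, -⟩ := (hR.slice t ht0 ht1 x).1 hx
    exact ⟨y, hy⟩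
  rcases Nat.eq_zero_or_pos d with hd | hd
  · subst hd
    have h2 : S'.P (1 / 2 : ℝ) = Set.univ := by
      obtain ⟨y, hy⟩ := hne' (1 / 2) (by linarith) hTR.le
      refine Set.eq_univ_of_forall fun z => ?_
      rw [Subsingleton.elim z y]
      exact hy
    rw [h2]
    refine ENNReal.toReal_mono ?_ (measure_mono (Set.subset_univ _))
    rw [MeasureTheory.volume_pi]
    rw [MeasureTheory.Measure.pi_of_empty]
    simp
  · have h2 := bm_slices hd S' (s₀ := (s : ℝ)) (s₁ := 1 - (s : ℝ)) (θ := 1 / 2) (R := R)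
      (by norm_num) (by norm_num) (hne' s h0R h1R) (hne' (1 - s) (by linarith) (by linarith)) (by
        intro t ht y hy i
        refine hRb t ?_ ?_ y hy i
        · simp only [Set.mem_insert_iff, Set.mem_singleton_iff] at ht
          rcases ht with rfl | rfl | rfl
          · exact h0R
          · linarith
          · linarith
        · simp only [Set.mem_insert_iff, Set.mem_singleton_iff] at ht
          rcases ht with rfl | rfl | rfl
          · exact h1R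
          · linarith
          · linarith)
    have h3 : (1 - 1 / 2) * (s : ℝ) + 1 / 2 * (1 - (s : ℝ)) = 1 / 2 := by ring
    rw [h3, ← vol_symm hS hT hR h0 h1] at h2
    have h4 : (volume (S'.P (s : ℝ))).toReal ^ (1 / (d : ℝ)) ≤
        (volume (S'.P (1 / 2 : ℝ))).toReal ^ (1 / (d : ℝ)) := by
      calc (volume (S'.P (s : ℝ))).toReal ^ (1 / (d : ℝ)) =
          (1 - 1 / 2) * (volume (S'.P (s : ℝ))).toReal ^ (1 / (d : ℝ)) +
            1 / 2 * (volume (S'.P (s : ℝ))).toReal ^ (1 / (d : ℝ)) := by ring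
        _ ≤ _ := h2
    have hd' : (0 : ℝ) < 1 / (d : ℝ) := by
      have : (0 : ℝ) < d := by exact_mod_cast hd
      positivity
    exact (Real.rpow_le_rpow_iff ENNReal.toReal_nonneg ENNReal.toReal_nonneg hd').1 h4

end H73TR
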