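import Pool.Agent.Lib.H73TR.F4b
import Pool.Agent.Lib.H73TR.F5a

/-!
# F5b (M/L): no decrease implies that the slices are translates

Let `1/2 ≤ s₀ < s₁ ≤ T` be rational and suppose `L k (j+1) = L k j` whenever `q ∣ k`,
`s₀ k ≤ j < s₁ k`.  Take `M` a multiple of `q N` with `N ∣ M s₀`, `N ∣ M s₁`: `L k (k s₀) = L k (k s₁)`
for `k = m M`, so `V(s₀) = V(s₁)` by `count` and `count_asymp` (`V(s) = vol P'(s)`).
If `s₀ = 1/2` take `w = 0`.  Let `s₀ > 1/2`.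
`d = 0`: `P(s) = {p0 + s p1}`, `w = (s₀ - 1/2) p1`.
`d ≥ 1`: `W = V^(1/d)`; `s₀` is a strict convex combination of `1/2` and `s₁`, so by `bm_slices`
`W(s₀) ≥ (1-θ) W(1/2) + θ W(s₁) = (1-θ) W(1/2) + θ W(s₀)`, `θ < 1`, so `W(1/2) ≤ W(s₀)`;
by `vol_le_mid`, `vol_symm`: `V(1/2) = V(s₀) = V(1-s₀)`, positive because `P'(1/2)` has interior
points.  `bm_eq_mid` with `A = P'(s₀)`, `B = P'(1-s₀)`, `C = P'(1/2)`: `P'(1/2) = P'(s₀) + w'`;
so `P(1/2) + w ⊆ P(s₀)` with `w = (s₀ - 1/2) p1 - ∑ w'_j e_j`.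
-/

namespace H73TR

open MeasureTheory Filter Topology

private theorem F5b_convex {d : ℕ} {κ : Type} (S : Sys (Fin d) κ) (s : ℝ) :
    Convex ℝ (S.P s) := by
  intro x hx y hy a b ha hb hab r
  have h1 := hx r
  have h2 := hy r
  have e : ∑ i, (S.A r i : ℝ) * (a • x + b • y) i =
      a * ∑ i, (S.A r i : ℝ) * x i + b * ∑ i, (S.A r i : ℝ) * y i := by
    rw [Finset.mul_sum, Finset.mul_sum, ← Finset.sum_add_distrib]
    refine Finset.sum_congr rfl fun i _ => ?_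
    simp only [Pi.add_apply, Pi.smul_apply, smul_eq_mul]
    ring
  rw [e]
  calc a * ∑ i, (S.A r i : ℝ) * x i + b * ∑ i, (S.A r i : ℝ) * y i
      ≤ a * ((S.b r : ℝ) + s * (S.c r : ℝ)) + b * ((S.b r : ℝ) + s * (S.c r : ℝ)) :=
        add_le_add (mul_le_mul_of_nonneg_left h1 ha) (mul_le_mul_of_nonneg_left h2 hb)
    _ = (a + b) * ((S.b r : ℝ) + s * (S.c r : ℝ)) := by ring
    _ = (S.b r : ℝ) + s * (S.c r : ℝ) := by rw [hab, one_mul]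

private theorem F5b_closed {d : ℕ} {κ : Type} (S : Sys (Fin d) κ) (s : ℝ) :
    IsClosed (S.P s) := by
  have e : S.P s = ⋂ r, {x : Fin d → ℝ | ∑ i, (S.A r i : ℝ) * x i ≤ (S.b r : ℝ) + s * (S.c r : ℝ)} := by
    ext x
    simp [Sys.P]
  rw [e]
  refine isClosed_iInter fun r => isClosed_le ?_ continuous_const
  exact continuous_finsetSum _ fun i _ => continuous_const.mul (continuous_apply i)

private theorem F5b_compact {d : ℕ} {κ : Type} (S : Sys (Fin d) κ) (s R : ℝ)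
    (hb : ∀ y ∈ S.P s, ∀ i, |y i| ≤ R) : IsCompact (S.P s) := by
  refine Metric.isCompact_of_isClosed_isBounded (F5b_closed S s) ?_
  refine (isCompact_univ_pi (X := fun _ : Fin d => ℝ) (s := fun _ => Set.Icc (-R) R)
    (fun _ => isCompact_Icc)).isBounded.subset ?_
  intro y hy i _
  exact abs_le.mp (hb y hy i)

/-- Constancy along an interval. -/
private theorem F5b_const (f : ℤ → ℕ) (a b : ℤ) (hab : a ≤ b)
    (h : ∀ j, a ≤ j → j < b → f (j + 1) = f j) : f b = f a := by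
  obtain ⟨n, rfl⟩ := Int.le.dest hab
  clear hab
  induction n with
  | zero => simp
  | succ n ih =>
    have h1 := ih (fun j h1 h2 => h j h1 (by push_cast; omega))
    have h2 := h (a + n) (by omega) (by push_cast; omega)
    push_cast
    rw [← add_assoc, h2, h1]

private theorem F5b_ne {ι κ : Type} [Fintype ι] {S : Sys ι κ} {T : ℚ} {d N : ℕ}
    {S' : Sys (Fin d) κ} {p0 p1 : ι → ℚ} {e : Fin d → ι → ℤ} (hR : Reduced S T d N S' p0 p1 e)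
    (hne : ∀ s : ℝ, 1 - (T : ℝ) ≤ s → s ≤ (T : ℝ) → (S.P s).Nonempty) (s : ℝ)
    (h0 : 1 - (T : ℝ) ≤ s) (h1 : s ≤ (T : ℝ)) : (S'.P s).Nonempty := by
  obtain ⟨x, hx⟩ := hne s h0 h1
  obtain ⟨y, hy, -⟩ := (hR.slice s h0 h1 x).mp hx
  exact ⟨y, hy⟩

/-- The volumes at the two ends agree. -/
private theorem F5b_vol {ι κ : Type} [Fintype ι] [Finite κ] {S : Sys ι κ} {q : ℕ}
    (hS : S.Nice q) {T : ℚ} (hT : 1 / 2 < T)
    {d N : ℕ} {S' : Sys (Fin d) κ} {p0 p1 : ι → ℚ} {e : Fin d → ι → ℤ}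
    (hR : Reduced S T d N S' p0 p1 e) {s₀ s₁ : ℚ} (h0 : 1 / 2 ≤ s₀) (h01 : s₀ < s₁) (h1 : s₁ ≤ T)
    (hL : ∀ k : ℕ, q ∣ k → ∀ j : ℤ, s₀ * k ≤ (j : ℚ) → (j : ℚ) < s₁ * k →
      S.L k (j + 1) = S.L k j) :
    (volume (S'.P (s₀ : ℝ))).toReal = (volume (S'.P (s₁ : ℝ))).toReal := by
  obtain ⟨R, hRb⟩ := hR.bdd
  have hTR : (1 / 2 : ℝ) < (T : ℝ) := by
    have : ((1 / 2 : ℚ) : ℝ) < ((T : ℚ) : ℝ) := by exact_mod_cast hT
    simpa using this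
  have h0R : (1 / 2 : ℝ) ≤ (s₀ : ℝ) := by
    have : ((1 / 2 : ℚ) : ℝ) ≤ ((s₀ : ℚ) : ℝ) := by exact_mod_cast h0
    simpa using this
  have h01R : (s₀ : ℝ) < (s₁ : ℝ) := by exact_mod_cast h01
  have h1R : (s₁ : ℝ) ≤ (T : ℝ) := by exact_mod_cast h1
  have hq := hS.q_pos
  have hN := hR.N_pos
  set M : ℕ := q * N * (s₀.den * s₁.den) with hM
  have hd0 : 0 < s₀.den := s₀.den_pos
  have hd1 : 0 < s₁.den := s₁.den_pos
  have hM1 : 1 ≤ M := Nat.mul_pos (Nat.mul_pos hq hN) (Nat.mul_pos hd0 hd1)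
  set j0 : ℤ := (N : ℤ) * ((q : ℤ) * s₁.den * s₀.num) with hj0
  set j1 : ℤ := (N : ℤ) * ((q : ℤ) * s₀.den * s₁.num) with hj1
  have e0 : (s₀.num : ℚ) = s₀ * s₀.den := (Rat.mul_den_eq_num s₀).symm
  have e1 : (s₁.num : ℚ) = s₁ * s₁.den := (Rat.mul_den_eq_num s₁).symm
  have hj0Q : (j0 : ℚ) = (M : ℚ) * s₀ := by
    rw [hj0, hM]
    push_cast
    rw [e0]
    ring
  have hj1Q : (j1 : ℚ) = (M : ℚ) * s₁ := by
    rw [hj1, hM]
    push_cast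
    rw [e1]
    ring
  have hj0R : (j0 : ℝ) = (M : ℝ) * (s₀ : ℝ) := by exact_mod_cast congrArg (fun x : ℚ => (x : ℝ)) hj0Q
  have hj1R : (j1 : ℝ) = (M : ℝ) * (s₁ : ℝ) := by exact_mod_cast congrArg (fun x : ℚ => (x : ℝ)) hj1Q
  have t0 := count_asymp S' (s := (s₀ : ℝ)) (R := R)
    (hRb _ (by linarith) (by linarith)) hM1 hj0R
  have t1 := count_asymp S' (s := (s₁ : ℝ)) (R := R)
    (hRb _ (by linarith) (by linarith)) hM1 hj1R
  refine tendsto_nhds_unique (t0.congr' ?_) t1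
  filter_upwards [eventually_ge_atTop 1] with m hm
  have hmQ : (1 : ℚ) ≤ (m : ℚ) := by exact_mod_cast hm
  have hMQ : (1 : ℚ) ≤ (M : ℚ) := by exact_mod_cast hM1
  have hkQ : (0 : ℚ) < (m : ℚ) * M := by positivity
  have hkpos : 0 < m * M := Nat.mul_pos hm hM1
  have hqk : q ∣ m * M := Dvd.dvd.mul_left (by rw [hM, mul_assoc]; exact dvd_mul_right _ _) m
  have hNk : N ∣ m * M := Dvd.dvd.mul_left
    (by rw [hM, mul_comm q N, mul_assoc]; exact dvd_mul_right _ _) m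
  have hN0 : (N : ℤ) ∣ (m : ℤ) * j0 := Dvd.dvd.mul_left (dvd_mul_right _ _) _
  have hN1 : (N : ℤ) ∣ (m : ℤ) * j1 := Dvd.dvd.mul_left (dvd_mul_right _ _) _
  have hmj0 : (((m : ℤ) * j0 : ℤ) : ℚ) = s₀ * ((m * M : ℕ) : ℚ) := by
    push_cast
    rw [hj0Q]
    ring
  have hmj1 : (((m : ℤ) * j1 : ℤ) : ℚ) = s₁ * ((m * M : ℕ) : ℚ) := by
    push_cast
    rw [hj1Q]
    ring
  have hkQ' : (0 : ℚ) < ((m * M : ℕ) : ℚ) := by exact_mod_cast hkpos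
  have c0 := hR.count (m * M) ((m : ℤ) * j0) hkpos hNk hN0
    (by rw [hmj0]; exact mul_le_mul_of_nonneg_right (by linarith) hkQ'.le)
    (by rw [hmj0]; exact mul_le_mul_of_nonneg_right (by linarith) hkQ'.le)
  have c1 := hR.count (m * M) ((m : ℤ) * j1) hkpos hNk hN1
    (by rw [hmj1]; exact mul_le_mul_of_nonneg_right (by linarith) hkQ'.le)
    (by rw [hmj1]; exact mul_le_mul_of_nonneg_right (by linarith) hkQ'.le)
  have hle : (m : ℤ) * j0 ≤ (m : ℤ) * j1 := by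
    have h2 : (((m : ℤ) * j0 : ℤ) : ℚ) ≤ (((m : ℤ) * j1 : ℤ) : ℚ) := by
      rw [hmj0, hmj1]
      exact mul_le_mul_of_nonneg_right h01.le hkQ'.le
    exact_mod_cast h2
  have c2 := F5b_const (fun j => S.L (m * M) j) ((m : ℤ) * j0) ((m : ℤ) * j1) hle
    (fun j ha hb => hL (m * M) hqk j
      (by rw [← hmj0]; exact_mod_cast ha) (by rw [← hmj1]; exact_mod_cast hb))
  have c3 : S'.L (m * M) ((m : ℤ) * j0) = S'.L (m * M) ((m : ℤ) * j1) := by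
    rw [← c0, ← c1]
    exact c2.symm
  rw [c3]

theorem translate_of_no_drop {ι κ : Type} [Fintype ι] [Finite κ] {S : Sys ι κ} {q : ℕ}
    (hS : S.Nice q) {T : ℚ} (hT : 1 / 2 < T)
    (hne : ∀ s : ℝ, 1 - (T : ℝ) ≤ s → s ≤ (T : ℝ) → (S.P s).Nonempty)
    {d N : ℕ} {S' : Sys (Fin d) κ} {p0 p1 : ι → ℚ} {e : Fin d → ι → ℤ}
    (hR : Reduced S T d N S' p0 p1 e) {s₀ s₁ : ℚ} (h0 : 1 / 2 ≤ s₀) (h01 : s₀ < s₁) (h1 : s₁ ≤ T)
    (hL : ∀ k : ℕ, q ∣ k → ∀ j : ℤ, s₀ * k ≤ (j : ℚ) → (j : ℚ) < s₁ * k →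
      S.L k (j + 1) = S.L k j) :
    ∃ w : ι → ℝ, ∀ x ∈ S.P (1 / 2), x + w ∈ S.P (s₀ : ℝ) := by
  have hTR : (1 / 2 : ℝ) < (T : ℝ) := by
    have : ((1 / 2 : ℚ) : ℝ) < ((T : ℚ) : ℝ) := by exact_mod_cast hT
    simpa using this
  have h0R : (1 / 2 : ℝ) ≤ (s₀ : ℝ) := by
    have : ((1 / 2 : ℚ) : ℝ) ≤ ((s₀ : ℚ) : ℝ) := by exact_mod_cast h0
    simpa using this
  have h01R : (s₀ : ℝ) < (s₁ : ℝ) := by exact_mod_cast h01
  have h1R : (s₁ : ℝ) ≤ (T : ℝ) := by exact_mod_cast h1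
  rcases h0R.eq_or_lt with heq | hlt
  · refine ⟨0, fun x hx => ?_⟩
    rw [add_zero, ← heq]
    exact hx
  have hs₀a : 1 - (T : ℝ) ≤ (s₀ : ℝ) := by linarith
  have hs₀b : (s₀ : ℝ) ≤ (T : ℝ) := by linarith
  have hha : 1 - (T : ℝ) ≤ 1 / 2 := by linarith
  rcases Nat.eq_zero_or_pos d with hd | hd
  · subst hd
    refine ⟨fun i => ((s₀ : ℝ) - 1 / 2) * (p1 i : ℝ), fun x hx => ?_⟩
    obtain ⟨y, -, hy⟩ := (hR.slice (1 / 2) hha hTR.le x).mp hx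
    obtain ⟨z, hz⟩ := hne (s₀ : ℝ) hs₀a hs₀b
    obtain ⟨y', -, hy'⟩ := (hR.slice (s₀ : ℝ) hs₀a hs₀b z).mp hz
    have e : x + (fun i => ((s₀ : ℝ) - 1 / 2) * (p1 i : ℝ)) = z := by
      funext i
      rw [Pi.add_apply, hy i, hy' i]
      simp only [Finset.univ_eq_empty, Finset.sum_empty]
      ring
    rw [e]
    exact hz
  have hd0 : (0 : ℝ) < (d : ℝ) := by exact_mod_cast hd
  obtain ⟨R, hRb⟩ := hR.bdd
  have hV01 := F5b_vol hS hT hR h0 h01 h1 hL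
  -- the Brunn-Minkowski inequality
  set θ : ℝ := ((s₀ : ℝ) - 1 / 2) / ((s₁ : ℝ) - 1 / 2) with hθ
  have hden : 0 < (s₁ : ℝ) - 1 / 2 := by linarith
  have hθ0 : 0 ≤ θ := div_nonneg (by linarith) hden.le
  have hθ1 : θ < 1 := by
    rw [hθ, div_lt_one hden]
    linarith
  have hconv : (1 - θ) * (1 / 2) + θ * (s₁ : ℝ) = (s₀ : ℝ) := by
    have : θ * ((s₁ : ℝ) - 1 / 2) = (s₀ : ℝ) - 1 / 2 := div_mul_cancel₀ _ hden.ne'
    linarith
  have hbm := bm_slices hd S' (s₀ := 1 / 2) (s₁ := (s₁ : ℝ)) (θ := θ) (R := R) hθ0 hθ1.le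
    (F5b_ne hR hne _ hha hTR.le) (F5b_ne hR hne _ (by linarith) h1R) (by
      intro s hs
      rw [hconv] at hs
      rcases hs with rfl | rfl | hs
      · exact hRb _ hha hTR.le
      · exact hRb _ (by linarith) h1R
      · rw [Set.mem_singleton_iff] at hs
        rw [hs]
        exact hRb _ hs₀a hs₀b)
  rw [hconv, ← hV01] at hbm
  have hW : (volume (S'.P (1 / 2 : ℝ))).toReal ^ (1 / (d : ℝ)) ≤
      (volume (S'.P (s₀ : ℝ))).toReal ^ (1 / (d : ℝ)) := by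
    have h2 : (1 - θ) * (volume (S'.P (1 / 2 : ℝ))).toReal ^ (1 / (d : ℝ)) ≤
        (1 - θ) * (volume (S'.P (s₀ : ℝ))).toReal ^ (1 / (d : ℝ)) := by linarith
    exact le_of_mul_le_mul_left h2 (by linarith)
  have hV : (volume (S'.P (1 / 2 : ℝ))).toReal ≤ (volume (S'.P (s₀ : ℝ))).toReal :=
    (Real.rpow_le_rpow_iff ENNReal.toReal_nonneg ENNReal.toReal_nonneg
      (by positivity)).mp hW
  have hVmid := vol_le_mid hS hT hne hR (s := s₀) (by linarith) (by linarith)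
  have hVsym := vol_symm hS hT hR (s := s₀) (by linarith) (by linarith)
  have kA : IsCompact (S'.P (s₀ : ℝ)) := F5b_compact S' _ R (hRb _ hs₀a hs₀b)
  have kB : IsCompact (S'.P (1 - (s₀ : ℝ))) := F5b_compact S' _ R (hRb _ (by linarith) (by linarith))
  have kC : IsCompact (S'.P (1 / 2 : ℝ)) := F5b_compact S' _ R (hRb _ hha hTR.le)
  have fA : volume (S'.P (s₀ : ℝ)) ≠ ⊤ := kA.measure_lt_top.ne
  have fB : volume (S'.P (1 - (s₀ : ℝ))) ≠ ⊤ := kB.measure_lt_top.ne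
  have fC : volume (S'.P (1 / 2 : ℝ)) ≠ ⊤ := kC.measure_lt_top.ne
  have hAB : volume (S'.P (s₀ : ℝ)) = volume (S'.P (1 - (s₀ : ℝ))) :=
    (ENNReal.toReal_eq_toReal_iff' fA fB).mp hVsym
  have hCA : volume (S'.P (1 / 2 : ℝ)) ≤ volume (S'.P (s₀ : ℝ)) :=
    (ENNReal.toReal_le_toReal fC fA).mp hV
  have hposC : 0 < volume (S'.P (1 / 2 : ℝ)) :=
    Measure.measure_pos_of_nonempty_interior _ (hR.interior (1 / 2) (by linarith) hTR)
  have hmid : ∀ x ∈ S'.P (s₀ : ℝ), ∀ y ∈ S'.P (1 - (s₀ : ℝ)),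
      (1 / 2 : ℝ) • (x + y) ∈ S'.P (1 / 2 : ℝ) := by
    intro x hx y hy r
    have h2 := hx r
    have h3 := hy r
    have e2 : ∑ i, (S'.A r i : ℝ) * ((1 / 2 : ℝ) • (x + y)) i =
        (1 / 2) * (∑ i, (S'.A r i : ℝ) * x i + ∑ i, (S'.A r i : ℝ) * y i) := by
      rw [← Finset.sum_add_distrib, Finset.mul_sum]
      refine Finset.sum_congr rfl fun i _ => ?_
      simp only [Pi.add_apply, Pi.smul_apply, smul_eq_mul]
      ring
    rw [e2]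
    linarith
  obtain ⟨w', hw'⟩ := bm_eq_mid hd (F5b_convex S' _) (F5b_convex S' _) (F5b_convex S' _) kA kB kC
    hmid (hposC.trans_le hCA) hAB hCA
  refine ⟨fun i => ((s₀ : ℝ) - 1 / 2) * (p1 i : ℝ) - ∑ j, w' j * (e j i : ℝ), fun x hx => ?_⟩
  obtain ⟨y, hy, hxy⟩ := (hR.slice (1 / 2) hha hTR.le x).mp hx
  rw [hw'] at hy
  obtain ⟨y', hy', rfl⟩ := hy
  refine (hR.slice (s₀ : ℝ) hs₀a hs₀b _).mpr ⟨y', hy', fun i => ?_⟩
  rw [Pi.add_apply, hxy i]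
  have e3 : ∑ j, (y' + w') j * (e j i : ℝ) =
      ∑ j, y' j * (e j i : ℝ) + ∑ j, w' j * (e j i : ℝ) := by
    rw [← Finset.sum_add_distrib]
    refine Finset.sum_congr rfl fun j _ => ?_
    rw [Pi.add_apply, add_mul]
  rw [e3]
  ring

end H73TR
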