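import Pool.Agent.Lib.H73TR.F4b
import Pool.Agent.Lib.H73TR.F5a

/-!
# F5c (M/L): slices below a slice with a translate of the middle slice

Let `1/2 < s ≤ T`, `P(1/2) + w ⊆ P(s)`, and `s'` rational, `1/2 ≤ s' ≤ s`,
`θ = (s' - 1/2)/(s - 1/2)`.  For `x ∈ P(1/2)`: `x + θ w = (1-θ) x + θ (x + w) ∈ P(s')`, so
`P(1/2) + θ w ⊆ P(s')`.  In the coordinates of `Reduced`: `P'(1/2) + w' ⊆ P'(s')` for a vector `w'`
(`θ w + (1/2 - s') p1` is a difference of two points `∑ y_j e_j`, hence `= ∑ w'_j e_j`), both compact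
and convex, `vol P'(s') ≤ vol P'(1/2)` (`vol_le_mid`), positive: `eq_of_subset_of_volume` gives
`P'(s') = P'(1/2) + w'`, so `P(s') = P(1/2) + θ w`.
-/

namespace H73TR

open MeasureTheory

private theorem F5c_conv {ι κ : Type} [Fintype ι] (S : Sys ι κ) {s₀ s₁ θ : ℝ} (h0 : 0 ≤ θ) (h1 : θ ≤ 1)
    {x y : ι → ℝ} (hx : x ∈ S.P s₀) (hy : y ∈ S.P s₁) :
    (1 - θ) • x + θ • y ∈ S.P ((1 - θ) * s₀ + θ * s₁) := by
  intro r
  have e1 : ∑ i, (S.A r i : ℝ) * ((1 - θ) • x + θ • y) i =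
      (1 - θ) * ∑ i, (S.A r i : ℝ) * x i + θ * ∑ i, (S.A r i : ℝ) * y i := by
    rw [Finset.mul_sum, Finset.mul_sum, ← Finset.sum_add_distrib]
    refine Finset.sum_congr rfl fun i _ => ?_
    simp only [Pi.add_apply, Pi.smul_apply, smul_eq_mul]
    ring
  rw [e1]
  have hx' := mul_le_mul_of_nonneg_left (hx r) (sub_nonneg.2 h1)
  have hy' := mul_le_mul_of_nonneg_left (hy r) h0
  linarith

private theorem F5c_convex {ι κ : Type} [Fintype ι] (S : Sys ι κ) (s : ℝ) : Convex ℝ (S.P s) := by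
  intro x hx y hy a b ha hb hab
  have h := F5c_conv S hb (by linarith) hx hy
  have e1 : 1 - b = a := by linarith
  have e2 : a * s + b * s = s := by rw [← add_mul, hab, one_mul]
  rw [e1, e2] at h
  exact h

private theorem F5c_closed {ι κ : Type} [Fintype ι] (S : Sys ι κ) (s : ℝ) : IsClosed (S.P s) := by
  have e : S.P s = ⋂ r, {x : ι → ℝ | ∑ i, (S.A r i : ℝ) * x i ≤ (S.b r : ℝ) + s * (S.c r : ℝ)} := by
    ext x
    simp only [Set.mem_iInter]
    rfl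
  rw [e]
  refine isClosed_iInter fun r => isClosed_le ?_ continuous_const
  fun_prop

private theorem F5c_compact {d : ℕ} {κ : Type} (S : Sys (Fin d) κ) {s R : ℝ}
    (hb : ∀ y ∈ S.P s, ∀ i, |y i| ≤ R) : IsCompact (S.P s) := by
  have h1 : IsCompact (Set.univ.pi fun _ : Fin d => Set.Icc (-R) R) :=
    isCompact_univ_pi fun _ => isCompact_Icc
  refine h1.of_isClosed_subset (F5c_closed S s) ?_
  intro y hy i _
  exact abs_le.1 (hb y hy i)

theorem slice_eq_translate {ι κ : Type} [Fintype ι] [Finite κ] {S : Sys ι κ} {q : ℕ}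
    (hS : S.Nice q) {T : ℚ} (hT : 1 / 2 < T)
    (hne : ∀ s : ℝ, 1 - (T : ℝ) ≤ s → s ≤ (T : ℝ) → (S.P s).Nonempty)
    {d N : ℕ} {S' : Sys (Fin d) κ} {p0 p1 : ι → ℚ} {e : Fin d → ι → ℤ}
    (hR : Reduced S T d N S' p0 p1 e) {s : ℚ} (h0 : 1 / 2 < s) (h1 : s ≤ T) {w : ι → ℝ}
    (hw : ∀ x ∈ S.P (1 / 2), x + w ∈ S.P (s : ℝ)) {s' : ℚ} (h0' : 1 / 2 ≤ s') (h1' : s' ≤ s) :
    S.P (s' : ℝ) =
      (fun x => x + ((((s' : ℝ) - 1 / 2) / ((s : ℝ) - 1 / 2)) • w)) '' S.P (1 / 2) := by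
  set θ : ℝ := ((s' : ℝ) - 1 / 2) / ((s : ℝ) - 1 / 2) with hθ
  have hs : (1 / 2 : ℝ) < s := by
    have : ((1 / 2 : ℚ) : ℝ) < (s : ℝ) := by exact_mod_cast h0
    simpa using this
  have hs'0 : (1 / 2 : ℝ) ≤ s' := by
    have : ((1 / 2 : ℚ) : ℝ) ≤ (s' : ℝ) := by exact_mod_cast h0'
    simpa using this
  have hs's : (s' : ℝ) ≤ s := by exact_mod_cast h1'
  have hsT : (s : ℝ) ≤ T := by exact_mod_cast h1
  have hs2 : (0 : ℝ) < (s : ℝ) - 1 / 2 := by linarith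
  have hθ0 : 0 ≤ θ := div_nonneg (by linarith) hs2.le
  have hθ1 : θ ≤ 1 := (div_le_one hs2).2 (by linarith)
  have hθs : (1 - θ) * (1 / 2) + θ * s = s' := by
    have : θ * ((s : ℝ) - 1 / 2) = (s' : ℝ) - 1 / 2 := div_mul_cancel₀ _ hs2.ne'
    linarith
  have hstep : ∀ x ∈ S.P (1 / 2), x + θ • w ∈ S.P (s' : ℝ) := by
    intro x hx
    have h := F5c_conv S hθ0 hθ1 hx (hw x hx)
    rw [hθs] at h
    have e : (1 - θ) • x + θ • (x + w) = x + θ • w := by
      rw [smul_add, sub_smul, one_smul]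
      abel
    rwa [e] at h
  have hT1 : 1 - (T : ℝ) ≤ 1 / 2 := by linarith
  have hT2 : (1 / 2 : ℝ) ≤ T := by linarith
  have hsl0 := hR.slice (1 / 2) hT1 hT2
  have hsl1 := hR.slice (s' : ℝ) (by linarith) (by linarith)
  -- the translation in the coordinates
  obtain ⟨w', hw'⟩ : ∃ w' : Fin d → ℝ, ∀ i, θ * w i = ((s' : ℝ) - 1 / 2) * (p1 i : ℝ) +
      ∑ j, w' j * (e j i : ℝ) := by
    obtain ⟨x0, hx0⟩ := hS.ne
    obtain ⟨y0, -, hy0⟩ := (hsl0 x0).1 hx0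
    obtain ⟨y1, -, hy1⟩ := (hsl1 _).1 (hstep x0 hx0)
    refine ⟨y1 - y0, fun i => ?_⟩
    have a0 := hy0 i
    have a1 := hy1 i
    simp only [Pi.add_apply, Pi.smul_apply, smul_eq_mul] at a1
    have e1 : ∑ j, (y1 - y0) j * (e j i : ℝ) = ∑ j, y1 j * (e j i : ℝ) - ∑ j, y0 j * (e j i : ℝ) := by
      rw [← Finset.sum_sub_distrib]
      refine Finset.sum_congr rfl fun j _ => ?_
      rw [Pi.sub_apply, sub_mul]
    rw [e1]
    linarith
  have hsumadd : ∀ (y z : Fin d → ℝ) (i : ι), ∑ j, (y + z) j * (e j i : ℝ) =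
      ∑ j, y j * (e j i : ℝ) + ∑ j, z j * (e j i : ℝ) := by
    intro y z i
    rw [← Finset.sum_add_distrib]
    refine Finset.sum_congr rfl fun j _ => ?_
    rw [Pi.add_apply, add_mul]
  have hsub : (fun y => y + w') '' S'.P (1 / 2) ⊆ S'.P (s' : ℝ) := by
    rintro _ ⟨y, hy, rfl⟩
    have hx : (fun i => (p0 i : ℝ) + (1 / 2) * (p1 i : ℝ) + ∑ j, y j * (e j i : ℝ)) ∈ S.P (1 / 2) :=
      (hsl0 _).2 ⟨y, hy, fun i => rfl⟩
    obtain ⟨y', hy', hyy⟩ := (hsl1 _).1 (hstep _ hx)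
    have h2 : y' - (y + w') = 0 := by
      apply hR.inj
      intro i
      have a1 := hyy i
      simp only [Pi.add_apply, Pi.smul_apply, smul_eq_mul] at a1
      have e1 : ∑ j, (y' - (y + w')) j * (e j i : ℝ) =
          ∑ j, y' j * (e j i : ℝ) - ∑ j, (y + w') j * (e j i : ℝ) := by
        rw [← Finset.sum_sub_distrib]
        refine Finset.sum_congr rfl fun j _ => ?_
        rw [Pi.sub_apply, sub_mul]
      rw [e1, hsumadd]
      have a2 := hw' i
      linarith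
    have h3 : y' = y + w' := sub_eq_zero.1 h2
    show y + w' ∈ S'.P (s' : ℝ)
    rw [← h3]
    exact hy'
  obtain ⟨R, hRb⟩ := hR.bdd
  have hc0 : IsCompact (S'.P (1 / 2)) := F5c_compact S' (hRb (1 / 2) hT1 hT2)
  have hc1 : IsCompact (S'.P (s' : ℝ)) := F5c_compact S' (hRb (s' : ℝ) (by linarith) (by linarith))
  have hvimg : volume ((fun y => y + w') '' S'.P (1 / 2)) = volume (S'.P (1 / 2)) := by
    rw [Set.image_add_right, measure_preimage_add_right]
  have hint : (interior (S'.P (1 / 2))).Nonempty := by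
    have hT' : (1 / 2 : ℝ) < T := by
      have : ((1 / 2 : ℚ) : ℝ) < (T : ℝ) := by exact_mod_cast hT
      simpa using this
    exact hR.interior (1 / 2) (by linarith) hT'
  have hpos : 0 < volume (S'.P (1 / 2)) :=
    lt_of_lt_of_le (isOpen_interior.measure_pos volume hint) (measure_mono interior_subset)
  have hle : volume (S'.P (s' : ℝ)) ≤ volume (S'.P (1 / 2)) := by
    have h2 := vol_le_mid hS hT hne hR (s := s') (by linarith) (h1'.trans h1)
    exact (ENNReal.toReal_le_toReal hc1.measure_lt_top.ne hc0.measure_lt_top.ne).1 h2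
  have heq : (fun y => y + w') '' S'.P (1 / 2) = S'.P (s' : ℝ) :=
    eq_of_subset_of_volume (F5c_convex S' _) (hc0.image (continuous_id.add continuous_const)) hc1 hsub
      (by rw [hvimg]; exact hpos) (by rw [hvimg]; exact hle)
  ext x
  constructor
  · intro hx
    obtain ⟨y', hy', hxy⟩ := (hsl1 x).1 hx
    rw [← heq] at hy'
    obtain ⟨y, hy, rfl⟩ := hy'
    refine ⟨x - θ • w, (hsl0 _).2 ⟨y, hy, fun i => ?_⟩, by simp⟩
    have a1 := hxy i
    have a2 := hw' i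
    rw [hsumadd] at a1
    simp only [Pi.sub_apply, Pi.smul_apply, smul_eq_mul]
    linarith
  · rintro ⟨x0, hx0, rfl⟩
    exact hstep x0 hx0

end H73TR
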