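import Pool.Agent.Lib.H73TR.F5c

/-!
# F5d (M): no decrease below such a slice

`w` rational, `v = w / (s - 1/2)`, `K₀ ≥ 1` with `K₀ v` an integer vector.  For rational
`s' ∈ [1/2, s]`: `P(s') = P(1/2) + (s' - 1/2) v` (`slice_eq_translate`).  So for `q ∣ k`, `k ≥ 1` and
integers `j` with `k/2 ≤ j`, `j + K₀ ≤ s k` the translation by `K₀ v` is a bijection from the integer
points of `k P(j/k)` onto those of `k P((j+K₀)/k)`: `L k (j + K₀) = L k j`; by `mono` (`k ≤ 2 j`)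
`L k (j + 1) = L k j`.  For `1/2 ≤ t < s` and `j = k t` this applies as soon as
`k (s - t) ≥ K₀`.
-/

namespace H73TR

private theorem F5d_den {ι : Type} [Fintype ι] (v : ι → ℚ) :
    ∃ K₀ : ℕ, 0 < K₀ ∧ ∀ i, ∃ z : ℤ, (z : ℚ) = (K₀ : ℚ) * v i := by
  classical
  refine ⟨∏ i, (v i).den, Finset.prod_pos fun i _ => (v i).den_pos, fun i => ?_⟩
  obtain ⟨m, hm⟩ := Finset.dvd_prod_of_mem (fun i => (v i).den) (Finset.mem_univ i)
  refine ⟨(v i).num * m, ?_⟩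
  rw [hm]
  have h := Rat.mul_den_eq_num (v i)
  push_cast
  rw [← h]
  ring

private theorem F5d_mem {ι κ : Type} [Fintype ι] (S : Sys ι κ) {k : ℕ} (hk : 0 < k) (j : ℤ)
    (x : ι → ℤ) :
    (∀ r, ((∑ i, S.A r i * x i : ℤ) : ℚ) ≤ (k : ℚ) * S.b r + (j : ℚ) * S.c r) ↔
      (fun i => (x i : ℝ) / (k : ℝ)) ∈ S.P ((j : ℝ) / (k : ℝ)) := by
  have hk' : (0 : ℝ) < k := by exact_mod_cast hk
  show _ ↔ ∀ r, ∑ i, (S.A r i : ℝ) * ((x i : ℝ) / (k : ℝ)) ≤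
    (S.b r : ℝ) + ((j : ℝ) / (k : ℝ)) * (S.c r : ℝ)
  refine forall_congr' fun r => ?_
  have e1 : ∑ i, (S.A r i : ℝ) * ((x i : ℝ) / (k : ℝ)) =
      (((∑ i, S.A r i * x i : ℤ) : ℚ) : ℝ) / k := by
    push_cast
    rw [Finset.sum_div]
    refine Finset.sum_congr rfl fun i _ => ?_
    ring
  have e2 : (S.b r : ℝ) + ((j : ℝ) / (k : ℝ)) * (S.c r : ℝ) =
      (((k : ℚ) * S.b r + (j : ℚ) * S.c r : ℚ) : ℝ) / k := by
    push_cast
    field_simp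
  rw [e1, e2, div_le_div_iff_of_pos_right hk', Rat.cast_le]

private theorem F5d_shift {ι κ : Type} [Fintype ι] {S : Sys ι κ} {s : ℝ} {w : ι → ℝ} {s' s'' : ℝ}
    (h1 : S.P s' = (fun x => x + (((s' - 1 / 2) / (s - 1 / 2)) • w)) '' S.P (1 / 2))
    (h2 : S.P s'' = (fun x => x + (((s'' - 1 / 2) / (s - 1 / 2)) • w)) '' S.P (1 / 2))
    (x : ι → ℝ) : x ∈ S.P s' ↔ (x + ((s'' - s') / (s - 1 / 2)) • w) ∈ S.P s'' := by
  have e : (s' - 1 / 2) / (s - 1 / 2) + (s'' - s') / (s - 1 / 2) =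
      (s'' - 1 / 2) / (s - 1 / 2) := by
    rw [← add_div]
    congr 1
    ring
  rw [h1, h2]
  constructor
  · rintro ⟨y, hy, rfl⟩
    refine ⟨y, hy, ?_⟩
    show y + ((s'' - 1 / 2) / (s - 1 / 2)) • w =
      y + ((s' - 1 / 2) / (s - 1 / 2)) • w + ((s'' - s') / (s - 1 / 2)) • w
    rw [← e, add_smul, add_assoc]
  · rintro ⟨y, hy, hyx⟩
    refine ⟨y, hy, ?_⟩
    have hyx' : y + ((s'' - 1 / 2) / (s - 1 / 2)) • w =
        x + ((s'' - s') / (s - 1 / 2)) • w := hyx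
    rw [← e, add_smul, ← add_assoc] at hyx'
    exact add_right_cancel hyx'

theorem no_drop_of_translate {ι κ : Type} [Fintype ι] [Finite κ] {S : Sys ι κ} {q : ℕ}
    (hS : S.Nice q) {T : ℚ} (hT : 1 / 2 < T)
    (hne : ∀ s : ℝ, 1 - (T : ℝ) ≤ s → s ≤ (T : ℝ) → (S.P s).Nonempty)
    {d N : ℕ} {S' : Sys (Fin d) κ} {p0 p1 : ι → ℚ} {e : Fin d → ι → ℤ}
    (hR : Reduced S T d N S' p0 p1 e) {s : ℚ} (h0 : 1 / 2 < s) (h1 : s ≤ T) {w : ι → ℚ}
    (hw : ∀ x ∈ S.P (1 / 2), (x + fun i => (w i : ℝ)) ∈ S.P (s : ℝ)) {t : ℚ} (ht0 : 1 / 2 ≤ t)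
    (ht : t < s) :
    ∃ K : ℕ, ∀ k : ℕ, K ≤ k → q ∣ k → ∀ j : ℤ, (j : ℚ) = k * t → S.L k (j + 1) = S.L k j := by
  classical
  have hs : (0 : ℚ) < s - 1 / 2 := by linarith
  have hsr : (0 : ℝ) < (s : ℝ) - 1 / 2 := by
    have h := (Rat.cast_lt (K := ℝ)).mpr hs
    push_cast at h
    exact h
  obtain ⟨K₀, hK₀, hz⟩ := F5d_den (fun i => w i / (s - 1 / 2))
  choose u hu using hz
  have hur : ∀ i, (u i : ℝ) = (K₀ : ℝ) * ((w i : ℝ) / ((s : ℝ) - 1 / 2)) := by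
    intro i
    have h := congrArg (fun z : ℚ => (z : ℝ)) (hu i)
    push_cast at h
    exact h
  -- the shift by `K₀` steps
  have hshift : ∀ k : ℕ, 0 < k → ∀ j : ℤ, (k : ℚ) / 2 ≤ j → (j : ℚ) + K₀ ≤ s * k →
      S.L k j = S.L k (j + K₀) := by
    intro k hk j hj1 hj2
    have hkq : (0 : ℚ) < k := by exact_mod_cast hk
    have hkr : (0 : ℝ) < k := by exact_mod_cast hk
    have hK0q : (0 : ℚ) < K₀ := by exact_mod_cast hK₀
    have a1 : (1 : ℚ) / 2 ≤ (j : ℚ) / k := by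
      rw [div_le_div_iff₀ (by norm_num) hkq]
      linarith
    have a2 : (j : ℚ) / k ≤ s := by
      rw [div_le_iff₀ hkq]
      linarith
    have a3 : (1 : ℚ) / 2 ≤ ((j : ℚ) + K₀) / k := by
      rw [div_le_div_iff₀ (by norm_num) hkq]
      linarith
    have a4 : ((j : ℚ) + K₀) / k ≤ s := by
      rw [div_le_iff₀ hkq]
      linarith
    have b1 := slice_eq_translate hS hT hne hR h0 h1 hw a1 a2
    have b2 := slice_eq_translate hS hT hne hR h0 h1 hw a3 a4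
    unfold Sys.L
    refine Nat.card_congr (Equiv.subtypeEquiv (Equiv.addRight u) fun x => ?_)
    rw [F5d_mem S hk, F5d_mem S hk]
    have c1 : (((j : ℚ) / (k : ℚ) : ℚ) : ℝ) = (j : ℝ) / (k : ℝ) := by push_cast; rfl
    have c2 : ((((j : ℚ) + (K₀ : ℚ)) / (k : ℚ) : ℚ) : ℝ) = ((j + (K₀ : ℤ) : ℤ) : ℝ) / (k : ℝ) := by
      push_cast
      rfl
    rw [c1] at b1
    rw [c2] at b2
    rw [F5d_shift b1 b2]
    have e : ((fun i => (x i : ℝ) / (k : ℝ)) +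
        ((((j + (K₀ : ℤ) : ℤ) : ℝ) / (k : ℝ) - (j : ℝ) / (k : ℝ)) / ((s : ℝ) - 1 / 2)) •
          (fun i => (w i : ℝ))) = fun i => (((Equiv.addRight u) x) i : ℝ) / (k : ℝ) := by
      funext i
      simp only [Pi.add_apply, Pi.smul_apply, smul_eq_mul, Equiv.coe_addRight]
      push_cast
      rw [hur i]
      have hne' : (s : ℝ) - 1 / 2 ≠ 0 := hsr.ne'
      field_simp
      ring
    rw [e]
  -- monotonicity
  have hmono : ∀ k : ℕ, q ∣ k → ∀ j : ℤ, (k : ℤ) ≤ 2 * j → ∀ n : ℕ,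
      S.L k (j + 1 + n) ≤ S.L k (j + 1) := by
    intro k hqk j hj n
    induction n with
    | zero => simp
    | succ n ih =>
      refine le_trans ?_ ih
      have := hS.mono k hqk (j + 1 + n) (by omega)
      have e : j + 1 + ((n + 1 : ℕ) : ℤ) = j + 1 + (n : ℤ) + 1 := by push_cast; ring
      rw [e]
      exact this
  have hst : (0 : ℚ) < s - t := by linarith
  obtain ⟨K, hK⟩ := exists_nat_ge ((K₀ : ℚ) / (s - t))
  refine ⟨K + 1, ?_⟩
  intro k hk hqk j hj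
  have hk0 : 0 < k := by omega
  have hkq : (0 : ℚ) < k := by exact_mod_cast hk0
  have hKk : (K₀ : ℚ) / (s - t) ≤ k := by
    refine hK.trans ?_
    have : K ≤ k := by omega
    exact_mod_cast this
  rw [div_le_iff₀ hst] at hKk
  have d1 : (k : ℚ) / 2 ≤ j := by
    rw [hj]
    nlinarith
  have d2 : (j : ℚ) + K₀ ≤ s * k := by
    rw [hj]
    linarith
  have d3 : (k : ℤ) ≤ 2 * j := by
    have : (k : ℚ) ≤ 2 * j := by linarith
    exact_mod_cast this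
  have e1 := hshift k hk0 j d1 d2
  have e2 := hmono k hqk j d3 (K₀ - 1)
  have e3 : j + 1 + ((K₀ - 1 : ℕ) : ℤ) = j + K₀ := by
    push_cast [Nat.cast_sub (show 1 ≤ K₀ from hK₀)]
    ring
  rw [e3] at e2
  have e4 := hS.mono k hqk j d3
  omega

end H73TR
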