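import Pool.Agent.Lib.H73TR.R1

/-!
# R2 (M): rational optima of linear programs

Let `x` be a real maximizer of the linear form `v` on `{A x ≤ β}`.  Let `I` be the set of rows
which are tight at `x`.  By `rat_approx` for the rows in `I` there is a rational `y`, arbitrarily
close to `x`, with equality in the rows of `I`; if it is close enough, the other rows are still
satisfied (finitely many strict inequalities).  Put `u = y - x`: `A_r u = 0` for `r ∈ I`, so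
`x + t u` is feasible for all small `|t|`, so `v·u = 0` by maximality (both signs of `t`).
-/

namespace H73TR

open Finset

private theorem R2_bound {ι : Type} [Fintype ι] (a : ι → ℤ) (x y : ι → ℝ) {ε : ℝ}
    (h : ∀ i, |x i - y i| < ε) :
    |∑ i, (a i : ℝ) * (x i - y i)| ≤ (∑ i, |(a i : ℝ)|) * ε := by
  calc |∑ i, (a i : ℝ) * (x i - y i)| ≤ ∑ i, |(a i : ℝ) * (x i - y i)| :=
        Finset.abs_sum_le_sum_abs _ _
    _ ≤ ∑ i, |(a i : ℝ)| * ε := by
        refine Finset.sum_le_sum fun i _ => ?_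
        rw [abs_mul]
        exact mul_le_mul_of_nonneg_left (h i).le (abs_nonneg _)
    _ = (∑ i, |(a i : ℝ)|) * ε := by rw [Finset.sum_mul]

theorem lp_rational {ι κ : Type} [Fintype ι] [Finite κ] (A : κ → ι → ℤ) (β : κ → ℚ) (v : ι → ℤ)
    (x : ι → ℝ) (hx : ∀ r, ∑ i, (A r i : ℝ) * x i ≤ (β r : ℝ))
    (hmax : ∀ y : ι → ℝ, (∀ r, ∑ i, (A r i : ℝ) * y i ≤ (β r : ℝ)) →
      ∑ i, (v i : ℝ) * y i ≤ ∑ i, (v i : ℝ) * x i) :
    ∃ y : ι → ℚ, (∀ r, ∑ i, (A r i : ℚ) * y i ≤ β r) ∧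
      ((∑ i, (v i : ℚ) * y i : ℚ) : ℝ) = ∑ i, (v i : ℝ) * x i := by
  classical
  -- a common radius
  have hrad : ∀ r : κ, ∀ᶠ ε : ℝ in nhdsWithin 0 (Set.Ioi 0),
      ((∑ i, (A r i : ℝ) * x i) ≠ (β r : ℝ) →
        (∑ i, |(A r i : ℝ)|) * ε < (β r : ℝ) - ∑ i, (A r i : ℝ) * x i) := by
    intro r
    by_cases hr : (∑ i, (A r i : ℝ) * x i) = (β r : ℝ)
    · exact Filter.Eventually.of_forall fun ε h => absurd hr h
    · have hlt : (0 : ℝ) < (β r : ℝ) - ∑ i, (A r i : ℝ) * x i :=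
        sub_pos.mpr (lt_of_le_of_ne (hx r) hr)
      have hc : Filter.Tendsto (fun ε : ℝ => (∑ i, |(A r i : ℝ)|) * ε)
          (nhdsWithin 0 (Set.Ioi 0)) (nhds ((∑ i, |(A r i : ℝ)|) * 0)) :=
        ((continuous_const.mul continuous_id).tendsto (0 : ℝ)).mono_left nhdsWithin_le_nhds
      rw [mul_zero] at hc
      exact (hc.eventually (gt_mem_nhds hlt)).mono fun ε h _ => h
  obtain ⟨ε, hε, hε0⟩ : ∃ ε : ℝ, (∀ r, (∑ i, (A r i : ℝ) * x i) ≠ (β r : ℝ) →
      (∑ i, |(A r i : ℝ)|) * ε < (β r : ℝ) - ∑ i, (A r i : ℝ) * x i) ∧ 0 < ε := by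
    have h1 := Filter.eventually_all.mpr hrad
    have h2 : ∀ᶠ ε : ℝ in nhdsWithin 0 (Set.Ioi 0), (0 : ℝ) < ε := self_mem_nhdsWithin
    exact (h1.and h2).exists
  -- the tight rows
  obtain ⟨y, hy1, hy2⟩ := rat_approx
    (fun (r : {r : κ // (∑ i, (A r i : ℝ) * x i) = (β r : ℝ)}) => A r.1)
    (fun r => β r.1) x (fun r => r.2) hε0
  have hyR : ∀ r : κ, (∑ i, (A r i : ℝ) * x i) = (β r : ℝ) →
      ∑ i, (A r i : ℝ) * (y i : ℝ) = (β r : ℝ) := by
    intro r hr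
    have := hy1 ⟨r, hr⟩
    have h3 : ((∑ i, (A r i : ℚ) * y i : ℚ) : ℝ) = ((β r : ℚ) : ℝ) := by
      exact_mod_cast this
    push_cast at h3
    exact h3
  have hdiff : ∀ r : κ, ∑ i, (A r i : ℝ) * (x i - (y i : ℝ)) =
      (∑ i, (A r i : ℝ) * x i) - ∑ i, (A r i : ℝ) * (y i : ℝ) := by
    intro r
    rw [← Finset.sum_sub_distrib]
    exact Finset.sum_congr rfl fun i _ => by ring
  -- feasibility of y
  have hfy : ∀ r : κ, ∑ i, (A r i : ℝ) * (y i : ℝ) ≤ (β r : ℝ) := by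
    intro r
    by_cases hr : (∑ i, (A r i : ℝ) * x i) = (β r : ℝ)
    · exact (hyR r hr).le
    · have h1 := hε r hr
      have h2 := R2_bound (A r) x (fun i => (y i : ℝ)) hy2
      rw [hdiff r] at h2
      have h3 := (abs_le.mp h2).1
      linarith
  -- feasibility of 2x - y
  have hfz : ∀ r : κ, ∑ i, (A r i : ℝ) * (2 * x i - (y i : ℝ)) ≤ (β r : ℝ) := by
    intro r
    have h0 : ∑ i, (A r i : ℝ) * (2 * x i - (y i : ℝ)) =
        2 * (∑ i, (A r i : ℝ) * x i) - ∑ i, (A r i : ℝ) * (y i : ℝ) := by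
      rw [Finset.mul_sum, ← Finset.sum_sub_distrib]
      exact Finset.sum_congr rfl fun i _ => by ring
    rw [h0]
    by_cases hr : (∑ i, (A r i : ℝ) * x i) = (β r : ℝ)
    · rw [hyR r hr, hr]; linarith
    · have h1 := hε r hr
      have h2 := R2_bound (A r) x (fun i => (y i : ℝ)) hy2
      rw [hdiff r] at h2
      have h3 := (abs_le.mp h2).2
      linarith
  refine ⟨y, fun r => ?_, ?_⟩
  · have h := hfy r
    have h' : ((∑ i, (A r i : ℚ) * y i : ℚ) : ℝ) ≤ ((β r : ℚ) : ℝ) := by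
      push_cast
      exact h
    exact_mod_cast h'
  · push_cast
    refine le_antisymm (hmax _ hfy) ?_
    have h1 := hmax _ hfz
    have h0 : ∑ i, (v i : ℝ) * (2 * x i - (y i : ℝ)) =
        2 * (∑ i, (v i : ℝ) * x i) - ∑ i, (v i : ℝ) * (y i : ℝ) := by
      rw [Finset.mul_sum, ← Finset.sum_sub_distrib]
      exact Finset.sum_congr rfl fun i _ => by ring
    rw [h0] at h1
    linarith

end H73TR
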