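import Pool.Agent.Lib.H73TR.Defs3
import Pool.Agent.Lib.H73TR.R2

/-!
# T2 (M): the last slice which contains a translate of the middle slice

(1) For each row `r` the maximum `h r` of `A_r` on the compact polytope `P(1/2)` is attained and
rational (`lp_rational`, `v = A_r`; the rows of `P(1/2)` are `A_r x ≤ b_r + c_r / 2`, rational right
sides).
(2) `P(1/2) + w ⊆ P(s)` iff `h r + A_r w ≤ b_r + s c_r` for all rows `r`.
(3) The set of `(s, w)` with this property is closed; it is bounded: `0 ≤ s ≤ 1`, and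
`w = (x + w) - x` with `x ∈ P(1/2)`, `x + w ∈ P(s)` has entries at most `2R`; it contains `(1/2, 0)`.
So `s` has a maximum on it and by `lp_rational` in the variables `Option ι` (rows
`A_r w - c_r s ≤ b_r - h r`, multiplied by the denominators of `c_r`) the maximum is rational and
attained at a rational `(τ, w)`.
-/

namespace H73TR

open Finset

/-- The set of all pairs of a parameter and a point of its slice is closed. -/
theorem t2_isClosed {ι κ : Type} [Fintype ι] (S : Sys ι κ) :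
    IsClosed {z : Option ι → ℝ | (fun i => z (some i)) ∈ S.P (z none)} := by
  have h : {z : Option ι → ℝ | (fun i => z (some i)) ∈ S.P (z none)} =
      ⋂ r, {z : Option ι → ℝ | ∑ i, (S.A r i : ℝ) * z (some i) ≤
        (S.b r : ℝ) + z none * (S.c r : ℝ)} := by
    ext z
    simp [Sys.P]
  rw [h]
  exact isClosed_iInter fun r => isClosed_le (by fun_prop) (by fun_prop)

/-- The largest parameter with a nonempty slice is attained and rational, with a rational point. -/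
theorem t2_max {ι κ : Type} [Fintype ι] [Finite κ] (S : Sys ι κ) {R : ℝ}
    (hb : ∀ (s : ℝ) (x : ι → ℝ), x ∈ S.P s → |s| ≤ R ∧ ∀ i, |x i| ≤ R) {s₀ : ℝ}
    (hne : (S.P s₀).Nonempty) :
    ∃ (T : ℚ) (y : ι → ℚ), (fun i => (y i : ℝ)) ∈ S.P (T : ℝ) ∧
      ∀ s : ℝ, (S.P s).Nonempty → s ≤ (T : ℝ) := by
  classical
  set K : Set (Option ι → ℝ) := {z | (fun i => z (some i)) ∈ S.P (z none)} with hK
  have hKc : IsCompact K := by
    have hsub : K ⊆ Set.Icc (fun _ => -R) (fun _ => R) := by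
      intro z hz
      obtain ⟨h1, h2⟩ := hb _ _ hz
      refine ⟨fun o => ?_, fun o => ?_⟩
      · cases o with
        | none => exact (abs_le.mp h1).1
        | some i => exact (abs_le.mp (h2 i)).1
      · cases o with
        | none => exact (abs_le.mp h1).2
        | some i => exact (abs_le.mp (h2 i)).2
    exact isCompact_Icc.of_isClosed_subset (t2_isClosed S) hsub
  obtain ⟨x₀, hx₀⟩ := hne
  have hKne : K.Nonempty := ⟨fun o => o.elim s₀ x₀, hx₀⟩
  obtain ⟨z, hzK, hzmax⟩ := hKc.exists_isMaxOn hKne ((continuous_apply none).continuousOn)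
  have hzmax' : ∀ y ∈ K, y none ≤ z none := fun y hy => hzmax hy
  let A' : κ → Option ι → ℤ := fun r o =>
    o.elim (-(S.c r).num) (fun i => ((S.c r).den : ℤ) * S.A r i)
  let β' : κ → ℚ := fun r => ((S.c r).den : ℚ) * S.b r
  let v : Option ι → ℤ := fun o => o.elim 1 (fun _ => 0)
  have hiff : ∀ z : Option ι → ℝ, (∀ r, ∑ o, (A' r o : ℝ) * z o ≤ (β' r : ℝ)) ↔ z ∈ K := by
    intro z
    refine forall_congr' fun r => ?_
    have hd : (0 : ℝ) < ((S.c r).den : ℝ) := by exact_mod_cast (S.c r).den_pos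
    have hnum : ((S.c r).den : ℝ) * (S.c r : ℝ) = ((S.c r).num : ℝ) := by
      have h := Rat.mul_den_eq_num (S.c r)
      rw [mul_comm]
      exact_mod_cast h
    have h1 : ∑ o, (A' r o : ℝ) * z o =
        -((S.c r).num : ℝ) * z none + ((S.c r).den : ℝ) * ∑ i, (S.A r i : ℝ) * z (some i) := by
      rw [Fintype.sum_option, Finset.mul_sum]
      simp only [A', Option.elim_none, Option.elim_some, Int.cast_neg, Int.cast_mul,
        Int.cast_natCast, mul_assoc]
    have h2 : ((β' r : ℚ) : ℝ) = ((S.c r).den : ℝ) * (S.b r : ℝ) := by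
      simp only [β', Rat.cast_mul, Rat.cast_natCast]
    rw [h1, h2, ← hnum]
    constructor
    · intro h
      have h3 : ((S.c r).den : ℝ) * ∑ i, (S.A r i : ℝ) * z (some i) ≤
          ((S.c r).den : ℝ) * ((S.b r : ℝ) + z none * (S.c r : ℝ)) := by
        nlinarith
      exact le_of_mul_le_mul_left h3 hd
    · intro h
      have h3 := mul_le_mul_of_nonneg_left h hd.le
      nlinarith
  have hv : ∀ z : Option ι → ℝ, ∑ o, (v o : ℝ) * z o = z none := by
    intro z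
    rw [Fintype.sum_option]
    simp [v]
  obtain ⟨y, hy1, hy2⟩ := lp_rational A' β' v z ((hiff z).mpr hzK)
    (fun y hy => by rw [hv, hv]; exact hzmax' y ((hiff y).mp hy))
  have hyn : ((y none : ℚ) : ℝ) = z none := by
    rw [hv] at hy2
    rw [← hy2, Fintype.sum_option]
    simp [v]
  refine ⟨y none, fun i => y (some i), ?_, ?_⟩
  · have h4 : (fun o => ((y o : ℚ) : ℝ)) ∈ K := (hiff _).mp (fun r => by exact_mod_cast hy1 r)
    exact h4
  · rintro s ⟨x, hx⟩
    have h5 : (fun o : Option ι => o.elim s x) ∈ K := hx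
    rw [hyn]
    exact hzmax' _ h5

theorem exists_tau {ι κ : Type} [Fintype ι] [Finite κ] (S : Sys ι κ) {q : ℕ} (hS : S.Nice q) :
    ∃ (τ : ℚ) (w : ι → ℚ) (h : κ → ℚ), 1 / 2 ≤ τ ∧
      IsGreatest {s : ℝ | ∃ w : ι → ℝ, ∀ x ∈ S.P (1 / 2), x + w ∈ S.P s} (τ : ℝ) ∧
      (∀ x ∈ S.P (1 / 2), (x + fun i => (w i : ℝ)) ∈ S.P (τ : ℝ)) ∧
      (∀ r, IsGreatest ((fun x : ι → ℝ => ∑ i, (S.A r i : ℝ) * x i) '' S.P (1 / 2)) (h r : ℝ)) ∧
      IsGreatest {s : ℝ | ∃ w : ι → ℝ, ∀ r, (h r : ℝ) + ∑ i, (S.A r i : ℝ) * w i ≤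
        (S.b r : ℝ) + s * (S.c r : ℝ)} (τ : ℝ) := by
  classical
  obtain ⟨R, hR⟩ := hS.bdd
  have hcl : IsClosed (S.P (1 / 2)) := by
    have h : S.P (1 / 2) = ⋂ r, {x : ι → ℝ | ∑ i, (S.A r i : ℝ) * x i ≤
        (S.b r : ℝ) + (1 / 2) * (S.c r : ℝ)} := by
      ext x
      simp [Sys.P]
    rw [h]
    exact isClosed_iInter fun r => isClosed_le (by fun_prop) (by fun_prop)
  have hcomp : IsCompact (S.P (1 / 2)) := by
    have hsub : S.P (1 / 2) ⊆ Set.Icc (fun _ => -R) (fun _ => R) := by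
      intro x hx
      have h2 := (hR _ _ hx).2.2
      exact ⟨fun i => (abs_le.mp (h2 i)).1, fun i => (abs_le.mp (h2 i)).2⟩
    exact isCompact_Icc.of_isClosed_subset hcl hsub
  have hhr : ∀ r, ∃ h : ℚ,
      IsGreatest ((fun x : ι → ℝ => ∑ i, (S.A r i : ℝ) * x i) '' S.P (1 / 2)) (h : ℝ) := by
    intro r
    have hcont : Continuous (fun x : ι → ℝ => ∑ i, (S.A r i : ℝ) * x i) := by fun_prop
    obtain ⟨x, hx, hmax⟩ := hcomp.exists_isMaxOn hS.ne hcont.continuousOn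
    have hmem : ∀ z : ι → ℝ, (∀ r, ∑ i, (S.A r i : ℝ) * z i ≤
        ((S.b r + S.c r / 2 : ℚ) : ℝ)) → z ∈ S.P (1 / 2) := by
      intro z hz r'
      have h1 := hz r'
      push_cast at h1
      have h2 : (S.b r' : ℝ) + 1 / 2 * (S.c r' : ℝ) = (S.b r' : ℝ) + (S.c r' : ℝ) / 2 := by ring
      rw [h2]
      exact h1
    obtain ⟨y, hy1, hy2⟩ := lp_rational S.A (fun r => S.b r + S.c r / 2) (S.A r) x
      (fun r' => by
        have h1 := hx r'
        push_cast
        have h2 : (S.b r' : ℝ) + 1 / 2 * (S.c r' : ℝ) = (S.b r' : ℝ) + (S.c r' : ℝ) / 2 := by ring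
        rw [h2] at h1
        exact h1)
      (fun y hy => hmax (hmem y hy))
    refine ⟨∑ i, (S.A r i : ℚ) * y i, ?_⟩
    rw [hy2]
    refine ⟨⟨x, hx, rfl⟩, ?_⟩
    rintro _ ⟨z, hz, rfl⟩
    exact hmax hz
  choose h hh using hhr
  have hequiv : ∀ (s : ℝ) (w : ι → ℝ), (∀ x ∈ S.P (1 / 2), x + w ∈ S.P s) ↔
      ∀ r, (h r : ℝ) + ∑ i, (S.A r i : ℝ) * w i ≤ (S.b r : ℝ) + s * (S.c r : ℝ) := by
    intro s w
    have hsum : ∀ (r : κ) (x : ι → ℝ), ∑ i, (S.A r i : ℝ) * (x + w) i =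
        ∑ i, (S.A r i : ℝ) * x i + ∑ i, (S.A r i : ℝ) * w i := by
      intro r x
      rw [← Finset.sum_add_distrib]
      exact Finset.sum_congr rfl fun i _ => by rw [Pi.add_apply, mul_add]
    constructor
    · intro H r
      obtain ⟨x, hx, hxe⟩ := (hh r).1
      have h1 := H x hx r
      rw [hsum] at h1
      have hxe' : ∑ i, (S.A r i : ℝ) * x i = (h r : ℝ) := hxe
      rw [hxe'] at h1
      exact h1
    · intro H x hx r
      have h1 : ∑ i, (S.A r i : ℝ) * x i ≤ (h r : ℝ) := (hh r).2 ⟨x, hx, rfl⟩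
      have h2 := H r
      rw [hsum]
      linarith
  obtain ⟨x₁, hx₁⟩ := hS.ne
  let S2 : Sys ι κ := { A := S.A, b := fun r => S.b r - h r, c := S.c }
  have hS2 : ∀ (s : ℝ) (w : ι → ℝ), w ∈ S2.P s ↔
      ∀ r, (h r : ℝ) + ∑ i, (S.A r i : ℝ) * w i ≤ (S.b r : ℝ) + s * (S.c r : ℝ) := by
    intro s w
    refine forall_congr' fun r => ?_
    show ∑ i, (S.A r i : ℝ) * w i ≤ ((S.b r - h r : ℚ) : ℝ) + s * (S.c r : ℝ) ↔ _
    push_cast
    constructor
    · intro H
      linarith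
    · intro H
      linarith
  have hb2 : ∀ (s : ℝ) (w : ι → ℝ), w ∈ S2.P s → |s| ≤ max (2 * R) 1 ∧
      ∀ i, |w i| ≤ max (2 * R) 1 := by
    intro s w hw
    have h1 := (hequiv s w).mpr ((hS2 s w).mp hw)
    obtain ⟨h2, h3, h4⟩ := hR s _ (h1 x₁ hx₁)
    obtain ⟨-, -, h5⟩ := hR _ _ hx₁
    refine ⟨(abs_le.mpr ⟨by linarith, h3⟩).trans (le_max_right _ _),
      fun i => le_trans ?_ (le_max_left _ _)⟩
    have h6 := h4 i
    have h7 := h5 i
    rw [Pi.add_apply] at h6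
    have h8 : w i = (x₁ i + w i) - x₁ i := by ring
    rw [h8]
    calc |(x₁ i + w i) - x₁ i| ≤ |x₁ i + w i| + |x₁ i| := abs_sub _ _
      _ ≤ 2 * R := by linarith
  have hne2 : (S2.P (1 / 2)).Nonempty := by
    refine ⟨0, ?_⟩
    rw [hS2, ← hequiv]
    intro x hx
    rw [add_zero]
    exact hx
  obtain ⟨τ, w, hw, hmax⟩ := t2_max S2 hb2 hne2
  have hτ : (1 / 2 : ℝ) ≤ (τ : ℝ) := hmax _ hne2
  have hw' := (hS2 _ _).mp hw
  have hτ' : (((1 / 2 : ℚ)) : ℝ) ≤ (τ : ℝ) := by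
    push_cast
    exact hτ
  refine ⟨τ, w, h, Rat.cast_le.mp hτ', ⟨⟨_, (hequiv _ _).mpr hw'⟩, ?_⟩,
    (hequiv _ _).mpr hw', hh, ⟨⟨_, hw'⟩, ?_⟩⟩
  · rintro s ⟨w', hw'⟩
    exact hmax s ⟨w', (hS2 _ _).mpr ((hequiv _ _).mp hw')⟩
  · rintro s ⟨w', hw'⟩
    exact hmax s ⟨w', (hS2 _ _).mpr hw'⟩

end H73TR
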