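import Pool.Agent.Lib.H73TR.T1
import Pool.Agent.Lib.H73TR.T2
import Pool.Agent.Lib.H73TR.F1d
import Pool.Agent.Lib.H73TR.F5b
import Pool.Agent.Lib.H73TR.F5d

/-!
# F6 (M): the theorem for families of polytopes

`T` from `exists_last`, `τ, w, h` from `exists_tau`; `τ ≤ T` since `P(τ)` is nonempty.
Case `T = 1/2`: `τ = 1/2`; the statements with `t < τ` and with `s₀ < s₁` in `[τ, T]` are empty, and
for rational `s` in `[1/2, τ]`, `s = 1/2` and the translation vector is `0`.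
Case `T > 1/2`: take a reduction (`exists_reduced`).
Translates for rational `s ∈ [1/2, τ]`: `slice_eq_translate` (if `τ > 1/2`).
`t < τ`: `no_drop_of_translate` with `s = τ` and the rational `w`.
Density: let `τ ≤ s₀ < s₁ ≤ T`; apply `translate_of_no_drop` to `(s₀ + s₁)/2` and `s₁`: if there were
no drop, `P(1/2) + w ⊆ P((s₀+s₁)/2)` for some `w`, contradicting the maximality of `τ`.  So for
some `k` with `q ∣ k` and `j` with `(s₀+s₁)/2 k ≤ j < s₁ k`: `L k (j+1) ≠ L k j`; `k ≥ 1` because of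
`j < s₁ k`, `(s₀+s₁)/2 k ≤ j`, and `L k (j+1) < L k j` by `mono` (`2 j ≥ k`).
-/

namespace H73TR

open Finset

theorem family_theorem {ι κ : Type} [Fintype ι] [Finite κ] (S : Sys ι κ) {q : ℕ}
    (hS : S.Nice q) :
    ∃ (τ T : ℚ) (h : κ → ℚ), 1 / 2 ≤ τ ∧ τ ≤ T ∧ T ≤ 1 ∧
      IsGreatest {s : ℝ | (S.P s).Nonempty} (T : ℝ) ∧
      IsGreatest {s : ℝ | ∃ w : ι → ℝ, ∀ x ∈ S.P (1 / 2), x + w ∈ S.P s} (τ : ℝ) ∧
      (∀ s : ℚ, 1 / 2 ≤ s → s ≤ τ → ∃ w : ι → ℝ, S.P (s : ℝ) = (fun x => x + w) '' S.P (1 / 2)) ∧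
      (∀ r, IsGreatest ((fun x : ι → ℝ => ∑ i, (S.A r i : ℝ) * x i) '' S.P (1 / 2)) (h r : ℝ)) ∧
      IsGreatest {s : ℝ | ∃ w : ι → ℝ, ∀ r, (h r : ℝ) + ∑ i, (S.A r i : ℝ) * w i ≤
        (S.b r : ℝ) + s * (S.c r : ℝ)} (τ : ℝ) ∧
      (∀ t : ℚ, 1 / 2 ≤ t → t < τ → ∃ K : ℕ, ∀ k : ℕ, K ≤ k → q ∣ k → ∀ j : ℤ,
        (j : ℚ) = k * t → S.L k (j + 1) = S.L k j) ∧
      (∀ s₀ s₁ : ℚ, τ ≤ s₀ → s₀ < s₁ → s₁ ≤ T → ∃ (k : ℕ) (j : ℤ), 1 ≤ k ∧ q ∣ k ∧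
        s₀ * k ≤ (j : ℚ) ∧ (j : ℚ) ≤ s₁ * k ∧ S.L k (j + 1) < S.L k j) ∧
      ∃ (k : ℕ) (j : ℤ), 1 ≤ k ∧ q ∣ k ∧ (j : ℚ) = k * T ∧ 0 < S.L k j := by
  obtain ⟨T, hT1, hT2, hTg, hTne, hTk⟩ := exists_last S hS
  obtain ⟨τ, w, h, hτ1, hτg, hw, hh, hτ5⟩ := exists_tau S hS
  have hτT : τ ≤ T := by
    obtain ⟨x, hx⟩ := hS.ne
    have h1 : (τ : ℝ) ∈ {s : ℝ | (S.P s).Nonempty} := ⟨_, hw x hx⟩
    have h2 : (τ : ℝ) ≤ (T : ℝ) := hTg.2 h1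
    exact_mod_cast h2
  have hhalf : ∃ w : ι → ℝ, S.P ((1 / 2 : ℚ) : ℝ) = (fun x => x + w) '' S.P (1 / 2) := by
    refine ⟨0, ?_⟩
    have e : ((1 / 2 : ℚ) : ℝ) = 1 / 2 := by norm_num
    rw [e]
    ext x
    simp
  refine ⟨τ, T, h, hτ1, hτT, hT2, hTg, hτg, ?_, hh, hτ5, ?_, ?_, hTk⟩
  · intro s hs0 hs1
    rcases hs0.eq_or_lt with he | hlt
    · rw [← he]
      exact hhalf
    · have hτ2 : 1 / 2 < τ := lt_of_lt_of_le hlt hs1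
      have hT3 : 1 / 2 < T := lt_of_lt_of_le hτ2 hτT
      obtain ⟨d, N, S', p0, p1, e, hR⟩ := exists_reduced S hS hT3 hTne
      exact ⟨_, slice_eq_translate hS hT3 hTne hR hτ2 hτT hw hs0 hs1⟩
  · intro t ht0 ht1
    have hτ2 : 1 / 2 < τ := lt_of_le_of_lt ht0 ht1
    have hT3 : 1 / 2 < T := lt_of_lt_of_le hτ2 hτT
    obtain ⟨d, N, S', p0, p1, e, hR⟩ := exists_reduced S hS hT3 hTne
    exact no_drop_of_translate hS hT3 hTne hR hτ2 hτT hw ht0 ht1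
  · intro s₀ s₁ h0 h01 h1
    by_contra hcon
    have hT3 : 1 / 2 < T := by linarith
    obtain ⟨d, N, S', p0, p1, e, hR⟩ := exists_reduced S hS hT3 hTne
    have hm0 : 1 / 2 ≤ (s₀ + s₁) / 2 := by linarith
    have hm1 : (s₀ + s₁) / 2 < s₁ := by linarith
    have hL : ∀ k : ℕ, q ∣ k → ∀ j : ℤ, (s₀ + s₁) / 2 * k ≤ (j : ℚ) → (j : ℚ) < s₁ * k →
        S.L k (j + 1) = S.L k j := by
      intro k hqk j hj0 hj1
      have hk : 1 ≤ k := by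
        rcases Nat.eq_zero_or_pos k with hk0 | hk0
        · rw [hk0] at hj0 hj1
          simp only [Nat.cast_zero, mul_zero] at hj0 hj1
          exact absurd hj1 (not_lt.2 hj0)
        · exact hk0
      have hkq : (1 : ℚ) ≤ (k : ℚ) := by exact_mod_cast hk
      have hj2 : s₀ * k ≤ (j : ℚ) := by nlinarith
      have hj3 : (k : ℤ) ≤ 2 * j := by
        have h3 : (k : ℚ) ≤ 2 * (j : ℚ) := by nlinarith
        exact_mod_cast h3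
      have h4 := hS.mono k hqk j hj3
      by_contra hne
      exact hcon ⟨k, j, hk, hqk, hj2, hj1.le, lt_of_le_of_ne h4 hne⟩
    obtain ⟨w', hw'⟩ := translate_of_no_drop hS hT3 hTne hR hm0 hm1 h1 hL
    have h5 : (((s₀ + s₁) / 2 : ℚ) : ℝ) ≤ (τ : ℝ) := hτg.2 ⟨w', hw'⟩
    have h6 : (s₀ + s₁) / 2 ≤ τ := by exact_mod_cast h5
    linarith

end H73TR
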