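import Pool.Agent.Lib.H73TR.III4
import Pool.Agent.Lib.H73TR.F6

/-!
# Fin (M): the two-row theorem

If the middle slice is empty: a stretched-positive triple gives `L k j > 0`, so the middle slice is
nonempty by `middle_nonempty`.  Otherwise `exists_nice`, `family_theorem` and
`stretchedPositive_iff`, `kron_eq_L`, `mem_slice_iff`, `lin_eq`
(`(sysOf a b).b ρ + s * c ρ = ρ.gap a b s 0` by `gap_real` with `x = 0`).
For `t > T`: `L k j = 0` and `L k (j+1) = 0` (a lattice point divided by `k` is a point of `P(j/k)`).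
At `T`: `L k j > 0`, `L k (j+1) = 0`.
-/

namespace H73TR

open Finset

variable {l : ℕ}

/-- A lattice point divided by `k` is a point of the slice `P (j / k)`. -/
theorem fin_point {ι κ : Type} [Fintype ι] (S : Sys ι κ) {k : ℕ} (hk : 1 ≤ k) {j : ℤ}
    (h : 0 < S.L k j) : (S.P ((j : ℝ) / (k : ℝ))).Nonempty := by
  obtain ⟨⟨x, hx⟩⟩ : Nonempty {x : ι → ℤ // ∀ r, ((∑ i, S.A r i * x i : ℤ) : ℚ) ≤
      (k : ℚ) * S.b r + (j : ℚ) * S.c r} := (Nat.card_pos_iff.1 h).1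
  have hk0 : (0 : ℝ) < (k : ℝ) := by exact_mod_cast hk
  refine ⟨fun i => (x i : ℝ) / (k : ℝ), fun r => ?_⟩
  have h1 : (((∑ i, S.A r i * x i : ℤ) : ℚ) : ℝ) ≤
      (((k : ℚ) * S.b r + (j : ℚ) * S.c r : ℚ) : ℝ) := by exact_mod_cast hx r
  push_cast at h1
  have h2 : ∑ i, (S.A r i : ℝ) * ((x i : ℝ) / (k : ℝ)) =
      (∑ i, (S.A r i : ℝ) * (x i : ℝ)) / (k : ℝ) := by
    rw [Finset.sum_div]
    exact Finset.sum_congr rfl fun i _ => by ring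
  rw [h2, div_le_iff₀ hk0]
  calc ∑ i, (S.A r i : ℝ) * (x i : ℝ) ≤ (k : ℝ) * (S.b r : ℝ) + (j : ℝ) * (S.c r : ℝ) := h1
    _ = ((S.b r : ℝ) + (j : ℝ) / (k : ℝ) * (S.c r : ℝ)) * (k : ℝ) := by
      field_simp

/-- The curried form of a point. -/
theorem fin_mem (a b : Fin l → ℚ) (s : ℝ) (y : Fin l × Fin l → ℝ) :
    (fun i j => y (i, j)) ∈ Slice a b s ↔ y ∈ (sysOf a b).P s :=
  mem_slice_iff a b s fun i j => y (i, j)

theorem fin_nonempty (a b : Fin l → ℚ) (s : ℝ) :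
    (Slice a b s).Nonempty ↔ ((sysOf a b).P s).Nonempty := by
  constructor
  · rintro ⟨x, hx⟩
    exact ⟨_, (mem_slice_iff a b s x).1 hx⟩
  · rintro ⟨y, hy⟩
    exact ⟨_, (fin_mem a b s y).2 hy⟩

theorem fin_translate (a b : Fin l → ℚ) (s : ℝ) :
    (∃ w, ∀ x ∈ Slice a b (1 / 2), x + w ∈ Slice a b s) ↔
      ∃ w : Fin l × Fin l → ℝ, ∀ y ∈ (sysOf a b).P (1 / 2), y + w ∈ (sysOf a b).P s := by
  constructor
  · rintro ⟨w, hw⟩
    refine ⟨fun p => w p.1 p.2, fun y hy => ?_⟩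
    have h1 := hw (fun i j => y (i, j)) ((fin_mem a b _ y).2 hy)
    exact (mem_slice_iff a b s _).1 h1
  · rintro ⟨w, hw⟩
    refine ⟨fun i j => w (i, j), fun x hx => ?_⟩
    have h1 := hw (fun p => x p.1 p.2) ((mem_slice_iff a b _ x).1 hx)
    exact (mem_slice_iff a b s _).2 h1

theorem fin_lin_image (a b : Fin l → ℚ) (s : ℝ) (ρ : Row l) :
    ρ.lin '' Slice a b s =
      (fun x : Fin l × Fin l → ℝ => ∑ p, ((sysOf a b).A ρ p : ℝ) * x p) '' (sysOf a b).P s := by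
  ext z
  constructor
  · rintro ⟨x, hx, rfl⟩
    exact ⟨fun p => x p.1 p.2, (mem_slice_iff a b s x).1 hx, (lin_eq ρ x).symm⟩
  · rintro ⟨y, hy, rfl⟩
    exact ⟨fun i j => y (i, j), (fin_mem a b s y).2 hy, lin_eq ρ _⟩

theorem fin_gap_zero (a b : Fin l → ℚ) (s : ℝ) (ρ : Row l) :
    ρ.gap (fun i => (a i : ℝ)) (fun i => (b i : ℝ)) s (fun _ _ => 0) =
      ((sysOf a b).b ρ : ℝ) + s * ((sysOf a b).c ρ : ℝ) := by
  rw [gap_real]
  simp

theorem two_row (hl : 2 ≤ l) {a b : Fin l → ℚ} (ha : IsDistribution a) (hb : IsDistribution b) :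
    ((Slice a b (1 / 2)) = ∅ →
      ∀ t : ℚ, 1 / 2 ≤ t → ¬ StretchedPositive a b (twoRow l t (1 - t))) ∧
    ((Slice a b (1 / 2)).Nonempty → ∃ (τ T : ℚ) (h : Row l → ℚ), 1 / 2 ≤ τ ∧ τ ≤ T ∧ T ≤ 1 ∧
      IsGreatest {s : ℝ | (Slice a b s).Nonempty} (T : ℝ) ∧
      IsGreatest {s : ℝ | ∃ w, ∀ x ∈ Slice a b (1 / 2), x + w ∈ Slice a b s} (τ : ℝ) ∧
      (∀ ρ : Row l, IsGreatest (ρ.lin '' Slice a b (1 / 2)) (h ρ : ℝ)) ∧
      IsGreatest {s : ℝ | ∃ w : Fin l → Fin l → ℝ, ∀ ρ : Row l, (h ρ : ℝ) + ρ.lin w ≤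
        ρ.gap (fun i => (a i : ℝ)) (fun i => (b i : ℝ)) s (fun _ _ => 0)} (τ : ℝ) ∧
      (∀ s : ℚ, 1 / 2 ≤ s → s ≤ τ → ∃ w, Slice a b (s : ℝ) = (fun x => x + w) '' Slice a b (1 / 2)) ∧
      (∀ t : ℚ, T < t → ¬ StretchedPositive a b (twoRow l t (1 - t))) ∧
      StretchedPositive a b (twoRow l T (1 - T)) ∧
      (∀ t : ℚ, 1 / 2 ≤ t → t < τ → ∃ K : ℕ, ∀ k : ℕ, K ≤ k → ∀ lam mu nu : Fin l → ℕ,
        (∀ i, (lam i : ℚ) = k * a i) → (∀ i, (mu i : ℚ) = k * b i) →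
        (∀ i, (nu i : ℚ) = k * twoRow l t (1 - t) i) → kron k lam mu nu = 0) ∧
      ∀ s₀ s₁ : ℚ, τ ≤ s₀ → s₀ < s₁ → s₁ ≤ T →
        ∃ t : ℚ, s₀ ≤ t ∧ t ≤ s₁ ∧ StretchedPositive a b (twoRow l t (1 - t))) := by
  obtain ⟨q, hq1, hq, hnice⟩ := exists_nice hl ha hb
  constructor
  · intro hemp t ht hsp
    obtain ⟨-, k, j, hk, hqk, -, hlt⟩ := (stretchedPositive_iff hl ha hb hq ht).1 hsp
    obtain ⟨lam, mu, hlam, hmu⟩ := (hq k).1 hqk
    have h1 : 0 < chainCount lam mu j := by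
      rw [chainCount_eq_L a b hlam hmu]
      exact lt_of_le_of_lt (Nat.zero_le _) hlt
    obtain ⟨x, hx⟩ := middle_nonempty hl ha hb hk hlam hmu h1
    rw [hemp] at hx
    exact hx
  intro hne
  obtain ⟨τ, T, h, hτ1, hτT, hT1, hT, hτ, htr, hh, hhτ, hdrop, hdens, k₀, j₀, hk₀, hqk₀, hj₀,
    hpos₀⟩ := family_theorem (sysOf a b) (hnice hne)
  have hT2 : (1 : ℚ) / 2 ≤ T := hτ1.trans hτT
  have hup : ∀ (k : ℕ) (j : ℤ), 1 ≤ k → 0 < (sysOf a b).L k j → (j : ℚ) ≤ T * k := by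
    intro k j hk hL
    have hk0 : (0 : ℝ) < (k : ℝ) := by exact_mod_cast hk
    have h1 : (j : ℝ) / (k : ℝ) ≤ (T : ℝ) := hT.2 (fin_point _ hk hL)
    rw [div_le_iff₀ hk0] at h1
    exact_mod_cast h1
  refine ⟨τ, T, h, hτ1, hτT, hT1, ?_, ?_, ?_, ?_, ?_, ?_, ?_, ?_, ?_⟩
  · have e : {s : ℝ | (Slice a b s).Nonempty} = {s : ℝ | ((sysOf a b).P s).Nonempty} :=
      Set.ext fun s => fin_nonempty a b s
    rw [e]
    exact hT
  · have e : {s : ℝ | ∃ w, ∀ x ∈ Slice a b (1 / 2), x + w ∈ Slice a b s} =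
        {s : ℝ | ∃ w : Fin l × Fin l → ℝ, ∀ y ∈ (sysOf a b).P (1 / 2), y + w ∈ (sysOf a b).P s} :=
      Set.ext fun s => fin_translate a b s
    rw [e]
    exact hτ
  · intro ρ
    rw [fin_lin_image]
    exact hh ρ
  · have e : {s : ℝ | ∃ w : Fin l → Fin l → ℝ, ∀ ρ : Row l, (h ρ : ℝ) + ρ.lin w ≤
        ρ.gap (fun i => (a i : ℝ)) (fun i => (b i : ℝ)) s (fun _ _ => 0)} =
        {s : ℝ | ∃ w : Fin l × Fin l → ℝ, ∀ r, (h r : ℝ) + ∑ i, ((sysOf a b).A r i : ℝ) * w i ≤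
          ((sysOf a b).b r : ℝ) + s * ((sysOf a b).c r : ℝ)} := by
      ext s
      constructor
      · rintro ⟨w, hw⟩
        refine ⟨fun p => w p.1 p.2, fun ρ => ?_⟩
        have h1 := hw ρ
        rw [fin_gap_zero, lin_eq] at h1
        exact h1
      · rintro ⟨w, hw⟩
        refine ⟨fun i j => w (i, j), fun ρ => ?_⟩
        rw [fin_gap_zero, lin_eq]
        exact hw ρ
    rw [e]
    exact hhτ
  · intro s hs1 hs2
    obtain ⟨w, hw⟩ := htr s hs1 hs2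
    refine ⟨fun i j => w (i, j), ?_⟩
    ext x
    rw [mem_slice_iff, hw]
    constructor
    · rintro ⟨y, hy, hyx⟩
      refine ⟨fun i j => y (i, j), (fin_mem a b _ y).2 hy, ?_⟩
      funext i j
      exact congrFun hyx (i, j)
    · rintro ⟨y, hy, rfl⟩
      exact ⟨fun p => y p.1 p.2, (mem_slice_iff a b _ y).1 hy, rfl⟩
  · intro t ht hsp
    obtain ⟨-, k, j, hk, -, hj, hlt⟩ :=
      (stretchedPositive_iff hl ha hb hq (hT2.trans ht.le)).1 hsp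
    have h1 := hup k j hk (lt_of_le_of_lt (Nat.zero_le _) hlt)
    have hk0 : (0 : ℚ) < (k : ℚ) := by exact_mod_cast hk
    rw [hj, mul_comm] at h1
    exact absurd (le_of_mul_le_mul_right h1 hk0) (not_le.2 ht)
  · refine (stretchedPositive_iff hl ha hb hq hT2).2 ⟨hT1, k₀, j₀, hk₀, hqk₀, hj₀, ?_⟩
    rcases Nat.eq_zero_or_pos ((sysOf a b).L k₀ (j₀ + 1)) with h0 | h0
    · rw [h0]
      exact hpos₀
    · have h1 := hup k₀ (j₀ + 1) hk₀ h0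
      push_cast at h1
      rw [hj₀, mul_comm] at h1
      exact absurd h1 (by linarith)
  · intro t ht1 ht2
    obtain ⟨K, hK⟩ := hdrop t ht1 ht2
    refine ⟨K, fun k hk lam mu nu hlam hmu hnu => ?_⟩
    have hl0 : 0 < l := by omega
    have hj : (((nu ⟨0, hl0⟩ : ℕ) : ℤ) : ℚ) = k * t := by
      have h1 := hnu ⟨0, hl0⟩
      simp only [twoRow, if_true] at h1
      exact_mod_cast h1
    rw [kron_eq_L hl ha hb hlam hmu hnu hj, hK k hk ((hq k).2 ⟨lam, mu, hlam, hmu⟩) _ hj,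
      sub_self]
  · intro s₀ s₁ h0 h1 h2
    obtain ⟨k, j, hk, hqk, hj0, hj1, hlt⟩ := hdens s₀ s₁ h0 h1 h2
    have hk0 : (0 : ℚ) < (k : ℚ) := by exact_mod_cast hk
    have hle : s₀ ≤ (j : ℚ) / k := by rwa [le_div_iff₀ hk0]
    have hge : (j : ℚ) / k ≤ s₁ := by rwa [div_le_iff₀ hk0]
    refine ⟨(j : ℚ) / k, hle, hge, ?_⟩
    refine (stretchedPositive_iff hl ha hb hq ((hτ1.trans h0).trans hle)).2
      ⟨(hge.trans h2).trans hT1, k, j, hk, hqk, ?_, hlt⟩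
    rw [mul_div_cancel₀ _ hk0.ne']

end H73TR
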