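import Pool.Agent.Lib.H73TR.Defs2

/-!
# I1 (M): Burnside for words

The left side counts the pairs `(σ, F)`, `F = (f, f', f'') : Fin n → Fin l × Fin l × Fin l` with
`F ∘ σ = F` and contents `κ, κ', κ''` (the condition `F (σ i) = F i` is the conjunction of the
three conditions for `f, f', f''`).  The maps `F` with the given contents are acted on by the
permutations of the domain; the fixed points of `σ` are counted on the left side, the orbits are
the matrices on the right side (two maps with the same content differ by a permutation; a matrix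
of total `n` is the content of some map), so Burnside's lemma
(`MulAction.sum_card_fixedBy_eq_card_orbits_mul_card_group`) gives the claim.
-/

namespace H73TR

open Finset

/-- The maps with the three given contents. -/
private def I1X (n : ℕ) {l : ℕ} (κ κ' κ'' : Fin l → ℤ) : Type :=
  {F : Fin n → Fin l × Fin l × Fin l // (∀ j, content (fun i => (F i).1) j = κ j) ∧
    (∀ j, content (fun i => (F i).2.1) j = κ' j) ∧ (∀ j, content (fun i => (F i).2.2) j = κ'' j)}

private lemma I1_content_comp {n l : ℕ} (f : Fin n → Fin l) (σ : Equiv.Perm (Fin n)) (j : Fin l) :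
    content (fun i => f (σ i)) j = content f j := by
  unfold content
  norm_cast
  refine Finset.card_bij (fun i _ => σ i) ?_ ?_ ?_
  · intro a ha
    simpa using ha
  · intro a _ b _ h
    exact σ.injective h
  · intro b hb
    exact ⟨σ.symm b, by simpa using hb, by simp⟩

private instance I1act (n : ℕ) {l : ℕ} (κ κ' κ'' : Fin l → ℤ) :
    MulAction (Equiv.Perm (Fin n)) (I1X n κ κ' κ'') where
  smul σ F := ⟨fun i => F.1 (σ⁻¹ i), by
    refine ⟨fun j => ?_, fun j => ?_, fun j => ?_⟩
    · rw [I1_content_comp (fun i => (F.1 i).1) σ⁻¹ j]; exact F.2.1 j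
    · rw [I1_content_comp (fun i => (F.1 i).2.1) σ⁻¹ j]; exact F.2.2.1 j
    · rw [I1_content_comp (fun i => (F.1 i).2.2) σ⁻¹ j]; exact F.2.2.2 j⟩
  one_smul F := Subtype.ext rfl
  mul_smul σ τ F := Subtype.ext (by
    funext i
    change F.1 ((σ * τ)⁻¹ i) = F.1 (τ⁻¹ (σ⁻¹ i))
    rw [mul_inv_rev]; rfl)

private lemma I1_smul_val {n l : ℕ} (κ κ' κ'' : Fin l → ℤ) (σ : Equiv.Perm (Fin n))
    (F : I1X n κ κ' κ'') : (σ • F).1 = fun i => F.1 (σ⁻¹ i) := rfl

private noncomputable instance I1fin (n : ℕ) {l : ℕ} (κ κ' κ'' : Fin l → ℤ) :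
    Fintype (I1X n κ κ' κ'') := by
  classical
  unfold I1X
  infer_instance

private lemma I1_fixed {n l : ℕ} (κ κ' κ'' : Fin l → ℤ) (σ : Equiv.Perm (Fin n))
    (q : MulAction.fixedBy (I1X n κ κ' κ'') σ) (i : Fin n) : q.1.1 i = q.1.1 (σ i) := by
  have h0 : σ • q.1 = q.1 := MulAction.mem_fixedBy.1 q.2
  have h := congrFun (congrArg (fun z : I1X n κ κ' κ'' => z.1) h0) (σ i)
  change q.1.1 (σ⁻¹ (σ i)) = q.1.1 (σ i) at h
  have e : σ⁻¹ (σ i) = i := σ.symm_apply_apply i
  rwa [e] at h

/-- The three words as one map. -/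
private noncomputable def I1equiv {n l : ℕ} (κ κ' κ'' : Fin l → ℤ) (σ : Equiv.Perm (Fin n)) :
    ({f : Fin n → Fin l // (∀ i, f (σ i) = f i) ∧ ∀ j, content f j = κ j} ×
      {f : Fin n → Fin l // (∀ i, f (σ i) = f i) ∧ ∀ j, content f j = κ' j}) ×
      {f : Fin n → Fin l // (∀ i, f (σ i) = f i) ∧ ∀ j, content f j = κ'' j} ≃
      MulAction.fixedBy (I1X n κ κ' κ'') σ where
  toFun p := ⟨⟨fun i => (p.1.1.1 i, p.1.2.1 i, p.2.1 i), p.1.1.2.2, p.1.2.2.2, p.2.2.2⟩, by
    rw [MulAction.mem_fixedBy]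
    refine Subtype.ext ?_
    rw [I1_smul_val]
    funext i
    have h1 := p.1.1.2.1 (σ⁻¹ i)
    have h2 := p.1.2.2.1 (σ⁻¹ i)
    have h3 := p.2.2.1 (σ⁻¹ i)
    have e : σ (σ⁻¹ i) = i := σ.apply_symm_apply i
    rw [e] at h1 h2 h3
    simp only [h1, h2, h3]⟩
  invFun q := ((⟨fun i => (q.1.1 i).1, by
      intro i
      have h := I1_fixed κ κ' κ'' σ q i
      exact (congrArg Prod.fst h).symm, q.1.2.1⟩,
    ⟨fun i => (q.1.1 i).2.1, by
      intro i
      have h := I1_fixed κ κ' κ'' σ q i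
      exact (congrArg (fun z => z.2.1) h).symm, q.1.2.2.1⟩),
    ⟨fun i => (q.1.1 i).2.2, by
      intro i
      have h := I1_fixed κ κ' κ'' σ q i
      exact (congrArg (fun z => z.2.2) h).symm, q.1.2.2.2⟩)
  left_inv p := rfl
  right_inv q := rfl

private lemma I1_permChar {n l : ℕ} (κ : Fin l → ℤ) (σ : Equiv.Perm (Fin n)) :
    permChar κ σ =
      (Nat.card {f : Fin n → Fin l // (∀ i, f (σ i) = f i) ∧ ∀ j, content f j = κ j} : ℤ) := by
  unfold permChar
  rw [Nat.card_eq_fintype_card, Fintype.card_subtype]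

private lemma I1_left {n l : ℕ} (κ κ' κ'' : Fin l → ℤ) (σ : Equiv.Perm (Fin n)) :
    permChar κ σ * permChar κ' σ * permChar κ'' σ =
      (Nat.card (MulAction.fixedBy (I1X n κ κ' κ'') σ) : ℤ) := by
  rw [I1_permChar, I1_permChar, I1_permChar, ← Nat.card_congr (I1equiv κ κ' κ'' σ),
    Nat.card_prod, Nat.card_prod]
  push_cast
  ring

/-- The content of a map. -/
private def I1cont {n l : ℕ} (F : Fin n → Fin l × Fin l × Fin l) (i j t : Fin l) : ℕ :=
  (univ.filter fun x => F x = (i, j, t)).card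

private lemma I1_cont1 {n l : ℕ} (F : Fin n → Fin l × Fin l × Fin l) (i : Fin l) :
    ∑ j, ∑ t, (I1cont F i j t : ℤ) = content (fun x => (F x).1) i := by
  unfold I1cont content
  simp only [Finset.card_filter]
  push_cast
  simp only [Finset.sum_comm (s := (univ : Finset (Fin l))) (t := (univ : Finset (Fin n)))]
  refine Finset.sum_congr rfl fun x _ => ?_
  rw [Finset.sum_eq_single (F x).2.1, Finset.sum_eq_single (F x).2.2]
  · simp [Prod.ext_iff]
  · intro b _ hb
    rw [if_neg]
    intro h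
    exact hb (by rw [h])
  · simp
  · intro b _ hb
    refine Finset.sum_eq_zero fun t _ => ?_
    rw [if_neg]
    intro h
    exact hb (by rw [h])
  · simp

private lemma I1_cont2 {n l : ℕ} (F : Fin n → Fin l × Fin l × Fin l) (j : Fin l) :
    ∑ i, ∑ t, (I1cont F i j t : ℤ) = content (fun x => (F x).2.1) j := by
  unfold I1cont content
  simp only [Finset.card_filter]
  push_cast
  simp only [Finset.sum_comm (s := (univ : Finset (Fin l))) (t := (univ : Finset (Fin n)))]
  refine Finset.sum_congr rfl fun x _ => ?_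
  rw [Finset.sum_eq_single (F x).1, Finset.sum_eq_single (F x).2.2]
  · simp [Prod.ext_iff]
  · intro b _ hb
    rw [if_neg]
    intro h
    exact hb (by rw [h])
  · simp
  · intro b _ hb
    refine Finset.sum_eq_zero fun t _ => ?_
    rw [if_neg]
    intro h
    exact hb (by rw [h])
  · simp

private lemma I1_cont3 {n l : ℕ} (F : Fin n → Fin l × Fin l × Fin l) (t : Fin l) :
    ∑ i, ∑ j, (I1cont F i j t : ℤ) = content (fun x => (F x).2.2) t := by
  unfold I1cont content
  simp only [Finset.card_filter]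
  push_cast
  simp only [Finset.sum_comm (s := (univ : Finset (Fin l))) (t := (univ : Finset (Fin n)))]
  refine Finset.sum_congr rfl fun x _ => ?_
  rw [Finset.sum_eq_single (F x).1, Finset.sum_eq_single (F x).2.1]
  · simp [Prod.ext_iff]
  · intro b _ hb
    rw [if_neg]
    intro h
    exact hb (by rw [h])
  · simp
  · intro b _ hb
    refine Finset.sum_eq_zero fun t _ => ?_
    rw [if_neg]
    intro h
    exact hb (by rw [h])
  · simp

private lemma I1_contall {n l : ℕ} (F : Fin n → Fin l × Fin l × Fin l) :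
    ∑ i, ∑ j, ∑ t, I1cont F i j t = n := by
  unfold I1cont
  simp only [Finset.card_filter]
  simp only [Finset.sum_comm (s := (univ : Finset (Fin l))) (t := (univ : Finset (Fin n)))]
  have : ∀ x : Fin n, ∑ i, ∑ j, ∑ t, (if F x = (i, j, t) then 1 else 0) = 1 := by
    intro x
    rw [Finset.sum_eq_single (F x).1, Finset.sum_eq_single (F x).2.1,
      Finset.sum_eq_single (F x).2.2]
    · simp
    · intro b _ hb
      rw [if_neg]
      intro h
      exact hb (by rw [h])
    · simp
    · intro b _ hb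
      refine Finset.sum_eq_zero fun t _ => ?_
      rw [if_neg]
      intro h
      exact hb (by rw [h])
    · simp
    · intro b _ hb
      refine Finset.sum_eq_zero fun s _ => Finset.sum_eq_zero fun t _ => ?_
      rw [if_neg]
      intro h
      exact hb (by rw [h])
    · simp
  rw [Finset.sum_congr rfl fun x _ => this x]
  simp

private lemma I1_cont_comp {n l : ℕ} (F : Fin n → Fin l × Fin l × Fin l)
    (σ : Equiv.Perm (Fin n)) : I1cont (fun i => F (σ i)) = I1cont F := by
  funext i j t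
  unfold I1cont
  refine Finset.card_bij (fun i _ => σ i) ?_ ?_ ?_
  · intro a ha
    simpa using ha
  · intro a _ b _ h
    exact σ.injective h
  · intro b hb
    exact ⟨σ.symm b, by simpa using hb, by simp⟩

private lemma I1_perm_of_cont {n l : ℕ} (F F' : Fin n → Fin l × Fin l × Fin l)
    (h : I1cont F = I1cont F') : ∃ σ : Equiv.Perm (Fin n), ∀ i, F' (σ i) = F i := by
  classical
  have hc : ∀ c : Fin l × Fin l × Fin l, Nonempty ({x // F x = c} ≃ {x // F' x = c}) := by
    intro c
    rw [← Fintype.card_eq, Fintype.card_subtype, Fintype.card_subtype]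
    obtain ⟨i, j, t⟩ := c
    exact congrFun (congrFun (congrFun h i) j) t
  refine ⟨(Equiv.sigmaFiberEquiv F).symm.trans
    ((Equiv.sigmaCongrRight fun c => (hc c).some).trans (Equiv.sigmaFiberEquiv F')),
    fun i => ?_⟩
  exact ((hc (F i)).some ⟨i, rfl⟩).2

private lemma I1_exists {n l : ℕ} (M : Fin l → Fin l → Fin l → ℕ)
    (h : ∑ i, ∑ j, ∑ t, M i j t = n) :
    ∃ F : Fin n → Fin l × Fin l × Fin l, I1cont F = M := by
  classical
  have hcard : Fintype.card (Σ c : Fin l × Fin l × Fin l, Fin (M c.1 c.2.1 c.2.2)) = n := by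
    rw [Fintype.card_sigma]
    simp only [Fintype.card_fin]
    rw [Fintype.sum_prod_type]
    simp only [Fintype.sum_prod_type]
    exact h
  let e : Fin n ≃ (Σ c : Fin l × Fin l × Fin l, Fin (M c.1 c.2.1 c.2.2)) :=
    (finCongr hcard.symm).trans (Fintype.equivFin _).symm
  refine ⟨fun i => (e i).1, ?_⟩
  funext i j t
  unfold I1cont
  rw [← Fintype.card_subtype]
  rw [Fintype.card_congr (β := Fin (M i j t))]
  · simp
  · refine (e.subtypeEquiv (q := fun y => y.1 = (i, j, t)) fun a => Iff.rfl).trans ?_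
    exact Equiv.sigmaSubtype (i, j, t)

/-- Orbits are matrices. -/
private noncomputable def I1map {n l : ℕ} (κ κ' κ'' : Fin l → ℤ) :
    Quotient (MulAction.orbitRel (Equiv.Perm (Fin n)) (I1X n κ κ' κ'')) →
      {M : Fin l → Fin l → Fin l → ℕ //
        (∀ i, ∑ j, ∑ t, (M i j t : ℤ) = κ i) ∧ (∀ j, ∑ i, ∑ t, (M i j t : ℤ) = κ' j) ∧
        (∀ t, ∑ i, ∑ j, (M i j t : ℤ) = κ'' t) ∧ ∑ i, ∑ j, ∑ t, M i j t = n} :=
  Quotient.lift (fun F => ⟨I1cont F.1, fun i => by rw [I1_cont1]; exact F.2.1 i,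
    fun i => by rw [I1_cont2]; exact F.2.2.1 i, fun i => by rw [I1_cont3]; exact F.2.2.2 i,
    I1_contall F.1⟩) (by
      intro F F' hFF
      have hm := MulAction.orbitRel_apply.1 hFF
      obtain ⟨σ, hσ⟩ := hm
      have hσ' : (σ • F') = F := hσ
      refine Subtype.ext ?_
      change I1cont F.1 = I1cont F'.1
      rw [← hσ', I1_smul_val]
      exact I1_cont_comp F'.1 σ⁻¹)

private lemma I1map_bij {n l : ℕ} (κ κ' κ'' : Fin l → ℤ) :
    Function.Bijective (I1map (n := n) κ κ' κ'') := by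
  constructor
  · intro a b
    refine Quotient.inductionOn₂ a b fun F F' h => ?_
    have h' : I1cont F.1 = I1cont F'.1 := congrArg Subtype.val h
    obtain ⟨σ, hσ⟩ := I1_perm_of_cont F.1 F'.1 h'
    refine Quotient.sound ?_
    change MulAction.orbitRel (Equiv.Perm (Fin n)) (I1X n κ κ' κ'') F F'
    rw [MulAction.orbitRel_apply]
    refine ⟨σ⁻¹, Subtype.ext ?_⟩
    change (σ⁻¹ • F').1 = F.1
    rw [I1_smul_val]
    funext i
    simpa using hσ i
  · rintro ⟨M, h1, h2, h3, h4⟩
    obtain ⟨F, hF⟩ := I1_exists M h4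
    refine ⟨Quotient.mk _ ⟨F, fun j => ?_, fun j => ?_, fun j => ?_⟩, Subtype.ext hF⟩
    · rw [← I1_cont1, hF]; exact h1 j
    · rw [← I1_cont2, hF]; exact h2 j
    · rw [← I1_cont3, hF]; exact h3 j

theorem burnside (n : ℕ) {l : ℕ} (κ κ' κ'' : Fin l → ℤ) :
    ∑ σ : Equiv.Perm (Fin n), permChar κ σ * permChar κ' σ * permChar κ'' σ =
      (n.factorial : ℤ) * (Nat.card {M : Fin l → Fin l → Fin l → ℕ //
        (∀ i, ∑ j, ∑ t, (M i j t : ℤ) = κ i) ∧ (∀ j, ∑ i, ∑ t, (M i j t : ℤ) = κ' j) ∧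
        (∀ t, ∑ i, ∑ j, (M i j t : ℤ) = κ'' t) ∧ ∑ i, ∑ j, ∑ t, M i j t = n} : ℤ) := by
  classical
  rw [Finset.sum_congr rfl fun σ _ => I1_left κ κ' κ'' σ]
  have hB := MulAction.sum_card_fixedBy_eq_card_orbits_mul_card_group (Equiv.Perm (Fin n))
    (I1X n κ κ' κ'')
  rw [← Nat.card_congr (Equiv.ofBijective _ (I1map_bij (n := n) κ κ' κ''))]
  simp only [Nat.card_eq_fintype_card]
  rw [← Nat.cast_sum, ← Nat.cast_mul]
  rw [hB, Fintype.card_perm, Fintype.card_fin, mul_comm]

end H73TR
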