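import Pool.Agent.Lib.H73TR.Defs2

/-!
# I10 (M): chains and the chain system

The solutions `x` of the chain system with data `lam, mu, p` over `ℤ` are the same as the pairs
`(τ, y)`, `τ = x^0`, `y` = the chain `x^0, …, x^(l-1), lam`: the rows of type `le`, `inter` say that
consecutive shapes differ by horizontal strips (`inter k i` for `i = l - 1` says that the entries
are `≥ 0`, so `x` has values in `ℕ`, bounded by `lam`), `sizeLe`, `sizeGe` say `|τ| = p`, `wtLe`,
`wtGe` say `wt y k = mu k - τ k`, `dom` is `Good τ y` (`cells y k r = x^(k+1)_r - x^k_r`).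
For `l = 0` both sides are `1` if `p = 0` and `0` otherwise.
-/

namespace H73TR

open Finset

private theorem I10_big {l : ℕ} (a : Fin l → ℤ) (x : Fin l → Fin l → ℤ) (k : ℕ) {i : ℕ}
    (hi : l ≤ i) : ext a x k i = 0 := dif_neg (not_lt.2 hi)

private theorem I10_ext {l : ℕ} {lam : Fin l → ℕ} (y : Fin (l + 1) → Fin l → ℕ)
    (hlast : y (Fin.last l) = lam) (k i : ℕ) (hk : k < l + 1) (hi : i < l) :
    ext (fun i => (lam i : ℤ)) (fun k i => (y k.castSucc i : ℤ)) k i =
      (y ⟨k, hk⟩ ⟨i, hi⟩ : ℤ) := by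
  unfold ext
  rw [dif_pos hi]
  by_cases h : k < l
  · rw [dif_pos h]
    rfl
  · have hkl : k = l := by omega
    subst hkl
    rw [dif_neg h, ← hlast]
    rfl

private theorem I10_sum0 {l : ℕ} {lam : Fin l → ℕ} (y : Fin (l + 1) → Fin l → ℕ)
    (hlast : y (Fin.last l) = lam) :
    ∑ i ∈ range l, ext (fun i => (lam i : ℤ)) (fun k i => (y k.castSucc i : ℤ)) 0 i =
      ∑ i, (y 0 i : ℤ) := by
  rw [Finset.sum_range]
  exact Finset.sum_congr rfl fun i _ => I10_ext y hlast 0 i (Nat.succ_pos l) i.2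

private theorem I10_cells {l : ℕ} {lam : Fin l → ℕ} (y : Fin (l + 1) → Fin l → ℕ)
    (hlast : y (Fin.last l) = lam) (k : ℕ) (hk : k < l) (r : ℕ) :
    ext (fun i => (lam i : ℤ)) (fun k i => (y k.castSucc i : ℤ)) (k + 1) r -
      ext (fun i => (lam i : ℤ)) (fun k i => (y k.castSucc i : ℤ)) k r = cells y k r := by
  unfold cells
  by_cases hr : r < l
  · rw [dif_pos ⟨hk, hr⟩, I10_ext y hlast (k + 1) r (by omega) hr,
      I10_ext y hlast k r (by omega) hr]
    rfl
  · rw [dif_neg (fun h => hr h.2), I10_big _ _ _ (not_lt.1 hr), I10_big _ _ _ (not_lt.1 hr),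
      sub_zero]

private theorem I10_wt {l : ℕ} {lam : Fin l → ℕ} (y : Fin (l + 1) → Fin l → ℕ)
    (hlast : y (Fin.last l) = lam) (k : Fin l) :
    ∑ i ∈ range l, (ext (fun i => (lam i : ℤ)) (fun k i => (y k.castSucc i : ℤ)) (k + 1) i -
      ext (fun i => (lam i : ℤ)) (fun k i => (y k.castSucc i : ℤ)) k i) = wt y k := by
  unfold wt
  rw [Finset.sum_range, ← Finset.sum_sub_distrib]
  refine Finset.sum_congr rfl fun i _ => ?_
  rw [I10_ext y hlast (k + 1) i (by omega) i.2, I10_ext y hlast k i (by omega) i.2]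
  rfl

private theorem I10_iff {l : ℕ} {lam mu : Fin l → ℕ} {p : ℤ} (y : Fin (l + 1) → Fin l → ℕ)
    (hlast : y (Fin.last l) = lam) :
    IsChain (fun i => (lam i : ℤ)) (fun i => (mu i : ℤ)) p (fun k i => (y k.castSucc i : ℤ)) ↔
      ∑ i, (y 0 i : ℤ) = p ∧ (∀ j : Fin l, Strip (y j.castSucc) (y j.succ)) ∧ Good (y 0) y ∧
        ∀ k, (y 0 k : ℤ) + wt y k = (mu k : ℤ) := by
  set E : ℕ → ℕ → ℤ := ext (fun i => (lam i : ℤ)) (fun k i => (y k.castSucc i : ℤ)) with hE
  have e0 : ∑ i ∈ range l, E 0 i = ∑ i, (y 0 i : ℤ) := I10_sum0 y hlast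
  have e1 : ∀ k : ℕ, k < l → ∀ r : ℕ, E (k + 1) r - E k r = cells y k r := I10_cells y hlast
  have e2 : ∀ k : Fin l, ∑ i ∈ range l, (E (k + 1) i - E k i) = wt y k := I10_wt y hlast
  have e3 : ∀ (k i : ℕ) (hk : k < l + 1) (hi : i < l), E k i = (y ⟨k, hk⟩ ⟨i, hi⟩ : ℤ) :=
    I10_ext y hlast
  have e4 : ∀ i : Fin l, E 0 i = (y 0 i : ℤ) := fun i => e3 0 i (Nat.succ_pos l) i.2
  have gdom : ∀ k i : Fin l, (k : ℕ) + 1 < l →
      (E 0 k + ∑ r ∈ range i, (E (k + 1) r - E k r)) -
        (E 0 (k + 1) + ∑ r ∈ range (i + 1), (E (k + 2) r - E (k + 1) r)) =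
      (E 0 k + ∑ r ∈ range i, cells y k r) -
        (E 0 (k + 1) + ∑ r ∈ range (i + 1), cells y (k + 1) r) := by
    intro k i hk
    rw [Finset.sum_congr rfl fun r _ => e1 k k.2 r,
      Finset.sum_congr (s₁ := range ((i : ℕ) + 1)) rfl fun r _ => e1 (k + 1) hk r]
  constructor
  · intro h
    refine ⟨?_, ?_, ?_, ?_⟩
    · have h1 : 0 ≤ p - ∑ i ∈ range l, E 0 i := h .sizeLe
      have h2 : 0 ≤ (∑ i ∈ range l, E 0 i) - p := h .sizeGe
      rw [e0] at h1 h2
      omega
    · intro j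
      refine ⟨fun i => ?_, fun i => ?_⟩
      · have h1 : 0 ≤ E (j + 1) i - E j i := h (.le j i)
        rw [e3 (j + 1) i (by omega) i.2, e3 j i (by omega) i.2] at h1
        have h2 : (y j.castSucc i : ℤ) ≤ (y j.succ i : ℤ) := sub_nonneg.1 h1
        exact_mod_cast h2
      · have h1 : 0 ≤ E j i - E (j + 1) (i + 1) := h (.inter j i)
        unfold nxt
        split_ifs with hi
        · rw [e3 (j + 1) (i + 1) (by omega) hi, e3 j i (by omega) i.2] at h1
          have h2 : (y j.succ ⟨i + 1, hi⟩ : ℤ) ≤ (y j.castSucc i : ℤ) := sub_nonneg.1 h1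
          exact_mod_cast h2
        · exact Nat.zero_le _
    · intro k hk i
      have h1 : 0 ≤ if (((⟨k, by omega⟩ : Fin l) : ℕ) + 1 < l) then
          (E 0 k + ∑ r ∈ range i, (E (k + 1) r - E k r)) -
            (E 0 (k + 1) + ∑ r ∈ range (i + 1), (E (k + 2) r - E (k + 1) r)) else 0 :=
        h (.dom ⟨k, by omega⟩ i)
      rw [if_pos hk] at h1
      have h2 := gdom ⟨k, by omega⟩ i hk
      simp only at h2
      rw [h2] at h1
      have h3 : E 0 k = (y 0 ⟨k, by omega⟩ : ℤ) := e3 0 k (Nat.succ_pos l) (by omega)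
      have h4 : E 0 (k + 1) = (y 0 ⟨k + 1, hk⟩ : ℤ) := e3 0 (k + 1) (Nat.succ_pos l) hk
      rw [h3, h4] at h1
      exact sub_nonneg.1 h1
    · intro k
      have h1 : 0 ≤ (mu k : ℤ) - E 0 k - ∑ i ∈ range l, (E (k + 1) i - E k i) := h (.wtLe k)
      have h2 : 0 ≤ (∑ i ∈ range l, (E (k + 1) i - E k i)) - ((mu k : ℤ) - E 0 k) := h (.wtGe k)
      rw [e2, e4] at h1 h2
      omega
  · rintro ⟨h1, h2, h3, h4⟩ ρ
    cases ρ with
    | sizeLe =>
      show 0 ≤ p - ∑ i ∈ range l, E 0 i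
      rw [e0, h1, sub_self]
    | sizeGe =>
      show 0 ≤ (∑ i ∈ range l, E 0 i) - p
      rw [e0, h1, sub_self]
    | le j i =>
      show 0 ≤ E (j + 1) i - E j i
      rw [e3 (j + 1) i (by omega) i.2, e3 j i (by omega) i.2]
      have h5 : (y j.castSucc i : ℤ) ≤ (y j.succ i : ℤ) := by exact_mod_cast (h2 j).1 i
      exact sub_nonneg.2 h5
    | inter j i =>
      show 0 ≤ E j i - E (j + 1) (i + 1)
      have h5 := (h2 j).2 i
      unfold nxt at h5
      split_ifs at h5 with hi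
      · rw [e3 (j + 1) (i + 1) (by omega) hi, e3 j i (by omega) i.2]
        have h6 : (y j.succ ⟨i + 1, hi⟩ : ℤ) ≤ (y j.castSucc i : ℤ) := by exact_mod_cast h5
        exact sub_nonneg.2 h6
      · have h6 : E (j + 1) (i + 1) = 0 := I10_big _ _ _ (not_lt.1 hi)
        rw [h6, sub_zero, e3 j i (by omega) i.2]
        exact Int.natCast_nonneg _
    | wtLe k =>
      show 0 ≤ (mu k : ℤ) - E 0 k - ∑ i ∈ range l, (E (k + 1) i - E k i)
      rw [e2, e4]
      have := h4 k
      omega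
    | wtGe k =>
      show 0 ≤ (∑ i ∈ range l, (E (k + 1) i - E k i)) - ((mu k : ℤ) - E 0 k)
      rw [e2, e4]
      have := h4 k
      omega
    | dom k i =>
      show 0 ≤ if (k : ℕ) + 1 < l then
          (E 0 k + ∑ r ∈ range i, (E (k + 1) r - E k r)) -
            (E 0 (k + 1) + ∑ r ∈ range (i + 1), (E (k + 2) r - E (k + 1) r)) else 0
      split_ifs with hk
      · rw [gdom k i hk, e4, e3 0 (k + 1) (Nat.succ_pos l) hk]
        exact sub_nonneg.2 (h3 k hk i)
      · exact le_rfl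

private theorem I10_nonneg {l : ℕ} {lam mu : Fin l → ℕ} {p : ℤ} {x : Fin l → Fin l → ℤ}
    (h : IsChain (fun i => (lam i : ℤ)) (fun i => (mu i : ℤ)) p x) (m : ℕ) :
    ∀ i : ℕ, l ≤ i + m → ∀ k : ℕ, 0 ≤ ext (fun i => (lam i : ℤ)) x k i := by
  induction m with
  | zero =>
    intro i hi k
    rw [I10_big _ _ _ (by omega)]
  | succ m ih =>
    intro i hi k
    by_cases hil : i < l
    · by_cases hkl : k < l
      · have h1 : 0 ≤ ext (fun i => (lam i : ℤ)) x k i -
            ext (fun i => (lam i : ℤ)) x (k + 1) (i + 1) := h (.inter ⟨k, hkl⟩ ⟨i, hil⟩)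
        have h2 := ih (i + 1) (by omega) (k + 1)
        omega
      · unfold ext
        rw [dif_pos hil, dif_neg hkl]
        exact Int.natCast_nonneg _
    · rw [I10_big _ _ _ (not_lt.1 hil)]

private theorem I10_upper {l : ℕ} {lam mu : Fin l → ℕ} {p : ℤ} {x : Fin l → Fin l → ℤ}
    (h : IsChain (fun i => (lam i : ℤ)) (fun i => (mu i : ℤ)) p x) (i : Fin l) (m : ℕ) :
    ∀ k : ℕ, l ≤ k + m → ext (fun i => (lam i : ℤ)) x k i ≤ (lam i : ℤ) := by
  have hbase : ∀ k : ℕ, ¬ k < l → ext (fun i => (lam i : ℤ)) x k i ≤ (lam i : ℤ) := by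
    intro k hk
    unfold ext
    rw [dif_pos i.2, dif_neg hk]
  induction m with
  | zero =>
    intro k hk
    exact hbase k (by omega)
  | succ m ih =>
    intro k hk
    by_cases hkl : k < l
    · have h1 : 0 ≤ ext (fun i => (lam i : ℤ)) x (k + 1) i -
          ext (fun i => (lam i : ℤ)) x k i := h (.le ⟨k, hkl⟩ i)
      have h2 := ih (k + 1) (by omega)
      omega
    · exact hbase k hkl

open Classical in
theorem chainCount_eq {l : ℕ} (lam mu : Fin l → ℕ) (p : ℤ) :
    (chainCount lam mu p : ℤ) =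
      ∑ τ ∈ (Fintype.piFinset fun i => range (lam i + 1)).filter
          (fun τ : Fin l → ℕ => ∑ i, (τ i : ℤ) = p),
        (((chains l τ lam).filter fun y =>
          Good τ y ∧ ∀ k, (τ k : ℤ) + wt y k = (mu k : ℤ)).card : ℤ) := by
  set T : Finset (Fin (l + 1) → Fin l → ℕ) :=
    (Fintype.piFinset fun _ => Fintype.piFinset fun i => range (lam i + 1)).filter fun y =>
      y (Fin.last l) = lam ∧ ∑ i, (y 0 i : ℤ) = p ∧
        (∀ j : Fin l, Strip (y j.castSucc) (y j.succ)) ∧ Good (y 0) y ∧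
        ∀ k, (y 0 k : ℤ) + wt y k = (mu k : ℤ) with hT
  have hmem : ∀ y, y ∈ T ↔ (∀ j i, y j i < lam i + 1) ∧ y (Fin.last l) = lam ∧
      ∑ i, (y 0 i : ℤ) = p ∧ (∀ j : Fin l, Strip (y j.castSucc) (y j.succ)) ∧ Good (y 0) y ∧
        ∀ k, (y 0 k : ℤ) + wt y k = (mu k : ℤ) := by
    intro y
    rw [hT, Finset.mem_filter]
    simp only [Fintype.mem_piFinset, Finset.mem_range]
  -- the right hand side
  have h1 : (∑ τ ∈ (Fintype.piFinset fun i => range (lam i + 1)).filter
          (fun τ : Fin l → ℕ => ∑ i, (τ i : ℤ) = p),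
        (((chains l τ lam).filter fun y =>
          Good τ y ∧ ∀ k, (τ k : ℤ) + wt y k = (mu k : ℤ)).card : ℤ)) = (T.card : ℤ) := by
    rw [← Nat.cast_sum]
    congr 1
    rw [Finset.card_eq_sum_card_fiberwise (f := fun y : Fin (l + 1) → Fin l → ℕ => y 0)
      (t := (Fintype.piFinset fun i => range (lam i + 1)).filter
          (fun τ : Fin l → ℕ => ∑ i, (τ i : ℤ) = p)) ?_]
    · refine Finset.sum_congr rfl fun τ hτ => ?_
      congr 1
      ext y
      rw [Finset.mem_filter, Finset.mem_filter, hmem]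
      unfold chains
      rw [Finset.mem_filter]
      simp only [Fintype.mem_piFinset, Finset.mem_range]
      constructor
      · rintro ⟨⟨ha, hb, hc, hd⟩, he, hf⟩
        subst hb
        exact ⟨⟨ha, hc, (Finset.mem_filter.1 hτ).2, hd, he, hf⟩, rfl⟩
      · rintro ⟨⟨ha, hc, _, hd, he, hf⟩, hb⟩
        subst hb
        exact ⟨⟨ha, rfl, hc, hd⟩, he, hf⟩
    · intro y hy
      have h2 := (hmem y).1 hy
      refine Finset.mem_coe.2 (Finset.mem_filter.2 ⟨?_, h2.2.2.1⟩)
      rw [Fintype.mem_piFinset]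
      intro i
      exact Finset.mem_range.2 (h2.1 0 i)
  rw [h1]
  -- the bijection
  unfold chainCount
  congr 1
  rw [← Fintype.card_coe T, ← Nat.card_eq_fintype_card]
  symm
  refine Nat.card_congr (Equiv.ofBijective
    (fun y : {y // y ∈ T} => (⟨fun k i => ((y : Fin (l + 1) → Fin l → ℕ) k.castSucc i : ℤ),
      (I10_iff _ ((hmem _).1 y.2).2.1).2 ((hmem _).1 y.2).2.2⟩ :
      {x : Fin l → Fin l → ℤ // IsChain (fun i => (lam i : ℤ)) (fun i => (mu i : ℤ)) p x}))
    ⟨?_, ?_⟩)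
  · rintro ⟨y, hy⟩ ⟨y', hy'⟩ h
    have h2 := congrArg Subtype.val h
    simp only at h2
    refine Subtype.ext ?_
    funext j
    refine Fin.lastCases ?_ (fun k => ?_) j
    · show y (Fin.last l) = y' (Fin.last l)
      rw [((hmem _).1 hy).2.1, ((hmem _).1 hy').2.1]
    · funext i
      have h3 := congrFun (congrFun h2 k) i
      exact_mod_cast h3
  · rintro ⟨x, hx⟩
    set y : Fin (l + 1) → Fin l → ℕ := fun j i =>
      if h : (j : ℕ) < l then (x ⟨j, h⟩ i).toNat else lam i with hy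
    have hx0 : ∀ k i : Fin l, 0 ≤ x k i := by
      intro k i
      have h2 := I10_nonneg hx l i (by omega) k
      unfold ext at h2
      rw [dif_pos i.2, dif_pos k.2] at h2
      exact h2
    have hxl : ∀ k i : Fin l, x k i ≤ (lam i : ℤ) := by
      intro k i
      have h2 := I10_upper hx i l k (by omega)
      unfold ext at h2
      rw [dif_pos i.2, dif_pos k.2] at h2
      exact h2
    have hyk : ∀ k i : Fin l, (y k.castSucc i : ℤ) = x k i := by
      intro k i
      have h2 : y k.castSucc i = (x k i).toNat := dif_pos k.2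
      rw [h2]
      exact Int.toNat_of_nonneg (hx0 k i)
    have hylast : y (Fin.last l) = lam := by
      funext i
      exact dif_neg (lt_irrefl l)
    have hxy : (fun k i => (y k.castSucc i : ℤ)) = x := by
      funext k i
      exact hyk k i
    have hyT : y ∈ T := by
      rw [hmem]
      refine ⟨?_, hylast, (I10_iff y hylast).1 (by rw [hxy]; exact hx)⟩
      intro j i
      refine Fin.lastCases ?_ (fun k => ?_) j
      · rw [hylast]
        exact Nat.lt_succ_self _
      · have h2 := hyk k i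
        have h3 := hxl k i
        omega
    exact ⟨⟨y, hyT⟩, Subtype.ext hxy⟩

end H73TR
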