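import Pool.Agent.Lib.H73TR.Defs2

/-!
# I8a (M): the only good chain from `0` to `lam` (for `τ = 0`)

`Good 0 y`: `∑_{r ≤ i} cells (k+1) r ≤ ∑_{r < i} cells k r` for all `k + 1 < l`, `i < l`.
(1) `cells k r = 0` for `r < k`: induction on `k`; for `i ≤ k` the right side is `0` by induction,
so `cells (k+1) r = 0` for `r ≤ k`.
(2) `y_k r = 0` for `r ≥ k`: `y_0 = 0` and `y_(k+1) (r+1) ≤ y_k r` (horizontal strips);
so `cells k r = 0` for `r > k`.
Hence `y_k r = lam r` for `r < k` and `0` for `r ≥ k`.  Conversely this `y` is a chain (`lam`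
antitone) and good: `∑_{r ≤ i} cells (k+1) r = [k+1 ≤ i] lam_(k+1) ≤ [k < i] lam_k`.  Its weight is
`lam`.
-/

namespace H73TR

open Finset

private theorem i8a_form {l : ℕ} {lam : Fin l → ℕ} {y : Fin (l + 1) → Fin l → ℕ}
    (hy : y ∈ chains l 0 lam) (hg : Good 0 y) (k : Fin (l + 1)) (r : Fin l) :
    y k r = if (r : ℕ) < (k : ℕ) then lam r else 0 := by
  unfold chains at hy
  rw [Finset.mem_filter] at hy
  obtain ⟨-, hy0, hyl, hstrip⟩ := hy
  have hc0 : ∀ k r, 0 ≤ cells y k r := by
    intro k r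
    unfold cells
    split_ifs with h
    · have h1 := (hstrip ⟨k, h.1⟩).1 ⟨r, h.2⟩
      have h2 : (y (Fin.castSucc ⟨k, h.1⟩) ⟨r, h.2⟩ : ℤ) ≤ (y (Fin.succ ⟨k, h.1⟩) ⟨r, h.2⟩ : ℤ) := by
        exact_mod_cast h1
      linarith
    · exact le_rfl
  have H1 : ∀ k, k < l → ∀ r, r < k → cells y k r = 0 := by
    intro k
    induction k with
    | zero => intro _ r hr; exact absurd hr (Nat.not_lt_zero r)
    | succ k ih =>
      intro hk r hr
      have h1 := hg k hk ⟨r, by omega⟩
      simp only [Pi.zero_apply, Nat.cast_zero, zero_add] at h1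
      have h2 : ∑ r' ∈ range r, cells y k r' = 0 := by
        apply Finset.sum_eq_zero
        intro r' hr'
        rw [Finset.mem_range] at hr'
        exact ih (by omega) r' (by omega)
      have h3 : cells y (k + 1) r ≤ ∑ r' ∈ range (r + 1), cells y (k + 1) r' :=
        Finset.single_le_sum (f := fun r' => cells y (k + 1) r') (fun r' _ => hc0 _ _)
          (Finset.mem_range.mpr (Nat.lt_succ_self r))
      have h4 := hc0 (k + 1) r
      linarith
  have H2 : ∀ (k : ℕ) (hk : k < l + 1) (r : ℕ) (hr : r < l), k ≤ r → y ⟨k, hk⟩ ⟨r, hr⟩ = 0 := by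
    intro k
    induction k with
    | zero =>
      intro hk r hr _
      have : y ⟨0, hk⟩ = 0 := hy0
      rw [this]
      rfl
    | succ k ih =>
      intro hk r hr hkr
      obtain ⟨r', rfl⟩ : ∃ r', r = r' + 1 := ⟨r - 1, by omega⟩
      have h1 := (hstrip ⟨k, by omega⟩).2 ⟨r', by omega⟩
      have h2 := ih (by omega) r' (by omega) (by omega)
      have h3 : nxt (y (Fin.succ ⟨k, by omega⟩)) ⟨r', by omega⟩ = y ⟨k + 1, hk⟩ ⟨r' + 1, hr⟩ := by
        unfold nxt
        rw [dif_pos (show ((⟨r', by omega⟩ : Fin l) : ℕ) + 1 < l from hr)]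
        rfl
      rw [h3] at h1
      have h4 : y (Fin.castSucc ⟨k, by omega⟩) ⟨r', by omega⟩ = 0 := h2
      rw [h4] at h1
      exact Nat.le_zero.mp h1
  have H3 : ∀ (m k : ℕ) (hk : k < l + 1) (r : ℕ) (hr : r < l), k + m = l → r < k →
      y ⟨k, hk⟩ ⟨r, hr⟩ = lam ⟨r, hr⟩ := by
    intro m
    induction m with
    | zero =>
      intro k hk r hr hkm _
      have h1 : (⟨k, hk⟩ : Fin (l + 1)) = Fin.last l := Fin.ext (by simpa using hkm)
      rw [h1, hyl]
    | succ m ih =>
      intro k hk r hr hkm hrk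
      have h1 := ih (k + 1) (by omega) r hr (by omega) (by omega)
      have h2 := H1 k (by omega) r hrk
      unfold cells at h2
      rw [dif_pos ⟨by omega, hr⟩] at h2
      have h3 : y (Fin.succ ⟨k, by omega⟩) ⟨r, hr⟩ = y ⟨k + 1, by omega⟩ ⟨r, hr⟩ := rfl
      have h4 : y (Fin.castSucc ⟨k, by omega⟩) ⟨r, hr⟩ = y ⟨k, hk⟩ ⟨r, hr⟩ := rfl
      rw [h3, h4, h1] at h2
      have h5 : (y ⟨k, hk⟩ ⟨r, hr⟩ : ℤ) = (lam ⟨r, hr⟩ : ℤ) := by linarith
      exact_mod_cast h5
  obtain ⟨k, hk⟩ := k
  obtain ⟨r, hr⟩ := r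
  by_cases h : r < k
  · rw [if_pos (show ((⟨r, hr⟩ : Fin l) : ℕ) < ((⟨k, hk⟩ : Fin (l + 1)) : ℕ) from h)]
    exact H3 (l - k) k hk r hr (by omega) h
  · rw [if_neg (show ¬ ((⟨r, hr⟩ : Fin l) : ℕ) < ((⟨k, hk⟩ : Fin (l + 1)) : ℕ) from h)]
    exact H2 k hk r hr (by omega)

private theorem i8a_cells {l : ℕ} (lam : Fin l → ℕ) (k r : ℕ) :
    cells (fun (k : Fin (l + 1)) (r : Fin l) => if (r : ℕ) < (k : ℕ) then lam r else 0) k r =
      if r = k then (if h : k < l then (lam ⟨k, h⟩ : ℤ) else 0) else 0 := by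
  unfold cells
  by_cases hkr : r = k
  · subst hkr
    rw [if_pos rfl]
    by_cases h : r < l
    · rw [dif_pos ⟨h, h⟩, dif_pos h]
      simp
    · rw [dif_neg (fun h' => h h'.1), dif_neg h]
  · rw [if_neg hkr]
    split_ifs with h
    · simp only [Fin.val_succ, Fin.val_castSucc]
      by_cases h1 : r < k
      · rw [if_pos (by omega), if_pos h1]
        ring
      · rw [if_neg (by omega), if_neg h1]
        ring
    · rfl

open Classical in
theorem good_zero_card {l : ℕ} {lam : Fin l → ℕ} (hlam : Antitone lam) :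
    ((chains l 0 lam).filter fun y => Good 0 y).card = 1 := by
  rw [Finset.card_eq_one]
  refine ⟨fun (k : Fin (l + 1)) (r : Fin l) => if (r : ℕ) < (k : ℕ) then lam r else 0, ?_⟩
  ext y
  rw [Finset.mem_filter, Finset.mem_singleton]
  constructor
  · rintro ⟨hy, hg⟩
    funext k r
    exact i8a_form hy hg k r
  · rintro rfl
    constructor
    · unfold chains
      rw [Finset.mem_filter, Fintype.mem_piFinset]
      refine ⟨?_, ?_, ?_, ?_⟩
      · intro k
        rw [Fintype.mem_piFinset]
        intro r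
        rw [Finset.mem_range]
        split_ifs
        · exact Nat.lt_succ_self _
        · exact Nat.succ_pos _
      · funext r
        simp
      · funext r
        simp
      · intro j
        constructor
        · intro i
          simp only [Fin.val_castSucc, Fin.val_succ]
          by_cases h : (i : ℕ) < (j : ℕ)
          · rw [if_pos h, if_pos (by omega)]
          · rw [if_neg h]
            exact Nat.zero_le _
        · intro i
          unfold nxt
          simp only [Fin.val_castSucc, Fin.val_succ]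
          split_ifs with h1 h2 h3 h4
          · exact hlam (by rw [Fin.le_def]; simp)
          · omega
          · omega
          · exact le_rfl
          · exact Nat.zero_le _
          · exact le_rfl
    · intro k h i
      simp only [i8a_cells, Pi.zero_apply, Nat.cast_zero, zero_add]
      rw [Finset.sum_ite_eq', Finset.sum_ite_eq']
      simp only [Finset.mem_range]
      by_cases hki : k < (i : ℕ)
      · rw [if_pos (by omega), if_pos hki, dif_pos h, dif_pos (by omega)]
        have : lam ⟨k + 1, h⟩ ≤ lam ⟨k, by omega⟩ := hlam (by rw [Fin.le_def]; simp)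
        exact_mod_cast this
      · rw [if_neg (by omega), if_neg hki]

theorem good_zero_wt {l : ℕ} {lam : Fin l → ℕ} {y : Fin (l + 1) → Fin l → ℕ}
    (hy : y ∈ chains l 0 lam) (hg : Good 0 y) (k : Fin l) : wt y k = (lam k : ℤ) := by
  unfold wt
  rw [← Finset.sum_sub_distrib]
  rw [Finset.sum_eq_single k]
  · rw [i8a_form hy hg, i8a_form hy hg]
    simp
  · intro i _ hik
    rw [i8a_form hy hg, i8a_form hy hg]
    simp only [Fin.val_castSucc, Fin.val_succ]
    have hne : (i : ℕ) ≠ (k : ℕ) := fun h => hik (Fin.ext h)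
    by_cases h1 : (i : ℕ) < (k : ℕ)
    · rw [if_pos (by omega), if_pos h1]
      ring
    · rw [if_neg (by omega), if_neg h1]
      ring
  · intro h
    exact absurd (Finset.mem_univ k) h

end H73TR
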