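import Pool.Agent.Lib.H73TR.I7b
import Pool.Agent.Lib.H73TR.I8a

/-!
# I8b (M): `a_δ s_τ = a_(τ+δ)` in terms of coefficients

Both sides are alternating functions of `g` (left: `chains_symm`; right: reindex `w`), so both are
`0` if `g` has two equal entries, and otherwise we may sort `g` and assume that `g` is strictly
decreasing (`g ∘ u` for a permutation `u`).  If `g` has a negative entry both sides are `0`
(`wt ≥ 0`, `δ ≥ 0`, `τ ≥ 0`).  Otherwise `g = mu + δ` with `mu : Fin l → ℕ` antitone, and
`signed_good` (with `τ := 0`, `ρ := 0`, `lam := τ`) gives for the left side the number of good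
chains from `0` to `τ` with weight `mu`, which is `[mu = τ]` by `good_zero_card`, `good_zero_wt`.
The right side is `∑_w sg w [mu + δ = (τ + δ) ∘ w] = [mu = τ]` (both vectors strictly decreasing).
-/

namespace H73TR

open Finset

private theorem i8b_inst {α : Type*} (s : Finset α) (p : α → Prop) (i1 i2 : DecidablePred p) :
    (@Finset.filter α p i1 s).card = (@Finset.filter α p i2 s).card := by
  have h : i1 = i2 := Subsingleton.elim _ _
  rw [h]

private theorem i8b_sg_mul {l : ℕ} (w u : Equiv.Perm (Fin l)) : sg (w * u) = sg w * sg u := by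
  simp [sg]

private theorem i8b_sg_swap {l : ℕ} {i j : Fin l} (h : i ≠ j) : sg (Equiv.swap i j) = -1 := by
  simp [sg, Equiv.Perm.sign_swap h]

private theorem i8b_wt_nonneg {l : ℕ} {τ : Fin l → ℕ} {y : Fin (l + 1) → Fin l → ℕ}
    (hy : y ∈ chains l 0 τ) (k : Fin l) : 0 ≤ wt y k := by
  unfold chains at hy
  rw [mem_filter] at hy
  have h := (hy.2.2.2 k).1
  unfold wt
  rw [← Finset.sum_sub_distrib]
  refine Finset.sum_nonneg fun i _ => ?_
  have := h i
  omega

private theorem i8b_delta_nonneg {l : ℕ} (k : Fin l) : 0 ≤ delta l k := by
  unfold delta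
  have := k.2
  omega

private theorem i8b_perm_id {l : ℕ} {w : Equiv.Perm (Fin l)} (h : StrictMono w) : w = 1 := by
  have e : (StrictMono.orderIsoOfSurjective w h w.surjective) = OrderIso.refl (Fin l) :=
    Subsingleton.elim _ _
  ext i
  have h1 := congrArg (fun f : Fin l ≃o Fin l => f i) e
  have h2 : w i = i := h1
  rw [h2]
  rfl

private theorem i8b_alt_zero {l : ℕ} {A : (Fin l → ℤ) → ℤ}
    (hA : ∀ (u : Equiv.Perm (Fin l)) (g : Fin l → ℤ), A (fun i => g (u i)) = sg u * A g)
    {g : Fin l → ℤ} (hg : ¬ Function.Injective g) : A g = 0 := by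
  unfold Function.Injective at hg
  push Not at hg
  obtain ⟨i, j, hij, hne⟩ := hg
  have h := hA (Equiv.swap i j) g
  have h1 : (fun k => g (Equiv.swap i j k)) = g := by
    funext k
    by_cases hk : k = i
    · rw [hk, Equiv.swap_apply_left, hij]
    · by_cases hk' : k = j
      · rw [hk', Equiv.swap_apply_right, hij]
      · rw [Equiv.swap_apply_of_ne_of_ne hk hk']
  rw [h1, i8b_sg_swap hne] at h
  linarith

private theorem i8b_sg_ne {l : ℕ} (u : Equiv.Perm (Fin l)) : sg u ≠ 0 := by
  unfold sg
  rcases Int.units_eq_one_or (Equiv.Perm.sign u) with h | h <;> rw [h] <;> simp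

/-- Two alternating functions are equal if they are equal on strictly decreasing vectors. -/
private theorem i8b_alt_eq {l : ℕ} {A B : (Fin l → ℤ) → ℤ}
    (hA : ∀ (u : Equiv.Perm (Fin l)) (g : Fin l → ℤ), A (fun i => g (u i)) = sg u * A g)
    (hB : ∀ (u : Equiv.Perm (Fin l)) (g : Fin l → ℤ), B (fun i => g (u i)) = sg u * B g)
    (h : ∀ g : Fin l → ℤ, StrictAnti g → A g = B g) (g : Fin l → ℤ) : A g = B g := by
  by_cases hg : Function.Injective g
  · let u := Tuple.sort (fun i => -g i)
    have hm : Monotone ((fun i => -g i) ∘ u) := Tuple.monotone_sort _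
    have hs : StrictAnti fun i => g (u i) := by
      refine Antitone.strictAnti_of_injective ?_ (hg.comp u.injective)
      intro a b hab
      have := hm hab
      simp only [Function.comp_apply] at this
      show g (u b) ≤ g (u a)
      linarith
    have h1 := h _ hs
    rw [hA, hB] at h1
    exact mul_left_cancel₀ (i8b_sg_ne u) h1
  · rw [i8b_alt_zero hA hg, i8b_alt_zero hB hg]

private theorem i8b_ge_delta {l : ℕ} {g : Fin l → ℤ} (hg : StrictAnti g) (h0 : ∀ k, 0 ≤ g k)
    (k : Fin l) : delta l k ≤ g k := by
  have key : ∀ n : ℕ, ∀ k : Fin l, l - 1 - (k : ℕ) = n → (n : ℤ) ≤ g k := by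
    intro n
    induction n with
    | zero => intro k _; exact_mod_cast h0 k
    | succ n ih =>
      intro k hk
      have hk2 : (k : ℕ) + 1 < l := by omega
      have h1 := ih ⟨(k : ℕ) + 1, hk2⟩ (by simp only; omega)
      have h2 : g ⟨(k : ℕ) + 1, hk2⟩ < g k := hg (by rw [Fin.lt_def]; simp)
      push_cast
      omega
  have h := key (l - 1 - (k : ℕ)) k rfl
  have hk := k.2
  unfold delta
  omega

open Classical in
theorem signed_zero {l : ℕ} {τ : Fin l → ℕ} (hτ : Antitone τ) (g : Fin l → ℤ) :
    ∑ w : Equiv.Perm (Fin l), sg w * (((chains l 0 τ).filter fun y =>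
        ∀ k, wt y k = g k - delta l (w k)).card : ℤ) =
      ∑ w : Equiv.Perm (Fin l), sg w *
        (if ∀ k, g k = (τ (w k) : ℤ) + delta l (w k) then 1 else 0) := by
  refine i8b_alt_eq
    (A := fun g => ∑ w : Equiv.Perm (Fin l), sg w * (((chains l 0 τ).filter fun y =>
        ∀ k, wt y k = g k - delta l (w k)).card : ℤ))
    (B := fun g => ∑ w : Equiv.Perm (Fin l), sg w *
        (if ∀ k, g k = (τ (w k) : ℤ) + delta l (w k) then 1 else 0)) ?_ ?_ ?_ g
  · intro u g
    simp only
    rw [← Equiv.sum_comp (Equiv.mulRight u), Finset.mul_sum]
    refine Finset.sum_congr rfl fun w _ => ?_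
    rw [Equiv.coe_mulRight, i8b_sg_mul]
    have h := chains_symm l 0 τ (fun k => g k - delta l (w k)) u
    have h2 : ((chains l 0 τ).filter fun y => ∀ k, wt y k = g (u k) - delta l ((w * u) k)).card =
        ((chains l 0 τ).filter fun y => ∀ k, wt y k = g k - delta l (w k)).card := by
      refine Eq.trans ?_ (h.trans ?_)
      · exact i8b_inst _ _ _ _
      · exact i8b_inst _ _ _ _
    rw [h2]
    ring
  · intro u g
    simp only
    rw [← Equiv.sum_comp (Equiv.mulRight u), Finset.mul_sum]
    refine Finset.sum_congr rfl fun w _ => ?_
    rw [Equiv.coe_mulRight, i8b_sg_mul]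
    have h2 : (∀ k, g (u k) = (τ ((w * u) k) : ℤ) + delta l ((w * u) k)) ↔
        ∀ k, g k = (τ (w k) : ℤ) + delta l (w k) := by
      constructor
      · intro h k
        have := h (u.symm k)
        simpa using this
      · intro h k
        exact h (u k)
    rw [if_congr h2 rfl rfl]
    ring
  · intro g hg
    by_cases hneg : ∀ k, 0 ≤ g k
    · have hge := i8b_ge_delta hg hneg
      obtain ⟨mu, hmu⟩ : ∃ mu : Fin l → ℕ, ∀ k, (mu k : ℤ) + delta l k = g k :=
        ⟨fun k => (g k - delta l k).toNat, fun k => by
          have := hge k
          rw [Int.toNat_of_nonneg (by linarith)]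
          ring⟩
      have hmua : Antitone mu := by
        have key : ∀ n : ℕ, ∀ a b : Fin l, (b : ℕ) = a + n → mu b ≤ mu a := by
          intro n
          induction n with
          | zero =>
            intro a b hab
            have : b = a := Fin.ext (by omega)
            rw [this]
          | succ n ih =>
            intro a b hab
            have hb := b.2
            have h1 := ih a ⟨a + n, by omega⟩ rfl
            have h2 : g b < g ⟨a + n, by omega⟩ := hg (by rw [Fin.lt_def]; simp only; omega)
            have h3 := hmu b
            have h4 := hmu ⟨a + n, by omega⟩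
            unfold delta at h3 h4
            simp only at h4
            have h5 : mu b ≤ mu ⟨(a : ℕ) + n, by omega⟩ := by
              push_cast at h4
              omega
            exact h5.trans h1
        intro a b hab
        exact key (b - a) a b (by rw [Fin.le_def] at hab; omega)
      have h1 := signed_good (l := l) (τ := 0) (fun _ _ _ => le_rfl) 0 τ hmua
      have h2 : ∑ w : Equiv.Perm (Fin l), sg w * (((chains l 0 τ).filter fun y =>
          ∀ k, wt y k = g k - delta l (w k)).card : ℤ) =
          (((chains l 0 τ).filter fun y =>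
            Good 0 y ∧ ∀ k, ((0 : Fin l → ℕ) k : ℤ) + wt y k = (mu k : ℤ)).card : ℤ) := by
        rw [← h1]
        refine Finset.sum_congr rfl fun w _ => ?_
        have h3 : ∀ y : Fin (l + 1) → Fin l → ℕ, (∀ k, wt y k = g k - delta l (w k)) ↔
            ∀ k, wt y k = (mu k : ℤ) + delta l k - (((0 : Fin l → ℕ) (w k) : ℤ) + delta l (w k)) := by
          intro y
          refine forall_congr' fun k => ?_
          rw [hmu k]
          simp
        rw [Finset.filter_congr (fun y _ => h3 y)]
      rw [h2]
      have hcard := good_zero_card hτ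
      rw [Finset.card_eq_one] at hcard
      obtain ⟨y₀, hy₀⟩ := hcard
      have hy₀m : y₀ ∈ (chains l 0 τ).filter fun y => Good 0 y := by
        rw [hy₀]; exact mem_singleton_self _
      rw [mem_filter] at hy₀m
      have hwt := good_zero_wt hy₀m.1 hy₀m.2
      have h4 : ((chains l 0 τ).filter fun y =>
            Good 0 y ∧ ∀ k, ((0 : Fin l → ℕ) k : ℤ) + wt y k = (mu k : ℤ)).card =
          if mu = τ then 1 else 0 := by
        rw [← Finset.filter_filter, hy₀, Finset.filter_singleton]
        by_cases hm : mu = τ
        · rw [if_pos hm, if_pos]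
          · rfl
          · intro k
            rw [hwt k, hm]
            simp
        · rw [if_neg hm, if_neg]
          · rfl
          · intro hk
            apply hm
            funext k
            have := hk k
            rw [hwt k] at this
            have h5 : ((τ k : ℕ) : ℤ) = mu k := by simpa using this
            exact_mod_cast h5.symm
      rw [h4]
      have hanti : StrictAnti fun k => (τ k : ℤ) + delta l k := by
        intro a b hab
        have h5 := hτ hab.le
        have h6 : (a : ℕ) < b := hab
        unfold delta
        simp only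
        omega
      rw [Finset.sum_eq_single (1 : Equiv.Perm (Fin l))]
      · by_cases hm : mu = τ
        · rw [if_pos hm, if_pos]
          · simp [sg]
          · intro k
            rw [← hmu k, hm]
            rfl
        · rw [if_neg hm, if_neg]
          · simp
          · intro hk
            apply hm
            funext k
            have := hk k
            rw [← hmu k] at this
            have h5 : (mu k : ℤ) = τ k := by
              have h6 : (mu k : ℤ) + delta l k = (τ k : ℤ) + delta l k := this
              linarith
            exact_mod_cast h5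
      · intro w _ hw
        rw [if_neg, mul_zero]
        intro hk
        apply hw
        apply i8b_perm_id
        intro a b hab
        have h5 := hg hab
        rw [hk a, hk b] at h5
        exact hanti.lt_iff_gt.1 h5
      · intro h
        exact absurd (mem_univ _) h
    · push Not at hneg
      obtain ⟨k₀, hk₀⟩ := hneg
      rw [Finset.sum_eq_zero, Finset.sum_eq_zero]
      · intro w _
        rw [if_neg, mul_zero]
        intro hk
        have h1 := hk k₀
        have h2 := i8b_delta_nonneg (w k₀)
        have h3 : (0 : ℤ) ≤ τ (w k₀) := Int.natCast_nonneg _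
        linarith
      · intro w _
        rw [Finset.filter_eq_empty_iff.2, Finset.card_empty]
        · simp
        · intro y hy hk
          have h1 := hk k₀
          have h2 := i8b_delta_nonneg (w k₀)
          have h3 := i8b_wt_nonneg hy k₀
          linarith

end H73TR
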