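import Pool.Agent.Lib.H73TR.I9c
import Pool.Agent.Lib.H73TR.I8b

/-!
# I9d (M): summation over the second permutation

`signedCount lam mu p q = ∑_v sg v ∑_w sg w pairCount (shiftVec lam w) (shiftVec mu v) p q`; apply
`signed_pairCount` with `κ' = shiftVec mu v = mu + δ - δ ∘ v`, exchange the sums; for fixed `τ` (if
there is a chain from `τ` to `lam`, then ... ; `τ` need not be antitone, but if `chains l 0 τ` is
nonempty it is; for `τ` not antitone both inner counts are `0`: a chain from `0` ends in an
antitone vector and a chain which starts in `τ` with at least one strip has `τ` antitone when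
`l ≥ 1`) and `T1` the sum over `v` is the left side of `signed_zero` with
`g = mu + δ - wt T1`, so it is `∑_w sg w [wt T1 = mu + δ - (τ + δ) ∘ w]`; sum over `T1` and apply
`signed_good` (with `ρ = τ`).
-/

namespace H73TR

open Finset

private theorem I9d_anti {l : ℕ} {τ lam : Fin l → ℕ} {y : Fin (l + 1) → Fin l → ℕ}
    (hy : y ∈ chains l τ lam) : Antitone τ := by
  rcases Nat.eq_zero_or_pos l with rfl | hl
  · intro i
    exact i.elim0
  · have h0 : y 0 = τ := (mem_filter.mp hy).2.1
    have hs := (mem_filter.mp hy).2.2.2 ⟨0, hl⟩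
    have hc : (Fin.castSucc (⟨0, hl⟩ : Fin l)) = 0 := rfl
    rw [hc, h0] at hs
    have step : ∀ (i : ℕ) (hi : i + 1 < l), τ ⟨i + 1, hi⟩ ≤ τ ⟨i, (Nat.lt_succ_self i).trans hi⟩ := by
      intro i hi
      have h1 := hs.1 ⟨i + 1, hi⟩
      have h2 := hs.2 ⟨i, (Nat.lt_succ_self i).trans hi⟩
      unfold nxt at h2
      rw [dif_pos hi] at h2
      exact h1.trans h2
    have main : ∀ (m i : ℕ) (hi : i + m < l), τ ⟨i + m, hi⟩ ≤ τ ⟨i, by omega⟩ := by
      intro m
      induction m with
      | zero => intro i hi; exact le_rfl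
      | succ m ih =>
        intro i hi
        exact (step (i + m) hi).trans (ih i (by omega))
    intro a b hab
    have h3 := main (b.1 - a.1) a.1 (by have := b.2; have : a.1 ≤ b.1 := hab; omega)
    have h4 : (⟨a.1 + (b.1 - a.1), by have := b.2; have : a.1 ≤ b.1 := hab; omega⟩ : Fin l) = b := by
      apply Fin.ext
      have : a.1 ≤ b.1 := hab
      show a.1 + (b.1 - a.1) = b.1
      omega
    rw [h4] at h3
    exact h3

private theorem I9d_card {α : Type*} (s : Finset α) {p p' : α → Prop} (i1 : DecidablePred p)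
    (i2 : DecidablePred p') (h : ∀ a ∈ s, (p a ↔ p' a)) :
    (@Finset.filter α p i1 s).card = (@Finset.filter α p' i2 s).card := by
  congr 1
  ext a
  rw [mem_filter, mem_filter]
  constructor
  · rintro ⟨h1, h2⟩
    exact ⟨h1, (h a h1).1 h2⟩
  · rintro ⟨h1, h2⟩
    exact ⟨h1, (h a h1).2 h2⟩

open Classical in
private theorem I9d_inner {l : ℕ} {τ lam mu : Fin l → ℕ} (hmu : Antitone mu) :
    (∑ T1 ∈ chains l τ lam, ∑ v : Equiv.Perm (Fin l), sg v *
      (((chains l 0 τ).filter fun T0 => ∀ k, wt T0 k + wt T1 k = shiftVec mu v k).card : ℤ)) =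
      (((chains l τ lam).filter fun y =>
          Good τ y ∧ ∀ k, (τ k : ℤ) + wt y k = (mu k : ℤ)).card : ℤ) := by
  rcases (chains l τ lam).eq_empty_or_nonempty with he | ⟨y0, hy0⟩
  · rw [he]
    simp
  · have hτ : Antitone τ := I9d_anti hy0
    rw [← signed_good hτ τ lam hmu]
    have e1 : ∀ T1 ∈ chains l τ lam, (∑ v : Equiv.Perm (Fin l), sg v *
        (((chains l 0 τ).filter fun T0 =>
          ∀ k, wt T0 k + wt T1 k = shiftVec mu v k).card : ℤ)) =
        ∑ w : Equiv.Perm (Fin l), sg w *
          (if ∀ k, wt T1 k = (mu k : ℤ) + delta l k - ((τ (w k) : ℤ) + delta l (w k))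
            then 1 else 0) := by
      intro T1 _
      have h1 := signed_zero hτ (fun k => (mu k : ℤ) + delta l k - wt T1 k)
      have h2 : ∀ v : Equiv.Perm (Fin l), ((chains l 0 τ).filter fun T0 =>
          ∀ k, wt T0 k + wt T1 k = shiftVec mu v k).card =
          ((chains l 0 τ).filter fun y =>
            ∀ k, wt y k = (fun k => (mu k : ℤ) + delta l k - wt T1 k) k - delta l (v k)).card := by
        intro v
        refine I9d_card _ _ _ fun y _ => forall_congr' fun k => ?_
        show wt y k + wt T1 k = (mu k : ℤ) + (((v k : Fin l) : ℕ) : ℤ) - ((k : ℕ) : ℤ) ↔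
          wt y k = ((mu k : ℤ) + delta l k - wt T1 k) - delta l (v k)
        unfold delta
        constructor <;> intro h <;> linarith
      have h3 : ∀ w : Equiv.Perm (Fin l),
          (if ∀ k, (fun k => (mu k : ℤ) + delta l k - wt T1 k) k = (τ (w k) : ℤ) + delta l (w k)
            then (1 : ℤ) else 0) =
          (if ∀ k, wt T1 k = (mu k : ℤ) + delta l k - ((τ (w k) : ℤ) + delta l (w k))
            then (1 : ℤ) else 0) := by
        intro w
        have h4 : (∀ k, (fun k => (mu k : ℤ) + delta l k - wt T1 k) k =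
            (τ (w k) : ℤ) + delta l (w k)) ↔
            ∀ k, wt T1 k = (mu k : ℤ) + delta l k - ((τ (w k) : ℤ) + delta l (w k)) := by
          refine forall_congr' fun k => ?_
          show (mu k : ℤ) + delta l k - wt T1 k = (τ (w k) : ℤ) + delta l (w k) ↔ _
          constructor <;> intro h <;> linarith
        by_cases h5 : ∀ k, wt T1 k = (mu k : ℤ) + delta l k - ((τ (w k) : ℤ) + delta l (w k))
        · rw [if_pos h5, if_pos (h4.2 h5)]
        · rw [if_neg h5, if_neg fun h6 => h5 (h4.1 h6)]
      calc (∑ v : Equiv.Perm (Fin l), sg v * (((chains l 0 τ).filter fun T0 =>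
          ∀ k, wt T0 k + wt T1 k = shiftVec mu v k).card : ℤ)) =
          ∑ v : Equiv.Perm (Fin l), sg v * (((chains l 0 τ).filter fun y =>
            ∀ k, wt y k = (fun k => (mu k : ℤ) + delta l k - wt T1 k) k -
              delta l (v k)).card : ℤ) := sum_congr rfl fun v _ => by rw [h2 v]
        _ = _ := h1
        _ = _ := sum_congr rfl fun w _ => by rw [h3 w]
    rw [sum_congr rfl e1, sum_comm]
    refine sum_congr rfl fun w _ => ?_
    rw [← mul_sum, card_filter]
    push_cast
    rfl

open Classical in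
theorem signedCount_eq {l : ℕ} {lam mu : Fin l → ℕ} (hlam : Antitone lam) (hmu : Antitone mu)
    {p q : ℤ} (hpq : p + q = ∑ i, (lam i : ℤ)) :
    signedCount lam mu p q =
      ∑ τ ∈ (Fintype.piFinset fun i => range (lam i + 1)).filter
          (fun τ : Fin l → ℕ => ∑ i, (τ i : ℤ) = p),
        (((chains l τ lam).filter fun y =>
          Good τ y ∧ ∀ k, (τ k : ℤ) + wt y k = (mu k : ℤ)).card : ℤ) := by
  unfold signedCount
  rw [sum_comm]
  have e1 : ∀ v : Equiv.Perm (Fin l),
      (∑ w : Equiv.Perm (Fin l),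
        sg w * sg v * (pairCount (shiftVec lam w) (shiftVec mu v) p q : ℤ)) =
      ∑ τ ∈ (Fintype.piFinset fun i => range (lam i + 1)).filter
          (fun τ : Fin l → ℕ => ∑ i, (τ i : ℤ) = p),
        ∑ T1 ∈ chains l τ lam, sg v *
          (((chains l 0 τ).filter fun T0 =>
            ∀ k, wt T0 k + wt T1 k = shiftVec mu v k).card : ℤ) := by
    intro v
    have h1 := signed_pairCount hlam (shiftVec mu v) hpq
    calc (∑ w : Equiv.Perm (Fin l),
        sg w * sg v * (pairCount (shiftVec lam w) (shiftVec mu v) p q : ℤ)) =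
        sg v * ∑ w : Equiv.Perm (Fin l),
          sg w * (pairCount (shiftVec lam w) (shiftVec mu v) p q : ℤ) := by
          rw [mul_sum]
          refine sum_congr rfl fun w _ => ?_
          ring
      _ = _ := by
          rw [h1, mul_sum]
          refine sum_congr rfl fun τ _ => ?_
          rw [mul_sum]
  rw [sum_congr rfl fun v _ => e1 v, sum_comm]
  refine sum_congr rfl fun τ _ => ?_
  rw [sum_comm]
  exact I9d_inner hmu

end H73TR
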