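import Pool.Agent.Lib.H73TR.I2b
import Pool.Agent.Lib.H73TR.I9d
import Pool.Agent.Lib.H73TR.I10

/-!
# I12 (S/M): result of Part I

`kron_signed`, `signedCount_eq`, `chainCount_eq`.  (For `m = 0` the second term of `kron_signed`
is `signedCount lam mu (n+1) (-1)`; `signedCount_eq` applies since `(n + 1) + (-1) = n`.)
Symmetry: exchange the two matrices in `pairCount` (`M ↦ M ∘ swap 0 1`).
-/

namespace H73TR

open Finset

private theorem I12_signed {l : ℕ} {lam mu : Fin l → ℕ} (hlam : Antitone lam) (hmu : Antitone mu)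
    {p q : ℤ} (hpq : p + q = ∑ i, (lam i : ℤ)) :
    signedCount lam mu p q = (chainCount lam mu p : ℤ) := by
  rw [signedCount_eq hlam hmu hpq, chainCount_eq]

private theorem I12_pair {l : ℕ} (κ κ' : Fin l → ℤ) (p q : ℤ) :
    pairCount κ κ' p q = pairCount κ κ' q p := by
  unfold pairCount
  refine Nat.card_congr (Equiv.subtypeEquiv
    (Equiv.arrowCongr (Equiv.swap (0 : Fin 2) 1) (Equiv.refl (Fin l → Fin l → ℕ))) ?_)
  intro M
  have h0 : (Equiv.arrowCongr (Equiv.swap (0 : Fin 2) 1) (Equiv.refl (Fin l → Fin l → ℕ))) M 0 =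
      M 1 := by
    rw [Equiv.arrowCongr_apply]
    simp
  have h1 : (Equiv.arrowCongr (Equiv.swap (0 : Fin 2) 1) (Equiv.refl (Fin l → Fin l → ℕ))) M 1 =
      M 0 := by
    rw [Equiv.arrowCongr_apply]
    simp
  simp only [Fin.sum_univ_two]
  rw [h0, h1]
  constructor
  · rintro ⟨a, b, c, d⟩
    refine ⟨fun i => ?_, fun i => ?_, d, c⟩
    · rw [add_comm]
      exact a i
    · rw [add_comm]
      exact b i
  · rintro ⟨a, b, c, d⟩
    refine ⟨fun i => ?_, fun i => ?_, d, c⟩
    · rw [add_comm]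
      exact a i
    · rw [add_comm]
      exact b i

private theorem I12_sum {n l : ℕ} {lam : Fin l → ℕ} (hn : ∑ i, lam i = n) :
    ∑ i, (lam i : ℤ) = (n : ℤ) := by
  rw [← hn, Nat.cast_sum]

theorem kron_eq {n l : ℕ} (hl : 2 ≤ l) {m : ℕ} (hm : m ≤ n) {lam mu : Fin l → ℕ}
    (hlam : Antitone lam) (hmu : Antitone mu) (hn : ∑ i, lam i = n) :
    kron n lam mu (twoRow l (n - m) m) =
      (chainCount lam mu ((n : ℤ) - m) : ℚ) - (chainCount lam mu ((n : ℤ) - m + 1) : ℚ) := by
  rw [kron_signed hl hm, I12_signed hlam hmu (by rw [I12_sum hn]; ring),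
    I12_signed hlam hmu (by rw [I12_sum hn]; ring)]
  push_cast
  rfl

theorem chainCount_symm {n l : ℕ} {lam mu : Fin l → ℕ} (hlam : Antitone lam)
    (hmu : Antitone mu) (hn : ∑ i, lam i = n) (p : ℤ) :
    chainCount lam mu p = chainCount lam mu ((n : ℤ) - p) := by
  have h1 := I12_signed hlam hmu (p := p) (q := (n : ℤ) - p) (by rw [I12_sum hn]; ring)
  have h2 := I12_signed hlam hmu (p := (n : ℤ) - p) (q := p) (by rw [I12_sum hn]; ring)
  have h3 : signedCount lam mu p ((n : ℤ) - p) = signedCount lam mu ((n : ℤ) - p) p := by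
    unfold signedCount
    simp only [I12_pair _ _ p]
  rw [h1, h2] at h3
  exact_mod_cast h3

end H73TR
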