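import Pool.Agent.Lib.H73TR.Defs2

/-!
# I2a (S/M): the character of a two-row partition

`κ_i = ν_i + w i - i`, `ν = (n - m, m, 0, …, 0)`.  If `permChar κ σ ≠ 0` then all `κ_i ≥ 0`, so
`w i ≥ i` for all `i ≥ 2`, hence `w i = i` for all `i ≥ 2` (downward induction from `i = l - 1`:
the values `i + 1, …, l - 1` are taken already), so `w = 1` or `w = swap 0 1`.  For `w = 1` the
vector is `(n-m, m, 0, …)`, for `w = swap 0 1` (sign `-1`) it is `(n-m+1, m-1, 0, …)`.
-/

namespace H73TR

open Finset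

private theorem i2a_nonneg {n l : ℕ} {κ : Fin l → ℤ} {σ : Equiv.Perm (Fin n)}
    (h : permChar κ σ ≠ 0) (j : Fin l) : 0 ≤ κ j := by
  unfold permChar at h
  have h1 : (univ.filter fun f : Fin n → Fin l =>
      (∀ i, f (σ i) = f i) ∧ ∀ j, content f j = κ j).Nonempty := by
    rw [Finset.nonempty_iff_ne_empty]
    intro h2
    apply h
    rw [h2]
    simp
  obtain ⟨f, hf⟩ := h1
  rw [← (Finset.mem_filter.1 hf).2.2 j]
  unfold content
  exact Int.natCast_nonneg _

private theorem i2a_perm {l : ℕ} (hl : 2 ≤ l) {w : Equiv.Perm (Fin l)}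
    (h : ∀ i : Fin l, 2 ≤ (i : ℕ) → (i : ℕ) ≤ (w i : ℕ)) :
    w = 1 ∨ w = Equiv.swap ⟨0, by omega⟩ ⟨1, by omega⟩ := by
  have h1 : ∀ d : ℕ, ∀ i : Fin l, 2 ≤ (i : ℕ) → l - (i : ℕ) ≤ d → w i = i := by
    intro d
    induction d with
    | zero =>
      intro i _ hi
      have := i.2
      omega
    | succ d ih =>
      intro i hi hid
      by_contra hne
      have hlt : (i : ℕ) < (w i : ℕ) :=
        lt_of_le_of_ne (h i hi) (fun hh => hne (Fin.ext hh.symm))
      have h3 := ih (w i) (by omega) (by have := (w i).2; omega)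
      exact hne (w.injective h3)
  have h2 : ∀ i : Fin l, 2 ≤ (i : ℕ) → w i = i := fun i hi => h1 l i hi (by omega)
  have h3 : ∀ i : Fin l, (i : ℕ) < 2 → (w i : ℕ) < 2 := by
    intro i hi
    by_contra hcon
    have h4 := h2 (w i) (by omega)
    have h5 := w.injective h4
    rw [h5] at hcon
    exact hcon hi
  have h00 := h3 ⟨0, by omega⟩ (by simp)
  have h11 := h3 ⟨1, by omega⟩ (by simp)
  have hne : (w ⟨0, by omega⟩ : ℕ) ≠ (w ⟨1, by omega⟩ : ℕ) := by
    intro hh
    have h6 := w.injective (Fin.ext hh)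
    rw [Fin.mk.injEq] at h6
    omega
  rcases Nat.eq_zero_or_pos (w ⟨0, by omega⟩ : ℕ) with h7 | h7
  · left
    ext i
    rw [Equiv.Perm.one_apply]
    rcases lt_or_ge (i : ℕ) 2 with hi | hi
    · rcases Nat.eq_zero_or_pos (i : ℕ) with h8 | h8
      · have h9 : i = ⟨0, by omega⟩ := Fin.ext h8
        rw [h9]
        exact h7
      · have h9 : i = ⟨1, by omega⟩ := Fin.ext (by show (i : ℕ) = 1; omega)
        rw [h9]
        show (w ⟨1, by omega⟩ : ℕ) = 1
        omega
    · rw [h2 i hi]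
  · right
    ext i
    rcases lt_or_ge (i : ℕ) 2 with hi | hi
    · rcases Nat.eq_zero_or_pos (i : ℕ) with h8 | h8
      · have h9 : i = ⟨0, by omega⟩ := Fin.ext h8
        rw [h9, Equiv.swap_apply_left]
        show (w ⟨0, by omega⟩ : ℕ) = 1
        omega
      · have h9 : i = ⟨1, by omega⟩ := Fin.ext (by show (i : ℕ) = 1; omega)
        rw [h9, Equiv.swap_apply_right]
        show (w ⟨1, by omega⟩ : ℕ) = 0
        omega
    · rw [h2 i hi, Equiv.swap_apply_of_ne_of_ne]
      · intro h8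
        rw [h8] at hi
        simp at hi
      · intro h8
        rw [h8] at hi
        simp at hi

theorem chi_twoRow {n l : ℕ} (hl : 2 ≤ l) {m : ℕ} (hm : m ≤ n) (σ : Equiv.Perm (Fin n)) :
    chi (twoRow l (n - m) m) σ = permChar (twoRow l ((n : ℤ) - m) (m : ℤ)) σ -
      permChar (twoRow l ((n : ℤ) - m + 1) ((m : ℤ) - 1)) σ := by
  have h0l : 0 < l := by omega
  have h1l : 1 < l := by omega
  have hab : (⟨0, h0l⟩ : Fin l) ≠ ⟨1, h1l⟩ := by
    intro h
    rw [Fin.mk.injEq] at h
    omega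
  have hne : (1 : Equiv.Perm (Fin l)) ≠ Equiv.swap ⟨0, h0l⟩ ⟨1, h1l⟩ := by
    intro h
    have h1 := congrArg (fun p : Equiv.Perm (Fin l) => p ⟨0, h0l⟩) h
    simp only [Equiv.Perm.one_apply, Equiv.swap_apply_left] at h1
    exact hab h1
  have hn : ((n - m : ℕ) : ℤ) = (n : ℤ) - m := by
    push_cast [hm]
    ring
  unfold chi
  rw [Fintype.sum_eq_add (1 : Equiv.Perm (Fin l)) (Equiv.swap ⟨0, h0l⟩ ⟨1, h1l⟩) hne ?_]
  · have e1 : shiftVec (twoRow l (n - m) m) 1 = twoRow l ((n : ℤ) - m) (m : ℤ) := by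
      funext i
      unfold shiftVec twoRow
      rw [Equiv.Perm.one_apply]
      split_ifs
      · rw [hn]; ring
      · ring
      · simp
    have e2 : shiftVec (twoRow l (n - m) m) (Equiv.swap ⟨0, h0l⟩ ⟨1, h1l⟩) =
        twoRow l ((n : ℤ) - m + 1) ((m : ℤ) - 1) := by
      funext i
      unfold shiftVec twoRow
      split_ifs with h1 h2
      · have h9 : i = ⟨0, h0l⟩ := Fin.ext h1
        rw [hn, h9, Equiv.swap_apply_left]
        simp
      · have h9 : i = ⟨1, h1l⟩ := Fin.ext h2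
        rw [h9, Equiv.swap_apply_right]
        simp
      · rw [Equiv.swap_apply_of_ne_of_ne]
        · simp
        · intro h8
          exact h1 (by rw [h8])
        · intro h8
          exact h2 (by rw [h8])
    rw [e1, e2, Equiv.Perm.sign_one, Equiv.Perm.sign_swap hab]
    simp
    ring
  · rintro w ⟨hw1, hw2⟩
    by_contra hcon
    have hp : permChar (shiftVec (twoRow l (n - m) m) w) σ ≠ 0 :=
      fun h => hcon (by rw [h, mul_zero])
    have h5 := i2a_perm hl (w := w) (fun i hi => by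
      have h6 := i2a_nonneg hp i
      unfold shiftVec twoRow at h6
      rw [if_neg (by omega), if_neg (by omega)] at h6
      push_cast at h6
      omega)
    rcases h5 with h | h
    · exact hw1 h
    · exact hw2 h

end H73TR
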