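import Pool.Agent.Lib.H73TR.I1
import Pool.Agent.Lib.H73TR.I2a

/-!
# I2b (M): the Kronecker coefficient as a difference of signed counts

Insert `chi_twoRow` for the third character and the definition of `chi` for the first two,
exchange the sums over `σ` and over `w, v`, use `burnside` with
`κ'' = (p, q, 0, …)`, `p + q = n`: a matrix `M i j t` with third marginal `κ''` has `M i j t = 0`
for `t ≥ 2` and is the same as a pair of matrices of sizes `p`, `q` (`pairCount`); the total is
`p + q = n` automatically.  For `m = 0` both `permChar (…, -1, …)` and the second `signedCount`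
are `0` (a matrix over `ℕ` has no negative size).
-/

namespace H73TR

open Finset

private theorem I2b_two {l : ℕ} (hl : 2 ≤ l) (g : Fin l → ℤ)
    (hg : ∀ t : Fin l, 2 ≤ (t : ℕ) → g t = 0) :
    ∑ t, g t = g (Fin.castLE hl 0) + g (Fin.castLE hl 1) := by
  have h01 : Fin.castLE hl 0 ≠ Fin.castLE hl 1 := by
    intro h
    have h2 := congrArg Fin.val h
    simp at h2
  have h : ∑ t ∈ ({Fin.castLE hl 0, Fin.castLE hl 1} : Finset (Fin l)), g t = ∑ t, g t := by
    refine Finset.sum_subset (Finset.subset_univ _) fun t _ ht => hg t ?_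
    by_contra hlt
    rw [not_le] at hlt
    apply ht
    rw [Finset.mem_insert, Finset.mem_singleton]
    rcases (by omega : (t : ℕ) = 0 ∨ (t : ℕ) = 1) with h0 | h0
    · left
      ext
      simp [h0]
    · right
      ext
      simp [h0]
  rw [← h, Finset.sum_pair h01]

private theorem I2b_zero {l : ℕ} {p q : ℤ} {M : Fin l → Fin l → Fin l → ℕ}
    (h : ∀ t, ∑ i, ∑ j, (M i j t : ℤ) = twoRow l p q t) (i j t : Fin l) (ht : 2 ≤ (t : ℕ)) :
    M i j t = 0 := by
  have h1 := h t
  have h2 : twoRow l p q t = 0 := by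
    unfold twoRow
    rw [if_neg (by omega), if_neg (by omega)]
  rw [h2] at h1
  have h3 := (Finset.sum_eq_zero_iff_of_nonneg (fun i _ =>
    Finset.sum_nonneg fun j _ => Int.natCast_nonneg (M i j t))).1 h1 i (Finset.mem_univ i)
  have h4 := (Finset.sum_eq_zero_iff_of_nonneg (fun j _ =>
    Int.natCast_nonneg (M i j t))).1 h3 j (Finset.mem_univ j)
  exact_mod_cast h4

private theorem I2b_card (n : ℕ) {l : ℕ} (hl : 2 ≤ l) (κ κ' : Fin l → ℤ) (p q : ℤ)
    (hpq : p + q = n) :
    Nat.card {M : Fin l → Fin l → Fin l → ℕ //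
        (∀ i, ∑ j, ∑ t, (M i j t : ℤ) = κ i) ∧ (∀ j, ∑ i, ∑ t, (M i j t : ℤ) = κ' j) ∧
        (∀ t, ∑ i, ∑ j, (M i j t : ℤ) = twoRow l p q t) ∧ ∑ i, ∑ j, ∑ t, M i j t = n} =
      pairCount κ κ' p q := by
  unfold pairCount
  have e0 : twoRow l p q (Fin.castLE hl 0) = p := by
    unfold twoRow
    simp
  have e1 : twoRow l p q (Fin.castLE hl 1) = q := by
    unfold twoRow
    simp
  refine Nat.card_congr ⟨fun M => ⟨fun t i j => M.1 i j (Fin.castLE hl t), ?_⟩,
    fun N => ⟨fun i j t => if h : (t : ℕ) < 2 then N.1 ⟨t, h⟩ i j else 0, ?_⟩, ?_, ?_⟩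
  · obtain ⟨M, h1, h2, h3, h4⟩ := M
    have hz := I2b_zero h3
    refine ⟨fun i => ?_, fun j => ?_, ?_, ?_⟩
    · rw [← h1 i, Fin.sum_univ_two, ← Finset.sum_add_distrib]
      refine Finset.sum_congr rfl fun j _ => ?_
      rw [I2b_two hl (fun t => (M i j t : ℤ)) fun t ht => by rw [hz i j t ht, Nat.cast_zero]]
    · rw [← h2 j, Fin.sum_univ_two, ← Finset.sum_add_distrib]
      refine Finset.sum_congr rfl fun i _ => ?_
      rw [I2b_two hl (fun t => (M i j t : ℤ)) fun t ht => by rw [hz i j t ht, Nat.cast_zero]]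
    · rw [h3, e0]
    · rw [h3, e1]
  · obtain ⟨N, h1, h2, h3, h4⟩ := N
    have hv0 : ∀ i j : Fin l, (if h : ((Fin.castLE hl 0 : Fin l) : ℕ) < 2 then
        N ⟨(Fin.castLE hl 0 : Fin l), h⟩ i j else 0) = N 0 i j := by
      intro i j
      rw [dif_pos (by simp)]
      rfl
    have hv1 : ∀ i j : Fin l, (if h : ((Fin.castLE hl 1 : Fin l) : ℕ) < 2 then
        N ⟨(Fin.castLE hl 1 : Fin l), h⟩ i j else 0) = N 1 i j := by
      intro i j
      rw [dif_pos (by simp)]
      rfl
    have hs : ∀ i j : Fin l, ∑ t : Fin l, ((if h : (t : ℕ) < 2 then N ⟨t, h⟩ i j else 0 : ℕ) : ℤ) =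
        (N 0 i j : ℤ) + (N 1 i j : ℤ) := by
      intro i j
      rw [I2b_two hl (fun t => ((if h : (t : ℕ) < 2 then N ⟨t, h⟩ i j else 0 : ℕ) : ℤ))
        fun t ht => by
          simp only [dif_neg (not_lt.2 ht), Nat.cast_zero]]
      simp only [hv0, hv1]
    refine ⟨fun i => ?_, fun j => ?_, fun t => ?_, ?_⟩
    · simp only [hs]
      rw [← h1 i, Fin.sum_univ_two, Finset.sum_add_distrib]
    · simp only [hs]
      rw [← h2 j, Fin.sum_univ_two, Finset.sum_add_distrib]
    · rcases (by omega : (t : ℕ) = 0 ∨ (t : ℕ) = 1 ∨ 2 ≤ (t : ℕ)) with h0 | h0 | h0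
      · obtain rfl : t = Fin.castLE hl 0 := by
          ext
          simp [h0]
        simp only [hv0]
        rw [h3, e0]
      · obtain rfl : t = Fin.castLE hl 1 := by
          ext
          simp [h0]
        simp only [hv1]
        rw [h4, e1]
      · simp only [dif_neg (not_lt.2 h0), Nat.cast_zero, Finset.sum_const_zero]
        unfold twoRow
        rw [if_neg (by omega), if_neg (by omega)]
    · have h5 : ((∑ i : Fin l, ∑ j : Fin l, ∑ t : Fin l,
          (if h : (t : ℕ) < 2 then N ⟨t, h⟩ i j else 0) : ℕ) : ℤ) = (n : ℤ) := by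
        push_cast
        have hs' := hs
        simp only [hs']
        simp only [Finset.sum_add_distrib]
        rw [h3, h4, hpq]
      exact_mod_cast h5
  · intro M
    obtain ⟨M, h1, h2, h3, h4⟩ := M
    ext i j t
    simp only
    by_cases ht : (t : ℕ) < 2
    · rw [dif_pos ht]
      rfl
    · rw [dif_neg ht, I2b_zero h3 i j t (not_lt.1 ht)]
  · intro N
    ext t i j
    simp only [Fin.val_castLE]
    rw [dif_pos t.2]

private theorem I2b_sum {n l : ℕ} (hl : 2 ≤ l) (lam mu : Fin l → ℕ) (p q : ℤ)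
    (hpq : p + q = n) :
    ∑ σ : Equiv.Perm (Fin n), chi lam σ * chi mu σ * permChar (twoRow l p q) σ =
      (n.factorial : ℤ) * signedCount lam mu p q := by
  have h1 : ∀ σ : Equiv.Perm (Fin n), chi lam σ * chi mu σ * permChar (twoRow l p q) σ =
      ∑ w : Equiv.Perm (Fin l), ∑ v : Equiv.Perm (Fin l), sg w * sg v *
        (permChar (shiftVec lam w) σ * permChar (shiftVec mu v) σ *
          permChar (twoRow l p q) σ) := by
    intro σ
    unfold chi
    rw [Finset.sum_mul_sum, Finset.sum_mul]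
    refine Finset.sum_congr rfl fun w _ => ?_
    rw [Finset.sum_mul]
    refine Finset.sum_congr rfl fun v _ => ?_
    unfold sg
    ring
  simp only [h1]
  rw [Finset.sum_comm]
  unfold signedCount
  rw [Finset.mul_sum]
  refine Finset.sum_congr rfl fun w _ => ?_
  rw [Finset.sum_comm, Finset.mul_sum]
  refine Finset.sum_congr rfl fun v _ => ?_
  rw [← Finset.mul_sum, burnside, I2b_card n hl _ _ p q hpq]
  ring

theorem kron_signed {n l : ℕ} (hl : 2 ≤ l) {m : ℕ} (hm : m ≤ n) (lam mu : Fin l → ℕ) :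
    kron n lam mu (twoRow l (n - m) m) =
      (((signedCount lam mu ((n : ℤ) - m) m -
        signedCount lam mu ((n : ℤ) - m + 1) ((m : ℤ) - 1) : ℤ)) : ℚ) := by
  unfold kron
  have h1 : ∑ σ : Equiv.Perm (Fin n),
      (chi lam σ * chi mu σ * chi (twoRow l (n - m) m) σ) =
      (n.factorial : ℤ) * (signedCount lam mu ((n : ℤ) - m) m -
        signedCount lam mu ((n : ℤ) - m + 1) ((m : ℤ) - 1)) := by
    rw [mul_sub, ← I2b_sum hl lam mu ((n : ℤ) - m) m (by ring),
      ← I2b_sum hl lam mu ((n : ℤ) - m + 1) ((m : ℤ) - 1) (by ring), ← Finset.sum_sub_distrib]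
    refine Finset.sum_congr rfl fun σ _ => ?_
    rw [chi_twoRow hl hm σ]
    ring
  have h2 : (n.factorial : ℚ) ≠ 0 := by exact_mod_cast n.factorial_ne_zero
  rw [← Int.cast_sum, h1, div_eq_iff h2]
  push_cast
  ring

end H73TR
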