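import Pool.Agent.Lib.H73TR.Defs2

/-!
# I3a (M): Pieri rule for alternating functions

Put `g_i = lam_i + δ_i`, a strictly decreasing vector of integers `≥ 0`.  In
`hconv r F g = ∑ F (g - β)` (`β ∈ ℕ^l`, `|β| = r`) call `β` bad if `g_i - β_i ≤ g_(i+1)` for some
`i` with `i + 1 < l`.  If `β` is not bad, then `τ_i := lam_i - β_i ≥ lam_(i+1)` for `i + 1 < l`; if
also `τ_(l-1) ≥ 0` then `τ ∈ strips lam r` and `g - β = τ + δ`, and every `τ ∈ strips lam r` comes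
from exactly one `β`; if `τ_(l-1) < 0` then `g - β` has a negative entry (`δ_(l-1) = 0`) and
`F (g - β) = 0`.  The bad `β` cancel in pairs (`Finset.sum_involution`): let `i` be the MINIMAL
index with `g_i - β_i ≤ g_(i+1)` and define `β'` by `g - β' = (g - β) ∘ swap i (i+1)`, that is
`β'_i = g_i - g_(i+1) + β_(i+1) ≥ 0`, `β'_(i+1) = g_(i+1) - g_i + β_i ≥ 0`, other entries
unchanged; the sum is unchanged; `β'` is bad with the same minimal index (indices `< i` are not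
concerned, and `g_i - β'_i = g_(i+1) - β_(i+1) ≤ g_(i+1)`), `β'' = β`, and
`F (g - β') = - F (g - β)`; if `β' = β` then `F (g - β) = 0`.
-/

namespace H73TR

open Finset

private def I3aP {l : ℕ} (g : Fin l → ℤ) (β : Fin l → ℕ) (i : ℕ) : Prop :=
  ∃ h : i + 1 < l, g ⟨i, Nat.lt_of_succ_lt h⟩ - (β ⟨i, Nat.lt_of_succ_lt h⟩ : ℤ) ≤ g ⟨i + 1, h⟩

private noncomputable def I3aW {l : ℕ} (i : ℕ) : Equiv.Perm (Fin l) :=
  if h : i + 1 < l then Equiv.swap ⟨i, Nat.lt_of_succ_lt h⟩ ⟨i + 1, h⟩ else 1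

private noncomputable def I3aS {l : ℕ} (g : Fin l → ℤ) (β : Fin l → ℕ) (i : ℕ) : Fin l → ℕ :=
  fun k => (g k - (g (I3aW i k) - β (I3aW i k))).toNat

private lemma I3aW_invol {l : ℕ} (i : ℕ) (k : Fin l) : I3aW i (I3aW i k) = k := by
  unfold I3aW
  split_ifs with h
  · rw [← Equiv.Perm.mul_apply, Equiv.swap_mul_self]
    rfl
  · rfl

private lemma I3aW_of_lt {l : ℕ} {i j : ℕ} (hj : j < l) (h : j < i) :
    I3aW i (⟨j, hj⟩ : Fin l) = ⟨j, hj⟩ := by
  unfold I3aW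
  split_ifs with h1
  · apply Equiv.swap_apply_of_ne_of_ne
    · intro h2
      have := congrArg Fin.val h2
      simp at this
      omega
    · intro h2
      have := congrArg Fin.val h2
      simp at this
      omega
  · rfl

private lemma I3aS_spec {l : ℕ} {g : Fin l → ℤ}
    (hg : ∀ (i : ℕ) (h : i + 1 < l), g ⟨i + 1, h⟩ ≤ g ⟨i, Nat.lt_of_succ_lt h⟩)
    {β : Fin l → ℕ} {i : ℕ} (hP : I3aP g β i) (k : Fin l) :
    g k - (I3aS g β i k : ℤ) = g (I3aW i k) - β (I3aW i k) := by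
  obtain ⟨h, hP⟩ := hP
  have hnn : 0 ≤ g k - (g (I3aW i k) - β (I3aW i k)) := by
    unfold I3aW
    rw [dif_pos h, Equiv.swap_apply_def]
    split_ifs with h1 h2
    · subst h1
      have := hg i h
      have h3 : (0 : ℤ) ≤ (β ⟨i + 1, h⟩ : ℤ) := Int.natCast_nonneg _
      linarith
    · subst h2
      linarith
    · have h3 : (0 : ℤ) ≤ (β k : ℤ) := Int.natCast_nonneg _
      linarith
  unfold I3aS
  rw [Int.toNat_of_nonneg hnn]
  ring

private lemma I3aS_P {l : ℕ} {g : Fin l → ℤ}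
    (hg : ∀ (i : ℕ) (h : i + 1 < l), g ⟨i + 1, h⟩ ≤ g ⟨i, Nat.lt_of_succ_lt h⟩)
    {β : Fin l → ℕ} {i : ℕ} (hP : I3aP g β i) : I3aP g (I3aS g β i) i := by
  have hP' := hP
  obtain ⟨h, -⟩ := hP'
  refine ⟨h, ?_⟩
  rw [I3aS_spec hg hP]
  have h1 : (I3aW i (⟨i, Nat.lt_of_succ_lt h⟩ : Fin l)) = ⟨i + 1, h⟩ := by
    unfold I3aW
    rw [dif_pos h, Equiv.swap_apply_left]
  rw [h1]
  have h3 : (0 : ℤ) ≤ (β ⟨i + 1, h⟩ : ℤ) := Int.natCast_nonneg _
  linarith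

private lemma I3aS_lt {l : ℕ} {g : Fin l → ℤ}
    (hg : ∀ (i : ℕ) (h : i + 1 < l), g ⟨i + 1, h⟩ ≤ g ⟨i, Nat.lt_of_succ_lt h⟩)
    {β : Fin l → ℕ} {i j : ℕ} (hP : I3aP g β i) (hj : j < i) :
    I3aP g (I3aS g β i) j ↔ I3aP g β j := by
  constructor
  · rintro ⟨h, h1⟩
    refine ⟨h, ?_⟩
    rw [I3aS_spec hg hP, I3aW_of_lt _ hj] at h1
    exact h1
  · rintro ⟨h, h1⟩
    refine ⟨h, ?_⟩
    rw [I3aS_spec hg hP, I3aW_of_lt _ hj]
    exact h1

private lemma I3aS_invol {l : ℕ} {g : Fin l → ℤ}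
    (hg : ∀ (i : ℕ) (h : i + 1 < l), g ⟨i + 1, h⟩ ≤ g ⟨i, Nat.lt_of_succ_lt h⟩)
    {β : Fin l → ℕ} {i : ℕ} (hP : I3aP g β i) : I3aS g (I3aS g β i) i = β := by
  funext k
  have h1 := I3aS_spec hg (I3aS_P hg hP) k
  rw [I3aS_spec hg hP, I3aW_invol] at h1
  have h2 : ((I3aS g (I3aS g β i) i k : ℕ) : ℤ) = (β k : ℤ) := by linarith
  exact_mod_cast h2

private lemma I3aS_sum {l : ℕ} {g : Fin l → ℤ}
    (hg : ∀ (i : ℕ) (h : i + 1 < l), g ⟨i + 1, h⟩ ≤ g ⟨i, Nat.lt_of_succ_lt h⟩)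
    {β : Fin l → ℕ} {i : ℕ} (hP : I3aP g β i) : ∑ k, I3aS g β i k = ∑ k, β k := by
  have h1 : ∑ k, (g k - (I3aS g β i k : ℤ)) = ∑ k, (g k - (β k : ℤ)) := by
    rw [Finset.sum_congr rfl (fun k _ => I3aS_spec hg hP k)]
    exact Equiv.sum_comp (I3aW i) (fun k => g k - (β k : ℤ))
  rw [Finset.sum_sub_distrib, Finset.sum_sub_distrib] at h1
  have h2 : ∑ k, (I3aS g β i k : ℤ) = ∑ k, (β k : ℤ) := by linarith
  exact_mod_cast h2

private lemma I3aS_F {l : ℕ} {F : (Fin l → ℤ) → ℤ} (hF : Alternating F) {g : Fin l → ℤ}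
    (hg : ∀ (i : ℕ) (h : i + 1 < l), g ⟨i + 1, h⟩ ≤ g ⟨i, Nat.lt_of_succ_lt h⟩)
    {β : Fin l → ℕ} {i : ℕ} (hP : I3aP g β i) :
    F (fun k => g k - (I3aS g β i k : ℤ)) = - F (fun k => g k - (β k : ℤ)) := by
  have h1 : (fun k => g k - (I3aS g β i k : ℤ)) =
      fun k => (fun k => g k - (β k : ℤ)) (I3aW i k) := by
    funext k
    exact I3aS_spec hg hP k
  rw [h1, hF (I3aW i) (fun k => g k - (β k : ℤ))]
  obtain ⟨h, -⟩ := hP
  have h2 : sg (I3aW i : Equiv.Perm (Fin l)) = -1 := by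
    unfold sg I3aW
    rw [dif_pos h, Equiv.Perm.sign_swap]
    · rfl
    · intro h3
      have := congrArg Fin.val h3
      simp at this
  rw [h2]
  ring


theorem pieri {l : ℕ} {F : (Fin l → ℤ) → ℤ} (hF : Alternating F) (hF0 : NegZero F)
    {lam : Fin l → ℕ} (hlam : Antitone lam) (r : ℕ) :
    hconv r F (fun i => (lam i : ℤ) + delta l i) =
      ∑ τ ∈ strips lam r, F (fun i => (τ i : ℤ) + delta l i) := by
  classical
  set g : Fin l → ℤ := fun i => (lam i : ℤ) + delta l i with hgdef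
  have hstep : ∀ (i : ℕ) (h : i + 1 < l),
      g ⟨i + 1, h⟩ + 1 ≤ g ⟨i, Nat.lt_of_succ_lt h⟩ := by
    intro i h
    have h1 : lam ⟨i + 1, h⟩ ≤ lam ⟨i, Nat.lt_of_succ_lt h⟩ := by
      apply hlam
      rw [Fin.le_def]
      exact Nat.le_succ i
    have h2 : (lam ⟨i + 1, h⟩ : ℤ) ≤ lam ⟨i, Nat.lt_of_succ_lt h⟩ := by exact_mod_cast h1
    simp only [hgdef, delta]
    push_cast
    linarith
  have hg : ∀ (i : ℕ) (h : i + 1 < l), g ⟨i + 1, h⟩ ≤ g ⟨i, Nat.lt_of_succ_lt h⟩ :=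
    fun i h => by linarith [hstep i h]
  unfold hconv
  rw [← Finset.sum_filter_add_sum_filter_not (piAntidiag (univ : Finset (Fin l)) r)
    (fun β => ∃ i, I3aP g β i)]
  have hbad : ∑ β ∈ (piAntidiag (univ : Finset (Fin l)) r).filter (fun β => ∃ i, I3aP g β i),
      F (fun i => g i - (β i : ℤ)) = 0 := by
    have hfind : ∀ β, ∀ hβ : ∃ i, I3aP g β i, ∀ hβ' : ∃ i, I3aP g (I3aS g β (Nat.find hβ)) i,
        Nat.find hβ' = Nat.find hβ := by
      intro β hβ hβ'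
      rw [Nat.find_eq_iff]
      refine ⟨I3aS_P hg (Nat.find_spec hβ), fun j hj => ?_⟩
      rw [I3aS_lt hg (Nat.find_spec hβ) hj]
      exact Nat.find_min hβ hj
    refine Finset.sum_involution
      (fun β hβ => I3aS g β (Nat.find (mem_filter.1 hβ).2)) ?_ ?_ ?_ ?_
    · intro β hβ
      rw [I3aS_F hF hg (Nat.find_spec (mem_filter.1 hβ).2)]
      ring
    · intro β hβ hne heq
      have h1 := I3aS_F hF hg (Nat.find_spec (mem_filter.1 hβ).2)
      rw [heq] at h1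
      apply hne
      linarith
    · intro β hβ
      rw [mem_filter, mem_piAntidiag]
      refine ⟨⟨?_, fun i _ => mem_univ i⟩, _, I3aS_P hg (Nat.find_spec (mem_filter.1 hβ).2)⟩
      rw [I3aS_sum hg (Nat.find_spec (mem_filter.1 hβ).2)]
      exact (mem_piAntidiag.1 (mem_filter.1 hβ).1).1
    · intro β hβ
      rw [hfind β (mem_filter.1 hβ).2]
      exact I3aS_invol hg (Nat.find_spec (mem_filter.1 hβ).2)
  rw [hbad, zero_add]
  -- only the small vectors contribute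
  have hnot : ∀ β : Fin l → ℕ, (¬ ∃ i, I3aP g β i) → ∀ (i : ℕ) (h : i + 1 < l),
      lam ⟨i + 1, h⟩ + β ⟨i, Nat.lt_of_succ_lt h⟩ ≤ lam ⟨i, Nat.lt_of_succ_lt h⟩ := by
    intro β hβ i h
    by_contra hcon
    apply hβ
    refine ⟨i, h, ?_⟩
    have h1 : lam ⟨i, Nat.lt_of_succ_lt h⟩ + 1 ≤
        lam ⟨i + 1, h⟩ + β ⟨i, Nat.lt_of_succ_lt h⟩ := by omega
    have h2 : (lam ⟨i, Nat.lt_of_succ_lt h⟩ : ℤ) + 1 ≤
        lam ⟨i + 1, h⟩ + β ⟨i, Nat.lt_of_succ_lt h⟩ := by exact_mod_cast h1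
    simp only [hgdef, delta]
    push_cast
    linarith
  rw [← Finset.sum_filter_add_sum_filter_not
    ((piAntidiag (univ : Finset (Fin l)) r).filter (fun β => ¬ ∃ i, I3aP g β i))
    (fun β => ∀ i, β i ≤ lam i)]
  have hzero : ∑ β ∈ ((piAntidiag (univ : Finset (Fin l)) r).filter
      (fun β => ¬ ∃ i, I3aP g β i)).filter (fun β => ¬ ∀ i, β i ≤ lam i),
      F (fun i => g i - (β i : ℤ)) = 0 := by
    apply Finset.sum_eq_zero
    intro β hβ
    rw [mem_filter, mem_filter] at hβ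
    obtain ⟨⟨-, hβ1⟩, hβ2⟩ := hβ
    push Not at hβ2
    obtain ⟨⟨i, hi⟩, h1⟩ := hβ2
    apply hF0
    refine ⟨⟨i, hi⟩, ?_⟩
    have h2 : ¬ i + 1 < l := by
      intro h
      have := hnot β hβ1 i h
      omega
    have h3 : (l : ℤ) = i + 1 := by
      have : l = i + 1 := by omega
      exact_mod_cast this
    have h4 : (lam ⟨i, hi⟩ : ℤ) < β ⟨i, hi⟩ := by exact_mod_cast h1
    simp only [hgdef, delta]
    linarith
  rw [hzero, add_zero]
  refine Finset.sum_nbij' (fun β i => lam i - β i) (fun τ i => lam i - τ i) ?_ ?_ ?_ ?_ ?_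
  · intro β hβ
    rw [mem_filter, mem_filter, mem_piAntidiag] at hβ
    obtain ⟨⟨⟨hsum, -⟩, hβ1⟩, hβ2⟩ := hβ
    unfold strips
    rw [mem_filter, Fintype.mem_piFinset]
    refine ⟨fun i => ?_, ⟨fun i => Nat.sub_le _ _, fun i => ?_⟩, ?_⟩
    · rw [mem_range]
      omega
    · obtain ⟨i, hi⟩ := i
      unfold nxt
      split_ifs with h
      · have := hnot β hβ1 i h
        simp only
        omega
      · exact Nat.zero_le _
    · rw [← hsum, ← Finset.sum_add_distrib]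
      exact Finset.sum_congr rfl fun i _ => Nat.sub_add_cancel (hβ2 i)
  · intro τ hτ
    unfold strips at hτ
    rw [mem_filter] at hτ
    obtain ⟨-, ⟨h1, h2⟩, h3⟩ := hτ
    rw [mem_filter, mem_filter, mem_piAntidiag]
    refine ⟨⟨⟨?_, fun i _ => mem_univ i⟩, ?_⟩, fun i => Nat.sub_le _ _⟩
    · have h4 : ∑ i, (lam i - τ i) + ∑ i, τ i = ∑ i, lam i := by
        rw [← Finset.sum_add_distrib]
        exact Finset.sum_congr rfl fun i _ => Nat.sub_add_cancel (h1 i)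
      omega
    · rintro ⟨i, h, h4⟩
      have h5 := h2 ⟨i, Nat.lt_of_succ_lt h⟩
      unfold nxt at h5
      rw [dif_pos h] at h5
      have h6 := h1 ⟨i, Nat.lt_of_succ_lt h⟩
      simp only [hgdef, delta] at h4
      rw [Nat.cast_sub h6] at h4
      have h7 : (lam ⟨i + 1, h⟩ : ℤ) ≤ τ ⟨i, Nat.lt_of_succ_lt h⟩ := by exact_mod_cast h5
      push_cast at h4
      linarith
  · intro β hβ
    rw [mem_filter, mem_filter] at hβ
    funext i
    have := hβ.2 i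
    simp only
    omega
  · intro τ hτ
    unfold strips at hτ
    rw [mem_filter] at hτ
    obtain ⟨-, ⟨h1, -⟩, -⟩ := hτ
    funext i
    have := h1 i
    simp only
    omega
  · intro β hβ
    rw [mem_filter, mem_filter] at hβ
    apply congrArg F
    funext i
    have h1 := hβ.2 i
    simp only [hgdef]
    rw [Nat.cast_sub h1]
    ring

end H73TR
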