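import Pool.Agent.Lib.H73TR.Defs2

/-!
# I3b (S): convolution keeps the properties

`hconv r F (g ∘ w) = ∑_β F (g ∘ w - β) = ∑_β F ((g - β ∘ w⁻¹) ∘ w)`; reindex `β ↦ β ∘ w⁻¹`
(a bijection of `piAntidiag univ r`).  If `g_i < 0` then `g_i - β_i < 0`.
-/

namespace H73TR

open Finset

theorem hconv_alternating {l : ℕ} {F : (Fin l → ℤ) → ℤ} (hF : Alternating F) (r : ℕ) :
    Alternating (hconv r F) := by
  intro w g
  unfold hconv
  rw [Finset.mul_sum]
  refine Finset.sum_bij' (fun β _ => fun i => β (w.symm i)) (fun β _ => fun i => β (w i))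
    ?_ ?_ ?_ ?_ ?_
  · intro β hβ
    rw [Finset.mem_piAntidiag] at hβ ⊢
    refine ⟨?_, fun i _ => Finset.mem_univ i⟩
    rw [← hβ.1]
    exact Equiv.sum_comp w.symm β
  · intro β hβ
    rw [Finset.mem_piAntidiag] at hβ ⊢
    refine ⟨?_, fun i _ => Finset.mem_univ i⟩
    rw [← hβ.1]
    exact Equiv.sum_comp w β
  · intro β _
    funext i
    simp
  · intro β _
    funext i
    simp
  · intro β _
    rw [← hF w (fun i => g i - ((β (w.symm i) : ℕ) : ℤ))]
    congr 1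
    funext i
    simp

theorem hconv_negZero {l : ℕ} {F : (Fin l → ℤ) → ℤ} (hF : NegZero F) (r : ℕ) :
    NegZero (hconv r F) := by
  intro g hg
  obtain ⟨i, hi⟩ := hg
  unfold hconv
  refine Finset.sum_eq_zero fun β _ => hF _ ⟨i, ?_⟩
  show g i - ((β i : ℕ) : ℤ) < 0
  have : (0 : ℤ) ≤ ((β i : ℕ) : ℤ) := Int.natCast_nonneg _
  omega

end H73TR
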