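import Pool.Agent.Lib.H73TR.Defs2

/-!
# I4a (M): the last step of a chain

A chain `y` of `J + 1` strips from `ρ` to `lam` with weights `r` is the same as the shape
`τ = y J` before the last strip, `τ ∈ strips lam (r (last J))` (bounded by `lam`), together with
the chain `y ∘ castSucc` of `J` strips from `ρ` to `τ` (`Fin.snoc`, `Fin.init`).
-/

namespace H73TR

open Finset

private lemma I4a_mem {l : ℕ} {J : ℕ} {ρ lam : Fin l → ℕ} {y : Fin (J + 1) → Fin l → ℕ} :
    y ∈ chains J ρ lam ↔ y 0 = ρ ∧ y (Fin.last J) = lam ∧ ∀ j : Fin J, Strip (y j.castSucc) (y j.succ) := by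
  unfold chains
  rw [mem_filter]
  refine and_iff_right_of_imp ?_
  rintro ⟨_, h2, h3⟩
  rw [Fintype.mem_piFinset]
  intro j
  rw [Fintype.mem_piFinset]
  intro i
  rw [mem_range, Nat.lt_succ_iff]
  have hm : Monotone fun j => y j i := Fin.monotone_iff_le_succ.2 fun j => (h3 j).1 i
  have h4 := hm (Fin.le_last j)
  simp only [h2] at h4
  exact h4

private lemma I4a_strips {l : ℕ} {lam τ : Fin l → ℕ} {r : ℕ} :
    τ ∈ strips lam r ↔ Strip τ lam ∧ ∑ i, τ i + r = ∑ i, lam i := by
  unfold strips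
  rw [mem_filter]
  refine and_iff_right_of_imp ?_
  rintro ⟨h1, _⟩
  rw [Fintype.mem_piFinset]
  intro i
  rw [mem_range, Nat.lt_succ_iff]
  exact h1.1 i

private lemma I4a_wt {l : ℕ} {J : ℕ} (y : Fin (J + 1 + 1) → Fin l → ℕ) (j : Fin J) :
    wt (Fin.init y) j = wt y j.castSucc := by
  unfold wt Fin.init
  rw [Fin.succ_castSucc]

theorem chains_succ {l : ℕ} (J : ℕ) (ρ lam : Fin l → ℕ) (r : Fin (J + 1) → ℕ) :
    ((chains (J + 1) ρ lam).filter fun y => ∀ j, wt y j = (r j : ℤ)).card =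
      ∑ τ ∈ strips lam (r (Fin.last J)),
        ((chains J ρ τ).filter fun y => ∀ j, wt y j = (r j.castSucc : ℤ)).card := by
  classical
  have hmaps : ∀ y ∈ (chains (J + 1) ρ lam).filter fun y => ∀ j, wt y j = (r j : ℤ),
      y (Fin.last J).castSucc ∈ strips lam (r (Fin.last J)) := by
    intro y hy
    obtain ⟨h1, h2⟩ := mem_filter.1 hy
    obtain ⟨_, h4, h5⟩ := I4a_mem.1 h1
    have h6 := h5 (Fin.last J)
    rw [Fin.succ_last, h4] at h6
    refine I4a_strips.2 ⟨h6, ?_⟩
    have h7 := h2 (Fin.last J)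
    unfold wt at h7
    rw [Fin.succ_last, h4] at h7
    have h8 : ((∑ i, y (Fin.last J).castSucc i + r (Fin.last J) : ℕ) : ℤ) = ((∑ i, lam i : ℕ) : ℤ) := by
      push_cast
      linarith
    exact_mod_cast h8
  rw [Finset.card_eq_sum_card_fiberwise hmaps]
  refine Finset.sum_congr rfl fun τ hτ => ?_
  obtain ⟨hst, hsum⟩ := I4a_strips.1 hτ
  refine Finset.card_nbij' (fun y => Fin.init y) (fun z => Fin.snoc z lam) ?_ ?_ ?_ ?_
  · intro y hy
    obtain ⟨hy1, hy2⟩ := mem_filter.1 (mem_coe.1 hy)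
    obtain ⟨h1, h2⟩ := mem_filter.1 hy1
    obtain ⟨h3, _, h5⟩ := I4a_mem.1 h1
    refine mem_coe.2 (mem_filter.2 ⟨I4a_mem.2 ⟨h3, hy2, fun j => ?_⟩, fun j => ?_⟩)
    · have h6 := h5 j.castSucc
      rw [Fin.succ_castSucc] at h6
      exact h6
    · rw [I4a_wt]
      exact h2 j.castSucc
  · intro z hz
    obtain ⟨h1, h2⟩ := mem_filter.1 (mem_coe.1 hz)
    obtain ⟨h3, h4, h5⟩ := I4a_mem.1 h1
    set y : Fin (J + 1 + 1) → Fin l → ℕ := Fin.snoc z lam with hy
    have hc : ∀ j : Fin (J + 1), y j.castSucc = z j := fun j => by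
      rw [hy]
      exact Fin.snoc_castSucc (α := fun _ => Fin l → ℕ) lam z j
    have hl : y (Fin.last (J + 1)) = lam := by
      rw [hy]
      exact Fin.snoc_last (α := fun _ => Fin l → ℕ) lam z
    have hini : Fin.init y = z := by
      funext j
      exact hc j
    have key : (y ∈ chains (J + 1) ρ lam ∧ ∀ j, wt y j = (r j : ℤ)) ∧ y (Fin.last J).castSucc = τ → y ∈
        (((chains (J + 1) ρ lam).filter fun y => ∀ j, wt y j = (r j : ℤ)).filter
          fun y => y (Fin.last J).castSucc = τ) := fun h =>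
      mem_filter.2 ⟨mem_filter.2 h.1, h.2⟩
    refine mem_coe.2 (key ⟨⟨I4a_mem.2 ⟨?_, hl, ?_⟩, ?_⟩, ?_⟩)
    · have h6 := hc 0
      rw [Fin.castSucc_zero] at h6
      rw [h6, h3]
    · intro j
      induction j using Fin.lastCases with
      | last =>
        rw [Fin.succ_last, hl, hc, h4]
        exact hst
      | cast j =>
        rw [Fin.succ_castSucc, hc, hc]
        exact h5 j
    · intro j
      induction j using Fin.lastCases with
      | last =>
        unfold wt
        rw [Fin.succ_last, hl, hc, h4]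
        have h7 : ((∑ i, τ i + r (Fin.last J) : ℕ) : ℤ) = ((∑ i, lam i : ℕ) : ℤ) := by
          rw [hsum]
        push_cast at h7
        linarith
      | cast j =>
        rw [← I4a_wt, hini]
        exact h2 j
    · rw [hc, h4]
  · intro y hy
    obtain ⟨hy1, _⟩ := mem_filter.1 (mem_coe.1 hy)
    obtain ⟨h1, _⟩ := mem_filter.1 hy1
    obtain ⟨_, h4, _⟩ := I4a_mem.1 h1
    show Fin.snoc (Fin.init y) lam = y
    rw [← h4]
    exact Fin.snoc_init_self y
  · intro z _
    funext j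
    exact Fin.snoc_castSucc (α := fun _ => Fin l → ℕ) lam z j

end H73TR
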