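import Pool.Agent.Lib.H73TR.I3a
import Pool.Agent.Lib.H73TR.I3b
import Pool.Agent.Lib.H73TR.I4a

/-!
# I4b (M/L): signed column counts are numbers of chains

For `g : Fin l → ℤ` put `F_J g = ∑_w sg w * colCount J r (g - δ ∘ w)` (`r : Fin J → ℕ`), so that
the left side is `F_J (lam + δ)` (`shiftVec lam w = lam + δ - δ ∘ w`).  `F_0 g = ∑_w sg w [g = δ ∘ w]`
is alternating and vanishes on vectors with a negative entry (`δ ≥ 0`).  Splitting off the last
column, `colCount (J+1) r κ = ∑_{β ∈ piAntidiag univ (r last)} colCount J (r ∘ castSucc) (κ - β)`,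
so `F_(J+1) = hconv (r last) F_J`; by `hconv_alternating`, `hconv_negZero` all `F_J` are alternating
and `NegZero`.  Induction on `J` for all antitone `lam`: for `J = 0` both sides are `[lam = 0]`
(`F_0 (lam + δ)`: `lam + δ = δ ∘ w` with `lam + δ` strictly decreasing gives `w = 1`, `lam = 0`;
`chains 0 0 lam` has one element iff `lam = 0`); the step is `pieri` and `chains_succ`
(all `τ ∈ strips lam r` are antitone: `τ_(i+1) ≤ lam_(i+1) ≤ τ_i`).
-/

namespace H73TR

open Finset

/-- The tuples counted by `colCount`, as a finset. -/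
private def i4b_S {l : ℕ} (J : ℕ) (r : Fin J → ℕ) (κ : Fin l → ℤ) : Finset (Fin J → Fin l → ℕ) :=
  (Fintype.piFinset fun j => piAntidiag (univ : Finset (Fin l)) (r j)).filter fun β =>
    ∀ i, ∑ j, (β j i : ℤ) = κ i

private theorem i4b_mem {l J : ℕ} {r : Fin J → ℕ} {κ : Fin l → ℤ} {β : Fin J → Fin l → ℕ} :
    β ∈ i4b_S J r κ ↔ (∀ j, ∑ i, β j i = r j) ∧ ∀ i, ∑ j, (β j i : ℤ) = κ i := by
  unfold i4b_S
  rw [Finset.mem_filter, Fintype.mem_piFinset]
  simp only [Finset.mem_piAntidiag, Finset.mem_univ, implies_true, and_true]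

private theorem i4b_card {l J : ℕ} (r : Fin J → ℕ) (κ : Fin l → ℤ) :
    colCount J (fun j => (r j : ℤ)) κ = (i4b_S J r κ).card := by
  unfold colCount
  refine Nat.subtype_card (i4b_S J r κ) fun β => ?_
  rw [i4b_mem]
  constructor
  · rintro ⟨h1, h2⟩
    refine ⟨fun j => ?_, h2⟩
    show ∑ i, (β j i : ℤ) = (r j : ℤ)
    exact_mod_cast h1 j
  · rintro ⟨h1, h2⟩
    refine ⟨fun j => ?_, h2⟩
    have h3 : ∑ i, (β j i : ℤ) = (r j : ℤ) := h1 j
    exact_mod_cast h3

private theorem i4b_rec {l J : ℕ} (r : Fin (J + 1) → ℕ) (κ : Fin l → ℤ) :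
    (i4b_S (J + 1) r κ).card = ∑ b ∈ piAntidiag (univ : Finset (Fin l)) (r (Fin.last J)),
      (i4b_S J (fun j => r j.castSucc) (fun i => κ i - (b i : ℤ))).card := by
  classical
  rw [Finset.card_eq_sum_card_fiberwise (f := fun β => β (Fin.last J))
    (t := piAntidiag (univ : Finset (Fin l)) (r (Fin.last J)))]
  · refine Finset.sum_congr rfl fun b hb => ?_
    have hb' : ∑ i, b i = r (Fin.last J) := (Finset.mem_piAntidiag.mp hb).1
    apply Finset.card_nbij' (fun β => fun j : Fin J => β j.castSucc)
      (fun β' => (Fin.snoc β' b : Fin (J + 1) → Fin l → ℕ))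
    · intro β hβ
      rw [Finset.coe_filter, Set.mem_ofPred_eq, i4b_mem] at hβ
      obtain ⟨⟨h1, h2⟩, h3⟩ := hβ
      rw [Finset.mem_coe, i4b_mem]
      refine ⟨fun j => h1 j.castSucc, fun i => ?_⟩
      have h4 := h2 i
      rw [Fin.sum_univ_castSucc, h3] at h4
      linarith
    · intro β' hβ
      rw [Finset.mem_coe, i4b_mem] at hβ
      obtain ⟨h1, h2⟩ := hβ
      rw [Finset.coe_filter, Set.mem_ofPred_eq, i4b_mem]
      refine ⟨⟨fun j => ?_, fun i => ?_⟩, ?_⟩
      · refine Fin.lastCases ?_ (fun j => ?_) j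
        · simp only [Fin.snoc_last]
          exact hb'
        · simp only [Fin.snoc_castSucc]
          exact h1 j
      · rw [Fin.sum_univ_castSucc]
        simp only [Fin.snoc_castSucc, Fin.snoc_last]
        have := h2 i
        linarith
      · simp only [Fin.snoc_last]
    · intro β hβ
      rw [Finset.coe_filter, Set.mem_ofPred_eq] at hβ
      funext j
      refine Fin.lastCases ?_ (fun j => ?_) j
      · simp only [Fin.snoc_last]
        exact hβ.2.symm
      · simp only [Fin.snoc_castSucc]
    · intro β' _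
      funext j
      simp only [Fin.snoc_castSucc]
  · intro β hβ
    rw [Finset.mem_coe, i4b_mem] at hβ
    rw [Finset.mem_coe, Finset.mem_piAntidiag]
    exact ⟨hβ.1 _, fun i _ => Finset.mem_univ i⟩

/-- The function `F_J`. -/
private def i4b_F {l : ℕ} (J : ℕ) (r : Fin J → ℕ) (g : Fin l → ℤ) : ℤ :=
  ∑ w : Equiv.Perm (Fin l), sg w * ((i4b_S J r (fun i => g i - delta l (w i))).card : ℤ)

private theorem i4b_F_succ {l J : ℕ} (r : Fin (J + 1) → ℕ) :
    (i4b_F (l := l) (J + 1) r) = hconv (r (Fin.last J)) (i4b_F J fun j => r j.castSucc) := by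
  funext g
  unfold i4b_F hconv
  rw [Finset.sum_comm]
  refine Finset.sum_congr rfl fun w _ => ?_
  rw [i4b_rec, Nat.cast_sum, Finset.mul_sum]
  refine Finset.sum_congr rfl fun b _ => ?_
  have : (fun i => g i - delta l (w i) - (b i : ℤ)) = fun i => g i - (b i : ℤ) - delta l (w i) := by
    funext i
    ring
  rw [this]

private theorem i4b_S_zero {l : ℕ} (r : Fin 0 → ℕ) (κ : Fin l → ℤ) :
    ((i4b_S 0 r κ).card : ℤ) = if (∀ i, κ i = 0) then 1 else 0 := by
  split_ifs with h
  · have : i4b_S 0 r κ = {fun j => j.elim0} := by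
      ext β
      rw [i4b_mem, Finset.mem_singleton]
      constructor
      · intro _
        funext j
        exact j.elim0
      · rintro rfl
        refine ⟨fun j => j.elim0, fun i => ?_⟩
        rw [h i]
        simp
    rw [this, Finset.card_singleton]
    rfl
  · have : i4b_S 0 r κ = ∅ := by
      rw [Finset.eq_empty_iff_forall_notMem]
      intro β hβ
      rw [i4b_mem] at hβ
      exact h fun i => by
        rw [← hβ.2 i]
        simp
    rw [this]
    simp

private theorem i4b_sg_mul {l : ℕ} (w u : Equiv.Perm (Fin l)) : sg (w * u) = sg w * sg u := by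
  unfold sg
  rw [Equiv.Perm.sign_mul, Units.val_mul]

private theorem i4b_F_zero_alt {l : ℕ} (r : Fin 0 → ℕ) : Alternating (i4b_F (l := l) 0 r) := by
  intro u g
  unfold i4b_F
  rw [Finset.mul_sum]
  rw [← Equiv.sum_comp (Equiv.mulRight u)]
  refine Finset.sum_congr rfl fun w _ => ?_
  rw [i4b_S_zero, i4b_S_zero, Equiv.coe_mulRight, i4b_sg_mul]
  have : (∀ i, g (u i) - delta l ((w * u) i) = 0) ↔ ∀ i, g i - delta l (w i) = 0 := by
    constructor
    · intro h i
      have := h (u.symm i)
      rw [Equiv.Perm.mul_apply, Equiv.apply_symm_apply] at this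
      exact this
    · intro h i
      rw [Equiv.Perm.mul_apply]
      exact h (u i)
  rw [if_congr this rfl rfl]
  ring

private theorem i4b_delta_nonneg {l : ℕ} (i : Fin l) : 0 ≤ delta l i := by
  unfold delta
  have := i.2
  omega

private theorem i4b_F_zero_neg {l : ℕ} (r : Fin 0 → ℕ) : NegZero (i4b_F (l := l) 0 r) := by
  rintro g ⟨i, hi⟩
  unfold i4b_F
  refine Finset.sum_eq_zero fun w _ => ?_
  rw [i4b_S_zero, if_neg, mul_zero]
  intro h
  have h1 := h i
  have h2 := i4b_delta_nonneg (w i)
  linarith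

private theorem i4b_props {l : ℕ} (J : ℕ) : ∀ r : Fin J → ℕ,
    Alternating (i4b_F (l := l) J r) ∧ NegZero (i4b_F (l := l) J r) := by
  induction J with
  | zero => exact fun r => ⟨i4b_F_zero_alt r, i4b_F_zero_neg r⟩
  | succ J ih =>
    intro r
    rw [i4b_F_succ]
    exact ⟨hconv_alternating (ih _).1 _, hconv_negZero (ih _).2 _⟩

private theorem i4b_base {l : ℕ} (r : Fin 0 → ℕ) (lam : Fin l → ℕ) :
    i4b_F 0 r (fun i => (lam i : ℤ) + delta l i) =
      (((chains 0 0 lam).filter fun y => ∀ j, wt y j = (r j : ℤ)).card : ℤ) := by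
  by_cases h0 : lam = 0
  · subst h0
    have hL : i4b_F 0 r (fun i => (((0 : Fin l → ℕ) i : ℕ) : ℤ) + delta l i) = 1 := by
      unfold i4b_F
      rw [Finset.sum_eq_single (1 : Equiv.Perm (Fin l))]
      · rw [i4b_S_zero, if_pos]
        · simp [sg]
        · intro i
          simp
      · intro w _ hw
        rw [i4b_S_zero, if_neg, mul_zero]
        intro h
        apply hw
        ext i
        have := h i
        simp only [Pi.zero_apply, Nat.cast_zero, delta] at this
        rw [Equiv.Perm.one_apply]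
        omega
      · intro h
        exact absurd (Finset.mem_univ _) h
    rw [hL]
    have hR : ((chains 0 0 (0 : Fin l → ℕ)).filter fun y => ∀ j, wt y j = (r j : ℤ)) = {fun _ => 0} := by
      ext y
      rw [Finset.mem_filter, Finset.mem_singleton]
      constructor
      · rintro ⟨hy, -⟩
        unfold chains at hy
        rw [Finset.mem_filter] at hy
        funext j
        have hj : j = 0 := Fin.ext (by omega)
        rw [hj]
        exact hy.2.1
      · rintro rfl
        refine ⟨?_, fun j => j.elim0⟩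
        unfold chains
        rw [Finset.mem_filter]
        refine ⟨?_, rfl, rfl, fun j => j.elim0⟩
        rw [Fintype.mem_piFinset]
        intro _
        rw [Fintype.mem_piFinset]
        intro i
        simp
    rw [hR, Finset.card_singleton]
    rfl
  · have hL : i4b_F 0 r (fun i => (lam i : ℤ) + delta l i) = 0 := by
      unfold i4b_F
      refine Finset.sum_eq_zero fun w _ => ?_
      rw [i4b_S_zero, if_neg, mul_zero]
      intro h
      apply h0
      have hs : ∑ i, (lam i : ℤ) = 0 := by
        have h1 : ∀ i, (lam i : ℤ) = delta l (w i) - delta l i := fun i => by linarith [h i]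
        rw [Finset.sum_congr rfl fun i _ => h1 i, Finset.sum_sub_distrib,
          Equiv.sum_comp w (fun i => delta l i), sub_self]
      have hs' : ∑ i, lam i = 0 := by exact_mod_cast hs
      funext i
      exact (Finset.sum_eq_zero_iff.mp hs') i (Finset.mem_univ i)
    rw [hL]
    have hR : ((chains 0 0 lam).filter fun y => ∀ j, wt y j = (r j : ℤ)) = ∅ := by
      rw [Finset.eq_empty_iff_forall_notMem]
      intro y hy
      rw [Finset.mem_filter] at hy
      have hy1 := hy.1
      unfold chains at hy1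
      rw [Finset.mem_filter] at hy1
      apply h0
      rw [← hy1.2.2.1, ← hy1.2.1]
      rfl
    rw [hR]
    simp

private theorem i4b_strip_anti {l : ℕ} {lam τ : Fin l → ℕ} (hlam : Antitone lam)
    (h : Strip τ lam) : Antitone τ := by
  intro i j hij
  rcases eq_or_lt_of_le hij with rfl | hlt
  · exact le_rfl
  · have h1 : (i : ℕ) + 1 < l := lt_of_le_of_lt (Nat.succ_le_of_lt hlt) j.2
    have h2 := h.2 i
    unfold nxt at h2
    rw [dif_pos h1] at h2
    have h3 : lam j ≤ lam ⟨(i : ℕ) + 1, h1⟩ := hlam (by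
      rw [Fin.le_def]
      exact Nat.succ_le_of_lt hlt)
    exact (h.1 j).trans (h3.trans h2)

private theorem i4b_main {l : ℕ} (J : ℕ) : ∀ (r : Fin J → ℕ) {lam : Fin l → ℕ},
    Antitone lam → i4b_F J r (fun i => (lam i : ℤ) + delta l i) =
      (((chains J 0 lam).filter fun y => ∀ j, wt y j = (r j : ℤ)).card : ℤ) := by
  induction J with
  | zero => exact fun r lam _ => i4b_base r lam
  | succ J ih =>
    intro r lam hlam
    have hp := i4b_props (l := l) J (fun j => r j.castSucc)
    rw [i4b_F_succ, pieri hp.1 hp.2 hlam, chains_succ, Nat.cast_sum]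
    refine Finset.sum_congr rfl fun τ hτ => ?_
    have hτ' : Strip τ lam := by
      unfold strips at hτ
      rw [Finset.mem_filter] at hτ
      exact hτ.2.1
    exact ih (fun j => r j.castSucc) (i4b_strip_anti hlam hτ')

theorem signed_colCount {l : ℕ} (J : ℕ) (r : Fin J → ℕ) {lam : Fin l → ℕ}
    (hlam : Antitone lam) :
    ∑ w : Equiv.Perm (Fin l), sg w * (colCount J (fun j => (r j : ℤ)) (shiftVec lam w) : ℤ) =
      (((chains J 0 lam).filter fun y => ∀ j, wt y j = (r j : ℤ)).card : ℤ) := by
  rw [← i4b_main J r hlam]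
  unfold i4b_F
  refine Finset.sum_congr rfl fun w _ => ?_
  rw [i4b_card]
  have : shiftVec lam w = fun i => (lam i : ℤ) + delta l i - delta l (w i) := by
    funext i
    unfold shiftVec delta
    ring
  rw [this]

end H73TR
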