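import Pool.Agent.Lib.H73TR.Defs2

/-!
# I5 (M): the toggle

`a ⊂ b ⊂ c` horizontal strips.  Write `m_r = max (a_r, c_(r+1))` (`c_l = 0`).
For `r > i`: `m_r ≤ b_r ≤ min (c_r, a_(r-1))`, so `b'_r = m_r + min (c_r, a_(r-1)) - b_r` lies in
`[m_r, min (c_r, a_(r-1))]`; for `r = i`: `m_i ≤ b_i ≤ c_i - e`, so `b'_i ∈ [m_i, c_i - e]`, and
`c_i - e ≤ a_(i-1)` if `i > 0`.  These bounds give `Strip a b'`, `Strip b' c` (rows `< i` are
unchanged), `b'_i + e ≤ c_i`, and `tog` applied again gives `b`.  The sum formula: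
`max (a_r, c_(r+1)) + min (c_(r+1), a_r) = a_r + c_(r+1)`, so
`∑_{r ≥ i} b'_r = ∑_{r ≥ i} a_r + ∑_{r > i} c_r + (c_i - e) - ∑_{r ≥ i} b_r`
(pair the maximum in row `r` with the minimum in row `r + 1`; in the last row `l-1` the maximum is
`a_(l-1)`).
-/

namespace H73TR

open Finset

private lemma I5_nxt_prv {l : ℕ} (x : Fin l → ℕ) (r : Fin l) (hr : 0 < (r : ℕ)) :
    nxt x ⟨(r : ℕ) - 1, lt_of_le_of_lt (Nat.sub_le _ _) r.2⟩ = x r := by
  have h1 : (r : ℕ) - 1 + 1 = (r : ℕ) := Nat.sub_add_cancel hr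
  unfold nxt
  simp only [h1, r.2, dif_pos]

private lemma I5_eq {l : ℕ} (a b c : Fin l → ℕ) (i : Fin l) (e : ℕ) :
    tog a b c i e i = max (a i) (nxt c i) + (c i - e) - b i := by
  unfold tog
  rw [if_neg (lt_irrefl i), if_pos rfl]

private lemma I5_gt {l : ℕ} (a b c : Fin l → ℕ) (i : Fin l) (e : ℕ) (r : Fin l) (hr : i < r) :
    tog a b c i e r = max (a r) (nxt c r) + min (c r) (prv a r) - b r := by
  unfold tog
  rw [if_neg (not_lt.mpr hr.le), if_neg hr.ne']

theorem tog_spec {l : ℕ} {a b c : Fin l → ℕ} {i : Fin l} {e : ℕ} (hab : Strip a b)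
    (hbc : Strip b c) (he : b i + e ≤ c i) (hprv : 0 < (i : ℕ) → c i ≤ prv a i + e) :
    Strip a (tog a b c i e) ∧ Strip (tog a b c i e) c ∧ tog a b c i e i + e ≤ c i ∧
      (∀ r, r < i → tog a b c i e r = b r) ∧ tog a (tog a b c i e) c i e = b ∧
      (∑ r ∈ univ.filter (fun r => i ≤ r), ((tog a b c i e r : ℤ) - (a r : ℤ))) + (e : ℤ) =
        ∑ r ∈ univ.filter (fun r => i ≤ r), ((c r : ℤ) - (b r : ℤ)) := by
  have hm : ∀ r, max (a r) (nxt c r) ≤ b r := fun r => max_le (hab.1 r) (hbc.2 r)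
  have hbp : ∀ r : Fin l, 0 < (r : ℕ) → b r ≤ prv a r := by
    intro r hr
    have h := hab.2 ⟨(r : ℕ) - 1, lt_of_le_of_lt (Nat.sub_le _ _) r.2⟩
    rw [I5_nxt_prv b r hr] at h
    exact h
  have hpos : ∀ r : Fin l, i < r → 0 < (r : ℕ) := fun r hr =>
    lt_of_le_of_lt (Nat.zero_le _) (Fin.lt_def.mp hr)
  have hM : ∀ r, i < r → b r ≤ min (c r) (prv a r) := fun r hr =>
    le_min (hbc.1 r) (hbp r (hpos r hr))
  have tlt : ∀ r, r < i → tog a b c i e r = b r := fun r hr => by
    unfold tog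
    rw [if_pos hr]
  have teq : tog a b c i e i = max (a i) (nxt c i) + (c i - e) - b i := by
    unfold tog
    rw [if_neg (lt_irrefl i), if_pos rfl]
  have tgt : ∀ r, i < r → tog a b c i e r = max (a r) (nxt c r) + min (c r) (prv a r) - b r :=
    fun r hr => by
      unfold tog
      rw [if_neg (not_lt.mpr hr.le), if_neg hr.ne']
  -- bounds
  have lo : ∀ r, i ≤ r → max (a r) (nxt c r) ≤ tog a b c i e r := by
    intro r hr
    rcases hr.eq_or_lt with h | h
    · subst h
      rw [teq]
      omega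
    · rw [tgt r h]
      have := hM r h
      omega
  have hi1 : tog a b c i e i ≤ c i - e := by
    rw [teq]
    have := hm i
    omega
  have hi2 : ∀ r, i < r → tog a b c i e r ≤ min (c r) (prv a r) := by
    intro r h
    rw [tgt r h]
    have := hm r
    omega
  have s3 : tog a b c i e i + e ≤ c i := by omega
  refine ⟨⟨?_, ?_⟩, ⟨?_, ?_⟩, s3, tlt, ?_, ?_⟩
  · intro r
    rcases lt_or_ge r i with h | h
    · rw [tlt r h]
      exact hab.1 r
    · exact (le_max_left _ _).trans (lo r h)
  · intro r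
    unfold nxt
    by_cases h : (r : ℕ) + 1 < l
    · rw [dif_pos h]
      have hp : prv a ⟨(r : ℕ) + 1, h⟩ = a r := rfl
      rcases lt_trichotomy (⟨(r : ℕ) + 1, h⟩ : Fin l) i with h1 | h1 | h1
      · rw [tlt _ h1, ← hp]
        exact hbp _ (Nat.succ_pos _)
      · rw [← hp, h1]
        have h2 : 0 < (i : ℕ) := by
          rw [← h1]
          exact Nat.succ_pos _
        have := hprv h2
        omega
      · rw [← hp]
        exact (hi2 _ h1).trans (min_le_right _ _)
    · rw [dif_neg h]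
      exact Nat.zero_le _
  · intro r
    rcases lt_trichotomy r i with h | h | h
    · rw [tlt r h]
      exact hbc.1 r
    · subst h
      omega
    · exact (hi2 r h).trans (min_le_left _ _)
  · intro r
    rcases lt_or_ge r i with h | h
    · rw [tlt r h]
      exact hbc.2 r
    · exact (le_max_right _ _).trans (lo r h)
  · funext r
    rcases lt_trichotomy r i with h | h | h
    · unfold tog
      rw [if_pos h, if_pos h]
    · subst h
      have h1 := teq
      have h2 := hm r
      have h3 := I5_eq a (tog a b c r e) c r e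
      rw [h3, h1]
      omega
    · have h1 := tgt r h
      have h2 := hm r
      have h4 := hM r h
      have h3 := I5_gt a (tog a b c i e) c i e r h
      rw [h3, h1]
      omega
  · -- the sum
    set V : ℕ → ℤ := fun k => if k ≤ (i : ℕ) then (e : ℤ) else
      if h : k < l then ((c ⟨k, h⟩ : ℤ) - ((min (c ⟨k, h⟩) (prv a ⟨k, h⟩) : ℕ) : ℤ)) else 0 with hV
    have hVl : V l = 0 := by
      simp only [hV]
      rw [if_neg (not_le.mpr i.2), dif_neg (lt_irrefl l)]
    have hV0 : V 0 = e := by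
      simp only [hV]
      rw [if_pos (Nat.zero_le _)]
    have hVle : ∀ k : ℕ, k ≤ (i : ℕ) → V k = e := by
      intro k hk
      simp only [hV]
      rw [if_pos hk]
    have hVr : ∀ r : Fin l, i < r → V r = (c r : ℤ) - ((min (c r) (prv a r) : ℕ) : ℤ) := by
      intro r hr
      simp only [hV]
      rw [if_neg (not_le.mpr (Fin.lt_def.mp hr)), dif_pos r.2]
    have hVs : ∀ r : Fin l, i ≤ r →
        V ((r : ℕ) + 1) = (nxt c r : ℤ) - ((min (nxt c r) (a r) : ℕ) : ℤ) := by
      intro r hr
      have hr' : (i : ℕ) ≤ (r : ℕ) := hr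
      simp only [hV]
      rw [if_neg (by omega)]
      by_cases h : (r : ℕ) + 1 < l
      · rw [dif_pos h]
        have hp : prv a ⟨(r : ℕ) + 1, h⟩ = a r := rfl
        have hn : nxt c r = c ⟨(r : ℕ) + 1, h⟩ := by
          unfold nxt
          rw [dif_pos h]
        rw [hp, hn]
      · rw [dif_neg h]
        have hn : nxt c r = 0 := by
          unfold nxt
          rw [dif_neg h]
        rw [hn]
        simp
    have hterm : ∀ r : Fin l, (if i ≤ r then
        ((tog a b c i e r : ℤ) - (a r : ℤ)) - ((c r : ℤ) - (b r : ℤ)) else 0) =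
          V ((r : ℕ) + 1) - V (r : ℕ) := by
      intro r
      rcases lt_trichotomy r i with h | h | h
      · rw [if_neg (not_le.mpr h), hVle _ (Fin.lt_def.mp h), hVle _ (Fin.lt_def.mp h).le, sub_self]
      · subst h
        rw [if_pos le_rfl, hVs r le_rfl, hVle _ le_rfl, teq]
        have := hm r
        omega
      · rw [if_pos h.le, hVs r h.le, hVr r h, tgt r h]
        have h1 := hm r
        have h2 := hM r h
        omega
    have hsum : ∑ r : Fin l, (if i ≤ r then
        ((tog a b c i e r : ℤ) - (a r : ℤ)) - ((c r : ℤ) - (b r : ℤ)) else 0) = -(e : ℤ) := by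
      rw [sum_congr rfl fun r _ => hterm r,
        Fin.sum_univ_eq_sum_range (fun k => V (k + 1) - V k) l, sum_range_sub, hVl, hV0, zero_sub]
    rw [← sum_filter, sum_sub_distrib] at hsum
    linarith

end H73TR
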