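import Pool.Agent.Lib.H73TR.I5

/-!
# I6 (M): symmetry of the number of chains in the weight

It suffices to treat `w = swap k (k+1)` (adjacent transpositions generate `Perm (Fin J)`;
`J ≤ 1` is trivial, and for `l = 0` all weights are `0` and there is at most one chain).
For adjacent `k, k+1` the map which replaces the middle shape `y (k+1)` by
`tog (y k) (y (k+1)) (y (k+2)) 0 0` (`i = 0`, `e = 0`) is an involution of `chains J ρ lam` which
exchanges the weights `k` and `k + 1` (`tog_spec`: the new strips `k` has the size of the old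
strip `k+1`, and the sum of the two sizes is unchanged) and changes no other weight.
-/

namespace H73TR

open Finset

/-- The involution: the middle shape is toggled. -/
private def i6Phi {l n : ℕ} (k : Fin n) (i : Fin l) (y : Fin (n + 1 + 1) → Fin l → ℕ) :
    Fin (n + 1 + 1) → Fin l → ℕ :=
  Function.update y k.succ.castSucc
    (tog (y k.castSucc.castSucc) (y k.succ.castSucc) (y k.succ.succ) i 0)

private theorem i6_ne0 {n : ℕ} (k : Fin n) :
    (k.castSucc.castSucc : Fin (n + 1 + 1)) ≠ k.succ.castSucc := by
  intro h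
  have := congrArg Fin.val h
  simp at this

private theorem i6_ne2 {n : ℕ} (k : Fin n) :
    (k.succ.succ : Fin (n + 1 + 1)) ≠ k.succ.castSucc := by
  intro h
  have := congrArg Fin.val h
  simp at this

private theorem i6_mid {l n : ℕ} (k : Fin n) (i : Fin l) (y : Fin (n + 1 + 1) → Fin l → ℕ) :
    i6Phi k i y k.succ.castSucc =
      tog (y k.castSucc.castSucc) (y k.succ.castSucc) (y k.succ.succ) i 0 :=
  Function.update_self _ _ _

private theorem i6_of_ne {l n : ℕ} (k : Fin n) (i : Fin l) (y : Fin (n + 1 + 1) → Fin l → ℕ)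
    {j : Fin (n + 1 + 1)} (hj : j ≠ k.succ.castSucc) : i6Phi k i y j = y j :=
  Function.update_of_ne hj _ _

private theorem i6_key {l n : ℕ} (k : Fin n) (i : Fin l) (hi : (i : ℕ) = 0) (ρ lam : Fin l → ℕ)
    {y : Fin (n + 1 + 1) → Fin l → ℕ} (hy : y ∈ chains (n + 1) ρ lam) :
    i6Phi k i y ∈ chains (n + 1) ρ lam ∧
      (∀ j, wt (i6Phi k i y) j = wt y (Equiv.swap k.castSucc k.succ j)) ∧
      i6Phi k i (i6Phi k i y) = y := by
  simp only [chains, Finset.mem_filter, Fintype.mem_piFinset, Finset.mem_range] at hy ⊢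
  obtain ⟨hb, h0, hl, hs⟩ := hy
  have hab : Strip (y k.castSucc.castSucc) (y k.succ.castSucc) := by
    have h := hs k.castSucc
    rwa [Fin.succ_castSucc] at h
  have hbc : Strip (y k.succ.castSucc) (y k.succ.succ) := hs k.succ
  obtain ⟨t1, t2, -, -, t5, t6⟩ := tog_spec (i := i) (e := 0) hab hbc
    (by simpa using hbc.1 i) (by intro h; omega)
  have hfil : (univ.filter fun r : Fin l => i ≤ r) = univ := by
    ext r
    simp [Fin.le_def, hi]
  rw [hfil, Finset.sum_sub_distrib, Finset.sum_sub_distrib] at t6
  have e0 : i6Phi k i y k.castSucc.castSucc = y k.castSucc.castSucc :=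
    i6_of_ne k i y (i6_ne0 k)
  have e2 : i6Phi k i y k.succ.succ = y k.succ.succ := i6_of_ne k i y (i6_ne2 k)
  have em := i6_mid k i y
  refine ⟨⟨?_, ?_, ?_, ?_⟩, ?_, ?_⟩
  · intro j r
    by_cases hj : j = k.succ.castSucc
    · subst hj
      rw [em]
      exact lt_of_le_of_lt (t2.1 r) (hb _ r)
    · rw [i6_of_ne k i y hj]
      exact hb j r
  · rw [i6_of_ne k i y, h0]
    intro h
    have := congrArg Fin.val h
    simp at this
  · rw [i6_of_ne k i y, hl]
    intro h
    have h1 := congrArg Fin.val h
    have h2 := k.2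
    simp only [Fin.val_last, Fin.val_castSucc, Fin.val_succ] at h1
    omega
  · intro j
    by_cases h1 : j = k.castSucc
    · subst h1
      rw [Fin.succ_castSucc, em, e0]
      exact t1
    · by_cases h2 : j = k.succ
      · subst h2
        rw [em, e2]
        exact t2
      · have h3 : j.castSucc ≠ k.succ.castSucc := fun h => h2 (Fin.castSucc_injective _ h)
        have h4 : j.succ ≠ k.succ.castSucc := by
          rw [← Fin.succ_castSucc]
          exact fun h => h1 (Fin.succ_injective _ h)
        rw [i6_of_ne k i y h3, i6_of_ne k i y h4]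
        exact hs j
  · intro j
    by_cases h1 : j = k.castSucc
    · subst h1
      rw [Equiv.swap_apply_left]
      unfold wt
      rw [Fin.succ_castSucc, em, e0]
      push_cast at t6 ⊢
      linarith
    · by_cases h2 : j = k.succ
      · subst h2
        rw [Equiv.swap_apply_right]
        unfold wt
        rw [Fin.succ_castSucc, em, e2]
        push_cast at t6 ⊢
        linarith
      · rw [Equiv.swap_apply_of_ne_of_ne h1 h2]
        have h3 : j.castSucc ≠ k.succ.castSucc := fun h => h2 (Fin.castSucc_injective _ h)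
        have h4 : j.succ ≠ k.succ.castSucc := by
          rw [← Fin.succ_castSucc]
          exact fun h => h1 (Fin.succ_injective _ h)
        unfold wt
        rw [i6_of_ne k i y h3, i6_of_ne k i y h4]
  · funext j
    by_cases hj : j = k.succ.castSucc
    · subst hj
      rw [i6_mid, e0, e2, em]
      exact t5
    · rw [i6_of_ne k i _ hj, i6_of_ne k i y hj]

private theorem i6_swap {l n : ℕ} (k : Fin n) (ρ lam : Fin l → ℕ) (κ : Fin (n + 1) → ℤ) :
    ((chains (n + 1) ρ lam).filter fun y =>
        ∀ j, wt y j = κ (Equiv.swap k.castSucc k.succ j)).card =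
      ((chains (n + 1) ρ lam).filter fun y => ∀ j, wt y j = κ j).card := by
  rcases Nat.eq_zero_or_pos l with hl | hl
  · subst hl
    congr 1
    refine Finset.filter_congr fun y _ => ?_
    have h0 : ∀ j, wt y j = 0 := by
      intro j
      simp [wt]
    constructor
    · intro h j
      have h1 := h (Equiv.swap k.castSucc k.succ j)
      rw [Equiv.swap_apply_self, h0] at h1
      rw [h0, h1]
    · intro h j
      have h1 := h (Equiv.swap k.castSucc k.succ j)
      rw [h0] at h1
      rw [h0, h1]
  · refine Finset.card_nbij' (i6Phi k ⟨0, hl⟩) (i6Phi k ⟨0, hl⟩) ?_ ?_ ?_ ?_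
    · intro y hy
      rw [Finset.mem_coe, Finset.mem_filter] at hy ⊢
      obtain ⟨h1, h2, -⟩ := i6_key k ⟨0, hl⟩ rfl ρ lam hy.1
      refine ⟨h1, fun j => ?_⟩
      rw [h2, hy.2, Equiv.swap_apply_self]
    · intro y hy
      rw [Finset.mem_coe, Finset.mem_filter] at hy ⊢
      obtain ⟨h1, h2, -⟩ := i6_key k ⟨0, hl⟩ rfl ρ lam hy.1
      refine ⟨h1, fun j => ?_⟩
      rw [h2, hy.2]
    · intro y hy
      rw [Finset.mem_coe, Finset.mem_filter] at hy
      exact (i6_key k ⟨0, hl⟩ rfl ρ lam hy.1).2.2
    · intro y hy
      rw [Finset.mem_coe, Finset.mem_filter] at hy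
      exact (i6_key k ⟨0, hl⟩ rfl ρ lam hy.1).2.2

theorem chains_symm {l : ℕ} (J : ℕ) (ρ lam : Fin l → ℕ) (κ : Fin J → ℤ)
    (w : Equiv.Perm (Fin J)) :
    ((chains J ρ lam).filter fun y => ∀ j, wt y j = κ (w j)).card =
      ((chains J ρ lam).filter fun y => ∀ j, wt y j = κ j).card := by
  cases J with
  | zero =>
    rw [Subsingleton.elim w 1]
    rfl
  | succ n =>
    have hw : w ∈ Submonoid.closure (Set.range fun k : Fin n => Equiv.swap k.castSucc k.succ) := by
      rw [Equiv.Perm.mclosure_swap_castSucc_succ]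
      exact Submonoid.mem_top w
    revert κ
    induction hw using Submonoid.closure_induction with
    | mem x hx =>
      obtain ⟨k, rfl⟩ := hx
      intro κ
      exact i6_swap k ρ lam κ
    | one =>
      intro κ
      rfl
    | mul x v _ _ hx hv =>
      intro κ
      have h1 := hv (fun j => κ (x j))
      have h2 := hx κ
      rw [← h2, ← h1]
      rfl

end H73TR
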