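import Pool.Agent.Lib.H73TR.I5

/-!
# I7a (L): the involution on the bad chains (Stembridge, Gasharov)

`cells y k r` = number of letters `k` in row `r` = `y_(k+1) r - y_k r ≥ 0`.  `y` is bad if for
some `k` (`k + 1 < l`) and row `i`
`V(k,i):  τ_(k+1) + ∑_{r ≤ i} cells (k+1) r > τ_k + ∑_{r < i} cells k r`.
Take the MINIMAL row `i` for which some `k` violates, and for this `i` the MAXIMAL `k`.  Put
`d = τ_k + ∑_{r < i} cells k r - τ_(k+1) - ∑_{r < i} cells (k+1) r`.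
If `i > 0`, the condition for `(k, i-1)` holds and gives `d ≥ cells k (i-1)`; if `i = 0`,
`d = τ_k - τ_(k+1) ≥ 0`.  `V(k,i)` says `cells (k+1) i ≥ d + 1`.
Let `a = y_k`, `b = y_(k+1)`, `c = y_(k+2)`, `e = d + 1`: `b_i + e ≤ c_i`, and for `i > 0`
`c_i ≤ b_(i-1) = a_(i-1) + cells k (i-1) ≤ a_(i-1) + d`, so `tog_spec` applies; let `f y` be `y`
with the row shape `k + 1` replaced by `tog a b c i (d+1)`.
`f y` is a chain.  For rows `< i` nothing changes, so no `(k', i')` with `i' < i` violates; for row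
`i` and `k' > k` only shapes with index `≥ k + 2` in row `i` and rows `< i` are involved:
unchanged; `V(k,i)` still holds because `cells' (k+1) i = c_i - b'_i ≥ d + 1`, and `d` is the same.
So `f y` is bad with the same `i, k, d`, and `f (f y) = y` (`tog` is an involution).
Weights (`wt y k = ∑_r cells y k r`): `tog_spec` gives
`∑_{r ≥ i} cells' k r = ∑_{r ≥ i} cells (k+1) r - (d+1)`, so
`τ_k + wt' k = τ_k + ∑_{r<i} cells k r + ∑_{r ≥ i} cells (k+1) r - d - 1 = τ_(k+1) + wt (k+1) - 1`,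
and `δ_(k+1) = δ_k - 1`; the sum of the weights `k` and `k+1` is unchanged, so
`τ + δ + wt (f y) = (τ + δ + wt y) ∘ swap k (k+1)`.
(Define `f y` by cases: bad chains as above with the chosen `i, k` (`Nat.find` and a maximum, or
`Classical.choose` of a unique pair), other `y` arbitrary.)
-/

namespace H73TR

open Finset

variable {l : ℕ}

/-- `τ` as a function of a natural number. -/
private def I7a_tz (τ : Fin l → ℕ) (k : ℕ) : ℤ := if h : k < l then (τ ⟨k, h⟩ : ℤ) else 0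

/-- The violation. -/
private def I7a_V (τ : Fin l → ℕ) (y : Fin (l + 1) → Fin l → ℕ) (k i : ℕ) : Prop :=
  k + 1 < l ∧ i < l ∧
    I7a_tz τ k + ∑ r ∈ range i, cells y k r < I7a_tz τ (k + 1) + ∑ r ∈ range (i + 1), cells y (k + 1) r

/-- The selected pair. -/
private def I7a_Sel (τ : Fin l → ℕ) (y : Fin (l + 1) → Fin l → ℕ) (k i : ℕ) : Prop :=
  I7a_V τ y k i ∧ (∀ i', i' < i → ∀ k', ¬ I7a_V τ y k' i') ∧ ∀ k', k < k' → ¬ I7a_V τ y k' i

/-- The cut. -/
private def I7a_e (τ : Fin l → ℕ) (y : Fin (l + 1) → Fin l → ℕ) (k i : ℕ) : ℕ :=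
  (I7a_tz τ k + ∑ r ∈ range i, cells y k r - I7a_tz τ (k + 1) - ∑ r ∈ range i, cells y (k + 1) r).toNat + 1

/-- The changed chain. -/
private def I7a_T (τ : Fin l → ℕ) (y : Fin (l + 1) → Fin l → ℕ) (k i : ℕ) (hk : k + 1 < l) (hi : i < l) :
    Fin (l + 1) → Fin l → ℕ :=
  Function.update y ⟨k + 1, by omega⟩
    (tog (y ⟨k, by omega⟩) (y ⟨k + 1, by omega⟩) (y ⟨k + 2, by omega⟩) ⟨i, hi⟩ (I7a_e τ y k i))

private theorem I7a_notGood {τ : Fin l → ℕ} {y : Fin (l + 1) → Fin l → ℕ} :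
    ¬ Good τ y ↔ ∃ i k, I7a_V τ y k i := by
  unfold Good I7a_V
  constructor
  · intro h
    push Not at h
    obtain ⟨k, hk, i, h⟩ := h
    refine ⟨i, k, hk, i.2, ?_⟩
    rw [I7a_tz, I7a_tz, dif_pos (by omega), dif_pos hk]
    exact h
  · rintro ⟨i, k, hk, hi, h⟩ hG
    have h1 := hG k hk ⟨i, hi⟩
    rw [I7a_tz, I7a_tz, dif_pos (by omega), dif_pos hk] at h
    exact absurd h (not_lt.2 h1)

open Classical in
private theorem I7a_exists {τ : Fin l → ℕ} {y : Fin (l + 1) → Fin l → ℕ} (h : ¬ Good τ y) :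
    ∃ k i, I7a_Sel τ y k i := by
  rw [I7a_notGood] at h
  obtain ⟨k₀, hk₀⟩ := Nat.find_spec h
  have hkl : k₀ ≤ l := by
    have := hk₀.1
    omega
  refine ⟨Nat.findGreatest (fun k => I7a_V τ y k (Nat.find h)) l, Nat.find h, ?_, ?_, ?_⟩
  · exact Nat.findGreatest_spec (P := fun k => I7a_V τ y k (Nat.find h)) hkl hk₀
  · intro i' hi' k' hV
    exact Nat.find_min h hi' ⟨k', hV⟩
  · intro k' hk' hV
    have h1 : k' ≤ l := by
      have := hV.1
      omega
    exact Nat.findGreatest_is_greatest (P := fun k => I7a_V τ y k (Nat.find h)) hk' h1 hV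

private theorem I7a_unique {τ : Fin l → ℕ} {y : Fin (l + 1) → Fin l → ℕ} {k i k' i' : ℕ}
    (h : I7a_Sel τ y k i) (h' : I7a_Sel τ y k' i') : k = k' ∧ i = i' := by
  have hi : i = i' := by
    rcases lt_trichotomy i i' with h1 | h1 | h1
    · exact absurd h.1 (h'.2.1 i h1 k)
    · exact h1
    · exact absurd h'.1 (h.2.1 i' h1 k')
  subst hi
  refine ⟨?_, rfl⟩
  rcases lt_trichotomy k k' with h1 | h1 | h1
  · exact absurd h'.1 (h.2.2 k' h1)
  · exact h1
  · exact absurd h.1 (h'.2.2 k h1)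

private theorem I7a_sum_range (g : ℕ → ℤ) (i : Fin l) :
    ∑ r ∈ range (i : ℕ), g r = ∑ r ∈ univ.filter (fun r : Fin l => ¬ i ≤ r), g (r : ℕ) := by
  rw [Finset.sum_filter]
  have h1 : ∀ r : Fin l, (if ¬ i ≤ r then g (r : ℕ) else 0) =
      (fun n : ℕ => if ¬ (i : ℕ) ≤ n then g n else 0) (r : ℕ) := by
    intro r
    simp only [Fin.le_def]
  rw [Finset.sum_congr rfl (fun r _ => h1 r), Fin.sum_univ_eq_sum_range (fun n : ℕ => if ¬ (i : ℕ) ≤ n then g n else 0) l,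
    ← Finset.sum_filter]
  refine Finset.sum_congr ?_ fun _ _ => rfl
  ext r
  simp only [Finset.mem_range, Finset.mem_filter, not_le]
  have := i.2
  constructor
  · intro h
    exact ⟨by omega, h⟩
  · intro h
    exact h.2

private theorem I7a_cells {y : Fin (l + 1) → Fin l → ℕ} {k : ℕ} (hk : k < l) (r : Fin l) :
    cells y k r = (y ⟨k + 1, by omega⟩ r : ℤ) - (y ⟨k, by omega⟩ r : ℤ) := by
  unfold cells
  rw [dif_pos ⟨hk, r.2⟩]
  rfl

private theorem I7a_main {τ ρ lam : Fin l → ℕ} (hτ : Antitone τ) {y : Fin (l + 1) → Fin l → ℕ}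
    (hy : y ∈ chains l ρ lam) {k i : ℕ} (hS : I7a_Sel τ y k i) (hk : k + 1 < l) (hi : i < l) :
    I7a_T τ y k i hk hi ∈ chains l ρ lam ∧ I7a_Sel τ (I7a_T τ y k i hk hi) k i ∧
      I7a_T τ (I7a_T τ y k i hk hi) k i hk hi = y ∧
      ∀ j : Fin l,
          (τ j : ℤ) + delta l j + wt (I7a_T τ y k i hk hi) j =
            (τ (Equiv.swap ⟨k, (Nat.lt_succ_self k).trans hk⟩ ⟨k + 1, hk⟩ j) : ℤ) +
              delta l (Equiv.swap ⟨k, (Nat.lt_succ_self k).trans hk⟩ ⟨k + 1, hk⟩ j) +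
              wt y (Equiv.swap ⟨k, (Nat.lt_succ_self k).trans hk⟩ ⟨k + 1, hk⟩ j) := by
  have hk0 : k < l := by omega
  -- the three shapes
  set a := y ⟨k, by omega⟩ with ha
  set b := y ⟨k + 1, by omega⟩ with hb
  set c := y ⟨k + 2, by omega⟩ with hc
  set I : Fin l := ⟨i, hi⟩ with hI
  set e := I7a_e τ y k i with he
  have hmem := hy
  unfold chains at hmem
  rw [Finset.mem_filter, Fintype.mem_piFinset] at hmem
  obtain ⟨hle, hy0, hyl, hst⟩ := hmem
  have hab : Strip a b := hst ⟨k, hk0⟩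
  have hbc : Strip b c := hst ⟨k + 1, hk⟩
  -- the sums
  set Ck := ∑ r ∈ range i, cells y k r with hCk
  set Ck1 := ∑ r ∈ range i, cells y (k + 1) r with hCk1
  have hV := hS.1.2.2
  rw [Finset.sum_range_succ, ← hCk1] at hV
  have hci : cells y (k + 1) i = (c I : ℤ) - (b I : ℤ) := I7a_cells hk I
  rw [← hCk, hci] at hV
  -- `d ≥ 0`
  have hd : 0 ≤ I7a_tz τ k + Ck - I7a_tz τ (k + 1) - Ck1 ∧
      (0 < i → ∀ hi1 : i - 1 < l, (b ⟨i - 1, hi1⟩ : ℤ) - (a ⟨i - 1, hi1⟩ : ℤ) ≤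
        I7a_tz τ k + Ck - I7a_tz τ (k + 1) - Ck1) := by
    rcases Nat.eq_zero_or_pos i with h0 | h0
    · refine ⟨?_, fun h => absurd h (by omega)⟩
      have h1 : Ck = 0 := by rw [hCk, h0, Finset.range_zero, Finset.sum_empty]
      have h2 : Ck1 = 0 := by rw [hCk1, h0, Finset.range_zero, Finset.sum_empty]
      have h3 : τ ⟨k + 1, hk⟩ ≤ τ ⟨k, hk0⟩ := hτ (Fin.mk_le_mk.2 (by omega))
      rw [h1, h2, I7a_tz, I7a_tz, dif_pos hk0, dif_pos hk]
      have h4 : (τ ⟨k + 1, hk⟩ : ℤ) ≤ (τ ⟨k, hk0⟩ : ℤ) := by exact_mod_cast h3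
      linarith
    · have h1 := hS.2.1 (i - 1) (by omega) k
      have h2 : ¬ (I7a_tz τ k + ∑ r ∈ range (i - 1), cells y k r <
          I7a_tz τ (k + 1) + ∑ r ∈ range (i - 1 + 1), cells y (k + 1) r) := by
        intro h
        exact h1 ⟨hk, by omega, h⟩
      rw [not_lt] at h2
      have h3 : i - 1 + 1 = i := by omega
      rw [h3, ← hCk1] at h2
      have h4 : Ck = ∑ r ∈ range (i - 1), cells y k r + cells y k (i - 1) := by
        rw [hCk, ← Finset.sum_range_succ, h3]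
      have hi1 : i - 1 < l := by omega
      have h5 : cells y k (i - 1) = (b ⟨i - 1, hi1⟩ : ℤ) - (a ⟨i - 1, hi1⟩ : ℤ) :=
        I7a_cells hk0 (⟨i - 1, hi1⟩ : Fin l)
      have h6 : (a ⟨i - 1, hi1⟩ : ℤ) ≤ (b ⟨i - 1, hi1⟩ : ℤ) := by exact_mod_cast hab.1 ⟨i - 1, hi1⟩
      have h7 : (b ⟨i - 1, hi1⟩ : ℤ) - (a ⟨i - 1, hi1⟩ : ℤ) ≤
        I7a_tz τ k + Ck - I7a_tz τ (k + 1) - Ck1 := by
        rw [h4, h5]
        linarith
      exact ⟨by linarith, fun _ _ => h7⟩
  have hee : (e : ℤ) = I7a_tz τ k + Ck - I7a_tz τ (k + 1) - Ck1 + 1 := by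
    rw [he, I7a_e, ← hCk, ← hCk1, Nat.cast_add, Int.toNat_of_nonneg hd.1, Nat.cast_one]
  -- the hypotheses of the toggle
  have hbe : b I + e ≤ c I := by
    have : (b I : ℤ) + e ≤ c I := by
      rw [hee]
      linarith
    exact_mod_cast this
  have hprv : 0 < (I : ℕ) → c I ≤ prv a I + e := by
    intro h0
    have h0' : 0 < i := h0
    have hi1 : i - 1 < l := by omega
    have h1 := hbc.2 ⟨i - 1, hi1⟩
    have h2 : nxt c ⟨i - 1, hi1⟩ = c I := by
      unfold nxt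
      have h3 : i - 1 + 1 = i := by omega
      have h4 : ((⟨i - 1, hi1⟩ : Fin l) : ℕ) + 1 < l := by
        show i - 1 + 1 < l
        omega
      rw [dif_pos h4]
      congr 1
      exact Fin.ext h3
    rw [h2] at h1
    have h3 := hd.2 h0' hi1
    have h4 : prv a I = a ⟨i - 1, hi1⟩ := rfl
    rw [h4]
    have h5 : (c I : ℤ) ≤ (a ⟨i - 1, hi1⟩ : ℤ) + e := by
      have h6 : (c I : ℤ) ≤ (b ⟨i - 1, hi1⟩ : ℤ) := by exact_mod_cast h1
      rw [hee]
      linarith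
    exact_mod_cast h5
  obtain ⟨t1, t2, t3, t4, t5, t6⟩ := tog_spec hab hbc hbe hprv
  set b' := tog a b c I e with hb'
  have hT : I7a_T τ y k i hk hi = Function.update y ⟨k + 1, by omega⟩ b' := rfl
  rw [hT]
  set z := Function.update y ⟨k + 1, by omega⟩ b' with hz
  have hzk1 : z ⟨k + 1, by omega⟩ = b' := by rw [hz, Function.update_self]
  have hzne : ∀ j : Fin (l + 1), (j : ℕ) ≠ k + 1 → z j = y j := by
    intro j hj
    rw [hz, Function.update_of_ne]
    intro h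
    exact hj (by rw [h])
  have hzk : z ⟨k, by omega⟩ = a := hzne _ (by show k ≠ k + 1; omega)
  have hzk2 : z ⟨k + 2, by omega⟩ = c := hzne _ (by show k + 2 ≠ k + 1; omega)
  -- `z` is a chain
  have hzc : z ∈ chains l ρ lam := by
    unfold chains
    rw [Finset.mem_filter, Fintype.mem_piFinset]
    refine ⟨?_, ?_, ?_, ?_⟩
    · intro j
      by_cases hj : (j : ℕ) = k + 1
      · have hj' : j = ⟨k + 1, by omega⟩ := Fin.ext hj
        rw [hj', hzk1, Fintype.mem_piFinset]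
        intro r
        have h1 := hle ⟨k + 2, by omega⟩
        rw [Fintype.mem_piFinset] at h1
        have h2 := h1 r
        rw [Finset.mem_range] at h2 ⊢
        exact lt_of_le_of_lt (t2.1 r) h2
      · rw [hzne j hj]
        exact hle j
    · rw [hzne 0 (by show 0 ≠ k + 1; omega), hy0]
    · rw [hzne (Fin.last l) (by show l ≠ k + 1; omega), hyl]
    · intro j
      by_cases h1 : (j : ℕ) = k
      · have h2 : j = ⟨k, hk0⟩ := Fin.ext h1
        subst h2
        have h3 : z (Fin.castSucc ⟨k, hk0⟩) = a := hzk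
        have h4 : z (Fin.succ ⟨k, hk0⟩) = b' := hzk1
        rw [h3, h4]
        exact t1
      · by_cases h2 : (j : ℕ) = k + 1
        · have h3 : j = ⟨k + 1, hk⟩ := Fin.ext h2
          subst h3
          have h4 : z (Fin.castSucc ⟨k + 1, hk⟩) = b' := hzk1
          have h5 : z (Fin.succ ⟨k + 1, hk⟩) = c := hzk2
          rw [h4, h5]
          exact t2
        · rw [hzne j.castSucc (by simpa using h2), hzne j.succ (by simpa using h1)]
          exact hst j
  -- the cells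
  have hcl : ∀ k' r : ℕ, r < i → cells z k' r = cells y k' r := by
    intro k' r hr
    unfold cells
    by_cases h1 : k' < l ∧ r < l
    · rw [dif_pos h1, dif_pos h1]
      have h2 : ∀ j : Fin (l + 1), z j ⟨r, h1.2⟩ = y j ⟨r, h1.2⟩ := by
        intro j
        by_cases hj : (j : ℕ) = k + 1
        · have hj' : j = ⟨k + 1, by omega⟩ := Fin.ext hj
          rw [hj', hzk1]
          exact t4 ⟨r, h1.2⟩ (Fin.mk_lt_mk.2 hr)
        · rw [hzne j hj]
      rw [h2, h2]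
    · rw [dif_neg h1, dif_neg h1]
  have hcl2 : ∀ k' r : ℕ, k' ≠ k → k' ≠ k + 1 → cells z k' r = cells y k' r := by
    intro k' r h1 h2
    unfold cells
    by_cases h3 : k' < l ∧ r < l
    · rw [dif_pos h3, dif_pos h3, hzne (Fin.succ ⟨k', h3.1⟩) (by simpa using h1),
        hzne (Fin.castSucc ⟨k', h3.1⟩) (by simpa using h2)]
    · rw [dif_neg h3, dif_neg h3]
  have hsum : ∀ k' n : ℕ, n ≤ i → ∑ r ∈ range n, cells z k' r = ∑ r ∈ range n, cells y k' r := by
    intro k' n hn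
    exact Finset.sum_congr rfl fun r hr => hcl k' r (by rw [Finset.mem_range] at hr; omega)
  -- the selected pair
  have hzV : I7a_V τ z k i := by
    refine ⟨hk, hi, ?_⟩
    rw [Finset.sum_range_succ, hsum k i le_rfl, hsum (k + 1) i le_rfl, ← hCk, ← hCk1]
    have h1 : cells z (k + 1) i = (c I : ℤ) - (b' I : ℤ) := by
      have h2 : cells z (k + 1) i = (z ⟨k + 1 + 1, by omega⟩ I : ℤ) - (z ⟨k + 1, by omega⟩ I : ℤ) := I7a_cells hk I
      rw [h2, hzk1]
      have h3 : z ⟨k + 1 + 1, by omega⟩ = c := hzk2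
      rw [h3]
    rw [h1]
    have h2 : (b' I : ℤ) + e ≤ c I := by exact_mod_cast t3
    rw [hee] at h2
    linarith
  have hzS : I7a_Sel τ z k i := by
    refine ⟨hzV, ?_, ?_⟩
    · intro i' hi' k' hV'
      refine hS.2.1 i' hi' k' ⟨hV'.1, hV'.2.1, ?_⟩
      have h1 := hV'.2.2
      rw [hsum k' i' (by omega), hsum (k' + 1) (i' + 1) (by omega)] at h1
      exact h1
    · intro k' hk' hV'
      refine hS.2.2 k' hk' ⟨hV'.1, hV'.2.1, ?_⟩
      have h1 := hV'.2.2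
      rw [hsum k' i le_rfl, Finset.sum_congr rfl fun r _ => hcl2 (k' + 1) r (by omega) (by omega)] at h1
      exact h1
  refine ⟨hzc, hzS, ?_, ?_⟩
  · -- the involution
    have h1 : I7a_e τ z k i = e := by
      rw [he]
      unfold I7a_e
      rw [hsum k i le_rfl, hsum (k + 1) i le_rfl]
    unfold I7a_T
    rw [h1]
    have h2 : tog (z ⟨k, by omega⟩) (z ⟨k + 1, by omega⟩) (z ⟨k + 2, by omega⟩) ⟨i, hi⟩ e = b := by
      rw [hzk, hzk1, hzk2]
      exact t5
    rw [h2, hz, Function.update_idem, hb, Function.update_eq_self]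
  · -- the weights
    have hsplit : ∀ F : Fin l → ℤ, ∑ r, F r =
        ∑ r ∈ univ.filter (fun r => I ≤ r), F r + ∑ r ∈ univ.filter (fun r => ¬ I ≤ r), F r := by
      intro F
      exact (Finset.sum_filter_add_sum_filter_not univ (fun r => I ≤ r) F).symm
    have hA : Ck = ∑ r ∈ univ.filter (fun r => ¬ I ≤ r), ((b r : ℤ) - (a r : ℤ)) := by
      rw [hCk]
      have h1 := I7a_sum_range (fun r => cells y k r) I
      refine h1.trans (Finset.sum_congr rfl fun r _ => ?_)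
      exact I7a_cells hk0 r
    have hB : Ck1 = ∑ r ∈ univ.filter (fun r => ¬ I ≤ r), ((c r : ℤ) - (b r : ℤ)) := by
      rw [hCk1]
      have h1 := I7a_sum_range (fun r => cells y (k + 1) r) I
      refine h1.trans (Finset.sum_congr rfl fun r _ => ?_)
      exact I7a_cells hk r
    have hC : ∑ r ∈ univ.filter (fun r => ¬ I ≤ r), ((b' r : ℤ) - (a r : ℤ)) = Ck := by
      rw [hA]
      refine Finset.sum_congr rfl fun r hr => ?_
      rw [Finset.mem_filter, not_le] at hr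
      rw [t4 r hr.2]
    -- the two weights
    have w1 : ∑ r, (b' r : ℤ) - ∑ r, (a r : ℤ) + e = ∑ r, (c r : ℤ) - ∑ r, (b r : ℤ) - Ck1 + Ck := by
      rw [← Finset.sum_sub_distrib, ← Finset.sum_sub_distrib, hsplit (fun r => (b' r : ℤ) - (a r : ℤ)),
        hsplit (fun r => (c r : ℤ) - (b r : ℤ)), hC, ← hB]
      linarith
    have hwt : ∀ (x : Fin (l + 1) → Fin l → ℕ) (n : ℕ) (hn : n < l), wt x ⟨n, hn⟩ =
        ∑ r, (x ⟨n + 1, by omega⟩ r : ℤ) - ∑ r, (x ⟨n, by omega⟩ r : ℤ) := by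
      intro x n hn
      rfl
    have v1 : wt z ⟨k, hk0⟩ = ∑ r, (b' r : ℤ) - ∑ r, (a r : ℤ) := by rw [hwt, hzk1, hzk]
    have v2 : wt z ⟨k + 1, hk⟩ = ∑ r, (c r : ℤ) - ∑ r, (b' r : ℤ) := by
      rw [hwt, hzk1]
      have h3 : z ⟨k + 1 + 1, by omega⟩ = c := hzk2
      rw [h3]
    have v3 : wt y ⟨k, hk0⟩ = ∑ r, (b r : ℤ) - ∑ r, (a r : ℤ) := rfl
    have v4 : wt y ⟨k + 1, hk⟩ = ∑ r, (c r : ℤ) - ∑ r, (b r : ℤ) := rfl
    have d1 : delta l ⟨k, hk0⟩ = delta l ⟨k + 1, hk⟩ + 1 := by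
      unfold delta
      push_cast
      ring
    have z1 : I7a_tz τ k = τ ⟨k, hk0⟩ := by rw [I7a_tz, dif_pos hk0]
    have z2 : I7a_tz τ (k + 1) = τ ⟨k + 1, hk⟩ := by rw [I7a_tz, dif_pos hk]
    rw [z1, z2] at hee
    intro j
    by_cases hj1 : j = ⟨k, hk0⟩
    · subst hj1
      rw [Equiv.swap_apply_left, v1, v4, d1]
      linarith
    · by_cases hj2 : j = ⟨k + 1, hk⟩
      · subst hj2
        rw [Equiv.swap_apply_right, v2, v3, d1]
        linarith
      · rw [Equiv.swap_apply_of_ne_of_ne hj1 hj2]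
        have h1 : (j : ℕ) ≠ k := fun h => hj1 (Fin.ext h)
        have h2 : (j : ℕ) ≠ k + 1 := fun h => hj2 (Fin.ext h)
        unfold wt
        rw [hzne j.castSucc (by simpa using h2), hzne j.succ (by simpa using h1)]

theorem bad_involution {l : ℕ} {τ : Fin l → ℕ} (hτ : Antitone τ) (ρ lam : Fin l → ℕ) :
    ∃ f : (Fin (l + 1) → Fin l → ℕ) → (Fin (l + 1) → Fin l → ℕ),
      ∀ y ∈ chains l ρ lam, ¬ Good τ y → f y ∈ chains l ρ lam ∧ ¬ Good τ (f y) ∧ f (f y) = y ∧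
        ∃ (k : ℕ) (h : k + 1 < l), ∀ j : Fin l,
          (τ j : ℤ) + delta l j + wt (f y) j =
            (τ (Equiv.swap ⟨k, (Nat.lt_succ_self k).trans h⟩ ⟨k + 1, h⟩ j) : ℤ) +
              delta l (Equiv.swap ⟨k, (Nat.lt_succ_self k).trans h⟩ ⟨k + 1, h⟩ j) +
              wt y (Equiv.swap ⟨k, (Nat.lt_succ_self k).trans h⟩ ⟨k + 1, h⟩ j) := by
  have key : ∀ y : Fin (l + 1) → Fin l → ℕ, ∃ z : Fin (l + 1) → Fin l → ℕ,
      ∀ (k i : ℕ) (hk : k + 1 < l) (hi : i < l), I7a_Sel τ y k i → z = I7a_T τ y k i hk hi := by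
    intro y
    by_cases h : ∃ (k i : ℕ), I7a_Sel τ y k i
    · obtain ⟨k, i, hS⟩ := h
      refine ⟨I7a_T τ y k i hS.1.1 hS.1.2.1, ?_⟩
      intro k' i' hk' hi' hS'
      obtain ⟨rfl, rfl⟩ := I7a_unique hS hS'
      rfl
    · refine ⟨y, ?_⟩
      intro k i hk hi hS
      exact absurd ⟨k, i, hS⟩ h
  choose f hf using key
  refine ⟨f, ?_⟩
  intro y hy hbad
  obtain ⟨k, i, hS⟩ := I7a_exists hbad
  have hk := hS.1.1
  have hi := hS.1.2.1
  obtain ⟨h1, h2, h3, h4⟩ := I7a_main hτ hy hS hk hi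
  have h5 : f y = I7a_T τ y k i hk hi := hf y k i hk hi hS
  rw [h5]
  refine ⟨h1, ?_, ?_, k, hk, h4⟩
  · exact I7a_notGood.2 ⟨i, k, h2.1⟩
  · rw [hf _ k i hk hi h2]
    exact h3

end H73TR
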