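import Pool.Agent.Lib.H73TR.I6
import Pool.Agent.Lib.H73TR.I7a

/-!
# I7b (M): only the good chains remain

By `chains_symm` (with `κ k = mu k + δ k - (τ (w k) + δ (w k))`, composed with `w⁻¹`) and replacing
`w` by its inverse the left side is
`∑_w sg w * #{y | ∀ k, τ k + δ k + wt y k = mu (w k) + δ (w k)}`.
`mu + δ` is strictly decreasing, so for each `y` there is at most one such `w`.  The bad `y`
cancel: `f` of `bad_involution` maps a bad `y` with permutation `w` to a bad one with permutation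
`w * swap k (k+1)`, of the opposite sign, and is an involution (without fixed points on these).
For a good `y` the vector `ν = τ + wt y` is decreasing (condition `i = l - 1`:
`τ_(k+1) + wt_(k+1) ≤ τ_k + ∑_{r<l-1} cells k r ≤ τ_k + wt_k`), so `ν + δ` is strictly decreasing and
equal to `(mu + δ) ∘ w`, hence `w = 1`.
-/

namespace H73TR

open Finset

private theorem i7b_reidx {l : ℕ} (τ ρ lam mu : Fin l → ℕ) (w : Equiv.Perm (Fin l)) :
    ((chains l ρ lam).filter fun y =>
        ∀ k, wt y k = (mu k : ℤ) + delta l k - ((τ (w k) : ℤ) + delta l (w k))).card =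
      ((chains l ρ lam).filter fun y =>
        ∀ j, (τ j : ℤ) + delta l j + wt y j = (mu (w⁻¹ j) : ℤ) + delta l (w⁻¹ j)).card := by
  have h := chains_symm l ρ lam
    (fun k => (mu k : ℤ) + delta l k - ((τ (w k) : ℤ) + delta l (w k))) w⁻¹
  rw [← h]
  refine congrArg Finset.card (Finset.filter_congr fun y _ => ?_)
  refine forall_congr' fun j => ?_
  have h1 : w (w⁻¹ j) = j := Equiv.apply_symm_apply w j
  rw [h1]
  constructor
  · intro h2
    rw [h2]
    ring
  · intro h2
    linarith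

private theorem i7b_cells {l : ℕ} {ρ lam : Fin l → ℕ} {y : Fin (l + 1) → Fin l → ℕ}
    (hy : y ∈ chains l ρ lam) (k r : ℕ) : 0 ≤ cells y k r := by
  unfold cells
  split_ifs with h
  · have h1 := ((Finset.mem_filter.1 hy).2.2.2 ⟨k, h.1⟩).1 ⟨r, h.2⟩
    have h2 : (y (Fin.castSucc ⟨k, h.1⟩) ⟨r, h.2⟩ : ℤ) ≤ (y (Fin.succ ⟨k, h.1⟩) ⟨r, h.2⟩ : ℤ) := by
      exact_mod_cast h1
    linarith
  · exact le_rfl

private theorem i7b_sum {l : ℕ} (y : Fin (l + 1) → Fin l → ℕ) (k : ℕ) (hk : k < l) :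
    ∑ r ∈ range l, cells y k r = wt y ⟨k, hk⟩ := by
  rw [← Fin.sum_univ_eq_sum_range]
  unfold wt
  rw [← Finset.sum_sub_distrib]
  refine Finset.sum_congr rfl fun i _ => ?_
  unfold cells
  rw [dif_pos ⟨hk, i.2⟩]

private theorem i7b_step {l : ℕ} {τ ρ lam : Fin l → ℕ} {y : Fin (l + 1) → Fin l → ℕ}
    (hy : y ∈ chains l ρ lam) (hg : Good τ y) (k : ℕ) (h : k + 1 < l) :
    (τ ⟨k + 1, h⟩ : ℤ) + wt y ⟨k + 1, h⟩ ≤
      (τ ⟨k, (Nat.lt_succ_self k).trans h⟩ : ℤ) + wt y ⟨k, (Nat.lt_succ_self k).trans h⟩ := by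
  have h1 := hg k h ⟨l - 1, by omega⟩
  have h2 : (l - 1) + 1 = l := by omega
  simp only [h2] at h1
  rw [i7b_sum y (k + 1) h] at h1
  have h3 : ∑ r ∈ range (l - 1), cells y k r ≤ ∑ r ∈ range l, cells y k r :=
    Finset.sum_le_sum_of_subset_of_nonneg (Finset.range_mono (Nat.sub_le _ _))
      fun r _ _ => i7b_cells hy k r
  rw [i7b_sum y k ((Nat.lt_succ_self k).trans h)] at h3
  linarith

private theorem i7b_anti {l : ℕ} {τ ρ lam : Fin l → ℕ} {y : Fin (l + 1) → Fin l → ℕ}
    (hy : y ∈ chains l ρ lam) (hg : Good τ y) :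
    ∀ (d : ℕ) (i j : Fin l), (j : ℕ) = i + d →
      (τ j : ℤ) + wt y j ≤ (τ i : ℤ) + wt y i := by
  intro d
  induction d with
  | zero =>
    intro i j hij
    have h1 : j = i := Fin.ext hij
    rw [h1]
  | succ d ih =>
    intro i j hij
    have hj := j.2
    have h1 := ih i ⟨i + d, by omega⟩ rfl
    have h2 := i7b_step hy hg (i + d) (by omega)
    have h3 : j = ⟨i + d + 1, by omega⟩ := Fin.ext (by rw [hij]; rfl)
    rw [h3]
    exact h2.trans h1

private theorem i7b_one {l : ℕ} {τ ρ lam mu : Fin l → ℕ} (hmu : Antitone mu)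
    {y : Fin (l + 1) → Fin l → ℕ} (hy : y ∈ chains l ρ lam) (hg : Good τ y)
    (w : Equiv.Perm (Fin l))
    (hw : ∀ j, (τ j : ℤ) + delta l j + wt y j = (mu (w j) : ℤ) + delta l (w j)) : w = 1 := by
  have hmono : StrictMono w := by
    intro i j hij
    by_contra hcon
    rw [not_lt] at hcon
    have hij' : (i : ℕ) < j := hij
    have hcon' : ((w j : Fin l) : ℕ) ≤ (w i : Fin l) := hcon
    have h1 := i7b_anti hy hg ((j : ℕ) - i) i j (by omega)
    have h2 : (mu (w i) : ℤ) ≤ mu (w j) := by exact_mod_cast hmu hcon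
    have h3 := hw i
    have h4 := hw j
    unfold delta at h3 h4
    have h5 : (((w j : Fin l) : ℕ) : ℤ) ≤ ((w i : Fin l) : ℕ) := by exact_mod_cast hcon'
    have h6 : ((i : ℕ) : ℤ) < (j : ℕ) := by exact_mod_cast hij'
    linarith
  have hr : Set.range w = Set.range (id : Fin l → Fin l) := by
    rw [Set.range_id]
    exact w.surjective.range_eq
  have h : (w : Fin l → Fin l) = id := (hmono.range_inj strictMono_id).1 hr
  exact Equiv.ext fun i => congrFun h i

open Classical in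
private noncomputable def i7b_g {l : ℕ} (τ mu : Fin l → ℕ) (y : Fin (l + 1) → Fin l → ℕ) : ℤ :=
  ∑ w : Equiv.Perm (Fin l), sg w *
    (if ∀ j, (τ j : ℤ) + delta l j + wt y j = (mu (w j) : ℤ) + delta l (w j) then 1 else 0)

private theorem i7b_neg {l : ℕ} (τ mu : Fin l → ℕ) (y z : Fin (l + 1) → Fin l → ℕ)
    (a b : Fin l) (hab : a ≠ b)
    (h : ∀ j : Fin l, (τ j : ℤ) + delta l j + wt z j =
      (τ (Equiv.swap a b j) : ℤ) + delta l (Equiv.swap a b j) + wt y (Equiv.swap a b j)) :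
    i7b_g τ mu z = -i7b_g τ mu y := by
  classical
  unfold i7b_g
  rw [← Finset.sum_neg_distrib]
  refine Fintype.sum_equiv (Equiv.mulRight (Equiv.swap a b)) _ _ fun w => ?_
  have h1 : sg (w * Equiv.swap a b) = -sg w := by
    unfold sg
    rw [Equiv.Perm.sign_mul, Equiv.Perm.sign_swap hab]
    simp
  have h2 : (∀ j, (τ j : ℤ) + delta l j + wt z j = (mu (w j) : ℤ) + delta l (w j)) ↔
      ∀ j, (τ j : ℤ) + delta l j + wt y j = (mu ((w * Equiv.swap a b) j) : ℤ) +
        delta l ((w * Equiv.swap a b) j) := by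
    constructor
    · intro h3 j
      have h4 := h3 (Equiv.swap a b j)
      rw [h, Equiv.swap_apply_self] at h4
      rw [h4]
      rfl
    · intro h3 j
      have h4 := h3 (Equiv.swap a b j)
      rw [h j, h4, Equiv.Perm.mul_apply, Equiv.swap_apply_self]
  rw [Equiv.coe_mulRight, h1]
  by_cases h3 : ∀ j, (τ j : ℤ) + delta l j + wt z j = (mu (w j) : ℤ) + delta l (w j)
  · rw [if_pos h3, if_pos (h2.1 h3)]
    ring
  · rw [if_neg h3, if_neg (fun h4 => h3 (h2.2 h4))]
    ring

private theorem i7b_good {l : ℕ} {τ ρ lam mu : Fin l → ℕ} (hmu : Antitone mu)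
    {y : Fin (l + 1) → Fin l → ℕ} (hy : y ∈ chains l ρ lam) (hg : Good τ y)
    [Decidable (∀ k, (τ k : ℤ) + wt y k = (mu k : ℤ))] :
    i7b_g τ mu y = if ∀ k, (τ k : ℤ) + wt y k = (mu k : ℤ) then 1 else 0 := by
  classical
  unfold i7b_g
  rw [Finset.sum_eq_single (1 : Equiv.Perm (Fin l))]
  · have h1 : sg (1 : Equiv.Perm (Fin l)) = 1 := by
      unfold sg
      simp
    rw [h1, one_mul]
    have h2 : (∀ j, (τ j : ℤ) + delta l j + wt y j =
        (mu ((1 : Equiv.Perm (Fin l)) j) : ℤ) + delta l ((1 : Equiv.Perm (Fin l)) j)) ↔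
        ∀ k, (τ k : ℤ) + wt y k = (mu k : ℤ) := by
      refine forall_congr' fun j => ?_
      rw [Equiv.Perm.one_apply]
      constructor
      · intro h3
        linarith
      · intro h3
        linarith
    by_cases h3 : ∀ k, (τ k : ℤ) + wt y k = (mu k : ℤ)
    · rw [if_pos (h2.2 h3), if_pos h3]
    · rw [if_neg (fun h4 => h3 (h2.1 h4)), if_neg h3]
  · intro w _ hw
    rw [if_neg, mul_zero]
    intro h1
    exact hw (i7b_one hmu hy hg w h1)
  · intro h1
    exact absurd (Finset.mem_univ _) h1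

open Classical in
theorem signed_good {l : ℕ} {τ : Fin l → ℕ} (hτ : Antitone τ) (ρ lam : Fin l → ℕ)
    {mu : Fin l → ℕ} (hmu : Antitone mu) :
    ∑ w : Equiv.Perm (Fin l), sg w * (((chains l ρ lam).filter fun y =>
        ∀ k, wt y k = (mu k : ℤ) + delta l k - ((τ (w k) : ℤ) + delta l (w k))).card : ℤ) =
      (((chains l ρ lam).filter fun y =>
        Good τ y ∧ ∀ k, (τ k : ℤ) + wt y k = (mu k : ℤ)).card : ℤ) := by
  have h1 : ∑ w : Equiv.Perm (Fin l), sg w * (((chains l ρ lam).filter fun y =>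
        ∀ k, wt y k = (mu k : ℤ) + delta l k - ((τ (w k) : ℤ) + delta l (w k))).card : ℤ) =
      ∑ w : Equiv.Perm (Fin l), sg w * (((chains l ρ lam).filter fun y =>
        ∀ j, (τ j : ℤ) + delta l j + wt y j = (mu (w j) : ℤ) + delta l (w j)).card : ℤ) := by
    refine Fintype.sum_equiv (Equiv.inv (Equiv.Perm (Fin l))) _ _ fun w => ?_
    rw [i7b_reidx]
    have h2 : sg w⁻¹ = sg w := by
      unfold sg
      rw [Equiv.Perm.sign_inv]
    rw [Equiv.inv_apply, h2]
  rw [h1]
  have h2 : ∑ w : Equiv.Perm (Fin l), sg w * (((chains l ρ lam).filter fun y =>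
        ∀ j, (τ j : ℤ) + delta l j + wt y j = (mu (w j) : ℤ) + delta l (w j)).card : ℤ) =
      ∑ y ∈ chains l ρ lam, i7b_g τ mu y := by
    unfold i7b_g
    rw [Finset.sum_comm]
    refine Finset.sum_congr rfl fun w _ => ?_
    rw [← Finset.mul_sum]
    congr 1
    rw [Finset.card_filter]
    push_cast
    refine Finset.sum_congr rfl fun y _ => ?_
    by_cases h3 : ∀ j, (τ j : ℤ) + delta l j + wt y j = (mu (w j) : ℤ) + delta l (w j)
    · simp only [if_pos h3]
    · simp only [if_neg h3]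
  rw [h2, ← Finset.sum_filter_add_sum_filter_not (chains l ρ lam) (fun y => Good τ y)]
  have h3 : ∑ y ∈ (chains l ρ lam).filter (fun y => ¬ Good τ y), i7b_g τ mu y = 0 := by
    obtain ⟨f, hf⟩ := bad_involution hτ ρ lam
    have key : ∀ y ∈ (chains l ρ lam).filter (fun y => ¬ Good τ y),
        i7b_g τ mu (f y) = -i7b_g τ mu y := by
      intro y hy
      obtain ⟨hy1, hy2⟩ := Finset.mem_filter.1 hy
      obtain ⟨-, -, -, k, hk, h4⟩ := hf y hy1 hy2
      refine i7b_neg τ mu y (f y) _ _ ?_ h4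
      intro h5
      have h6 := congrArg Fin.val h5
      simp at h6
    refine Finset.sum_involution (fun y _ => f y) ?_ ?_ ?_ ?_
    · intro y hy
      rw [key y hy]
      ring
    · intro y hy hne heq
      have h4 := key y hy
      rw [heq] at h4
      exact hne (by linarith)
    · intro y hy
      obtain ⟨hy1, hy2⟩ := Finset.mem_filter.1 hy
      obtain ⟨h4, h5, -⟩ := hf y hy1 hy2
      exact Finset.mem_filter.2 ⟨h4, h5⟩
    · intro y hy
      obtain ⟨hy1, hy2⟩ := Finset.mem_filter.1 hy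
      exact (hf y hy1 hy2).2.2.1
  rw [h3, add_zero, ← Finset.filter_filter, Finset.card_filter]
  push_cast
  refine Finset.sum_congr rfl fun y hy => ?_
  obtain ⟨hy1, hy2⟩ := Finset.mem_filter.1 hy
  exact i7b_good hmu hy1 hy2

end H73TR
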