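import Pool.Agent.Lib.H73TR.Defs2

/-!
# I9a (M): concatenation of chains

A chain `y` of `J₁ + J₂` strips from `0` to `lam` with weights `Fin.append r₁ r₂` is the same as
its shape `τ = y J₁` (so `τ ≤ lam`), a chain from `0` to `τ` (the first `J₁` strips) and a chain
from `τ` to `lam` (the last `J₂` strips).
-/

namespace H73TR

open Finset

private lemma I9a_mem {l J : ℕ} {ρ lam : Fin l → ℕ} {r : Fin J → ℕ} {y : Fin (J + 1) → Fin l → ℕ} :
    y ∈ ((chains J ρ lam).filter fun y => ∀ j, wt y j = (r j : ℤ)) ↔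
      (∀ (k : ℕ) (hk : k < J + 1) (i : Fin l), y ⟨k, hk⟩ i ≤ lam i) ∧
      y ⟨0, Nat.succ_pos J⟩ = ρ ∧ y ⟨J, Nat.lt_succ_self J⟩ = lam ∧
      (∀ (k : ℕ) (hk : k < J), Strip (y ⟨k, hk.trans (Nat.lt_succ_self J)⟩) (y ⟨k + 1, Nat.succ_lt_succ hk⟩)) ∧
      ∀ (k : ℕ) (hk : k < J), (∑ i, (y ⟨k + 1, Nat.succ_lt_succ hk⟩ i : ℤ)) -
        ∑ i, (y ⟨k, hk.trans (Nat.lt_succ_self J)⟩ i : ℤ) = (r ⟨k, hk⟩ : ℤ) := by
  unfold chains
  simp only [Finset.mem_filter, Fintype.mem_piFinset, Finset.mem_range]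
  constructor
  · rintro ⟨⟨h1, h2, h3, h4⟩, h5⟩
    refine ⟨fun k hk i => Nat.lt_succ_iff.mp (h1 ⟨k, hk⟩ i), h2, h3, fun k hk => h4 ⟨k, hk⟩, fun k hk => h5 ⟨k, hk⟩⟩
  · rintro ⟨h1, h2, h3, h4, h5⟩
    exact ⟨⟨fun a i => Nat.lt_succ_iff.mpr (h1 a.1 a.2 i), h2, h3, fun j => h4 j.1 j.2⟩, fun j => h5 j.1 j.2⟩

private def I9a_L {l : ℕ} (J₁ J₂ : ℕ) (y : Fin (J₁ + J₂ + 1) → Fin l → ℕ) : Fin (J₁ + 1) → Fin l → ℕ :=
  fun j => y ⟨j.1, by omega⟩

private def I9a_R {l : ℕ} (J₁ J₂ : ℕ) (y : Fin (J₁ + J₂ + 1) → Fin l → ℕ) : Fin (J₂ + 1) → Fin l → ℕ :=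
  fun j => y ⟨J₁ + j.1, by omega⟩

private def I9a_G {l : ℕ} (J₁ J₂ : ℕ) (y1 : Fin (J₁ + 1) → Fin l → ℕ) (y2 : Fin (J₂ + 1) → Fin l → ℕ) :
    Fin (J₁ + J₂ + 1) → Fin l → ℕ :=
  fun j => if h : j.1 ≤ J₁ then y1 ⟨j.1, by omega⟩ else y2 ⟨j.1 - J₁, by omega⟩

private lemma I9a_append_left {J₁ J₂ : ℕ} (r₁ : Fin J₁ → ℕ) (r₂ : Fin J₂ → ℕ) (k : ℕ) (hk : k < J₁) (hk' : k < J₁ + J₂) :
    Fin.append r₁ r₂ ⟨k, hk'⟩ = r₁ ⟨k, hk⟩ := Fin.append_left r₁ r₂ ⟨k, hk⟩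

private lemma I9a_append_right {J₁ J₂ : ℕ} (r₁ : Fin J₁ → ℕ) (r₂ : Fin J₂ → ℕ) (k : ℕ) (hk : k < J₂) (hk' : J₁ + k < J₁ + J₂) :
    Fin.append r₁ r₂ ⟨J₁ + k, hk'⟩ = r₂ ⟨k, hk⟩ := Fin.append_right r₁ r₂ ⟨k, hk⟩

private lemma I9a_mono {l J : ℕ} {y : Fin (J + 1) → Fin l → ℕ}
    (h : ∀ (k : ℕ) (hk : k < J), Strip (y ⟨k, hk.trans (Nat.lt_succ_self J)⟩) (y ⟨k + 1, Nat.succ_lt_succ hk⟩))
    (a : ℕ) (ha : a < J + 1) (b : ℕ) (hb : b < J + 1) (hab : a ≤ b) (i : Fin l) : y ⟨a, ha⟩ i ≤ y ⟨b, hb⟩ i := by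
  induction b, hab using Nat.le_induction with
  | base => exact le_rfl
  | succ b hab ih =>
    exact (ih (by omega)).trans ((h b (by omega)).1 i)

private lemma I9a_G_le {l J₁ J₂ : ℕ} (y1 : Fin (J₁ + 1) → Fin l → ℕ) (y2 : Fin (J₂ + 1) → Fin l → ℕ) (k : ℕ)
    (hk : k ≤ J₁) (hk' : k < J₁ + J₂ + 1) : I9a_G J₁ J₂ y1 y2 ⟨k, hk'⟩ = y1 ⟨k, Nat.lt_succ_of_le hk⟩ := by
  unfold I9a_G
  simp only [dif_pos hk]

private lemma I9a_G_gt {l J₁ J₂ : ℕ} {y1 : Fin (J₁ + 1) → Fin l → ℕ} {y2 : Fin (J₂ + 1) → Fin l → ℕ}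
    (h0 : y1 ⟨J₁, Nat.lt_succ_self J₁⟩ = y2 ⟨0, Nat.succ_pos J₂⟩) (k : ℕ)
    (hk : k < J₂ + 1) (hk' : J₁ + k < J₁ + J₂ + 1) : I9a_G J₁ J₂ y1 y2 ⟨J₁ + k, hk'⟩ = y2 ⟨k, hk⟩ := by
  rcases Nat.eq_zero_or_pos k with rfl | hpos
  · rw [I9a_G_le y1 y2 (J₁ + 0) le_rfl]
    exact h0
  · unfold I9a_G
    have h1 : ¬ (J₁ + k ≤ J₁) := by omega
    simp only [dif_neg h1]
    congr 1
    apply Fin.ext
    simp

theorem chains_append {l : ℕ} (J₁ J₂ : ℕ) (lam : Fin l → ℕ) (r₁ : Fin J₁ → ℕ) (r₂ : Fin J₂ → ℕ) :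
    ((chains (J₁ + J₂) 0 lam).filter fun y =>
        ∀ j, wt y j = ((Fin.append r₁ r₂ j : ℕ) : ℤ)).card =
      ∑ τ ∈ Fintype.piFinset fun i => range (lam i + 1),
        ((chains J₁ 0 τ).filter fun y => ∀ j, wt y j = (r₁ j : ℤ)).card *
          ((chains J₂ τ lam).filter fun y => ∀ j, wt y j = (r₂ j : ℤ)).card := by
  classical
  have hJ : J₁ < J₁ + J₂ + 1 := by omega
  rw [Finset.card_eq_sum_card_fiberwise (f := fun y : Fin (J₁ + J₂ + 1) → Fin l → ℕ => y ⟨J₁, hJ⟩)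
    (t := Fintype.piFinset fun i => range (lam i + 1))]
  · refine Finset.sum_congr rfl fun τ _ => ?_
    rw [← Finset.card_product]
    refine Finset.card_nbij' (fun y => (I9a_L J₁ J₂ y, I9a_R J₁ J₂ y)) (fun q => I9a_G J₁ J₂ q.1 q.2) ?_ ?_ ?_ ?_
    · intro y hy
      rw [Finset.mem_coe, Finset.mem_filter, I9a_mem] at hy
      obtain ⟨⟨h1, h2, h3, h4, h5⟩, h6⟩ := hy
      rw [Finset.mem_coe, Finset.mem_product, I9a_mem, I9a_mem]
      refine ⟨⟨?_, h2, h6, ?_, ?_⟩, ⟨?_, h6, ?_, ?_, ?_⟩⟩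
      · intro k hk i
        rw [← h6]
        exact I9a_mono h4 k (by omega) J₁ hJ (by omega) i
      · intro k hk
        exact h4 k (by omega)
      · intro k hk
        have h7 := h5 k (by omega)
        rw [I9a_append_left r₁ r₂ k hk] at h7
        exact h7
      · intro k hk i
        exact h1 (J₁ + k) (by omega) i
      · exact h3
      · intro k hk
        exact h4 (J₁ + k) (by omega)
      · intro k hk
        have h7 := h5 (J₁ + k) (by omega)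
        rw [I9a_append_right r₁ r₂ k hk] at h7
        exact h7
    · intro q hq
      rw [Finset.mem_coe, Finset.mem_product, I9a_mem, I9a_mem] at hq
      obtain ⟨⟨a1, a2, a3, a4, a5⟩, ⟨b1, b2, b3, b4, b5⟩⟩ := hq
      have h0 : q.1 ⟨J₁, Nat.lt_succ_self J₁⟩ = q.2 ⟨0, Nat.succ_pos J₂⟩ := a3.trans b2.symm
      have hτ : ∀ i, τ i ≤ lam i := by
        intro i
        rw [← b2]
        exact b1 0 (Nat.succ_pos J₂) i
      rw [Finset.mem_coe, Finset.mem_filter, I9a_mem]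
      beta_reduce
      have hle := fun (k : ℕ) (hk : k ≤ J₁) (hk' : k < J₁ + J₂ + 1) => I9a_G_le q.1 q.2 k hk hk'
      have hgt := fun (k : ℕ) (hk : k < J₂ + 1) (hk' : J₁ + k < J₁ + J₂ + 1) => I9a_G_gt h0 k hk hk'
      refine ⟨⟨?_, ?_, ?_, ?_, ?_⟩, ?_⟩
      · intro k hk i
        rcases Nat.lt_or_ge J₁ k with h | h
        · obtain ⟨m, rfl⟩ := Nat.exists_eq_add_of_le h.le
          rw [hgt m (by omega)]
          exact b1 m (by omega) i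
        · rw [hle k h]
          exact (a1 k (by omega) i).trans (hτ i)
      · rw [hle 0 (Nat.zero_le _)]
        exact a2
      · rw [hgt J₂ (by omega)]
        exact b3
      · intro k hk
        rcases Nat.lt_or_ge k J₁ with h | h
        · rw [hle k h.le, hle (k + 1) h]
          exact a4 k h
        · obtain ⟨m, rfl⟩ := Nat.exists_eq_add_of_le h
          have e1 := hgt m (by omega) (by omega)
          have e2 := hgt (m + 1) (by omega) (by omega)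
          rw [e1]
          have e3 := b4 m (by omega)
          rw [← e2] at e3
          exact e3
      · intro k hk
        rcases Nat.lt_or_ge k J₁ with h | h
        · rw [hle k h.le, hle (k + 1) h, I9a_append_left r₁ r₂ k h]
          exact a5 k h
        · obtain ⟨m, rfl⟩ := Nat.exists_eq_add_of_le h
          have e1 := hgt m (by omega) (by omega)
          have e2 := hgt (m + 1) (by omega) (by omega)
          rw [e1, I9a_append_right r₁ r₂ m (by omega)]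
          have e3 := b5 m (by omega)
          rw [← e2] at e3
          exact e3
      · show I9a_G J₁ J₂ q.1 q.2 ⟨J₁, hJ⟩ = τ
        rw [hle J₁ le_rfl]
        exact a3
    · intro y _
      funext j
      rcases Nat.lt_or_ge J₁ j.1 with h | h
      · show I9a_G J₁ J₂ (I9a_L J₁ J₂ y) (I9a_R J₁ J₂ y) j = y j
        unfold I9a_G I9a_R
        have h1 : ¬ (j.1 ≤ J₁) := by omega
        simp only [dif_neg h1]
        congr 1
        apply Fin.ext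
        simp only
        omega
      · exact I9a_G_le _ _ j.1 h j.2
    · intro q hq
      rw [Finset.mem_coe, Finset.mem_product, I9a_mem, I9a_mem] at hq
      obtain ⟨⟨a1, a2, a3, a4, a5⟩, ⟨b1, b2, b3, b4, b5⟩⟩ := hq
      have h0 : q.1 ⟨J₁, Nat.lt_succ_self J₁⟩ = q.2 ⟨0, Nat.succ_pos J₂⟩ := a3.trans b2.symm
      apply Prod.ext
      · funext j
        exact I9a_G_le q.1 q.2 j.1 (Nat.lt_succ_iff.mp j.2) (by omega)
      · funext j
        exact I9a_G_gt h0 j.1 j.2 (by omega)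
  · intro y hy
    rw [Finset.mem_coe, I9a_mem] at hy
    rw [Finset.mem_coe, Fintype.mem_piFinset]
    intro i
    rw [Finset.mem_range]
    exact Nat.lt_succ_iff.mpr (hy.1 J₁ hJ i)

end H73TR
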