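import Pool.Agent.Lib.H73TR.Defs2

/-!
# I9b (M): pairs of matrices by columns

A pair of matrices `M` with column sums `κ'` in total and sizes `p, q` has column sums `r₀` of
`M 0` and `r₁` of `M 1`, `r₀, r₁ : Fin l → ℕ`, `r₀ + r₁ = κ'`, `|r₀| = p`, `|r₁| = q`; for given
`r₀, r₁` the columns of `M 0` and `M 1` form an element of the set counted by
`colCount (l + l) (append r₀ r₁) κ`.  The sum runs over all `r₀, r₁` bounded by a number `B`
which is at least all entries of `κ'`.
-/

namespace H73TR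

open Finset

/-- The condition of `pairCount`. -/
private def I9bP {l : ℕ} (κ κ' : Fin l → ℤ) (p q : ℤ) (M : Fin 2 → Fin l → Fin l → ℕ) : Prop :=
  (∀ i, ∑ t, ∑ j, (M t i j : ℤ) = κ i) ∧ (∀ j, ∑ t, ∑ i, (M t i j : ℤ) = κ' j) ∧
      (∑ i, ∑ j, (M 0 i j : ℤ) = p) ∧ ∑ i, ∑ j, (M 1 i j : ℤ) = q

private theorem I9b_col {l : ℕ} {κ κ' : Fin l → ℤ} {p q : ℤ} {M : Fin 2 → Fin l → Fin l → ℕ}
    (h : I9bP κ κ' p q M) (j : Fin l) :
    (((∑ i, M 0 i j : ℕ) : ℕ) : ℤ) + (((∑ i, M 1 i j : ℕ) : ℕ) : ℤ) = κ' j := by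
  have h1 := h.2.1 j
  rw [Fin.sum_univ_two] at h1
  push_cast
  exact h1

private theorem I9b_finite {l : ℕ} (κ κ' : Fin l → ℤ) (p q : ℤ) (B : ℕ) (hB : ∀ j, κ' j ≤ B) :
    Finite {M : Fin 2 → Fin l → Fin l → ℕ // I9bP κ κ' p q M} := by
  have hs : {M : Fin 2 → Fin l → Fin l → ℕ | I9bP κ κ' p q M} ⊆
      Set.Icc (fun _ _ _ => 0) (fun _ _ _ => B) := by
    intro M hM
    rw [Set.mem_Icc]
    refine ⟨fun t i j => Nat.zero_le _, fun t i j => ?_⟩
    have h1 := I9b_col hM j
    have h2 := hB j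
    have h3 : M t i j ≤ (∑ i, M 0 i j) + ∑ i, M 1 i j := by
      have h4 : M t i j ≤ ∑ i, M t i j :=
        Finset.single_le_sum (f := fun i => M t i j) (fun _ _ => Nat.zero_le _)
          (Finset.mem_univ i)
      fin_cases t
      · exact h4.trans (Nat.le_add_right _ _)
      · exact h4.trans (Nat.le_add_left _ _)
    show M t i j ≤ B
    zify at h3 ⊢
    push_cast at h1
    linarith
  exact ((Set.finite_Icc _ _).subset hs).to_subtype

private theorem I9b_mem {l : ℕ} {κ κ' : Fin l → ℤ} {p q : ℤ} {B : ℕ} (hB : ∀ j, κ' j ≤ B)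
    {M : Fin 2 → Fin l → Fin l → ℕ} (h : I9bP κ κ' p q M) :
    ((fun j => ∑ i, M 0 i j, fun j => ∑ i, M 1 i j) : (Fin l → ℕ) × (Fin l → ℕ)) ∈
      (Fintype.piFinset fun _ : Fin l => range (B + 1)) ×ˢ
          (Fintype.piFinset fun _ : Fin l => range (B + 1)) := by
  rw [Finset.mem_product]
  refine ⟨Fintype.mem_piFinset.mpr fun j => ?_, Fintype.mem_piFinset.mpr fun j => ?_⟩
  · show ∑ i, M 0 i j ∈ range (B + 1)
    have h1 := I9b_col h j
    have h2 := hB j
    rw [Finset.mem_range]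
    have h3 : (0 : ℤ) ≤ (((∑ i, M 1 i j : ℕ) : ℕ) : ℤ) := Int.natCast_nonneg _
    have h4 : (((∑ i, M 0 i j : ℕ) : ℕ) : ℤ) ≤ (B : ℤ) := by linarith
    have h5 : (∑ i, M 0 i j) ≤ B := by exact_mod_cast h4
    omega
  · show ∑ i, M 1 i j ∈ range (B + 1)
    have h1 := I9b_col h j
    have h2 := hB j
    rw [Finset.mem_range]
    have h3 : (0 : ℤ) ≤ (((∑ i, M 0 i j : ℕ) : ℕ) : ℤ) := Int.natCast_nonneg _
    have h4 : (((∑ i, M 1 i j : ℕ) : ℕ) : ℤ) ≤ (B : ℤ) := by linarith
    have h5 : (∑ i, M 1 i j) ≤ B := by exact_mod_cast h4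
    omega

/-- The columns of a pair of matrices. -/
private def I9bTo {l : ℕ} (M : Fin 2 → Fin l → Fin l → ℕ) (J : Fin (l + l)) (i : Fin l) : ℕ :=
  Fin.append (fun j => M 0 i j) (fun j => M 1 i j) J

/-- The pair of matrices with given columns. -/
private def I9bInv {l : ℕ} (β : Fin (l + l) → Fin l → ℕ) (t : Fin 2) (i j : Fin l) : ℕ :=
  if t = 0 then β (Fin.castAdd l j) i else β (Fin.natAdd l j) i

private theorem I9bTo_left {l : ℕ} (M : Fin 2 → Fin l → Fin l → ℕ) (j i : Fin l) :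
    I9bTo M (Fin.castAdd l j) i = M 0 i j := by
  unfold I9bTo
  rw [Fin.append_left]

private theorem I9bTo_right {l : ℕ} (M : Fin 2 → Fin l → Fin l → ℕ) (j i : Fin l) :
    I9bTo M (Fin.natAdd l j) i = M 1 i j := by
  unfold I9bTo
  rw [Fin.append_right]

private theorem I9bInv_zero {l : ℕ} (β : Fin (l + l) → Fin l → ℕ) (i j : Fin l) :
    I9bInv β 0 i j = β (Fin.castAdd l j) i := by
  unfold I9bInv
  rw [if_pos rfl]

private theorem I9bInv_one {l : ℕ} (β : Fin (l + l) → Fin l → ℕ) (i j : Fin l) :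
    I9bInv β 1 i j = β (Fin.natAdd l j) i := by
  unfold I9bInv
  rw [if_neg (by decide)]

private theorem I9bInv_To {l : ℕ} (M : Fin 2 → Fin l → Fin l → ℕ) : I9bInv (I9bTo M) = M := by
  funext t i j
  fin_cases t
  · show I9bInv (I9bTo M) 0 i j = M 0 i j
    rw [I9bInv_zero, I9bTo_left]
  · show I9bInv (I9bTo M) 1 i j = M 1 i j
    rw [I9bInv_one, I9bTo_right]

private theorem I9bTo_Inv {l : ℕ} (β : Fin (l + l) → Fin l → ℕ) : I9bTo (I9bInv β) = β := by
  funext J i
  refine Fin.addCases (fun j => ?_) (fun j => ?_) J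
  · rw [I9bTo_left, I9bInv_zero]
  · rw [I9bTo_right, I9bInv_one]

open Classical in
theorem pairCount_eq {l : ℕ} (κ κ' : Fin l → ℤ) (p q : ℤ) (B : ℕ) (hB : ∀ j, κ' j ≤ B) :
    pairCount κ κ' p q =
      ∑ r ∈ (Fintype.piFinset fun _ : Fin l => range (B + 1)) ×ˢ
          (Fintype.piFinset fun _ : Fin l => range (B + 1)),
        if (∀ j, (r.1 j : ℤ) + (r.2 j : ℤ) = κ' j) ∧ (∑ j, (r.1 j : ℤ)) = p ∧
            (∑ j, (r.2 j : ℤ)) = q
        then colCount (l + l) (fun j => ((Fin.append r.1 r.2 j : ℕ) : ℤ)) κ else 0 := by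
  show Nat.card {M : Fin 2 → Fin l → Fin l → ℕ // I9bP κ κ' p q M} = _
  have := I9b_finite κ κ' p q B hB
  let f : {M : Fin 2 → Fin l → Fin l → ℕ // I9bP κ κ' p q M} →
      {r // r ∈ (Fintype.piFinset fun _ : Fin l => range (B + 1)) ×ˢ
          (Fintype.piFinset fun _ : Fin l => range (B + 1))} :=
    fun M => ⟨(fun j => ∑ i, M.1 0 i j, fun j => ∑ i, M.1 1 i j), I9b_mem hB M.2⟩
  rw [← Nat.card_congr (Equiv.sigmaFiberEquiv f), Nat.card_sigma, ← Finset.sum_coe_sort
    ((Fintype.piFinset fun _ : Fin l => range (B + 1)) ×ˢ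
          (Fintype.piFinset fun _ : Fin l => range (B + 1)))]
  refine Finset.sum_congr rfl fun r _ => ?_
  have hf : ∀ x : {M : Fin 2 → Fin l → Fin l → ℕ // I9bP κ κ' p q M}, f x = r →
      (∀ j, (r.1.1 j) = ∑ i, x.1 0 i j) ∧ (∀ j, (r.1.2 j) = ∑ i, x.1 1 i j) := by
    intro x hx
    subst hx
    exact ⟨fun j => rfl, fun j => rfl⟩
  split_ifs with hc
  · refine Nat.card_congr
      { toFun := fun x => ⟨I9bTo x.1.1, ?_⟩
        invFun := fun β => ⟨⟨I9bInv β.1, ?_⟩, ?_⟩
        left_inv := ?_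
        right_inv := ?_ }
    · obtain ⟨h0, h1⟩ := hf x.1 x.2
      refine ⟨fun J => ?_, fun i => ?_⟩
      · refine Fin.addCases (fun j => ?_) (fun j => ?_) J
        · simp only [I9bTo_left, Fin.append_left]
          rw [h0]
          push_cast
          rfl
        · simp only [I9bTo_right, Fin.append_right]
          rw [h1]
          push_cast
          rfl
      · rw [Fin.sum_univ_add]
        simp only [I9bTo_left, I9bTo_right]
        have h2 := x.1.2.1 i
        rw [Fin.sum_univ_two] at h2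
        exact h2
    · obtain ⟨h0, h1⟩ := β.2
      have e0 : ∀ j : Fin l, ∑ i, ((β.1 (Fin.castAdd l j) i : ℕ) : ℤ) = (r.1.1 j : ℤ) := by
        intro j
        have := h0 (Fin.castAdd l j)
        simp only [Fin.append_left] at this
        exact this
      have e1 : ∀ j : Fin l, ∑ i, ((β.1 (Fin.natAdd l j) i : ℕ) : ℤ) = (r.1.2 j : ℤ) := by
        intro j
        have := h0 (Fin.natAdd l j)
        simp only [Fin.append_right] at this
        exact this
      refine ⟨fun i => ?_, fun j => ?_, ?_, ?_⟩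
      · rw [Fin.sum_univ_two]
        simp only [I9bInv_zero, I9bInv_one]
        rw [← h1 i, Fin.sum_univ_add]
      · rw [Fin.sum_univ_two]
        simp only [I9bInv_zero, I9bInv_one]
        rw [e0, e1]
        exact hc.1 j
      · simp only [I9bInv_zero]
        rw [Finset.sum_comm]
        simp only [e0]
        exact hc.2.1
      · simp only [I9bInv_one]
        rw [Finset.sum_comm]
        simp only [e1]
        exact hc.2.2
    · obtain ⟨h0, h1⟩ := β.2
      refine Subtype.ext (Prod.ext (funext fun j => ?_) (funext fun j => ?_))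
      · show ∑ i, I9bInv β.1 0 i j = r.1.1 j
        have := h0 (Fin.castAdd l j)
        simp only [Fin.append_left] at this
        simp only [I9bInv_zero]
        exact_mod_cast this
      · show ∑ i, I9bInv β.1 1 i j = r.1.2 j
        have := h0 (Fin.natAdd l j)
        simp only [Fin.append_right] at this
        simp only [I9bInv_one]
        exact_mod_cast this
    · intro x
      exact Subtype.ext (Subtype.ext (I9bInv_To x.1.1))
    · intro β
      exact Subtype.ext (I9bTo_Inv β.1)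
  · have : IsEmpty {x // f x = r} := by
      refine ⟨fun x => hc ?_⟩
      obtain ⟨h0, h1⟩ := hf x.1 x.2
      refine ⟨fun j => ?_, ?_, ?_⟩
      · rw [h0, h1]
        exact I9b_col x.1.2 j
      · have h2 := x.1.2.2.2.1
        rw [Finset.sum_comm] at h2
        rw [← h2]
        refine Finset.sum_congr rfl fun j _ => ?_
        rw [h0]
        push_cast
        rfl
      · have h2 := x.1.2.2.2.2
        rw [Finset.sum_comm] at h2
        rw [← h2]
        refine Finset.sum_congr rfl fun j _ => ?_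
        rw [h1]
        push_cast
        rfl
    exact Nat.card_of_isEmpty

end H73TR
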