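import Pool.Agent.Lib.H73TR.I4b
import Pool.Agent.Lib.H73TR.I9a
import Pool.Agent.Lib.H73TR.I9b

/-!
# I9c (M): summation over the first permutation

Insert `pairCount_eq`, exchange the sums, apply `signed_colCount` (with `J = l + l`,
`r = append r₀ r₁`) and `chains_append`; then sum over `r₀, r₁` (for given `T0, T1` they are the
weights of `T0` and `T1`, natural numbers bounded by the entries of `κ'`; `|r₀| = |τ|` because
`T0` is a chain from `0` to `τ`, `|r₁| = |lam| - |τ|`).  If `κ'` has a negative entry both sides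
are `0`.
-/

namespace H73TR

open Finset

private theorem I9c_wt_nonneg {l J : ℕ} {ρ lam : Fin l → ℕ} {y : Fin (J + 1) → Fin l → ℕ}
    (hy : y ∈ chains J ρ lam) (j : Fin J) : 0 ≤ wt y j := by
  have h := ((mem_filter.mp hy).2.2.2 j).1
  unfold wt
  have : ∑ i, (y j.castSucc i : ℤ) ≤ ∑ i, (y j.succ i : ℤ) :=
    sum_le_sum fun i _ => by exact_mod_cast h i
  linarith

private theorem I9c_wt_sum {l J : ℕ} {ρ lam : Fin l → ℕ} {y : Fin (J + 1) → Fin l → ℕ}
    (hy : y ∈ chains J ρ lam) :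
    ∑ j, wt y j = ∑ i, (lam i : ℤ) - ∑ i, (ρ i : ℤ) := by
  have h0 := (mem_filter.mp hy).2.1
  have h1 := (mem_filter.mp hy).2.2.1
  have e1 := Fin.sum_univ_succ (fun j : Fin (J + 1) => ∑ i, (y j i : ℤ))
  have e2 := Fin.sum_univ_castSucc (fun j : Fin (J + 1) => ∑ i, (y j i : ℤ))
  unfold wt
  rw [sum_sub_distrib]
  simp only [h0, h1] at e1 e2
  linarith

open Classical in
private theorem I9c_inner {l : ℕ} {lam τ : Fin l → ℕ} (κ' : Fin l → ℤ) {p q : ℤ}
    (hpq : p + q = ∑ i, (lam i : ℤ)) (B : ℕ) (hB : ∀ j, κ' j ≤ B)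
    {T0 T1 : Fin (l + 1) → Fin l → ℕ} (h0 : T0 ∈ chains l 0 τ) (h1 : T1 ∈ chains l τ lam) :
    (∑ r ∈ (Fintype.piFinset fun _ : Fin l => range (B + 1)) ×ˢ
          (Fintype.piFinset fun _ : Fin l => range (B + 1)),
        if (∀ j, (r.1 j : ℤ) + (r.2 j : ℤ) = κ' j) ∧ (∑ j, (r.1 j : ℤ)) = p ∧
            (∑ j, (r.2 j : ℤ)) = q
        then (if ∀ j, wt T0 j = (r.1 j : ℤ) then (1 : ℤ) else 0) *
          (if ∀ j, wt T1 j = (r.2 j : ℤ) then (1 : ℤ) else 0) else 0) =
      if ∑ i, (τ i : ℤ) = p then (if ∀ k, wt T0 k + wt T1 k = κ' k then (1 : ℤ) else 0)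
        else 0 := by
  have s0 : ∑ j, wt T0 j = ∑ i, (τ i : ℤ) := by
    rw [I9c_wt_sum h0]
    simp
  have s1 := I9c_wt_sum h1
  by_cases hτ : ∑ i, (τ i : ℤ) = p
  · rw [if_pos hτ]
    by_cases hk : ∀ k, wt T0 k + wt T1 k = κ' k
    · rw [if_pos hk]
      have n0 := I9c_wt_nonneg h0
      have n1 := I9c_wt_nonneg h1
      have c0 : ∀ j, (((wt T0 j).toNat : ℕ) : ℤ) = wt T0 j := fun j => Int.toNat_of_nonneg (n0 j)
      have c1 : ∀ j, (((wt T1 j).toNat : ℕ) : ℤ) = wt T1 j := fun j => Int.toNat_of_nonneg (n1 j)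
      rw [sum_eq_single ((fun j => (wt T0 j).toNat), (fun j => (wt T1 j).toNat))]
      · simp only [c0, c1]
        rw [if_pos ⟨hk, by rw [s0, hτ], by rw [s1, hτ]; linarith⟩]
        simp
      · intro r _ hr
        split_ifs with hc ha hb
        · exfalso
          apply hr
          refine Prod.ext (funext fun j => ?_) (funext fun j => ?_)
          · have k1 := ha j
            have k2 := c0 j
            show r.1 j = (wt T0 j).toNat
            omega
          · have k1 := hb j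
            have k2 := c1 j
            show r.2 j = (wt T1 j).toNat
            omega
        all_goals simp
      · intro hn
        exfalso
        apply hn
        rw [mem_product, Fintype.mem_piFinset, Fintype.mem_piFinset]
        refine ⟨fun j => ?_, fun j => ?_⟩
        · rw [mem_range]
          have a1 := hk j
          have a2 := hB j
          have a3 := n0 j
          have a4 := n1 j
          have a5 := c0 j
          show (wt T0 j).toNat < B + 1
          omega
        · rw [mem_range]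
          have a1 := hk j
          have a2 := hB j
          have a3 := n0 j
          have a4 := n1 j
          have a5 := c1 j
          show (wt T1 j).toNat < B + 1
          omega
    · rw [if_neg hk]
      refine sum_eq_zero fun r _ => ?_
      split_ifs with hc ha hb
      · exfalso
        apply hk
        intro k
        rw [ha k, hb k]
        exact hc.1 k
      all_goals simp
  · rw [if_neg hτ]
    refine sum_eq_zero fun r _ => ?_
    split_ifs with hc ha hb
    · exfalso
      apply hτ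
      rw [← s0, ← hc.2.1]
      exact sum_congr rfl fun j _ => ha j
    all_goals simp

open Classical in
theorem signed_pairCount {l : ℕ} {lam : Fin l → ℕ} (hlam : Antitone lam) (κ' : Fin l → ℤ)
    {p q : ℤ} (hpq : p + q = ∑ i, (lam i : ℤ)) :
    ∑ w : Equiv.Perm (Fin l), sg w * (pairCount (shiftVec lam w) κ' p q : ℤ) =
      ∑ τ ∈ (Fintype.piFinset fun i => range (lam i + 1)).filter
          (fun τ : Fin l → ℕ => ∑ i, (τ i : ℤ) = p),
        ∑ T1 ∈ chains l τ lam,
          (((chains l 0 τ).filter fun T0 => ∀ k, wt T0 k + wt T1 k = κ' k).card : ℤ) := by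
  obtain ⟨B, hB⟩ : ∃ B : ℕ, ∀ j, κ' j ≤ B := by
    refine ⟨∑ j, (κ' j).natAbs, fun j => ?_⟩
    have h1 : (κ' j).natAbs ≤ ∑ j, (κ' j).natAbs :=
      single_le_sum (f := fun j => (κ' j).natAbs) (fun _ _ => Nat.zero_le _) (mem_univ j)
    have h2 : κ' j ≤ ((κ' j).natAbs : ℤ) := Int.le_natAbs
    exact h2.trans (by exact_mod_cast h1)
  have e1 : ∀ w : Equiv.Perm (Fin l), sg w * (pairCount (shiftVec lam w) κ' p q : ℤ) =
      ∑ r ∈ (Fintype.piFinset fun _ : Fin l => range (B + 1)) ×ˢ
          (Fintype.piFinset fun _ : Fin l => range (B + 1)),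
        if (∀ j, (r.1 j : ℤ) + (r.2 j : ℤ) = κ' j) ∧ (∑ j, (r.1 j : ℤ)) = p ∧
            (∑ j, (r.2 j : ℤ)) = q
        then sg w * (colCount (l + l) (fun j => ((Fin.append r.1 r.2 j : ℕ) : ℤ))
          (shiftVec lam w) : ℤ) else 0 := by
    intro w
    rw [pairCount_eq (shiftVec lam w) κ' p q B hB]
    push_cast
    rw [mul_sum]
    refine sum_congr rfl fun r _ => ?_
    split_ifs <;> simp
  rw [sum_congr rfl fun w _ => e1 w, sum_comm]
  have e2 : ∀ r ∈ (Fintype.piFinset fun _ : Fin l => range (B + 1)) ×ˢ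
          (Fintype.piFinset fun _ : Fin l => range (B + 1)),
      (∑ w : Equiv.Perm (Fin l), if (∀ j, (r.1 j : ℤ) + (r.2 j : ℤ) = κ' j) ∧
            (∑ j, (r.1 j : ℤ)) = p ∧ (∑ j, (r.2 j : ℤ)) = q
        then sg w * (colCount (l + l) (fun j => ((Fin.append r.1 r.2 j : ℕ) : ℤ))
          (shiftVec lam w) : ℤ) else 0) =
      ∑ τ ∈ Fintype.piFinset fun i => range (lam i + 1), ∑ T1 ∈ chains l τ lam,
        ∑ T0 ∈ chains l 0 τ, if (∀ j, (r.1 j : ℤ) + (r.2 j : ℤ) = κ' j) ∧
            (∑ j, (r.1 j : ℤ)) = p ∧ (∑ j, (r.2 j : ℤ)) = q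
          then (if ∀ j, wt T0 j = (r.1 j : ℤ) then (1 : ℤ) else 0) *
            (if ∀ j, wt T1 j = (r.2 j : ℤ) then (1 : ℤ) else 0) else 0 := by
    intro r _
    by_cases hc : (∀ j, (r.1 j : ℤ) + (r.2 j : ℤ) = κ' j) ∧
            (∑ j, (r.1 j : ℤ)) = p ∧ (∑ j, (r.2 j : ℤ)) = q
    · simp only [if_pos hc]
      rw [signed_colCount (l + l) (Fin.append r.1 r.2) hlam, chains_append]
      push_cast
      refine sum_congr rfl fun τ _ => ?_
      rw [card_filter, card_filter]
      push_cast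
      rw [sum_comm, sum_mul_sum]
    · simp only [if_neg hc]
      simp
  rw [sum_congr rfl e2, sum_comm, sum_filter]
  refine sum_congr rfl fun τ _ => ?_
  rw [sum_comm]
  have e3 : ∀ T1 ∈ chains l τ lam,
      (∑ r ∈ (Fintype.piFinset fun _ : Fin l => range (B + 1)) ×ˢ
          (Fintype.piFinset fun _ : Fin l => range (B + 1)),
        ∑ T0 ∈ chains l 0 τ, if (∀ j, (r.1 j : ℤ) + (r.2 j : ℤ) = κ' j) ∧
            (∑ j, (r.1 j : ℤ)) = p ∧ (∑ j, (r.2 j : ℤ)) = q
          then (if ∀ j, wt T0 j = (r.1 j : ℤ) then (1 : ℤ) else 0) *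
            (if ∀ j, wt T1 j = (r.2 j : ℤ) then (1 : ℤ) else 0) else 0) =
      if ∑ i, (τ i : ℤ) = p then
        (((chains l 0 τ).filter fun T0 => ∀ k, wt T0 k + wt T1 k = κ' k).card : ℤ) else 0 := by
    intro T1 hT1
    rw [sum_comm, sum_congr rfl fun T0 hT0 => I9c_inner κ' hpq B hB hT0 hT1]
    by_cases hτ : ∑ i, (τ i : ℤ) = p
    · simp only [if_pos hτ]
      rw [card_filter]
      push_cast
      rfl
    · simp only [if_neg hτ]
      simp
  rw [sum_congr rfl e3]
  by_cases hτ : ∑ i, (τ i : ℤ) = p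
  · simp only [if_pos hτ]
  · simp only [if_neg hτ]
    simp

end H73TR
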