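import Pool.Agent.Lib.H73TR.I1

/-!
# II0 (S/M): Burnside for two factors

`burnside` with a third vector `κ''` concentrated in one letter `t₀` (`κ'' t₀ = n`): then
`permChar κ'' σ = 1` (the constant word) and the matrices `M i j t` vanish for `t ≠ t₀`.  For
`l = 0`: if `n = 0` both sides are `1`, if `n > 0` both are `0` (`Fin n → Fin 0` is empty; the
total of an empty matrix is `0 ≠ n`).  (Or prove it in the same way as `burnside`.)
-/

namespace H73TR

open Finset

private theorem II0_const (n m : ℕ) (σ : Equiv.Perm (Fin n)) :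
    permChar (fun t : Fin (m + 1) => if t = 0 then (n : ℤ) else 0) σ = 1 := by
  unfold permChar
  have h : (univ.filter fun f : Fin n → Fin (m + 1) =>
      (∀ i, f (σ i) = f i) ∧ ∀ j, content f j = if j = 0 then (n : ℤ) else 0) =
      {fun _ => 0} := by
    ext f
    rw [mem_filter, mem_singleton]
    constructor
    · rintro ⟨_, _, h2⟩
      have h3 := h2 0
      rw [if_pos rfl] at h3
      unfold content at h3
      have h4 : (univ.filter fun i => f i = 0).card = n := by exact_mod_cast h3
      have h5 : (univ.filter fun i => f i = 0) = univ :=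
        Finset.eq_univ_of_card _ (by rw [h4, Fintype.card_fin])
      funext i
      have h6 : i ∈ univ.filter fun i => f i = 0 := by
        rw [h5]
        exact mem_univ i
      exact (mem_filter.mp h6).2
    · intro hf
      subst hf
      refine ⟨mem_univ _, fun _ => rfl, fun j => ?_⟩
      unfold content
      by_cases hj : j = 0
      · subst hj
        simp
      · rw [if_neg hj]
        have h7 : (univ.filter fun _ : Fin n => (0 : Fin (m + 1)) = j) = ∅ := by
          apply Finset.filter_eq_empty_iff.mpr
          intro i _ h8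
          exact hj h8.symm
        rw [h7]
        simp
  rw [h]
  simp

private theorem II0_zero {m : ℕ} {n : ℕ} {M : Fin (m + 1) → Fin (m + 1) → Fin (m + 1) → ℕ}
    (h : ∀ t, ∑ i, ∑ j, (M i j t : ℤ) = if t = 0 then (n : ℤ) else 0) {t : Fin (m + 1)}
    (ht : t ≠ 0) (i j : Fin (m + 1)) : M i j t = 0 := by
  have h1 := h t
  rw [if_neg ht] at h1
  have h2 : ∑ i, ∑ j, M i j t = 0 := by exact_mod_cast h1
  have h3 := (Finset.sum_eq_zero_iff.mp h2) i (mem_univ i)
  exact (Finset.sum_eq_zero_iff.mp h3) j (mem_univ j)

theorem burnside2 (n : ℕ) {l : ℕ} (κ κ' : Fin l → ℤ) :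
    ∑ σ : Equiv.Perm (Fin n), permChar κ σ * permChar κ' σ =
      (n.factorial : ℤ) * (Nat.card {M : Fin l → Fin l → ℕ //
        (∀ i, ∑ j, (M i j : ℤ) = κ i) ∧ (∀ j, ∑ i, (M i j : ℤ) = κ' j) ∧
        ∑ i, ∑ j, M i j = n} : ℤ) := by
  rcases l with _ | m
  · by_cases hn : n = 0
    · subst hn
      have h1 : ∀ (κ : Fin 0 → ℤ) (σ : Equiv.Perm (Fin 0)), permChar κ σ = 1 := by
        intro κ σ
        unfold permChar
        have h2 : (univ.filter fun f : Fin 0 → Fin 0 =>
            (∀ i, f (σ i) = f i) ∧ ∀ j, content f j = κ j) = univ := by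
          apply Finset.filter_true_of_mem
          intro f _
          exact ⟨fun i => i.elim0, fun j => j.elim0⟩
        rw [h2]
        simp
      simp only [h1]
      have h3 : Nat.card {M : Fin 0 → Fin 0 → ℕ // (∀ i, ∑ j, (M i j : ℤ) = κ i) ∧
          (∀ j, ∑ i, (M i j : ℤ) = κ' j) ∧ ∑ i, ∑ j, M i j = 0} = 1 := by
        rw [Nat.card_eq_one_iff_unique]
        refine ⟨⟨fun a b => Subtype.ext (funext fun i => i.elim0)⟩,
          ⟨⟨fun i => i.elim0, fun i => i.elim0, fun i => i.elim0, by simp⟩⟩⟩
      rw [h3]
      simp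
    · have h1 : ∀ (κ : Fin 0 → ℤ) (σ : Equiv.Perm (Fin n)), permChar κ σ = 0 := by
        intro κ σ
        unfold permChar
        have h2 : (univ.filter fun f : Fin n → Fin 0 =>
            (∀ i, f (σ i) = f i) ∧ ∀ j, content f j = κ j) = ∅ := by
          apply Finset.filter_eq_empty_iff.mpr
          intro f _ _
          exact (f ⟨0, Nat.pos_of_ne_zero hn⟩).elim0
        rw [h2]
        simp
      simp only [h1]
      have h3 : Nat.card {M : Fin 0 → Fin 0 → ℕ // (∀ i, ∑ j, (M i j : ℤ) = κ i) ∧
          (∀ j, ∑ i, (M i j : ℤ) = κ' j) ∧ ∑ i, ∑ j, M i j = n} = 0 := by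
        have : IsEmpty {M : Fin 0 → Fin 0 → ℕ // (∀ i, ∑ j, (M i j : ℤ) = κ i) ∧
            (∀ j, ∑ i, (M i j : ℤ) = κ' j) ∧ ∑ i, ∑ j, M i j = n} := by
          refine ⟨fun M => hn ?_⟩
          have h4 := M.2.2.2
          simpa using h4.symm
        exact Nat.card_of_isEmpty
      rw [h3]
      simp
  · have hb := burnside n κ κ' (fun t : Fin (m + 1) => if t = 0 then (n : ℤ) else 0)
    simp only [II0_const, mul_one] at hb
    rw [hb]
    congr 2
    refine Nat.card_congr
      { toFun := fun M => ⟨fun i j => M.1 i j 0, ?_, ?_, ?_⟩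
        invFun := fun M => ⟨fun i j t => if t = 0 then M.1 i j else 0, ?_, ?_, ?_, ?_⟩
        left_inv := ?_
        right_inv := ?_ }
    · intro i
      rw [← M.2.1 i]
      refine Finset.sum_congr rfl fun j _ => ?_
      rw [Finset.sum_eq_single 0]
      · intro t _ ht
        rw [II0_zero M.2.2.2.1 ht i j]
        rfl
      · intro h
        exact absurd (mem_univ _) h
    · intro j
      rw [← M.2.2.1 j]
      refine Finset.sum_congr rfl fun i _ => ?_
      rw [Finset.sum_eq_single 0]
      · intro t _ ht
        rw [II0_zero M.2.2.2.1 ht i j]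
        rfl
      · intro h
        exact absurd (mem_univ _) h
    · have h1 := M.2.2.2.2
      refine Eq.trans ?_ h1
      refine Finset.sum_congr rfl fun i _ => Finset.sum_congr rfl fun j _ => ?_
      rw [Finset.sum_eq_single 0]
      · intro t _ ht
        exact II0_zero M.2.2.2.1 ht i j
      · intro h
        exact absurd (mem_univ _) h
    · intro i
      rw [← M.2.1 i]
      refine Finset.sum_congr rfl fun j _ => ?_
      simp
    · intro j
      rw [← M.2.2.1 j]
      refine Finset.sum_congr rfl fun i _ => ?_
      simp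
    · intro t
      by_cases ht : t = 0
      · subst ht
        simp only [if_true]
        exact_mod_cast M.2.2.2
      · simp [ht]
    · refine Eq.trans ?_ M.2.2.2
      refine Finset.sum_congr rfl fun i _ => Finset.sum_congr rfl fun j _ => ?_
      simp
    · intro M
      apply Subtype.ext
      funext i j t
      show (if t = 0 then M.1 i j 0 else 0) = M.1 i j t
      by_cases ht : t = 0
      · subst ht
        simp
      · rw [if_neg ht, II0_zero M.2.2.2.1 ht i j]
    · intro M
      apply Subtype.ext
      funext i j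
      simp

end H73TR
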