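import Pool.Agent.Lib.H73TR.II0
import Pool.Agent.Lib.H73TR.I9d

/-!
# II0a (M): orthogonality of the characters `chi`

By `burnside2`: `∑_σ chi lam σ * chi lam σ = n! ∑_(w,v) sg w sg v #{M with row sums shiftVec lam w,
column sums shiftVec lam v} = n! * signedCount lam lam n 0` (the second matrix of a pair of sizes
`n, 0` is `0`; the total is `n`).  By `signedCount_eq` with `p = n`, `q = 0`: `τ ≤ lam` and
`|τ| = n = |lam|` give `τ = lam`; the only chain from `lam` to `lam` is constant, it has weight `0`
and is good (`lam` antitone); so the count is `1`.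
-/

namespace H73TR

open Finset

private theorem ii0a_pair {l n : ℕ} (κ κ' : Fin l → ℤ) :
    (Nat.card {M : Fin l → Fin l → ℕ //
        (∀ i, ∑ j, (M i j : ℤ) = κ i) ∧ (∀ j, ∑ i, (M i j : ℤ) = κ' j) ∧
        ∑ i, ∑ j, M i j = n}) = pairCount κ κ' (n : ℤ) 0 := by
  unfold pairCount
  have hz : ∀ M : Fin 2 → Fin l → Fin l → ℕ, ∑ i, ∑ j, (M 1 i j : ℤ) = 0 → M 1 = 0 := by
    intro M hM
    funext i j
    have h1 := (Finset.sum_eq_zero_iff_of_nonneg (fun i _ =>
      Finset.sum_nonneg (fun j _ => Int.natCast_nonneg (M 1 i j)))).mp hM i (Finset.mem_univ i)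
    have h2 := (Finset.sum_eq_zero_iff_of_nonneg
      (fun j _ => Int.natCast_nonneg (M 1 i j))).mp h1 j (Finset.mem_univ j)
    exact_mod_cast h2
  refine Nat.card_congr ⟨fun M => ⟨fun t => if t = 0 then M.1 else 0, ?_, ?_, ?_, ?_⟩,
    fun M => ⟨M.1 0, ?_, ?_, ?_⟩, ?_, ?_⟩
  · intro i
    rw [Fin.sum_univ_two]
    simpa using M.2.1 i
  · intro j
    rw [Fin.sum_univ_two]
    simpa using M.2.2.1 j
  · have := M.2.2.2
    simp only [if_true]
    exact_mod_cast this
  · simp
  · intro i
    have h := M.2.1 i
    rw [Fin.sum_univ_two, hz M.1 M.2.2.2.2] at h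
    simpa using h
  · intro j
    have h := M.2.2.1 j
    rw [Fin.sum_univ_two, hz M.1 M.2.2.2.2] at h
    simpa using h
  · have h := M.2.2.2.1
    exact_mod_cast h
  · intro M
    apply Subtype.ext
    rfl
  · intro M
    apply Subtype.ext
    funext t
    fin_cases t
    · rfl
    · exact (hz M.1 M.2.2.2.2).symm

theorem chi_norm {n l : ℕ} {lam : Fin l → ℕ} (hlam : Antitone lam) (hn : ∑ i, lam i = n) :
    ∑ σ : Equiv.Perm (Fin n), chi lam σ * chi lam σ = (n.factorial : ℤ) := by
  classical
  have h1 : ∑ σ : Equiv.Perm (Fin n), chi lam σ * chi lam σ =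
      (n.factorial : ℤ) * signedCount lam lam n 0 := by
    unfold chi signedCount
    simp_rw [Finset.sum_mul_sum]
    rw [Finset.sum_comm, Finset.mul_sum]
    refine Finset.sum_congr rfl fun w _ => ?_
    rw [Finset.sum_comm, Finset.mul_sum]
    refine Finset.sum_congr rfl fun v _ => ?_
    have h := burnside2 n (shiftVec lam w) (shiftVec lam v)
    rw [ii0a_pair] at h
    have h2 : ∀ σ : Equiv.Perm (Fin n),
        ((Equiv.Perm.sign w : ℤˣ) : ℤ) * permChar (shiftVec lam w) σ *
          (((Equiv.Perm.sign v : ℤˣ) : ℤ) * permChar (shiftVec lam v) σ) =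
        sg w * sg v * (permChar (shiftVec lam w) σ * permChar (shiftVec lam v) σ) := by
      intro σ
      unfold sg
      ring
    rw [Finset.sum_congr rfl (fun σ _ => h2 σ), ← Finset.mul_sum, h]
    ring
  have hsum : (n : ℤ) + 0 = ∑ i, (lam i : ℤ) := by
    rw [← hn]
    push_cast
    ring
  rw [h1, signedCount_eq hlam hlam hsum]
  have h3 : (Fintype.piFinset fun i => range (lam i + 1)).filter
      (fun τ : Fin l → ℕ => ∑ i, (τ i : ℤ) = (n : ℤ)) = {lam} := by
    ext τ
    rw [Finset.mem_filter, Finset.mem_singleton, Fintype.mem_piFinset]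
    constructor
    · rintro ⟨h4, h5⟩
      have h6 : ∀ i ∈ (univ : Finset (Fin l)), (τ i : ℤ) ≤ (lam i : ℤ) := by
        intro i _
        have := Finset.mem_range.mp (h4 i)
        exact_mod_cast Nat.lt_succ_iff.mp this
      have h7 := (Finset.sum_eq_sum_iff_of_le h6).mp (by rw [h5, ← hsum, add_zero])
      funext i
      exact_mod_cast h7 i (Finset.mem_univ i)
    · rintro rfl
      refine ⟨fun i => Finset.mem_range.mpr (Nat.lt_succ_self _), ?_⟩
      rw [← hsum, add_zero]
  rw [h3, Finset.sum_singleton]
  have h8 : ((chains l lam lam).filter fun y =>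
      Good lam y ∧ ∀ k, (lam k : ℤ) + wt y k = (lam k : ℤ)) = {fun _ => lam} := by
    ext y
    rw [Finset.mem_filter, Finset.mem_singleton]
    constructor
    · rintro ⟨hy, -⟩
      unfold chains at hy
      rw [Finset.mem_filter] at hy
      obtain ⟨-, hy0, hyl, hstrip⟩ := hy
      have hmono : ∀ r, Monotone fun k => y k r := by
        intro r
        rw [Fin.monotone_iff_le_succ]
        intro j
        exact (hstrip j).1 r
      funext k r
      apply le_antisymm
      · have := hmono r (Fin.le_last k)
        simp only [hyl] at this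
        exact this
      · have := hmono r (Fin.zero_le k)
        simp only [hy0] at this
        exact this
    · rintro rfl
      refine ⟨?_, ?_, ?_⟩
      · unfold chains
        rw [Finset.mem_filter, Fintype.mem_piFinset]
        refine ⟨fun _ => ?_, rfl, rfl, fun _ => ⟨fun _ => le_rfl, fun i => ?_⟩⟩
        · rw [Fintype.mem_piFinset]
          exact fun i => Finset.mem_range.mpr (Nat.lt_succ_self _)
        · unfold nxt
          split_ifs with h
          · exact hlam (by rw [Fin.le_def]; simp)
          · exact Nat.zero_le _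
      · intro k h i
        have hc : ∀ a b, cells (fun _ : Fin (l + 1) => lam) a b = 0 := by
          intro a b
          unfold cells
          split_ifs <;> simp
        simp only [hc, Finset.sum_const_zero, add_zero]
        have : lam ⟨k + 1, h⟩ ≤ lam ⟨k, (Nat.lt_succ_self k).trans h⟩ :=
          hlam (by rw [Fin.le_def]; simp)
        exact_mod_cast this
      · intro k
        unfold wt
        simp
  rw [h8, Finset.card_singleton]
  simp

end H73TR
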