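import Pool.Agent.Lib.H73TR.II0
import Pool.Agent.Lib.H73TR.I4b

/-!
# II0b (M): a positive inner product

By `burnside2` and the definition of `chi`: the sum is `n!` times
`∑_w sg w #{M with row sums shiftVec lam w and column sums lam}`; the columns of `M` form an element
of the set counted by `colCount l lam (shiftVec lam w)`, so by `signed_colCount` (`J = l`,
`r = lam`) it is `n!` times the number of chains from `0` to `lam` with weight `lam`, which is
positive: the chain `y_k r = lam r` for `r < k`, `0` for `r ≥ k`.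
-/

namespace H73TR

open Finset

private lemma ii0b_card {n l : ℕ} {lam : Fin l → ℕ} (hn : ∑ i, lam i = n) (κ : Fin l → ℤ) :
    Nat.card {M : Fin l → Fin l → ℕ //
        (∀ i, ∑ j, (M i j : ℤ) = κ i) ∧ (∀ j, ∑ i, (M i j : ℤ) = (lam j : ℤ)) ∧
        ∑ i, ∑ j, M i j = n} = colCount l (fun j => (lam j : ℤ)) κ := by
  rw [colCount]
  refine Nat.card_congr ⟨fun M => ⟨fun j i => M.1 i j, M.2.2.1, M.2.1⟩,
    fun β => ⟨fun i j => β.1 j i, β.2.2, β.2.1, ?_⟩, fun M => rfl, fun β => rfl⟩
  have h1 := β.2.1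
  have h2 : (∑ i, ∑ j, β.1 j i : ℕ) = n := by
    rw [Finset.sum_comm, ← hn]
    refine Finset.sum_congr rfl fun j _ => ?_
    have h3 := h1 j
    exact_mod_cast h3
  exact h2

private lemma ii0b_chain {l : ℕ} {lam : Fin l → ℕ} (hlam : Antitone lam) :
    0 < ((chains l 0 lam).filter fun y => ∀ j, wt y j = (lam j : ℤ)).card := by
  rw [Finset.card_pos]
  refine ⟨fun k r => if (r : ℕ) < (k : ℕ) then lam r else 0, ?_⟩
  rw [Finset.mem_filter, chains, Finset.mem_filter]
  refine ⟨⟨?_, ?_, ?_, ?_⟩, ?_⟩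
  · rw [Fintype.mem_piFinset]
    intro k
    rw [Fintype.mem_piFinset]
    intro i
    rw [Finset.mem_range]
    split_ifs <;> omega
  · funext r
    simp
  · funext r
    simp
  · intro j
    refine ⟨fun i => ?_, fun i => ?_⟩
    · simp only [Fin.val_castSucc, Fin.val_succ]
      split_ifs <;> omega
    · rw [nxt]
      simp only [Fin.val_castSucc, Fin.val_succ]
      by_cases h : (i : ℕ) + 1 < l
      · rw [dif_pos h]
        by_cases h2 : (i : ℕ) < (j : ℕ)
        · rw [if_pos (by show (i : ℕ) + 1 < (j : ℕ) + 1; omega), if_pos h2]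
          exact hlam (Fin.mk_le_mk.mpr (Nat.le_succ _))
        · rw [if_neg (by show ¬ (i : ℕ) + 1 < (j : ℕ) + 1; omega)]
          exact Nat.zero_le _
      · rw [dif_neg h]
        exact Nat.zero_le _
  · intro j
    rw [wt, ← Finset.sum_sub_distrib]
    have h1 : ∀ i : Fin l, (((if (i : ℕ) < ((j.succ : Fin (l + 1)) : ℕ) then lam i else 0 : ℕ) : ℤ) -
        ((if (i : ℕ) < ((j.castSucc : Fin (l + 1)) : ℕ) then lam i else 0 : ℕ) : ℤ)) =
        if i = j then (lam i : ℤ) else 0 := by
      intro i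
      rw [Fin.val_castSucc, Fin.val_succ]
      by_cases h : i = j
      · rw [if_pos h, h, if_pos (Nat.lt_succ_self _), if_neg (lt_irrefl _)]
        simp
      · rw [if_neg h]
        have h2 : (i : ℕ) ≠ (j : ℕ) := fun e => h (Fin.ext e)
        by_cases h3 : (i : ℕ) < (j : ℕ)
        · rw [if_pos (Nat.lt_succ_of_lt h3), if_pos h3, sub_self]
        · rw [if_neg (by omega), if_neg h3, sub_self]
    rw [Finset.sum_congr rfl fun i _ => h1 i, Finset.sum_ite_eq' univ j, if_pos (Finset.mem_univ j)]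

theorem chi_perm_pos {n l : ℕ} {lam : Fin l → ℕ} (hlam : Antitone lam) (hn : ∑ i, lam i = n) :
    0 < ∑ σ : Equiv.Perm (Fin n), chi lam σ * permChar (fun i => (lam i : ℤ)) σ := by
  have h1 : ∑ σ : Equiv.Perm (Fin n), chi lam σ * permChar (fun i => (lam i : ℤ)) σ =
      (n.factorial : ℤ) * ∑ w : Equiv.Perm (Fin l),
        sg w * (colCount l (fun j => (lam j : ℤ)) (shiftVec lam w) : ℤ) := by
    have h2 : ∀ σ : Equiv.Perm (Fin n), chi lam σ * permChar (fun i => (lam i : ℤ)) σ =
        ∑ w : Equiv.Perm (Fin l), sg w *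
          (permChar (shiftVec lam w) σ * permChar (fun i => (lam i : ℤ)) σ) := by
      intro σ
      rw [chi, Finset.sum_mul]
      refine Finset.sum_congr rfl fun w _ => ?_
      rw [sg]
      ring
    rw [Finset.sum_congr rfl fun σ _ => h2 σ, Finset.sum_comm, Finset.mul_sum]
    refine Finset.sum_congr rfl fun w _ => ?_
    rw [← Finset.mul_sum, burnside2, ii0b_card hn]
    ring
  rw [h1, signed_colCount l lam hlam]
  have h3 : (0 : ℤ) < (n.factorial : ℤ) := by exact_mod_cast n.factorial_pos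
  have h4 : (0 : ℤ) <
      (((chains l 0 lam).filter fun y => ∀ j, wt y j = (lam j : ℤ)).card : ℤ) := by
    exact_mod_cast ii0b_chain hlam
  exact mul_pos h3 h4

end H73TR
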