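import Pool.Agent.Lib.H73TR.Defs

/-!
# II1 (M): permutation characters are characters

`S_n` acts on the words `f : Fin n → Fin l` with content `κ` by `σ • f = f ∘ σ⁻¹`; take the
permutation representation on `ℂ`-valued functions on this finite set (or on
`(words) →₀ ℂ`, `Representation.ofMulAction`); its character at `σ` is the number of words with
`f ∘ σ⁻¹ = f`, that is `f ∘ σ = f` (trace of a permutation matrix).
-/

namespace H73TR

private theorem II1_content {n l : ℕ} (f : Fin n → Fin l) (σ : Equiv.Perm (Fin n)) (j : Fin l) :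
    content (fun i => f (σ i)) j = content f j := by
  unfold content
  congr 1
  exact Finset.card_equiv σ (fun i => by simp)

/-- the words with content `κ` -/
private abbrev II1_words (n : ℕ) {l : ℕ} (κ : Fin l → ℤ) : Type :=
  {f : Fin n → Fin l // ∀ j, content f j = κ j}

/-- the word `f ∘ σ` -/
private def II1_act {n l : ℕ} {κ : Fin l → ℤ} (σ : Equiv.Perm (Fin n)) (x : II1_words n κ) :
    II1_words n κ :=
  ⟨fun i => x.1 (σ i), fun j => by rw [II1_content]; exact x.2 j⟩

/-- the permutation representation -/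
private noncomputable def II1_rep (n : ℕ) {l : ℕ} (κ : Fin l → ℤ) :
    Representation ℂ (Equiv.Perm (Fin n)) (II1_words n κ → ℂ) where
  toFun σ := LinearMap.funLeft ℂ ℂ (II1_act σ)
  map_one' := by
    ext g x
    rfl
  map_mul' σ τ := by
    ext g x
    rfl

private theorem II1_trace {X : Type} [Fintype X] [DecidableEq X] (e : X → X) :
    LinearMap.trace ℂ (X → ℂ) (LinearMap.funLeft ℂ ℂ e) =
      ((Finset.univ.filter fun x => e x = x).card : ℂ) := by
  rw [LinearMap.trace_eq_matrix_trace ℂ (Pi.basisFun ℂ X), Matrix.trace, Finset.card_filter,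
    Nat.cast_sum]
  refine Finset.sum_congr rfl fun x _ => ?_
  rw [Matrix.diag_apply, LinearMap.toMatrix_apply, Pi.basisFun_apply, Pi.basisFun_repr,
    LinearMap.funLeft_apply, Pi.single_apply]
  split_ifs <;> simp

theorem permChar_character (n : ℕ) {l : ℕ} (κ : Fin l → ℤ) :
    ∃ V : FDRep ℂ (Equiv.Perm (Fin n)), ∀ σ, V.character σ = (permChar κ σ : ℂ) := by
  refine ⟨FDRep.of (II1_rep n κ), fun σ => ?_⟩
  rw [FDRep.character, FDRep.of_ρ']
  have h1 : LinearMap.trace ℂ (II1_words n κ → ℂ) (II1_rep n κ σ) =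
      ((Finset.univ.filter fun x : II1_words n κ => II1_act σ x = x).card : ℂ) :=
    II1_trace (II1_act σ)
  refine h1.trans ?_
  unfold permChar
  rw [Int.cast_natCast]
  congr 1
  refine Finset.card_bij (fun x _ => x.1) ?_ ?_ ?_
  · intro x hx
    rw [Finset.mem_filter] at hx ⊢
    refine ⟨Finset.mem_univ _, fun i => ?_, x.2⟩
    exact congrFun (congrArg Subtype.val hx.2) i
  · intro x _ y _ h
    exact Subtype.ext h
  · intro f hf
    rw [Finset.mem_filter] at hf
    refine ⟨⟨f, hf.2.2⟩, ?_, rfl⟩
    rw [Finset.mem_filter]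
    exact ⟨Finset.mem_univ _, Subtype.ext (funext hf.2.1)⟩

end H73TR
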