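import Mathlib

/-!
# II2 (M/L): virtual characters of norm one

By Maschke every `FDRep ℂ G` is a direct sum of simple ones, so its character is a sum of
characters of simple representations (induction on the dimension: an invariant subspace has an
invariant complement; characters of short exact sequences / direct sums add).  Choose finitely
many pairwise non-isomorphic simple representations `S_i` which occur in `V`, `W` or `P`:
`φ = ∑ n_i χ_(S_i)`, `n_i ∈ ℤ`, `χ_P = ∑ m_i χ_(S_i)`, `m_i ≥ 0`.  Orthonormality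
(`FDRep.char_orthonormal`): `∑_g φ g φ g⁻¹ = |G| ∑ n_i²`, so exactly one `n_i` is `±1` and the others
are `0`; `∑_g φ g χ_P g⁻¹ = |G| n_i m_i > 0` gives `n_i = 1`.  Take `U = S_i`.
-/

namespace H73TR

open CategoryTheory

open CategoryTheory.Limits in
private noncomputable def ii2_lin {G : Type} [Group G] {A B : FDRep ℂ G} (f : A ⟶ B) :
    A →ₗ[ℂ] B := f.hom.hom.hom

private theorem ii2_lin_comp {G : Type} [Group G] {A B C : FDRep ℂ G} (f : A ⟶ B) (h : B ⟶ C) :
    ii2_lin (f ≫ h) = (ii2_lin h).comp (ii2_lin f) := rfl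

private theorem ii2_lin_id {G : Type} [Group G] (A : FDRep ℂ G) :
    ii2_lin (𝟙 A) = LinearMap.id := rfl

private theorem ii2_lin_add {G : Type} [Group G] {A B : FDRep ℂ G} (f h : A ⟶ B) :
    ii2_lin (f + h) = ii2_lin f + ii2_lin h := rfl

private theorem ii2_lin_inj {G : Type} [Group G] {A B : FDRep ℂ G} {f h : A ⟶ B}
    (hfh : ii2_lin f = ii2_lin h) : f = h := by
  apply Action.Hom.ext
  apply InducedCategory.Hom.ext
  apply ModuleCat.hom_ext
  exact hfh

private theorem ii2_lin_comm {G : Type} [Group G] {A B : FDRep ℂ G} (f : A ⟶ B) (g : G) :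
    (ii2_lin f).comp (A.ρ g) = (B.ρ g).comp (ii2_lin f) := by
  have h := f.comm g
  have h2 := congrArg (fun t => t.hom.hom) h
  exact h2

private theorem ii2_char_add {G : Type} [Group G] {A B V : FDRep ℂ G} (i : A ⟶ V) (p : V ⟶ A)
    (j : B ⟶ V) (q : V ⟶ B) (h1 : i ≫ p = 𝟙 A) (h2 : j ≫ q = 𝟙 B)
    (h3 : p ≫ i + q ≫ j = 𝟙 V) (g : G) :
    V.character g = A.character g + B.character g := by
  have e3 : (ii2_lin i).comp (ii2_lin p) + (ii2_lin j).comp (ii2_lin q) = LinearMap.id := by
    rw [← ii2_lin_comp, ← ii2_lin_comp, ← ii2_lin_add, h3, ii2_lin_id]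
  have key : ∀ {C : FDRep ℂ G} (a : C ⟶ V) (b : V ⟶ C), a ≫ b = 𝟙 C →
      LinearMap.trace ℂ V ((V.ρ g).comp ((ii2_lin a).comp (ii2_lin b))) = C.character g := by
    intro C a b hab
    have h4 : (V.ρ g).comp ((ii2_lin a).comp (ii2_lin b)) =
        ((ii2_lin a).comp (C.ρ g)).comp (ii2_lin b) := by
      rw [ii2_lin_comm a g]
      rfl
    rw [h4, LinearMap.trace_comp_comm']
    have h5 : (ii2_lin b).comp ((ii2_lin a).comp (C.ρ g)) = C.ρ g := by
      have h6 : (ii2_lin b).comp (ii2_lin a) = LinearMap.id := by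
        rw [← ii2_lin_comp, hab, ii2_lin_id]
      rw [← LinearMap.comp_assoc, h6, LinearMap.id_comp]
    rw [h5]
    rfl
  have h7 : V.character g = LinearMap.trace ℂ V ((V.ρ g).comp
      ((ii2_lin i).comp (ii2_lin p) + (ii2_lin j).comp (ii2_lin q))) := by
    rw [e3, LinearMap.comp_id]
    rfl
  rw [h7, LinearMap.comp_add, map_add, key i p h1, key j q h2]

open CategoryTheory.Limits in
private theorem ii2_retract {G : Type} [Group G] {A V : FDRep ℂ G} (i : A ⟶ V) (p : V ⟶ A)
    (h1 : i ≫ p = 𝟙 A) : ∃ B : FDRep ℂ G, ∀ g, V.character g = A.character g + B.character g := by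
  refine ⟨kernel p, fun g => ?_⟩
  have hw : (𝟙 V - p ≫ i) ≫ p = 0 := by
    rw [Preadditive.sub_comp, Category.id_comp, Category.assoc, h1, Category.comp_id, sub_self]
  refine ii2_char_add i p (kernel.ι p) (kernel.lift p (𝟙 V - p ≫ i) hw) h1 ?_ ?_ g
  · rw [← cancel_mono (kernel.ι p), Category.assoc, kernel.lift_ι, Preadditive.comp_sub,
      Category.comp_id, Category.id_comp, ← Category.assoc, kernel.condition, zero_comp, sub_zero]
  · rw [kernel.lift_ι]
    abel

private theorem ii2_split {G : Type} [Group G] [Fintype G] {V W : FDRep ℂ G} (f : V ⟶ W)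
    (hf : f ≠ 0) : ∃ A B I : FDRep ℂ G, (∀ g, V.character g = I.character g + A.character g) ∧
      (∀ g, W.character g = I.character g + B.character g) ∧ 𝟙 I ≠ 0 := by
  have : NeZero (Nat.card G : ℂ) := ⟨by
    have : Nat.card G ≠ 0 := Nat.card_pos.ne'
    exact_mod_cast this⟩
  let I := Abelian.image f
  let e : V ⟶ I := Abelian.factorThruImage f
  let m : I ⟶ W := Abelian.image.ι f
  have hem : e ≫ m = f := Abelian.image.fac f
  let s : I ⟶ V := Projective.factorThru (𝟙 I) e
  have hs : s ≫ e = 𝟙 I := Projective.factorThru_comp (𝟙 I) e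
  let r : W ⟶ I := Injective.factorThru (𝟙 I) m
  have hr : m ≫ r = 𝟙 I := Injective.comp_factorThru (𝟙 I) m
  obtain ⟨A, hA⟩ := ii2_retract s e hs
  obtain ⟨B, hB⟩ := ii2_retract m r hr
  refine ⟨A, B, I, hA, hB, ?_⟩
  intro h0
  apply hf
  rw [← hem, ← Category.comp_id e, h0]
  simp

private theorem ii2_char_one {G : Type} [Group G] (V : FDRep ℂ G) :
    V.character 1 = (Module.finrank ℂ V : ℂ) := FDRep.char_one V

private theorem ii2_zero {G : Type} [Group G] [Fintype G] (V : FDRep ℂ G)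
    (h : Module.finrank ℂ (V ⟶ V) = 0) (g : G) : V.character g = 0 := by
  have h1 : Subsingleton (V ⟶ V) := Module.finrank_zero_iff.mp h
  have h2 : (𝟙 V : V ⟶ V) = 0 := Subsingleton.elim _ _
  have h3 : (LinearMap.id : V →ₗ[ℂ] V) = 0 := by
    rw [← ii2_lin_id, h2]
    rfl
  have h4 : V.ρ g = 0 := by
    rw [← LinearMap.comp_id (V.ρ g), h3, LinearMap.comp_zero]
  unfold FDRep.character
  rw [h4, map_zero]

private theorem ii2_main {G : Type} [Group G] [Fintype G] (P : FDRep ℂ G) (φ : G → ℂ)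
    (h1 : ∑ g : G, φ g * φ g⁻¹ = (Fintype.card G : ℂ))
    (h2 : ∃ r : ℝ, 0 < r ∧ ∑ g : G, φ g * P.character g⁻¹ = (r : ℂ)) :
    ∀ (N : ℕ) (V W : FDRep ℂ G), Module.finrank ℂ V ≤ N →
      (∀ g, φ g = V.character g - W.character g) → ∃ U : FDRep ℂ G, ∀ g, U.character g = φ g := by
  have : NeZero (Nat.card G : ℂ) := ⟨by
    have : Nat.card G ≠ 0 := Nat.card_pos.ne'
    exact_mod_cast this⟩
  let _ : Invertible (Nat.card G : ℂ) := invertibleOfNonzero (NeZero.ne (Nat.card G : ℂ))
  have hcard : (Nat.card G : ℂ) ≠ 0 := NeZero.ne _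
  have hsp : ∀ A B : FDRep ℂ G, ∑ g : G, B.character g * A.character g⁻¹ =
      (Nat.card G : ℂ) * (Module.finrank ℂ (A ⟶ B) : ℂ) := by
    intro A B
    have := FDRep.scalar_product_char_eq_finrank_equivariant A B
    rw [← this, ← mul_assoc, mul_inv_cancel₀ hcard, one_mul]
  have base : ∀ V W : FDRep ℂ G, (∀ f : V ⟶ W, f = 0) →
      (∀ g, φ g = V.character g - W.character g) → ∃ U : FDRep ℂ G, ∀ g, U.character g = φ g := by
    intro V W hVW hφ
    have h0 : Module.finrank ℂ (V ⟶ W) = 0 :=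
      Module.finrank_zero_iff.mpr ⟨fun a b => by rw [hVW a, hVW b]⟩
    have hs1 : ∑ g : G, W.character g * V.character g⁻¹ = 0 := by
      rw [hsp V W, h0, Nat.cast_zero, mul_zero]
    have hs2 : ∑ g : G, V.character g * W.character g⁻¹ = 0 := by
      rw [← hs1, ← Equiv.sum_comp (Equiv.inv G)]
      refine Finset.sum_congr rfl fun g _ => ?_
      rw [Equiv.inv_apply, inv_inv, mul_comm]
    have hs3 : ∑ g : G, φ g * φ g⁻¹ =
        (Nat.card G : ℂ) * (Module.finrank ℂ (V ⟶ V) : ℂ) +
          (Nat.card G : ℂ) * (Module.finrank ℂ (W ⟶ W) : ℂ) := by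
      have h4 : ∀ g : G, φ g * φ g⁻¹ = V.character g * V.character g⁻¹ -
          V.character g * W.character g⁻¹ - W.character g * V.character g⁻¹ +
          W.character g * W.character g⁻¹ := by
        intro g
        rw [hφ g, hφ g⁻¹]
        ring
      rw [Finset.sum_congr rfl fun g _ => h4 g, Finset.sum_add_distrib, Finset.sum_sub_distrib,
        Finset.sum_sub_distrib, hs1, hs2, hsp V V, hsp W W]
      ring
    rw [h1, Fintype.card_eq_nat_card, ← mul_add] at hs3
    have hs4 : (1 : ℂ) = (Module.finrank ℂ (V ⟶ V) : ℂ) + (Module.finrank ℂ (W ⟶ W) : ℂ) :=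
      mul_left_cancel₀ hcard (by rw [mul_one]; exact hs3)
    have hs5 : Module.finrank ℂ (V ⟶ V) + Module.finrank ℂ (W ⟶ W) = 1 := by
      have : ((Module.finrank ℂ (V ⟶ V) + Module.finrank ℂ (W ⟶ W) : ℕ) : ℂ) = ((1 : ℕ) : ℂ) := by
        push_cast
        exact hs4.symm
      exact_mod_cast this
    by_cases hW : Module.finrank ℂ (W ⟶ W) = 0
    · refine ⟨V, fun g => ?_⟩
      rw [hφ g, ii2_zero W hW g, sub_zero]
    · exfalso
      have hV : Module.finrank ℂ (V ⟶ V) = 0 := by omega
      obtain ⟨r, hr, hr2⟩ := h2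
      have h5 : ∑ g : G, φ g * P.character g⁻¹ =
          -((Nat.card G : ℂ) * (Module.finrank ℂ (P ⟶ W) : ℂ)) := by
        rw [← hsp P W, ← Finset.sum_neg_distrib]
        refine Finset.sum_congr rfl fun g _ => ?_
        rw [hφ g, ii2_zero V hV g]
        ring
      rw [h5] at hr2
      have h6 : -((Nat.card G : ℝ) * (Module.finrank ℂ (P ⟶ W) : ℝ)) = r := by
        exact_mod_cast hr2
      have h7 : (0 : ℝ) ≤ (Nat.card G : ℝ) * (Module.finrank ℂ (P ⟶ W) : ℝ) := by positivity
      linarith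
  intro N
  induction N with
  | zero =>
    intro V W hV hφ
    by_cases hf : ∀ f : V ⟶ W, f = 0
    · exact base V W hf hφ
    · exfalso
      push Not at hf
      obtain ⟨f, hf⟩ := hf
      apply hf
      apply ii2_lin_inj
      have h3 : Subsingleton V := Module.finrank_zero_iff.mp (Nat.le_zero.mp hV)
      ext x
      rw [Subsingleton.elim x 0, map_zero, map_zero]
  | succ N ih =>
    intro V W hV hφ
    by_cases hf : ∀ f : V ⟶ W, f = 0
    · exact base V W hf hφ
    · push Not at hf
      obtain ⟨f, hf⟩ := hf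
      obtain ⟨A, B, I, hA, hB, hI⟩ := ii2_split f hf
      refine ih A B ?_ ?_
      · have h3 := hA 1
        rw [ii2_char_one, ii2_char_one, ii2_char_one] at h3
        have h4 : Module.finrank ℂ V = Module.finrank ℂ I + Module.finrank ℂ A := by
          exact_mod_cast h3
        have h5 : Module.finrank ℂ I ≠ 0 := by
          intro h6
          apply hI
          apply ii2_lin_inj
          have h7 : Subsingleton I := Module.finrank_zero_iff.mp h6
          ext x
          rw [Subsingleton.elim x 0, map_zero, map_zero]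
        omega
      · intro g
        rw [hφ g, hA g, hB g]
        ring

theorem virtual_simple {G : Type} [Group G] [Fintype G] (V W P : FDRep ℂ G) (φ : G → ℂ)
    (hφ : ∀ g, φ g = V.character g - W.character g)
    (h1 : ∑ g : G, φ g * φ g⁻¹ = (Fintype.card G : ℂ))
    (h2 : ∃ r : ℝ, 0 < r ∧ ∑ g : G, φ g * P.character g⁻¹ = (r : ℂ)) :
    ∃ U : FDRep ℂ G, ∀ g, U.character g = φ g :=
  ii2_main P φ h1 h2 _ V W le_rfl hφ

end H73TR
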