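import Pool.Agent.Lib.H73TR.II0a
import Pool.Agent.Lib.H73TR.II0b
import Pool.Agent.Lib.H73TR.II1
import Pool.Agent.Lib.H73TR.II2

/-!
# II3 (M): `chi lam` is a character

`chi lam = ∑_w sg w permChar (shiftVec lam w)` is `χ_V - χ_W`, `V` (`W`) the direct sum of the
representations of `permChar_character` over the even (odd) `w` (finite direct sums exist in
`FDRep`; characters add: do it by induction, or give the representation on the disjoint union of
the sets of words).  `permChar κ σ⁻¹ = permChar κ σ` and so `chi lam σ⁻¹ = chi lam σ`.  Apply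
`virtual_simple` with `chi_norm` and `chi_perm_pos` (`P` = the representation with character
`permChar lam`).
-/

namespace H73TR

open Finset

private theorem II3_zero (G : Type) [Group G] : ∃ U : FDRep ℂ G, ∀ g, U.character g = 0 := by
  refine ⟨FDRep.of (1 : Representation ℂ G (Fin 0 → ℂ)), fun g => ?_⟩
  rw [FDRep.character, FDRep.of_ρ']
  have h : ((1 : Representation ℂ G (Fin 0 → ℂ)) g) = 0 := Subsingleton.elim _ _
  exact (congrArg (LinearMap.trace ℂ (Fin 0 → ℂ)) h).trans (map_zero _)

private noncomputable def II3_prod {G : Type} [Group G] (A B : FDRep ℂ G) :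
    Representation ℂ G (A × B) where
  toFun g := (A.ρ g).prodMap (B.ρ g)
  map_one' := by
    rw [map_one, map_one]
    rfl
  map_mul' g h := by
    rw [map_mul, map_mul]
    rfl

private theorem II3_add {G : Type} [Group G] (A B : FDRep ℂ G) :
    ∃ U : FDRep ℂ G, ∀ g, U.character g = A.character g + B.character g := by
  refine ⟨FDRep.of (II3_prod A B), fun g => ?_⟩
  rw [FDRep.character, FDRep.of_ρ']
  exact LinearMap.trace_prodMap' (A.ρ g) (B.ρ g)

private theorem II3_sum {G ι : Type} [Group G] (f : ι → FDRep ℂ G) (s : Finset ι) :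
    ∃ U : FDRep ℂ G, ∀ g, U.character g = ∑ i ∈ s, (f i).character g := by
  classical
  induction s using Finset.induction_on with
  | empty => simpa using II3_zero G
  | insert a s ha ih =>
    obtain ⟨U, hU⟩ := ih
    obtain ⟨U', hU'⟩ := II3_add (f a) U
    exact ⟨U', fun g => by rw [hU' g, hU g, Finset.sum_insert ha]⟩

/-- the number of fixed words of `σ⁻¹` is the number of fixed words of `σ` -/
private theorem II3_perm_inv {n l : ℕ} (κ : Fin l → ℤ) (σ : Equiv.Perm (Fin n)) :
    permChar κ σ⁻¹ = permChar κ σ := by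
  unfold permChar
  congr 2
  ext f
  rw [mem_filter, mem_filter]
  have h : (∀ i, f (σ⁻¹ i) = f i) ↔ ∀ i, f (σ i) = f i := by
    constructor
    · intro h i
      have h1 := h (σ i)
      have e : σ⁻¹ (σ i) = i := σ.symm_apply_apply i
      rw [e] at h1
      exact h1.symm
    · intro h i
      have h1 := h (σ⁻¹ i)
      have e : σ (σ⁻¹ i) = i := σ.apply_symm_apply i
      rw [e] at h1
      exact h1.symm
  rw [h]

private theorem II3_chi_inv {n l : ℕ} (lam : Fin l → ℕ) (σ : Equiv.Perm (Fin n)) :
    chi lam σ⁻¹ = chi lam σ := by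
  unfold chi
  exact Finset.sum_congr rfl fun w _ => by rw [II3_perm_inv]

theorem chi_character {n l : ℕ} {lam : Fin l → ℕ} (hlam : Antitone lam)
    (hn : ∑ i, lam i = n) :
    ∃ V : FDRep ℂ (Equiv.Perm (Fin n)), ∀ σ, V.character σ = (chi lam σ : ℂ) := by
  classical
  choose f hf using fun w : Equiv.Perm (Fin l) => permChar_character n (shiftVec lam w)
  obtain ⟨V, hV⟩ := II3_sum f (univ.filter fun w => Equiv.Perm.sign w = 1)
  obtain ⟨W, hW⟩ := II3_sum f (univ.filter fun w => ¬ Equiv.Perm.sign w = 1)
  obtain ⟨P, hP⟩ := permChar_character n (fun i => (lam i : ℤ))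
  refine virtual_simple V W P (fun σ => (chi lam σ : ℂ)) ?_ ?_ ?_
  · intro σ
    rw [hV, hW]
    unfold chi
    rw [Int.cast_sum, ← Finset.sum_filter_add_sum_filter_not univ
      (fun w : Equiv.Perm (Fin l) => Equiv.Perm.sign w = 1), sub_eq_add_neg,
      ← Finset.sum_neg_distrib]
    congr 1
    · refine Finset.sum_congr rfl fun w hw => ?_
      rw [mem_filter] at hw
      rw [hf, hw.2]
      simp
    · refine Finset.sum_congr rfl fun w hw => ?_
      rw [mem_filter] at hw
      rcases Int.units_eq_one_or (Equiv.Perm.sign w) with h | h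
      · exact absurd h hw.2
      · rw [hf, h]
        simp
  · have h1 := chi_norm hlam hn
    have h2 : ((∑ σ : Equiv.Perm (Fin n), chi lam σ * chi lam σ : ℤ) : ℂ) =
        ((n.factorial : ℤ) : ℂ) := congrArg _ h1
    rw [Fintype.card_perm, Fintype.card_fin]
    rw [Int.cast_natCast, Int.cast_sum] at h2
    rw [← h2]
    refine Finset.sum_congr rfl fun σ _ => ?_
    rw [II3_chi_inv, Int.cast_mul]
  · have h1 := chi_perm_pos hlam hn
    refine ⟨((∑ σ : Equiv.Perm (Fin n), chi lam σ * permChar (fun i => (lam i : ℤ)) σ : ℤ) : ℝ),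
      by exact_mod_cast h1, ?_⟩
    rw [Complex.ofReal_intCast, Int.cast_sum]
    refine Finset.sum_congr rfl fun σ _ => ?_
    rw [hP, II3_perm_inv, Int.cast_mul]

end H73TR
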