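import Mathlib

/-!
# II4a (M): the up operator is injective below the middle

`f` is a vector valued function on the `p`-subsets of an `n`-set (values elsewhere are of no
importance), `2p < n`.  If `∑_(x ∈ B) f (B - x) = 0` for all `(p+1)`-subsets `B` then `f = 0` on
the `p`-subsets.  Proof: fix the `p`-set `A`, and let `g j` be the sum of the `f A'` over the
`p`-sets `A'` with `|A' ∩ A| = j`.  Summing the hypothesis over the `(p+1)`-sets `B` with
`|B ∩ A| = j` gives `(n - 2p + j) g j + (p + 1 - j) g (j-1) = 0`, so `g j = 0` for all `j` by
induction, and `g p = f A`.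
-/

namespace H73TR

open Finset

/-- The double counting identity. -/
theorem up_count {α E : Type*} [Fintype α] [DecidableEq α] [AddCommGroup E]
    {p : ℕ} (f : Finset α → E)
    (hf : ∀ B : Finset α, B.card = p + 1 → ∑ x ∈ B, f (B.erase x) = 0) (A : Finset α) (j : ℕ) :
    ∑ A' ∈ powersetCard p (univ : Finset α),
      ((univ \ A').filter (fun x => ((insert x A') ∩ A).card = j)).card • f A' = 0 := by
  classical
  have h1 : ∑ A' ∈ powersetCard p (univ : Finset α),
      ((univ \ A').filter (fun x => ((insert x A') ∩ A).card = j)).card • f A' =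
      ∑ A' ∈ powersetCard p (univ : Finset α),
        ∑ _x ∈ (univ \ A').filter (fun x => ((insert x A') ∩ A).card = j), f A' := by
    refine sum_congr rfl fun A' _ => ?_
    rw [sum_const]
  have h2 : ∑ A' ∈ powersetCard p (univ : Finset α),
        ∑ _x ∈ (univ \ A').filter (fun x => ((insert x A') ∩ A).card = j), f A' =
      ∑ B ∈ (powersetCard (p + 1) (univ : Finset α)).filter (fun B => (B ∩ A).card = j),
        ∑ x ∈ B, f (B.erase x) := by
    rw [sum_sigma', sum_sigma']
    refine sum_bij' (fun s _ => (⟨insert s.2 s.1, s.2⟩ : (_ : Finset α) × α))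
      (fun s _ => (⟨s.1.erase s.2, s.2⟩ : (_ : Finset α) × α)) ?_ ?_ ?_ ?_ ?_
    · rintro ⟨A', x⟩ hs
      simp only [mem_sigma, mem_powersetCard, mem_filter, mem_sdiff, mem_univ, true_and,
        subset_univ] at hs ⊢
      refine ⟨⟨?_, hs.2.2⟩, mem_insert_self _ _⟩
      rw [card_insert_of_notMem hs.2.1, hs.1]
    · rintro ⟨B, x⟩ hs
      simp only [mem_sigma, mem_powersetCard, mem_filter, mem_sdiff, mem_univ, true_and,
        subset_univ] at hs ⊢
      refine ⟨?_, notMem_erase _ _, ?_⟩
      · rw [card_erase_of_mem hs.2, hs.1.1]
        rfl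
      · rw [insert_erase hs.2]
        exact hs.1.2
    · rintro ⟨A', x⟩ hs
      simp only [mem_sigma, mem_powersetCard, mem_filter, mem_sdiff, mem_univ, true_and,
        subset_univ] at hs
      simp only [erase_insert hs.2.1]
    · rintro ⟨B, x⟩ hs
      simp only [mem_sigma] at hs
      simp only [insert_erase hs.2]
    · rintro ⟨A', x⟩ hs
      simp only [mem_sigma, mem_powersetCard, mem_filter, mem_sdiff, mem_univ, true_and,
        subset_univ] at hs
      simp only [erase_insert hs.2.1]
  rw [h1, h2]
  refine sum_eq_zero fun B hB => hf B ?_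
  exact (mem_powersetCard.mp (mem_filter.mp hB).1).2

theorem up_injective {α E : Type*} [Fintype α] [DecidableEq α] [AddCommGroup E] [Module ℂ E]
    {p : ℕ} (hp : 2 * p < Fintype.card α) (f : Finset α → E)
    (hf : ∀ B : Finset α, B.card = p + 1 → ∑ x ∈ B, f (B.erase x) = 0) (A : Finset α)
    (hA : A.card = p) : f A = 0 := by
  classical
  have hcnt : ∀ (j : ℕ) (A' : Finset α), A'.card = p →
      ((univ \ A').filter (fun x => ((insert x A') ∩ A).card = j)).card =
        (if (A' ∩ A).card = j then Fintype.card α - 2 * p + j else 0) +
        (if (A' ∩ A).card + 1 = j then p + 1 - j else 0) := by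
    intro j A' hA'
    have hun : (A' ∪ A).card + (A' ∩ A).card = 2 * p := by
      rw [card_union_add_card_inter, hA', hA]
      ring
    have hlein : (A' ∪ A).card ≤ Fintype.card α := card_le_univ _
    by_cases hj : (A' ∩ A).card = j
    · have hj2 : ¬ ((A' ∩ A).card + 1 = j) := by omega
      rw [if_pos hj, if_neg hj2]
      have hset : (univ \ A').filter (fun x => ((insert x A') ∩ A).card = j) = (A' ∪ A)ᶜ := by
        ext x
        simp only [mem_filter, mem_sdiff, mem_univ, true_and, mem_compl, mem_union, not_or]
        constructor
        · rintro ⟨hx, hx2⟩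
          refine ⟨hx, fun hxA => ?_⟩
          rw [insert_inter_of_mem hxA, card_insert_of_notMem
            (fun h => hx (mem_inter.mp h).1)] at hx2
          omega
        · rintro ⟨hx, hxA⟩
          refine ⟨hx, ?_⟩
          rw [insert_inter_of_notMem hxA]
          exact hj
      rw [hset, card_compl]
      omega
    · rw [if_neg hj]
      by_cases hj2 : (A' ∩ A).card + 1 = j
      · rw [if_pos hj2]
        have hset : (univ \ A').filter (fun x => ((insert x A') ∩ A).card = j) = A \ A' := by
          ext x
          simp only [mem_filter, mem_sdiff, mem_univ, true_and]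
          constructor
          · rintro ⟨hx, hx2⟩
            refine ⟨?_, hx⟩
            by_contra hxA
            rw [insert_inter_of_notMem hxA] at hx2
            exact hj hx2
          · rintro ⟨hxA, hx⟩
            refine ⟨hx, ?_⟩
            rw [insert_inter_of_mem hxA, card_insert_of_notMem
              (fun h => hx (mem_inter.mp h).1)]
            exact hj2
        rw [hset]
        have h3 := card_sdiff_add_card_inter A A'
        rw [inter_comm A A', hA] at h3
        omega
      · rw [if_neg hj2]
        rw [card_eq_zero, filter_eq_empty_iff]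
        intro x hx hx2
        have hxA' : x ∉ A' := (mem_sdiff.mp hx).2
        by_cases hxA : x ∈ A
        · rw [insert_inter_of_mem hxA, card_insert_of_notMem
            (fun h => hxA' (mem_inter.mp h).1)] at hx2
          exact hj2 hx2
        · rw [insert_inter_of_notMem hxA] at hx2
          exact hj hx2
  have hid : ∀ j : ℕ,
      (Fintype.card α - 2 * p + j) •
        (∑ A' ∈ (powersetCard p (univ : Finset α)).filter (fun A' => (A' ∩ A).card = j), f A') +
      (p + 1 - j) • (∑ A' ∈ (powersetCard p (univ : Finset α)).filter
        (fun A' => (A' ∩ A).card + 1 = j), f A') = 0 := by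
    intro j
    rw [← up_count f hf A j, smul_sum, smul_sum, sum_filter, sum_filter, ← sum_add_distrib]
    refine sum_congr rfl fun A' hA' => ?_
    rw [hcnt j A' (mem_powersetCard.mp hA').2]
    by_cases h1 : (A' ∩ A).card = j
    · have h2 : ¬ ((A' ∩ A).card + 1 = j) := by omega
      simp only [if_pos h1, if_neg h2, add_zero]
    · by_cases h2 : (A' ∩ A).card + 1 = j
      · simp only [if_neg h1, if_pos h2, zero_add]
      · simp only [if_neg h1, if_neg h2, add_zero, zero_smul]
  have hzero : ∀ (n : ℕ) (v : E), 0 < n → n • v = 0 → v = 0 := by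
    intro n v hn hv
    rw [← Nat.cast_smul_eq_nsmul ℂ n v] at hv
    rcases smul_eq_zero.mp hv with h | h
    · exact absurd (Nat.cast_eq_zero.mp h) hn.ne'
    · exact h
  have key : ∀ j : ℕ,
      ∑ A' ∈ (powersetCard p (univ : Finset α)).filter (fun A' => (A' ∩ A).card = j), f A' = 0 := by
    intro j
    induction j with
    | zero =>
      have h := hid 0
      have he : (powersetCard p (univ : Finset α)).filter (fun A' => (A' ∩ A).card + 1 = 0) = ∅ :=
        filter_eq_empty_iff.mpr fun A' _ h => by omega
      rw [he, sum_empty, smul_zero, add_zero] at h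
      exact hzero _ _ (by omega) h
    | succ k ih =>
      have h := hid (k + 1)
      have he : (powersetCard p (univ : Finset α)).filter (fun A' => (A' ∩ A).card + 1 = k + 1) =
          (powersetCard p (univ : Finset α)).filter (fun A' => (A' ∩ A).card = k) :=
        filter_congr fun A' _ => by omega
      rw [he, ih, smul_zero, add_zero] at h
      exact hzero _ _ (by omega) h
  have hfin := key p
  have hsing : (powersetCard p (univ : Finset α)).filter (fun A' => (A' ∩ A).card = p) = {A} := by
    ext A'
    simp only [mem_filter, mem_powersetCard, subset_univ, true_and, mem_singleton]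
    constructor
    · rintro ⟨h1, h2⟩
      have h3 : A' ∩ A = A' := eq_of_subset_of_card_le inter_subset_left (by omega)
      have h4 : A' ∩ A = A := eq_of_subset_of_card_le inter_subset_right (by omega)
      rw [← h3, h4]
    · rintro rfl
      rw [inter_self]
      exact ⟨hA, hA⟩
  rw [hsing, sum_singleton] at hfin
  exact hfin

end H73TR
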