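import Pool.Agent.Lib.H73TR.II1
import Pool.Agent.Lib.H73TR.II4a

/-!
# II4b (M/L): multiplicities grow towards the middle

For `κ = (n-m, m, 0, …)` the words with content `κ` are the `m`-subsets `B` of `Fin n` (the
places of the letter `1`), so `permChar κ σ` is the number of `m`-subsets with `σ B = B`.
Let `D_m` be the dimension of the space `X_m` of equivariant maps `F` from the `m`-subsets of
`Fin n` to `V` (`F (σ B) = σ F(B)`); it is the space of invariants of `V ⊗ ℂ[m-subsets]`
(functions to `V`), whose character is `χ_V(σ) * permChar κ σ`, so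
`∑_σ χ_V(σ) permChar κ σ = n! D_m` (Mathlib: `FDRep.average_char_eq_finrank_invariants`, or the
trace of the projection to the invariants).  The map `F ↦ (B ↦ ∑_(x ∈ B) F (B - x))` is a linear
map `X_(m-1) → X_m`, injective by `up_injective` (`p = m - 1`, `2(m-1) < n`), so `D_(m-1) ≤ D_m`;
`r = D_m - D_(m-1)`.  For `m = 0` the second character is `0` and `r = D_0`.
-/

namespace H73TR

open Finset

/-- The `k`-subsets of `Fin n`. -/
private abbrev II4bSub (n k : ℕ) : Type := {B : Finset (Fin n) // B.card = k}

/-- The image of a `k`-subset under a permutation. -/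
private def II4bAct {n k : ℕ} (σ : Equiv.Perm (Fin n)) (B : II4bSub n k) : II4bSub n k :=
  ⟨B.1.map σ.toEmbedding, by rw [Finset.card_map]; exact B.2⟩

private lemma II4bAct_val {n k : ℕ} (σ : Equiv.Perm (Fin n)) (B : II4bSub n k) :
    (II4bAct σ B).1 = B.1.map σ.toEmbedding := rfl

private lemma II4bAct_one {n k : ℕ} (B : II4bSub n k) : II4bAct 1 B = B := by
  apply Subtype.ext
  rw [II4bAct_val]
  ext x
  rw [Finset.mem_map_equiv]
  exact Iff.rfl

private lemma II4bAct_mul {n k : ℕ} (σ τ : Equiv.Perm (Fin n)) (B : II4bSub n k) :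
    II4bAct (σ * τ) B = II4bAct σ (II4bAct τ B) := by
  apply Subtype.ext
  rw [II4bAct_val, II4bAct_val, II4bAct_val]
  ext x
  rw [Finset.mem_map_equiv, Finset.mem_map_equiv, Finset.mem_map_equiv]
  exact Iff.rfl

/-- The representation on the functions from the `k`-subsets to a representation. -/
private noncomputable def II4bRep (n k : ℕ) {W : Type*} [AddCommGroup W] [Module ℂ W]
    (ρ : Representation ℂ (Equiv.Perm (Fin n)) W) :
    Representation ℂ (Equiv.Perm (Fin n)) (II4bSub n k → W) where
  toFun σ :=
    { toFun := fun F B => ρ σ (F (II4bAct σ⁻¹ B))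
      map_add' := fun F G => by
        funext B
        simp
      map_smul' := fun c F => by
        funext B
        simp }
  map_one' := by
    ext F B
    simp [II4bAct_one]
  map_mul' σ τ := by
    apply LinearMap.ext
    intro F
    funext B
    simp [II4bAct_mul]

private lemma II4bRep_apply (n k : ℕ) {W : Type*} [AddCommGroup W] [Module ℂ W]
    (ρ : Representation ℂ (Equiv.Perm (Fin n)) W) (σ : Equiv.Perm (Fin n))
    (F : II4bSub n k → W) (B : II4bSub n k) :
    II4bRep n k ρ σ F B = ρ σ (F (II4bAct σ⁻¹ B)) := rfl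

private lemma II4b_trace (n k : ℕ) {W : Type*} [AddCommGroup W] [Module ℂ W]
    [FiniteDimensional ℂ W] (ρ : Representation ℂ (Equiv.Perm (Fin n)) W)
    (σ : Equiv.Perm (Fin n)) :
    LinearMap.trace ℂ (II4bSub n k → W) (II4bRep n k ρ σ) =
      LinearMap.trace ℂ W (ρ σ) *
        ((univ.filter fun B : II4bSub n k => II4bAct σ B = B).card : ℂ) := by
  classical
  have hdiag : ∀ (B : II4bSub n k) (i : Fin (Module.finrank ℂ W)),
      (Pi.basis (fun _ : II4bSub n k => Module.finBasis ℂ W)).repr
        (II4bRep n k ρ σ ((Pi.basis (fun _ : II4bSub n k => Module.finBasis ℂ W)) ⟨B, i⟩))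
          ⟨B, i⟩ =
        if II4bAct σ B = B then
          (Module.finBasis ℂ W).repr (ρ σ (Module.finBasis ℂ W i)) i else 0 := by
    intro B i
    rw [Pi.basis_repr, Pi.basis_apply, II4bRep_apply]
    by_cases h : II4bAct σ B = B
    · have h' : II4bAct σ⁻¹ B = B := by
        conv_lhs => rw [← h]
        rw [← II4bAct_mul, inv_mul_cancel, II4bAct_one]
      rw [if_pos h, h', Pi.single_eq_same]
    · have h' : II4bAct σ⁻¹ B ≠ B := by
        intro h2
        apply h
        conv_lhs => rw [← h2]
        rw [← II4bAct_mul, mul_inv_cancel, II4bAct_one]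
      rw [if_neg h, Pi.single_eq_of_ne h']
      simp
  rw [LinearMap.trace_eq_matrix_trace ℂ
      (Pi.basis (fun _ : II4bSub n k => Module.finBasis ℂ W)),
    LinearMap.trace_eq_matrix_trace ℂ (Module.finBasis ℂ W)]
  unfold Matrix.trace
  rw [Fintype.sum_sigma]
  simp only [Matrix.diag_apply, LinearMap.toMatrix_apply]
  rw [Finset.sum_congr rfl fun B _ => Finset.sum_congr rfl fun i _ => hdiag B i]
  rw [Finset.card_filter, Nat.cast_sum, Finset.mul_sum]
  refine Finset.sum_congr rfl fun B _ => ?_
  by_cases h : II4bAct σ B = B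
  · simp [h]
  · simp [h]

/-- The words with content `(n-k, k, 0, …)` are the `k`-subsets. -/
private lemma II4b_perm {n l : ℕ} (hl : 2 ≤ l) {k : ℕ} (hk : k ≤ n)
    (σ : Equiv.Perm (Fin n)) :
    permChar (twoRow l ((n : ℤ) - k) (k : ℤ)) σ =
      ((univ.filter fun B : II4bSub n k => II4bAct σ B = B).card : ℤ) := by
  classical
  unfold permChar
  congr 1
  have hone : ∀ f : Fin n → Fin l, (∀ j, content f j = twoRow l ((n : ℤ) - k) (k : ℤ) j) →
      (univ.filter fun i => f i = (⟨1, hl⟩ : Fin l)).card = k := by
    intro f hf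
    have h := hf ⟨1, hl⟩
    simp only [content, twoRow] at h
    simpa using h
  have htwo : ∀ f : Fin n → Fin l, (∀ j, content f j = twoRow l ((n : ℤ) - k) (k : ℤ) j) →
      ∀ i, f i ≠ (⟨1, hl⟩ : Fin l) → f i = (⟨0, by omega⟩ : Fin l) := by
    intro f hf i hi
    by_contra h0
    have h := hf (f i)
    have h1 : (f i : ℕ) ≠ 1 := fun e => hi (Fin.ext e)
    have h2 : (f i : ℕ) ≠ 0 := fun e => h0 (Fin.ext e)
    simp only [content, twoRow, h1, h2, if_false] at h
    have h3 : (univ.filter fun i' => f i' = f i) = ∅ := by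
      rw [← Finset.card_eq_zero]
      exact_mod_cast h
    have h4 : i ∈ (univ.filter fun i' => f i' = f i) := by simp
    rw [h3] at h4
    simp at h4
  refine Finset.card_bij
    (fun f hf => (⟨univ.filter fun i => f i = (⟨1, hl⟩ : Fin l),
      hone f (Finset.mem_filter.1 hf).2.2⟩ : II4bSub n k)) ?_ ?_ ?_
  · intro f hf
    rw [Finset.mem_filter] at hf ⊢
    refine ⟨Finset.mem_univ _, ?_⟩
    apply Subtype.ext
    rw [II4bAct_val]
    ext x
    rw [Finset.mem_map_equiv]
    simp only [Finset.mem_filter, Finset.mem_univ, true_and]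
    have h := hf.2.1 (σ.symm x)
    rw [Equiv.apply_symm_apply] at h
    rw [h]
  · intro f hf g hg h
    rw [Finset.mem_filter] at hf hg
    have h' := congrArg Subtype.val h
    simp only at h'
    funext i
    have hi : f i = (⟨1, hl⟩ : Fin l) ↔ g i = (⟨1, hl⟩ : Fin l) := by
      have := Finset.ext_iff.1 h' i
      simpa using this
    by_cases h1 : f i = (⟨1, hl⟩ : Fin l)
    · rw [h1, hi.1 h1]
    · rw [htwo f hf.2.2 i h1, htwo g hg.2.2 i (fun e => h1 (hi.2 e))]
  · intro B hB
    rw [Finset.mem_filter] at hB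
    have hne : (⟨0, by omega⟩ : Fin l) ≠ ⟨1, hl⟩ := by
      intro h
      have := congrArg Fin.val h
      simp at this
    refine ⟨fun i => if i ∈ B.1 then ⟨1, hl⟩ else ⟨0, by omega⟩, ?_, ?_⟩
    · rw [Finset.mem_filter]
      refine ⟨Finset.mem_univ _, ?_, ?_⟩
      · intro i
        have h : σ i ∈ B.1 ↔ i ∈ B.1 := by
          have h2 : (II4bAct σ B).1 = B.1 := congrArg Subtype.val hB.2
          rw [II4bAct_val] at h2
          conv_lhs => rw [← h2]
          rw [Finset.mem_map_equiv, Equiv.symm_apply_apply]
        simp only [h]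
      · intro j
        unfold content twoRow
        by_cases h0 : (j : ℕ) = 0
        · have hj : j = (⟨0, by omega⟩ : Fin l) := Fin.ext h0
          rw [if_pos h0]
          have h5 : (univ.filter fun i => (if i ∈ B.1 then (⟨1, hl⟩ : Fin l) else ⟨0, by omega⟩)
              = j) = univ \ B.1 := by
            ext i
            simp only [Finset.mem_filter, Finset.mem_univ, true_and, Finset.mem_sdiff]
            by_cases hi : i ∈ B.1
            · simp only [hi, if_true, not_true]
              rw [hj]
              exact ⟨fun e => hne e.symm, fun e => e.elim⟩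
            · simp [hi, hj]
          rw [h5, Finset.card_sdiff_of_subset (Finset.subset_univ _), Finset.card_univ,
            Fintype.card_fin, B.2]
          push_cast [Nat.cast_sub hk]
          ring
        · rw [if_neg h0]
          by_cases h1 : (j : ℕ) = 1
          · have hj : j = (⟨1, hl⟩ : Fin l) := Fin.ext h1
            rw [if_pos h1]
            have h5 : (univ.filter fun i => (if i ∈ B.1 then (⟨1, hl⟩ : Fin l)
                else ⟨0, by omega⟩) = j) = B.1 := by
              ext i
              simp only [Finset.mem_filter, Finset.mem_univ, true_and]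
              by_cases hi : i ∈ B.1
              · simp [hi, hj]
              · simp only [hi, if_false, iff_false]
                rw [hj]
                exact hne
            rw [h5, B.2]
          · rw [if_neg h1]
            have h5 : (univ.filter fun i => (if i ∈ B.1 then (⟨1, hl⟩ : Fin l)
                else ⟨0, by omega⟩) = j) = ∅ := by
              rw [Finset.filter_eq_empty_iff]
              intro i _ he
              by_cases hi : i ∈ B.1
              · rw [if_pos hi] at he
                exact h1 (congrArg Fin.val he).symm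
              · rw [if_neg hi] at he
                exact h0 (congrArg Fin.val he).symm
            rw [h5]
            simp
    · apply Subtype.ext
      ext i
      simp only [Finset.mem_filter, Finset.mem_univ, true_and]
      by_cases hi : i ∈ B.1
      · simp [hi]
      · simp only [hi, if_false, iff_false]
        exact hne

/-- Extension by zero to all subsets. -/
private noncomputable def II4bExt {n k : ℕ} {W : Type*} [AddCommGroup W]
    (F : II4bSub n k → W) (A : Finset (Fin n)) : W :=
  if h : A.card = k then F ⟨A, h⟩ else 0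

/-- The up operator. -/
private noncomputable def II4bUpL (n k : ℕ) {W : Type*} [AddCommGroup W] [Module ℂ W] :
    (II4bSub n k → W) →ₗ[ℂ] (II4bSub n (k + 1) → W) where
  toFun F B := ∑ x ∈ B.1, II4bExt F (B.1.erase x)
  map_add' F G := by
    funext B
    simp only [Pi.add_apply]
    rw [← Finset.sum_add_distrib]
    refine Finset.sum_congr rfl fun x _ => ?_
    unfold II4bExt
    split_ifs <;> simp
  map_smul' c F := by
    funext B
    simp only [Pi.smul_apply, RingHom.id_apply]
    rw [Finset.smul_sum]
    refine Finset.sum_congr rfl fun x _ => ?_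
    unfold II4bExt
    split_ifs <;> simp

private lemma II4bUpL_apply {n k : ℕ} {W : Type*} [AddCommGroup W] [Module ℂ W]
    (F : II4bSub n k → W) (B : II4bSub n (k + 1)) :
    II4bUpL n k F B = ∑ x ∈ B.1, II4bExt F (B.1.erase x) := rfl

private lemma II4bUpL_inj {n k : ℕ} (hk : 2 * k < n) {W : Type*} [AddCommGroup W]
    [Module ℂ W] (F : II4bSub n k → W) (hF : II4bUpL n k F = 0) : F = 0 := by
  have h := up_injective (α := Fin n) (E := W) (p := k) (by rw [Fintype.card_fin]; exact hk)
    (II4bExt F) (by
      intro B hB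
      have := congrFun hF ⟨B, hB⟩
      rw [II4bUpL_apply] at this
      exact this)
  funext A
  have h2 := h A.1 A.2
  unfold II4bExt at h2
  rw [dif_pos A.2] at h2
  exact h2

private lemma II4bUpL_rep {n k : ℕ} {W : Type*} [AddCommGroup W] [Module ℂ W]
    (ρ : Representation ℂ (Equiv.Perm (Fin n)) W) (σ : Equiv.Perm (Fin n))
    (F : II4bSub n k → W) :
    II4bUpL n k (II4bRep n k ρ σ F) = II4bRep n (k + 1) ρ σ (II4bUpL n k F) := by
  funext B
  rw [II4bUpL_apply, II4bRep_apply, II4bUpL_apply, map_sum, II4bAct_val, Finset.sum_map]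
  refine Finset.sum_congr rfl fun x hx => ?_
  have hc : (B.1.erase x).card = k := by rw [Finset.card_erase_of_mem hx, B.2]; rfl
  have he : ((B.1.map (σ⁻¹).toEmbedding).erase ((σ⁻¹).toEmbedding x)) =
      (B.1.erase x).map (σ⁻¹).toEmbedding := by
    rw [Finset.map_erase]
  have hc2 : ((B.1.map (σ⁻¹).toEmbedding).erase ((σ⁻¹).toEmbedding x)).card = k := by
    rw [he, Finset.card_map, hc]
  unfold II4bExt
  rw [dif_pos hc, dif_pos hc2, II4bRep_apply]
  congr 2
  apply Subtype.ext
  rw [II4bAct_val]
  exact he.symm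

private lemma II4b_mono {n k : ℕ} (hk : 2 * k < n) {W : Type*} [AddCommGroup W]
    [Module ℂ W] [FiniteDimensional ℂ W] (ρ : Representation ℂ (Equiv.Perm (Fin n)) W) :
    Module.finrank ℂ (Representation.invariants (II4bRep n k ρ)) ≤
      Module.finrank ℂ (Representation.invariants (II4bRep n (k + 1) ρ)) := by
  let φ : Representation.invariants (II4bRep n k ρ) →ₗ[ℂ]
      Representation.invariants (II4bRep n (k + 1) ρ) :=
    LinearMap.restrict (II4bUpL n k) (fun F hF σ => by
      rw [← II4bUpL_rep, hF σ])
  refine LinearMap.finrank_le_finrank_of_injective (f := φ) ?_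
  rw [← LinearMap.ker_eq_bot, LinearMap.ker_eq_bot']
  intro F hF
  apply Subtype.ext
  exact II4bUpL_inj hk F.1 (congrArg Subtype.val hF)

private lemma II4b_sum {n l : ℕ} (hl : 2 ≤ l) {k : ℕ} (hk : k ≤ n)
    (V : FDRep ℂ (Equiv.Perm (Fin n))) :
    ∑ σ : Equiv.Perm (Fin n), V.character σ *
      (permChar (twoRow l ((n : ℤ) - k) (k : ℤ)) σ : ℂ) =
      (n.factorial : ℂ) *
        (Module.finrank ℂ (Representation.invariants (II4bRep n k V.ρ)) : ℂ) := by
  classical
  have hne : (n.factorial : ℂ) ≠ 0 := by exact_mod_cast n.factorial_ne_zero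
  have hcard : (Nat.card (Equiv.Perm (Fin n)) : ℂ) = (n.factorial : ℂ) := by
    rw [Nat.card_eq_fintype_card, Fintype.card_perm, Fintype.card_fin]
  have : Invertible (Nat.card (Equiv.Perm (Fin n)) : ℂ) :=
    invertibleOfNonzero (by rw [hcard]; exact hne)
  have h := Representation.card_inv_mul_sum_char_eq_finrank (II4bRep n k V.ρ)
  rw [← h, hcard, mul_inv_cancel_left₀ hne]
  refine Finset.sum_congr rfl fun σ _ => ?_
  unfold Representation.character
  rw [II4b_trace, II4b_perm hl hk σ]
  push_cast
  rfl

theorem mult_mono {n l : ℕ} (hl : 2 ≤ l) {m : ℕ} (hm : 2 * m ≤ n)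
    (V : FDRep ℂ (Equiv.Perm (Fin n))) :
    ∃ r : ℕ, ∑ σ : Equiv.Perm (Fin n), V.character σ *
      ((permChar (twoRow l ((n : ℤ) - m) (m : ℤ)) σ : ℂ) -
        (permChar (twoRow l ((n : ℤ) - m + 1) ((m : ℤ) - 1)) σ : ℂ)) =
      (n.factorial : ℂ) * (r : ℂ) := by
  classical
  have hs := II4b_sum hl (k := m) (by omega) V
  rcases m with _ | m
  · refine ⟨Module.finrank ℂ (Representation.invariants (II4bRep n 0 V.ρ)), ?_⟩
    rw [← hs]
    refine Finset.sum_congr rfl fun σ _ => ?_
    have h0 : permChar (twoRow l ((n : ℤ) - ((0 : ℕ) : ℤ) + 1) (((0 : ℕ) : ℤ) - 1)) σ = 0 := by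
      unfold permChar
      rw [Nat.cast_eq_zero, Finset.card_eq_zero, Finset.filter_eq_empty_iff]
      rintro f _ ⟨_, hf⟩
      have h := hf ⟨1, hl⟩
      simp only [content, twoRow] at h
      simp at h
    rw [h0]
    simp
  · have hs2 := II4b_sum hl (k := m) (by omega) V
    have hle := II4b_mono (n := n) (k := m) (by omega) V.ρ
    refine ⟨Module.finrank ℂ (Representation.invariants (II4bRep n (m + 1) V.ρ)) -
      Module.finrank ℂ (Representation.invariants (II4bRep n m V.ρ)), ?_⟩
    rw [Nat.cast_sub hle, mul_sub, ← hs, ← hs2, ← Finset.sum_sub_distrib]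
    refine Finset.sum_congr rfl fun σ _ => ?_
    have e1 : (n : ℤ) - ((m + 1 : ℕ) : ℤ) + 1 = (n : ℤ) - m := by push_cast; ring
    have e2 : ((m + 1 : ℕ) : ℤ) - 1 = (m : ℤ) := by push_cast; ring
    rw [e1, e2]
    ring

end H73TR
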