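import Pool.Agent.Lib.H73TR.II3
import Pool.Agent.Lib.H73TR.II4b
import Pool.Agent.Lib.H73TR.I12

/-!
# II5 (S/M): monotonicity of the number of chains

`kron n lam mu (n-m, m) ≥ 0` for `2m ≤ n`: `chi lam * chi mu` is the character of `V ⊗ W`
(`chi_character`, `FDRep.char_tensor`), insert `chi_twoRow` and `mult_mono`.
With `kron_eq`, `m = n - j`: `chainCount lam mu (j+1) ≤ chainCount lam mu j` for `n ≤ 2j`, `j ≤ n`.
For `j > n` (and for `j = n` in `j + 1`) `chainCount lam mu (j+1) = 0`: the row `x^0` of a solution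
is `≤ lam`, its sum is `≤ n`.
-/

namespace H73TR

open Finset

private lemma II5_le {l : ℕ} {lam mu : Fin l → ℕ} {p : ℤ} {x : Fin l → Fin l → ℤ}
    (hx : IsChain (fun i => (lam i : ℤ)) (fun i => (mu i : ℤ)) p x) :
    p ≤ ∑ i, (lam i : ℤ) := by
  set a' : Fin l → ℤ := fun i => (lam i : ℤ) with ha'
  have hrow : ∀ ρ : Row l, 0 ≤ ρ.gap a' (fun i => (mu i : ℤ)) p x := hx
  have hle : ∀ k, k < l → ∀ i, i < l → ext a' x k i ≤ ext a' x (k + 1) i := by
    intro k hk i hi
    have h2 : (0 : ℤ) ≤ ext a' x (k + 1) i - ext a' x k i := hrow (Row.le ⟨k, hk⟩ ⟨i, hi⟩)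
    linarith
  have hlast : ∀ i (hi : i < l), ext a' x l i = a' ⟨i, hi⟩ := by
    intro i hi
    unfold ext
    rw [dif_pos hi, dif_neg (lt_irrefl l)]
  have hup : ∀ d k, k + d = l → ∀ i (hi : i < l), ext a' x k i ≤ a' ⟨i, hi⟩ := by
    intro d
    induction d with
    | zero =>
      intro k hk i hi
      have : k = l := by omega
      subst this
      rw [hlast i hi]
    | succ d ih =>
      intro k hk i hi
      exact (hle k (by omega) i hi).trans (ih (k + 1) (by omega) i hi)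
  have h3 : (0 : ℤ) ≤ (∑ i ∈ range l, ext a' x 0 i) - p := hrow Row.sizeGe
  have h4 : ∑ i ∈ range l, ext a' x 0 i ≤ ∑ i, (lam i : ℤ) := by
    rw [Finset.sum_range]
    exact sum_le_sum fun i _ => hup l 0 (by omega) i i.2
  linarith

theorem kron_twoRow_nonneg {n l : ℕ} (hl : 2 ≤ l) {m : ℕ} (hm : 2 * m ≤ n)
    {lam mu : Fin l → ℕ} (hlam : Antitone lam) (hmu : Antitone mu) (hn : ∑ i, lam i = n)
    (hn' : ∑ i, mu i = n) : 0 ≤ kron n lam mu (twoRow l (n - m) m) := by
  obtain ⟨V, hV⟩ := chi_character hlam hn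
  obtain ⟨W, hW⟩ := chi_character hmu hn'
  obtain ⟨r, hr⟩ := mult_mono hl hm (CategoryTheory.MonoidalCategoryStruct.tensorObj V W)
  have h1 : ∑ σ : Equiv.Perm (Fin n), ((chi lam σ * chi mu σ * chi (twoRow l (n - m) m) σ : ℤ) : ℂ)
      = (n.factorial : ℂ) * (r : ℂ) := by
    rw [← hr]
    apply sum_congr rfl
    intro σ _
    rw [FDRep.char_tensor, Pi.mul_apply, hV, hW, chi_twoRow hl (by omega) σ]
    push_cast
    ring
  have h2 : ∑ σ : Equiv.Perm (Fin n), (chi lam σ * chi mu σ * chi (twoRow l (n - m) m) σ : ℤ)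
      = (n.factorial : ℤ) * (r : ℤ) := by
    exact_mod_cast h1
  unfold kron
  have h3 : ∑ σ : Equiv.Perm (Fin n),
      ((chi lam σ * chi mu σ * chi (twoRow l (n - m) m) σ : ℤ) : ℚ)
      = (n.factorial : ℚ) * (r : ℚ) := by
    exact_mod_cast h2
  rw [h3]
  positivity

theorem chainCount_mono {n l : ℕ} (hl : 2 ≤ l) {lam mu : Fin l → ℕ} (hlam : Antitone lam)
    (hmu : Antitone mu) (hn : ∑ i, lam i = n) (hn' : ∑ i, mu i = n) {j : ℤ}
    (hj : (n : ℤ) ≤ 2 * j) : chainCount lam mu (j + 1) ≤ chainCount lam mu j := by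
  rcases le_or_gt j (n : ℤ) with h | h
  · obtain ⟨m, hm⟩ : ∃ m : ℕ, (m : ℤ) = (n : ℤ) - j := ⟨((n : ℤ) - j).toNat, by omega⟩
    have h1 := kron_twoRow_nonneg hl (m := m) (by omega) hlam hmu hn hn'
    rw [kron_eq hl (by omega) hlam hmu hn] at h1
    have h2 : (n : ℤ) - m = j := by omega
    rw [h2] at h1
    have h3 : (chainCount lam mu (j + 1) : ℚ) ≤ (chainCount lam mu j : ℚ) := by linarith
    exact_mod_cast h3
  · have h1 : chainCount lam mu (j + 1) = 0 := by
      unfold chainCount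
      rw [Nat.card_eq_zero]
      left
      refine ⟨fun x => ?_⟩
      have h2 := II5_le x.2
      have h3 : (∑ i, (lam i : ℤ)) = n := by exact_mod_cast hn
      omega
    rw [h1]
    exact Nat.zero_le _

end H73TR
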