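import Pool.Agent.Lib.H73TR.Defs4

/-!
# III1 (M): the rows are linear

`ext a x k i` is additive and homogeneous in `(a, x)` and commutes with ring homomorphisms, so
`gap` is linear in `(a, b, s, x)` and commutes with ring homomorphisms.  Write
`(a, b, s, x) = (a, b, 0, 0) + s (0, 0, 1, 0) + ∑_p x_p (0, 0, 0, E_p)`.
-/

namespace H73TR

open Finset

variable {l : ℕ}

private theorem III1_ext_add {R : Type*} [CommRing R] (a a' : Fin l → R)
    (x x' : Fin l → Fin l → R) (k i : ℕ) :
    ext (fun j => a j + a' j) (fun m j => x m j + x' m j) k i =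
      ext a x k i + ext a' x' k i := by
  unfold ext
  split_ifs
  · rfl
  · rfl
  · rw [add_zero]

private theorem III1_ext_mul {R : Type*} [CommRing R] (c : R) (a : Fin l → R)
    (x : Fin l → Fin l → R) (k i : ℕ) :
    ext (fun j => c * a j) (fun m j => c * x m j) k i = c * ext a x k i := by
  unfold ext
  split_ifs
  · rfl
  · rfl
  · rw [mul_zero]

private theorem III1_ext_map {R S : Type*} [CommRing R] [CommRing S] (f : R →+* S)
    (a : Fin l → R) (x : Fin l → Fin l → R) (k i : ℕ) :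
    ext (fun j => f (a j)) (fun m j => f (x m j)) k i = f (ext a x k i) := by
  unfold ext
  split_ifs
  · rfl
  · rfl
  · rw [map_zero]

private theorem III1_gap_add {R : Type*} [CommRing R] (ρ : Row l) (a a' b b' : Fin l → R)
    (s s' : R) (x x' : Fin l → Fin l → R) :
    ρ.gap (fun j => a j + a' j) (fun j => b j + b' j) (s + s') (fun m j => x m j + x' m j) =
      ρ.gap a b s x + ρ.gap a' b' s' x' := by
  cases ρ with
  | sizeLe =>
    simp only [Row.gap, III1_ext_add, Finset.sum_add_distrib]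
    ring
  | sizeGe =>
    simp only [Row.gap, III1_ext_add, Finset.sum_add_distrib]
    ring
  | le k i =>
    simp only [Row.gap, III1_ext_add]
    ring
  | inter k i =>
    simp only [Row.gap, III1_ext_add]
    ring
  | wtLe k =>
    simp only [Row.gap, III1_ext_add, Finset.sum_add_distrib, Finset.sum_sub_distrib]
    ring
  | wtGe k =>
    simp only [Row.gap, III1_ext_add, Finset.sum_add_distrib, Finset.sum_sub_distrib]
    ring
  | dom k i =>
    simp only [Row.gap, III1_ext_add, Finset.sum_add_distrib, Finset.sum_sub_distrib]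
    split_ifs
    · ring
    · rw [add_zero]

private theorem III1_gap_mul {R : Type*} [CommRing R] (ρ : Row l) (c : R) (a b : Fin l → R)
    (s : R) (x : Fin l → Fin l → R) :
    ρ.gap (fun j => c * a j) (fun j => c * b j) (c * s) (fun m j => c * x m j) =
      c * ρ.gap a b s x := by
  cases ρ with
  | sizeLe =>
    simp only [Row.gap, III1_ext_mul, ← Finset.mul_sum]
    ring
  | sizeGe =>
    simp only [Row.gap, III1_ext_mul, ← Finset.mul_sum]
    ring
  | le k i =>
    simp only [Row.gap, III1_ext_mul]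
    ring
  | inter k i =>
    simp only [Row.gap, III1_ext_mul]
    ring
  | wtLe k =>
    simp only [Row.gap, III1_ext_mul, Finset.sum_sub_distrib, ← Finset.mul_sum]
    ring
  | wtGe k =>
    simp only [Row.gap, III1_ext_mul, Finset.sum_sub_distrib, ← Finset.mul_sum]
    ring
  | dom k i =>
    simp only [Row.gap, III1_ext_mul, Finset.sum_sub_distrib, ← Finset.mul_sum]
    split_ifs
    · ring
    · rw [mul_zero]

private theorem III1_gap_map {R S : Type*} [CommRing R] [CommRing S] (f : R →+* S) (ρ : Row l)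
    (a b : Fin l → R) (s : R) (x : Fin l → Fin l → R) :
    ρ.gap (fun j => f (a j)) (fun j => f (b j)) (f s) (fun m j => f (x m j)) =
      f (ρ.gap a b s x) := by
  cases ρ with
  | sizeLe => simp only [Row.gap, III1_ext_map, map_sub, map_sum]
  | sizeGe => simp only [Row.gap, III1_ext_map, map_sub, map_sum]
  | le k i => simp only [Row.gap, III1_ext_map, map_sub]
  | inter k i => simp only [Row.gap, III1_ext_map, map_sub]
  | wtLe k => simp only [Row.gap, III1_ext_map, map_sub, map_sum]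
  | wtGe k => simp only [Row.gap, III1_ext_map, map_sub, map_sum]
  | dom k i =>
    simp only [Row.gap, III1_ext_map]
    split_ifs
    · simp only [map_sub, map_add, map_sum]
    · rw [map_zero]

private theorem III1_gap_zero {R : Type*} [CommRing R] (ρ : Row l) :
    ρ.gap (fun _ => (0 : R)) (fun _ => 0) 0 (fun _ _ => 0) = 0 := by
  have h := III1_gap_add ρ (fun _ => (0 : R)) (fun _ => 0) (fun _ => 0) (fun _ => 0) 0 0
    (fun _ _ => 0) (fun _ _ => 0)
  simp only [add_zero] at h
  linear_combination -h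

private theorem III1_gap_sum {R ι : Type*} [CommRing R] [DecidableEq ι] (ρ : Row l)
    (T : Finset ι) (y : ι → Fin l → Fin l → R) :
    ρ.gap (fun _ => (0 : R)) (fun _ => 0) 0 (fun m j => ∑ p ∈ T, y p m j) =
      ∑ p ∈ T, ρ.gap (fun _ => (0 : R)) (fun _ => 0) 0 (y p) := by
  induction T using Finset.induction_on with
  | empty =>
    simp only [Finset.sum_empty]
    exact III1_gap_zero ρ
  | insert q T hq ih =>
    have h := III1_gap_add ρ (fun _ => (0 : R)) (fun _ => 0) (fun _ => 0) (fun _ => 0) 0 0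
      (y q) (fun m j => ∑ p ∈ T, y p m j)
    simp only [add_zero] at h
    rw [Finset.sum_insert hq, ← ih, ← h]
    simp only [Finset.sum_insert hq]

private theorem III1_gap_gen {R : Type*} [CommRing R] (ρ : Row l) (a b : Fin l → R) (s : R)
    (x : Fin l → Fin l → R) :
    ρ.gap a b s x = ρ.gap a b 0 (fun _ _ => 0) +
      s * ρ.gap (fun _ => (0 : R)) (fun _ => 0) 1 (fun _ _ => 0) -
      ∑ p : Fin l × Fin l, (ρ.coef p : R) * x p.1 p.2 := by
  have h1 := III1_gap_add ρ a (fun _ => (0 : R)) b (fun _ => 0) 0 s (fun _ _ => 0) x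
  simp only [add_zero, zero_add] at h1
  have h2 := III1_gap_add ρ (fun _ => (0 : R)) (fun _ => 0) (fun _ => 0) (fun _ => 0) s 0
    (fun _ _ => 0) x
  simp only [add_zero, zero_add] at h2
  have h3 := III1_gap_mul ρ s (fun _ => (0 : R)) (fun _ => 0) 1 (fun _ _ => 0)
  simp only [mul_zero, mul_one] at h3
  have h4 : x = fun m j => ∑ p : Fin l × Fin l, x p.1 p.2 * (if (m, j) = p then 1 else 0) := by
    funext m j
    simp only [mul_ite, mul_one, mul_zero, Finset.sum_ite_eq, Finset.mem_univ, if_true]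
  have h5 : ρ.gap (fun _ => (0 : R)) (fun _ => 0) 0 x =
      ∑ p : Fin l × Fin l, x p.1 p.2 *
        ρ.gap (fun _ => (0 : R)) (fun _ => 0) 0 (fun m j => if (m, j) = p then 1 else 0) := by
    have e := III1_gap_sum ρ Finset.univ
      (fun (p : Fin l × Fin l) m j => x p.1 p.2 * (if (m, j) = p then (1 : R) else 0))
    rw [← h4] at e
    rw [e]
    refine Finset.sum_congr rfl fun p _ => ?_
    have e2 := III1_gap_mul ρ (x p.1 p.2) (fun _ => (0 : R)) (fun _ => 0) 0
      (fun m j => if (m, j) = p then (1 : R) else 0)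
    simp only [mul_zero] at e2
    exact e2
  have h6 : ∀ p : Fin l × Fin l,
      ρ.gap (fun _ => (0 : R)) (fun _ => 0) 0 (fun m j => if (m, j) = p then 1 else 0) =
        -(ρ.coef p : R) := by
    intro p
    have e := III1_gap_map (Int.castRingHom R) ρ (fun _ => (0 : ℤ)) (fun _ => 0) 0
      (fun m j => if (m, j) = p then (1 : ℤ) else 0)
    have e3 : (fun m j => (Int.castRingHom R) (if (m, j) = p then (1 : ℤ) else 0)) =
        fun (m j : Fin l) => if (m, j) = p then (1 : R) else 0 := by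
      funext m j
      split_ifs
      · exact map_one _
      · exact map_zero _
    rw [e3] at e
    simp only [map_zero] at e
    rw [e]
    unfold Row.coef
    rw [Int.cast_neg, neg_neg]
    rfl
  rw [h1, h2, h3, h5]
  simp only [h6]
  have h7 : ∑ p : Fin l × Fin l, x p.1 p.2 * -(ρ.coef p : R) =
      -∑ p : Fin l × Fin l, (ρ.coef p : R) * x p.1 p.2 := by
    rw [← Finset.sum_neg_distrib]
    exact Finset.sum_congr rfl fun p _ => by ring
  rw [h7]
  ring

theorem gap_real (ρ : Row l) (a b : Fin l → ℚ) (s : ℝ) (x : Fin l → Fin l → ℝ) :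
    ρ.gap (fun i => (a i : ℝ)) (fun i => (b i : ℝ)) s x =
      (((sysOf a b).b ρ : ℚ) : ℝ) + s * (((sysOf a b).c ρ : ℚ) : ℝ) -
        ∑ p : Fin l × Fin l, (ρ.coef p : ℝ) * x p.1 p.2 := by
  have h1 : ρ.gap (fun i => (a i : ℝ)) (fun i => (b i : ℝ)) 0 (fun _ _ => 0) =
      ((ρ.gap a b 0 (fun _ _ => 0) : ℚ) : ℝ) := by
    have e := III1_gap_map (Rat.castHom ℝ) ρ a b 0 (fun _ _ => 0)
    simp only [map_zero] at e
    exact e
  have h2 : ρ.gap (fun _ => (0 : ℝ)) (fun _ => 0) 1 (fun _ _ => 0) =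
      ((ρ.gap (fun _ => (0 : ℚ)) (fun _ => 0) 1 (fun _ _ => 0) : ℚ) : ℝ) := by
    have e := III1_gap_map (Rat.castHom ℝ) ρ (fun _ => (0 : ℚ)) (fun _ => 0) 1 (fun _ _ => 0)
    simp only [map_zero, map_one] at e
    exact e
  rw [III1_gap_gen, h1, h2]
  rfl

theorem gap_int (ρ : Row l) (a b : Fin l → ℚ) {k : ℕ} {lam mu : Fin l → ℕ}
    (hlam : ∀ i, (lam i : ℚ) = k * a i) (hmu : ∀ i, (mu i : ℚ) = k * b i) (j : ℤ)
    (x : Fin l → Fin l → ℤ) :
    ((ρ.gap (fun i => (lam i : ℤ)) (fun i => (mu i : ℤ)) j x : ℤ) : ℚ) =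
      (k : ℚ) * (sysOf a b).b ρ + (j : ℚ) * (sysOf a b).c ρ -
        ((∑ p : Fin l × Fin l, ρ.coef p * x p.1 p.2 : ℤ) : ℚ) := by
  have h0 := III1_gap_map (Int.castRingHom ℚ) ρ (fun i => (lam i : ℤ)) (fun i => (mu i : ℤ)) j x
  have e1 : (fun i => (Int.castRingHom ℚ) ((lam i : ℤ))) = fun i => (k : ℚ) * a i := by
    funext i
    rw [← hlam i]
    simp
  have e2 : (fun i => (Int.castRingHom ℚ) ((mu i : ℤ))) = fun i => (k : ℚ) * b i := by
    funext i
    rw [← hmu i]
    simp
  rw [e1, e2] at h0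
  have h1 := III1_gap_mul ρ (k : ℚ) a b 0 (fun _ _ => 0)
  simp only [mul_zero] at h1
  have h2 := III1_gap_gen ρ (fun i => (k : ℚ) * a i) (fun i => (k : ℚ) * b i)
    ((Int.castRingHom ℚ) j) (fun m i => (Int.castRingHom ℚ) (x m i))
  rw [h0, h1] at h2
  have h3 : ((∑ p : Fin l × Fin l, ρ.coef p * x p.1 p.2 : ℤ) : ℚ) =
      ∑ p : Fin l × Fin l, (ρ.coef p : ℚ) * ((Int.castRingHom ℚ) (x p.1 p.2)) := by
    push_cast
    rfl
  rw [h3]
  exact h2

theorem lin_eq (ρ : Row l) (x : Fin l → Fin l → ℝ) :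
    ρ.lin x = ∑ p : Fin l × Fin l, (ρ.coef p : ℝ) * x p.1 p.2 := by
  unfold Row.lin
  rw [III1_gap_gen, III1_gap_zero]
  ring

end H73TR
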