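import Pool.Agent.Lib.H73TR.III1

/-!
# III2 (S/M): slices and lattice points of the chain system

`IsChain` says that all gaps are nonnegative; use `gap_real` and `gap_int`, and the bijection
`(Fin l → Fin l → ℤ) ≃ (Fin l × Fin l → ℤ)` (currying).
-/

namespace H73TR

open Finset

variable {l : ℕ}

theorem mem_slice_iff (a b : Fin l → ℚ) (s : ℝ) (x : Fin l → Fin l → ℝ) :
    x ∈ Slice a b s ↔ (fun p : Fin l × Fin l => x p.1 p.2) ∈ (sysOf a b).P s := by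
  change (∀ ρ : Row l, 0 ≤ ρ.gap (fun i => (a i : ℝ)) (fun i => (b i : ℝ)) s x) ↔
    ∀ ρ : Row l, ∑ p : Fin l × Fin l, (ρ.coef p : ℝ) * x p.1 p.2 ≤
      (((sysOf a b).b ρ : ℚ) : ℝ) + s * (((sysOf a b).c ρ : ℚ) : ℝ)
  refine forall_congr' fun ρ => ?_
  rw [gap_real, sub_nonneg]

theorem chainCount_eq_L (a b : Fin l → ℚ) {k : ℕ} {lam mu : Fin l → ℕ}
    (hlam : ∀ i, (lam i : ℚ) = k * a i) (hmu : ∀ i, (mu i : ℚ) = k * b i) (j : ℤ) :
    chainCount lam mu j = (sysOf a b).L k j := by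
  unfold chainCount Sys.L
  refine Nat.card_congr
    ((Equiv.curry (Fin l) (Fin l) ℤ).symm.subtypeEquiv fun x => ?_)
  change (∀ ρ : Row l, 0 ≤ ρ.gap (fun i => (lam i : ℤ)) (fun i => (mu i : ℤ)) j x) ↔
    ∀ ρ : Row l, ((∑ p : Fin l × Fin l, ρ.coef p * x p.1 p.2 : ℤ) : ℚ) ≤
      (k : ℚ) * (sysOf a b).b ρ + (j : ℚ) * (sysOf a b).c ρ
  refine forall_congr' fun ρ => ?_
  rw [← sub_nonneg (b := ((∑ p : Fin l × Fin l, ρ.coef p * x p.1 p.2 : ℤ) : ℚ)),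
    ← gap_int ρ a b hlam hmu j x, Int.cast_nonneg_iff]

end H73TR
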