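import Pool.Agent.Lib.H73TR.III2
import Pool.Agent.Lib.H73TR.II5

/-!
# III3 (M): the chain system satisfies the hypotheses

`q` = the least common multiple of the denominators of all `a i`, `b i`: `k a`, `k b` are integral
iff `q ∣ k`; then `lam = k a`, `mu = k b` are antitone with sum `k`.
bdd: for `x ∈ P(s)`: `0 ≤ x^0_i ≤ x^k_i ≤ a_i ≤ 1` (rows `le`, `inter` with `i = l-1`:
`x^k_(l-1) ≥ 0`, and `x^k_i ≥ x^(k+1)_(i+1) ≥ x^k_(i+1)`, so all entries are `≥ 0`), and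
`s = ∑ x^0_i` is between `0` and `∑ a_i = 1`.  (For the rows in the form of `sysOf` use
`mem_slice_iff`.)
symm, mono: `chainCount_eq_L` with `chainCount_symm`, `chainCount_mono` (`n = k`).
-/

namespace H73TR

open Finset

variable {l : ℕ}

private lemma III3_den {a : ℚ} (ha : 0 ≤ a) (k : ℕ) :
    a.den ∣ k ↔ ∃ m : ℕ, (m : ℚ) = k * a := by
  constructor
  · rintro ⟨t, rfl⟩
    refine ⟨t * a.num.toNat, ?_⟩
    have h1 : ((a.num.toNat : ℕ) : ℚ) = (a.num : ℚ) := by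
      have : ((a.num.toNat : ℕ) : ℤ) = a.num := Int.toNat_of_nonneg (Rat.num_nonneg.2 ha)
      exact_mod_cast this
    have h2 : (a.den : ℚ) * a = a.num := by
      rw [mul_comm]; exact Rat.mul_den_eq_num a
    push_cast
    rw [h1, ← h2]
    ring
  · rintro ⟨m, hm⟩
    have h2 : a * (a.den : ℚ) = a.num := Rat.mul_den_eq_num a
    have h3 : (m : ℚ) * a.den = k * a.num := by
      rw [hm, ← h2]; ring
    have h4 : (m : ℤ) * a.den = k * a.num := by exact_mod_cast h3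
    have h5 : a.den ∣ k * a.num.natAbs := by
      have h6 : ((a.den : ℕ) : ℤ) ∣ (k : ℤ) * a.num := ⟨m, by rw [← h4]; ring⟩
      have h7 := Int.natAbs_dvd_natAbs.2 h6
      rwa [Int.natAbs_mul, Int.natAbs_natCast, Int.natAbs_natCast] at h7
    exact (Nat.Coprime.dvd_of_dvd_mul_right a.reduced.symm h5)

private lemma III3_anti {a : Fin l → ℚ} (ha : Antitone a) {k : ℕ} {lam : Fin l → ℕ}
    (hlam : ∀ i, (lam i : ℚ) = k * a i) : Antitone lam := by
  intro i j hij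
  have h1 : (lam j : ℚ) ≤ (lam i : ℚ) := by
    rw [hlam, hlam]
    exact mul_le_mul_of_nonneg_left (ha hij) (Nat.cast_nonneg k)
  exact_mod_cast h1

private lemma III3_sum {a : Fin l → ℚ} (ha : ∑ i, a i = 1) {k : ℕ} {lam : Fin l → ℕ}
    (hlam : ∀ i, (lam i : ℚ) = k * a i) : ∑ i, lam i = k := by
  have h1 : ((∑ i, lam i : ℕ) : ℚ) = k := by
    push_cast
    rw [sum_congr rfl (fun i _ => hlam i), ← mul_sum, ha, mul_one]
  exact_mod_cast h1

private lemma III3_bdd {a b : Fin l → ℚ} (ha : IsDistribution a) {s : ℝ}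
    {x : Fin l → Fin l → ℝ} (hx : x ∈ Slice a b s) :
    0 ≤ s ∧ s ≤ 1 ∧ ∀ k i, |x k i| ≤ 1 := by
  set a' : Fin l → ℝ := fun i => (a i : ℝ) with ha'
  have hrow : ∀ ρ : Row l, 0 ≤ ρ.gap a' (fun i => (b i : ℝ)) s x := hx
  have ha0 : ∀ i, 0 ≤ a' i := fun i => by
    have := ha.nonneg i
    show (0 : ℝ) ≤ ((a i : ℚ) : ℝ)
    exact_mod_cast this
  have hasum : ∑ i, a' i = 1 := by
    have := ha.sum
    show ∑ i, ((a i : ℚ) : ℝ) = 1
    exact_mod_cast this
  have ha1 : ∀ i, a' i ≤ 1 := fun i => by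
    rw [← hasum]
    exact single_le_sum (fun j _ => ha0 j) (mem_univ i)
  -- rows increase
  have hle : ∀ k, k < l → ∀ i, i < l → ext a' x k i ≤ ext a' x (k + 1) i := by
    intro k hk i hi
    have h1 := hrow (Row.le ⟨k, hk⟩ ⟨i, hi⟩)
    have h2 : (0 : ℝ) ≤ ext a' x (k + 1) i - ext a' x k i := h1
    linarith
  have hint : ∀ k, k < l → ∀ i, i < l → ext a' x (k + 1) (i + 1) ≤ ext a' x k i := by
    intro k hk i hi
    have h1 := hrow (Row.inter ⟨k, hk⟩ ⟨i, hi⟩)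
    have h2 : (0 : ℝ) ≤ ext a' x k i - ext a' x (k + 1) (i + 1) := h1
    linarith
  have hlast : ∀ i (hi : i < l), ext a' x l i = a' ⟨i, hi⟩ := by
    intro i hi
    unfold ext
    rw [dif_pos hi, dif_neg (lt_irrefl l)]
  have hval : ∀ k (hk : k < l) i (hi : i < l), ext a' x k i = x ⟨k, hk⟩ ⟨i, hi⟩ := by
    intro k hk i hi
    unfold ext
    rw [dif_pos hi, dif_pos hk]
  -- upper bounds
  have hup : ∀ d k, k + d = l → ∀ i (hi : i < l), ext a' x k i ≤ a' ⟨i, hi⟩ := by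
    intro d
    induction d with
    | zero =>
      intro k hk i hi
      have : k = l := by omega
      subst this
      rw [hlast i hi]
    | succ d ih =>
      intro k hk i hi
      exact (hle k (by omega) i hi).trans (ih (k + 1) (by omega) i hi)
  -- lower bounds
  have hlow : ∀ d k, k < l → ∀ i, i + d + 1 = l → 0 ≤ ext a' x k i := by
    intro d
    induction d with
    | zero =>
      intro k hk i hi
      have h1 := hint k hk i (by omega)
      have h2 : ext a' x (k + 1) (i + 1) = 0 := by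
        unfold ext
        rw [dif_neg (by omega)]
      rw [h2] at h1
      exact h1
    | succ d ih =>
      intro k hk i hi
      have h1 := hint k hk i (by omega)
      have h2 := hle k hk (i + 1) (by omega)
      have h3 := ih k hk (i + 1) (by omega)
      linarith
  have h0 : ∀ k (hk : k < l) i (hi : i < l), 0 ≤ x ⟨k, hk⟩ ⟨i, hi⟩ := by
    intro k hk i hi
    rw [← hval k hk i hi]
    exact hlow (l - 1 - i) k hk i (by omega)
  have h1 : ∀ k (hk : k < l) i (hi : i < l), x ⟨k, hk⟩ ⟨i, hi⟩ ≤ a' ⟨i, hi⟩ := by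
    intro k hk i hi
    rw [← hval k hk i hi]
    exact hup (l - k) k (by omega) i hi
  have hl : 0 < l := by
    rcases Nat.eq_zero_or_pos l with h | h
    · subst h
      simp at hasum
    · exact h
  have hs1 : s = ∑ i ∈ range l, ext a' x 0 i := by
    have h2 : (0 : ℝ) ≤ s - ∑ i ∈ range l, ext a' x 0 i := hrow Row.sizeLe
    have h3 : (0 : ℝ) ≤ (∑ i ∈ range l, ext a' x 0 i) - s := hrow Row.sizeGe
    linarith
  have hs2 : s = ∑ i : Fin l, x ⟨0, hl⟩ i := by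
    rw [hs1, Finset.sum_range]
    apply sum_congr rfl
    intro i _
    rw [hval 0 hl i i.2]
  refine ⟨?_, ?_, ?_⟩
  · rw [hs2]
    exact sum_nonneg fun i _ => h0 0 hl i i.2
  · rw [hs2, ← hasum]
    exact sum_le_sum fun i _ => h1 0 hl i i.2
  · intro k i
    rw [abs_of_nonneg (h0 k k.2 i i.2)]
    exact (h1 k k.2 i i.2).trans (ha1 i)

theorem exists_nice (hl : 2 ≤ l) {a b : Fin l → ℚ} (ha : IsDistribution a)
    (hb : IsDistribution b) :
    ∃ q : ℕ, 1 ≤ q ∧ (∀ k : ℕ, q ∣ k ↔ ∃ lam mu : Fin l → ℕ, (∀ i, (lam i : ℚ) = k * a i) ∧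
      ∀ i, (mu i : ℚ) = k * b i) ∧ ((Slice a b (1 / 2)).Nonempty → (sysOf a b).Nice q) := by
  set q : ℕ := Nat.lcm (univ.lcm fun i => (a i).den) (univ.lcm fun i => (b i).den) with hq
  have hqpos : 1 ≤ q := by
    rw [Nat.one_le_iff_ne_zero, hq]
    apply Nat.lcm_ne_zero
    · rw [Finset.lcm_ne_zero_iff]
      exact fun i _ => (a i).den_ne_zero
    · rw [Finset.lcm_ne_zero_iff]
      exact fun i _ => (b i).den_ne_zero
  have hdvd : ∀ k : ℕ, q ∣ k ↔ ∃ lam mu : Fin l → ℕ, (∀ i, (lam i : ℚ) = k * a i) ∧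
      ∀ i, (mu i : ℚ) = k * b i := by
    intro k
    rw [hq, Nat.lcm_dvd_iff, Finset.lcm_dvd_iff, Finset.lcm_dvd_iff]
    constructor
    · rintro ⟨h1, h2⟩
      have h3 : ∀ i, ∃ m : ℕ, (m : ℚ) = k * a i := fun i =>
        (III3_den (ha.nonneg i) k).1 (h1 i (mem_univ i))
      have h4 : ∀ i, ∃ m : ℕ, (m : ℚ) = k * b i := fun i =>
        (III3_den (hb.nonneg i) k).1 (h2 i (mem_univ i))
      choose lam hlam using h3
      choose mu hmu using h4
      exact ⟨lam, mu, hlam, hmu⟩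
    · rintro ⟨lam, mu, hlam, hmu⟩
      exact ⟨fun i _ => (III3_den (ha.nonneg i) k).2 ⟨lam i, hlam i⟩,
        fun i _ => (III3_den (hb.nonneg i) k).2 ⟨mu i, hmu i⟩⟩
  refine ⟨q, hqpos, hdvd, fun hne => ?_⟩
  refine ⟨hqpos, ⟨1, ?_⟩, ?_, ?_, ?_⟩
  · intro s x hx
    have h1 : (fun k i => x (k, i)) ∈ Slice a b s := by
      rw [mem_slice_iff]
      exact hx
    obtain ⟨h2, h3, h4⟩ := III3_bdd ha h1
    exact ⟨h2, h3, fun p => h4 p.1 p.2⟩
  · obtain ⟨x, hx⟩ := hne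
    exact ⟨_, (mem_slice_iff a b (1 / 2) x).1 hx⟩
  · intro k hk j
    obtain ⟨lam, mu, hlam, hmu⟩ := (hdvd k).1 hk
    rw [← chainCount_eq_L a b hlam hmu, ← chainCount_eq_L a b hlam hmu]
    exact chainCount_symm (III3_anti ha.anti hlam) (III3_anti hb.anti hmu)
      (III3_sum ha.sum hlam) j
  · intro k hk j hj
    obtain ⟨lam, mu, hlam, hmu⟩ := (hdvd k).1 hk
    rw [← chainCount_eq_L a b hlam hmu, ← chainCount_eq_L a b hlam hmu]
    exact chainCount_mono hl (III3_anti ha.anti hlam) (III3_anti hb.anti hmu)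
      (III3_sum ha.sum hlam) (III3_sum hb.sum hmu) hj

/-- A nonempty slice has a nonempty middle slice (used when the middle slice is empty). -/
theorem middle_nonempty (hl : 2 ≤ l) {a b : Fin l → ℚ} (ha : IsDistribution a)
    (hb : IsDistribution b) {k : ℕ} (hk : 1 ≤ k) {lam mu : Fin l → ℕ}
    (hlam : ∀ i, (lam i : ℚ) = k * a i) (hmu : ∀ i, (mu i : ℚ) = k * b i) {j : ℤ}
    (hj : 0 < chainCount lam mu j) : (Slice a b (1 / 2)).Nonempty := by
  have _ := hl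
  have hj2 : 0 < chainCount lam mu ((k : ℤ) - j) := by
    rw [← chainCount_symm (III3_anti ha.anti hlam) (III3_anti hb.anti hmu)
      (III3_sum ha.sum hlam) j]
    exact hj
  rw [chainCount_eq_L a b hlam hmu] at hj hj2
  obtain ⟨⟨x, hx⟩⟩ := (Nat.card_pos_iff.1 hj).1
  obtain ⟨⟨y, hy⟩⟩ := (Nat.card_pos_iff.1 hj2).1
  have hkr : (0 : ℝ) < k := by exact_mod_cast hk
  refine ⟨fun c i => ((x (c, i) : ℝ) + (y (c, i) : ℝ)) / (2 * k), ?_⟩
  rw [mem_slice_iff]
  intro ρ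
  have h1 : (((∑ i, (sysOf a b).A ρ i * x i : ℤ) : ℚ) : ℝ)
      ≤ (((k : ℚ) * (sysOf a b).b ρ + (j : ℚ) * (sysOf a b).c ρ : ℚ) : ℝ) := by
    exact_mod_cast hx ρ
  have h2 : (((∑ i, (sysOf a b).A ρ i * y i : ℤ) : ℚ) : ℝ)
      ≤ (((k : ℚ) * (sysOf a b).b ρ + (((k : ℤ) - j : ℤ) : ℚ) * (sysOf a b).c ρ : ℚ) : ℝ) := by
    exact_mod_cast hy ρ
  push_cast at h1 h2
  show ∑ p : Fin l × Fin l, (((sysOf a b).A ρ p : ℤ) : ℝ)
      * (((x (p.1, p.2) : ℝ) + (y (p.1, p.2) : ℝ)) / (2 * k)) ≤ _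
  have h3 : ∑ p : Fin l × Fin l, (((sysOf a b).A ρ p : ℤ) : ℝ)
      * (((x (p.1, p.2) : ℝ) + (y (p.1, p.2) : ℝ)) / (2 * k))
      = (∑ p, (((sysOf a b).A ρ p : ℤ) : ℝ) * (x p : ℝ)
        + ∑ p, (((sysOf a b).A ρ p : ℤ) : ℝ) * (y p : ℝ)) / (2 * k) := by
    rw [← sum_add_distrib, sum_div]
    apply sum_congr rfl
    intro p _
    show _ * (((x p : ℝ) + (y p : ℝ)) / (2 * k)) = _
    ring
  rw [h3, div_le_iff₀ (by positivity)]
  have h4 : (((sysOf a b).b ρ : ℝ) + 1 / 2 * ((sysOf a b).c ρ : ℝ)) * (2 * (k : ℝ))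
      = ((k : ℝ) * ((sysOf a b).b ρ : ℝ) + (j : ℝ) * ((sysOf a b).c ρ : ℝ))
        + ((k : ℝ) * ((sysOf a b).b ρ : ℝ) + ((k : ℝ) - (j : ℝ)) * ((sysOf a b).c ρ : ℝ)) := by
    ring
  rw [h4]
  exact add_le_add h1 h2

end H73TR
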