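import Pool.Agent.Lib.H73TR.III3

/-!
# III4 (M): stretched positivity in terms of lattice points

Let `t ≥ 1/2`.  If `k c(t)`, `c(t) = (t, 1-t, 0, …)`, is a vector `nu` of natural numbers, then
`t ≤ 1`, `nu = twoRow l (k - m) m` with `m = k (1-t) = k - j`, `j = k t`, and `kron_eq` with
`chainCount_eq_L` gives `kron k lam mu nu = L k j - L k (j+1)`.  Conversely if `q ∣ k`, `j = k t` is
an integer and `t ≤ 1`, the vectors exist.
-/

namespace H73TR

open Finset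

variable {l : ℕ}

private theorem III4_antitone {a : Fin l → ℚ} (ha : IsDistribution a) {k : ℕ} {lam : Fin l → ℕ}
    (hlam : ∀ i, (lam i : ℚ) = k * a i) : Antitone lam := by
  intro i j hij
  have h : (lam j : ℚ) ≤ (lam i : ℚ) := by
    rw [hlam, hlam]
    exact mul_le_mul_of_nonneg_left (ha.anti hij) (Nat.cast_nonneg k)
  exact_mod_cast h

private theorem III4_sum {a : Fin l → ℚ} (ha : IsDistribution a) {k : ℕ} {lam : Fin l → ℕ}
    (hlam : ∀ i, (lam i : ℚ) = k * a i) : ∑ i, lam i = k := by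
  have h : ((∑ i, lam i : ℕ) : ℚ) = (k : ℚ) := by
    rw [Nat.cast_sum, Finset.sum_congr rfl (fun i _ => hlam i), ← Finset.mul_sum, ha.sum, mul_one]
  exact_mod_cast h

theorem kron_eq_L (hl : 2 ≤ l) {a b : Fin l → ℚ} (ha : IsDistribution a)
    (hb : IsDistribution b) {t : ℚ} {k : ℕ} {lam mu nu : Fin l → ℕ}
    (hlam : ∀ i, (lam i : ℚ) = k * a i) (hmu : ∀ i, (mu i : ℚ) = k * b i)
    (hnu : ∀ i, (nu i : ℚ) = k * twoRow l t (1 - t) i) {j : ℤ} (hj : (j : ℚ) = k * t) :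
    kron k lam mu nu = ((sysOf a b).L k j : ℚ) - ((sysOf a b).L k (j + 1) : ℚ) := by
  have h0 : (nu ⟨0, by omega⟩ : ℚ) = k * t := by
    rw [hnu]; simp [twoRow]
  have h1 : (nu ⟨1, by omega⟩ : ℚ) = k * (1 - t) := by
    rw [hnu]; simp [twoRow]
  have hj0 : (nu ⟨0, by omega⟩ : ℤ) = j := by
    have : ((nu ⟨0, by omega⟩ : ℤ) : ℚ) = (j : ℚ) := by
      rw [hj, ← h0]; norm_cast
    exact_mod_cast this
  have hsum : nu ⟨0, by omega⟩ + nu ⟨1, by omega⟩ = k := by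
    have : ((nu ⟨0, by omega⟩ + nu ⟨1, by omega⟩ : ℕ) : ℚ) = (k : ℚ) := by
      push_cast
      rw [h0, h1]; ring
    exact_mod_cast this
  have hnu' : nu = twoRow l (k - nu ⟨1, by omega⟩) (nu ⟨1, by omega⟩) := by
    funext i
    unfold twoRow
    by_cases hi0 : (i : ℕ) = 0
    · rw [if_pos hi0]
      have : i = ⟨0, by omega⟩ := Fin.ext hi0
      rw [this]; omega
    · rw [if_neg hi0]
      by_cases hi1 : (i : ℕ) = 1
      · rw [if_pos hi1]
        have : i = ⟨1, by omega⟩ := Fin.ext hi1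
        rw [this]
      · rw [if_neg hi1]
        have : (nu i : ℚ) = 0 := by
          rw [hnu]; simp [twoRow, hi0, hi1]
        exact_mod_cast this
  have hm : nu ⟨1, by omega⟩ ≤ k := by omega
  have key := kron_eq hl hm (III4_antitone ha hlam) (III4_antitone hb hmu) (III4_sum ha hlam)
  rw [← hnu'] at key
  rw [key]
  have hjm : (k : ℤ) - (nu ⟨1, by omega⟩ : ℕ) = j := by
    rw [← hj0]; omega
  rw [hjm, chainCount_eq_L a b hlam hmu, chainCount_eq_L a b hlam hmu]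

theorem stretchedPositive_iff (hl : 2 ≤ l) {a b : Fin l → ℚ} (ha : IsDistribution a)
    (hb : IsDistribution b) {q : ℕ} (hq : ∀ k : ℕ, q ∣ k ↔ ∃ lam mu : Fin l → ℕ,
      (∀ i, (lam i : ℚ) = k * a i) ∧ ∀ i, (mu i : ℚ) = k * b i) {t : ℚ} (ht : 1 / 2 ≤ t) :
    StretchedPositive a b (twoRow l t (1 - t)) ↔
      t ≤ 1 ∧ ∃ (k : ℕ) (j : ℤ), 1 ≤ k ∧ q ∣ k ∧ (j : ℚ) = k * t ∧
        (sysOf a b).L k (j + 1) < (sysOf a b).L k j := by
  constructor
  · rintro ⟨k, hk, lam, mu, nu, hlam, hmu, hnu, hpos⟩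
    have hkq : (0 : ℚ) < k := by exact_mod_cast hk
    have h0 : (nu ⟨0, by omega⟩ : ℚ) = k * t := by
      rw [hnu]; simp [twoRow]
    have h1 : (nu ⟨1, by omega⟩ : ℚ) = k * (1 - t) := by
      rw [hnu]; simp [twoRow]
    have ht1 : t ≤ 1 := by
      have h2 : (0 : ℚ) ≤ k * (1 - t) := by rw [← h1]; exact Nat.cast_nonneg _
      have h3 : 0 ≤ 1 - t := nonneg_of_mul_nonneg_right h2 hkq
      linarith
    refine ⟨ht1, k, (nu ⟨0, by omega⟩ : ℤ), hk, (hq k).2 ⟨lam, mu, hlam, hmu⟩, ?_, ?_⟩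
    · rw [← h0]; norm_cast
    · have hj : (((nu ⟨0, by omega⟩ : ℕ) : ℤ) : ℚ) = k * t := by
        rw [← h0]; norm_cast
      rw [kron_eq_L hl ha hb hlam hmu hnu hj] at hpos
      have h4 : (((sysOf a b).L k (((nu ⟨0, by omega⟩ : ℕ) : ℤ) + 1) : ℕ) : ℚ) <
          (((sysOf a b).L k ((nu ⟨0, by omega⟩ : ℕ) : ℤ) : ℕ) : ℚ) := by linarith
      exact_mod_cast h4
  · rintro ⟨ht1, k, j, hk, hqk, hj, hL⟩
    obtain ⟨lam, mu, hlam, hmu⟩ := (hq k).1 hqk
    have hkq : (0 : ℚ) < k := by exact_mod_cast hk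
    have hj0 : (0 : ℚ) ≤ (j : ℚ) := by
      rw [hj]; exact mul_nonneg hkq.le (by linarith)
    have hj0' : 0 ≤ j := by exact_mod_cast hj0
    have hjk : (0 : ℚ) ≤ (((k : ℤ) - j : ℤ) : ℚ) := by
      push_cast
      rw [hj]
      have : (k : ℚ) - k * t = k * (1 - t) := by ring
      rw [this]
      exact mul_nonneg hkq.le (by linarith)
    have hjk' : 0 ≤ (k : ℤ) - j := by exact_mod_cast hjk
    have hc0 : ((j.toNat : ℕ) : ℚ) = k * t := by
      rw [← hj]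
      have : ((j.toNat : ℕ) : ℤ) = j := Int.toNat_of_nonneg hj0'
      have h2 : (((j.toNat : ℕ) : ℤ) : ℚ) = (j : ℚ) := by rw [this]
      exact_mod_cast h2
    have hc1 : ((((k : ℤ) - j).toNat : ℕ) : ℚ) = k * (1 - t) := by
      have : ((((k : ℤ) - j).toNat : ℕ) : ℤ) = (k : ℤ) - j := Int.toNat_of_nonneg hjk'
      have h2 : (((((k : ℤ) - j).toNat : ℕ) : ℤ) : ℚ) = (((k : ℤ) - j : ℤ) : ℚ) := by rw [this]
      have h3 : (((k : ℤ) - j : ℤ) : ℚ) = k * (1 - t) := by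
        push_cast
        rw [hj]; ring
      rw [← h3, ← h2]; norm_cast
    have hnu : ∀ i, ((twoRow l j.toNat ((k : ℤ) - j).toNat i : ℕ) : ℚ) =
        k * twoRow l t (1 - t) i := by
      intro i
      unfold twoRow
      by_cases hi0 : (i : ℕ) = 0
      · rw [if_pos hi0, if_pos hi0, hc0]
      · rw [if_neg hi0, if_neg hi0]
        by_cases hi1 : (i : ℕ) = 1
        · rw [if_pos hi1, if_pos hi1, hc1]
        · rw [if_neg hi1, if_neg hi1]; simp
    refine ⟨k, hk, lam, mu, twoRow l j.toNat ((k : ℤ) - j).toNat, hlam, hmu, hnu, ?_⟩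
    rw [kron_eq_L hl ha hb hlam hmu hnu hj]
    have h4 : (((sysOf a b).L k (j + 1) : ℕ) : ℚ) < (((sysOf a b).L k j : ℕ) : ℚ) := by
      exact_mod_cast hL
    linarith

end H73TR
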