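import Pool.Agent.Lib.H73TR.Defs3
import Pool.Agent.Lib.H73TR.R2

/-!
# T1 (M): the last nonempty slice

The set of pairs `(s, x)`, `x ∈ P(s)`, is compact (closed, bounded by `bdd`) and nonempty; let
`(T, x)` maximize `s`.  `lp_rational` in the variables `Option ι` (rows `A_r x - c_r s ≤ b_r`; the
`c_r` are rational: multiply each row by a common denominator) gives that `T` is rational and that
`P(T)` has a rational point `y`.  Let `k ≥ 1` be divisible by `q` and by the denominators of `y`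
and `T`; then `k y` is an integer point of `k P(T)`, so `L k (kT) > 0` (`L` is the cardinality of a
finite set: the points are bounded by `k R`).  By symmetry `L k (k - kT) > 0`, so `P(1-T)` is
nonempty (divide a lattice point by `k`); the slices between are nonempty by convexity
(`(1-θ) x + θ x' ∈ P((1-θ)s + θ s')`).  `1/2 ≤ T ≤ 1` by `ne` and `bdd`.
-/

namespace H73TR

/-- The set of all pairs of a parameter and a point of its slice is closed. -/
theorem t1_isClosed {ι κ : Type} [Fintype ι] (S : Sys ι κ) :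
    IsClosed {z : Option ι → ℝ | (fun i => z (some i)) ∈ S.P (z none)} := by
  have h : {z : Option ι → ℝ | (fun i => z (some i)) ∈ S.P (z none)} =
      ⋂ r, {z : Option ι → ℝ | ∑ i, (S.A r i : ℝ) * z (some i) ≤
        (S.b r : ℝ) + z none * (S.c r : ℝ)} := by
    ext z
    simp [Sys.P]
  rw [h]
  exact isClosed_iInter fun r => isClosed_le (by fun_prop) (by fun_prop)

/-- The largest parameter with a nonempty slice is attained and rational, with a rational point. -/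
theorem t1_max {ι κ : Type} [Fintype ι] [Finite κ] (S : Sys ι κ) {R : ℝ}
    (hb : ∀ (s : ℝ) (x : ι → ℝ), x ∈ S.P s → |s| ≤ R ∧ ∀ i, |x i| ≤ R) {s₀ : ℝ}
    (hne : (S.P s₀).Nonempty) :
    ∃ (T : ℚ) (y : ι → ℚ), (fun i => (y i : ℝ)) ∈ S.P (T : ℝ) ∧
      ∀ s : ℝ, (S.P s).Nonempty → s ≤ (T : ℝ) := by
  classical
  set K : Set (Option ι → ℝ) := {z | (fun i => z (some i)) ∈ S.P (z none)} with hK
  have hKc : IsCompact K := by
    have hsub : K ⊆ Set.Icc (fun _ => -R) (fun _ => R) := by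
      intro z hz
      obtain ⟨h1, h2⟩ := hb _ _ hz
      refine ⟨fun o => ?_, fun o => ?_⟩
      · cases o with
        | none => exact (abs_le.mp h1).1
        | some i => exact (abs_le.mp (h2 i)).1
      · cases o with
        | none => exact (abs_le.mp h1).2
        | some i => exact (abs_le.mp (h2 i)).2
    exact isCompact_Icc.of_isClosed_subset (t1_isClosed S) hsub
  obtain ⟨x₀, hx₀⟩ := hne
  have hKne : K.Nonempty := ⟨fun o => o.elim s₀ x₀, hx₀⟩
  obtain ⟨z, hzK, hzmax⟩ := hKc.exists_isMaxOn hKne ((continuous_apply none).continuousOn)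
  have hzmax' : ∀ y ∈ K, y none ≤ z none := fun y hy => hzmax hy
  let A' : κ → Option ι → ℤ := fun r o =>
    o.elim (-(S.c r).num) (fun i => ((S.c r).den : ℤ) * S.A r i)
  let β' : κ → ℚ := fun r => ((S.c r).den : ℚ) * S.b r
  let v : Option ι → ℤ := fun o => o.elim 1 (fun _ => 0)
  have hiff : ∀ z : Option ι → ℝ, (∀ r, ∑ o, (A' r o : ℝ) * z o ≤ (β' r : ℝ)) ↔ z ∈ K := by
    intro z
    refine forall_congr' fun r => ?_
    have hd : (0 : ℝ) < ((S.c r).den : ℝ) := by exact_mod_cast (S.c r).den_pos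
    have hnum : ((S.c r).den : ℝ) * (S.c r : ℝ) = ((S.c r).num : ℝ) := by
      have h := Rat.mul_den_eq_num (S.c r)
      rw [mul_comm]
      exact_mod_cast h
    have h1 : ∑ o, (A' r o : ℝ) * z o =
        -((S.c r).num : ℝ) * z none + ((S.c r).den : ℝ) * ∑ i, (S.A r i : ℝ) * z (some i) := by
      rw [Fintype.sum_option, Finset.mul_sum]
      simp only [A', Option.elim_none, Option.elim_some, Int.cast_neg, Int.cast_mul,
        Int.cast_natCast, mul_assoc]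
    have h2 : ((β' r : ℚ) : ℝ) = ((S.c r).den : ℝ) * (S.b r : ℝ) := by
      simp only [β', Rat.cast_mul, Rat.cast_natCast]
    rw [h1, h2, ← hnum]
    constructor
    · intro h
      have h3 : ((S.c r).den : ℝ) * ∑ i, (S.A r i : ℝ) * z (some i) ≤
          ((S.c r).den : ℝ) * ((S.b r : ℝ) + z none * (S.c r : ℝ)) := by
        nlinarith
      exact le_of_mul_le_mul_left h3 hd
    · intro h
      have h3 := mul_le_mul_of_nonneg_left h hd.le
      nlinarith
  have hv : ∀ z : Option ι → ℝ, ∑ o, (v o : ℝ) * z o = z none := by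
    intro z
    rw [Fintype.sum_option]
    simp [v]
  obtain ⟨y, hy1, hy2⟩ := lp_rational A' β' v z ((hiff z).mpr hzK)
    (fun y hy => by rw [hv, hv]; exact hzmax' y ((hiff y).mp hy))
  have hyn : ((y none : ℚ) : ℝ) = z none := by
    rw [hv] at hy2
    rw [← hy2, Fintype.sum_option]
    simp [v]
  refine ⟨y none, fun i => y (some i), ?_, ?_⟩
  · have h4 : (fun o => ((y o : ℚ) : ℝ)) ∈ K := (hiff _).mp (fun r => by exact_mod_cast hy1 r)
    exact h4
  · rintro s ⟨x, hx⟩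
    have h5 : (fun o : Option ι => o.elim s x) ∈ K := hx
    rw [hyn]
    exact hzmax' _ h5

/-- Dividing a lattice point by `k`. -/
theorem t1_scale {ι κ : Type} [Fintype ι] (S : Sys ι κ) {k : ℕ} (hk : 0 < k) {j : ℤ}
    {x : ι → ℤ}
    (hx : ∀ r, ((∑ i, S.A r i * x i : ℤ) : ℚ) ≤ (k : ℚ) * S.b r + (j : ℚ) * S.c r) :
    (fun i => (x i : ℝ) / k) ∈ S.P ((j : ℝ) / k) := by
  intro r
  have hk' : (0 : ℝ) < k := by exact_mod_cast hk
  have h1 : ((∑ i, S.A r i * x i : ℤ) : ℝ) ≤ (k : ℝ) * (S.b r : ℝ) + (j : ℝ) * (S.c r : ℝ) := by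
    exact_mod_cast hx r
  have h2 : ∑ i, (S.A r i : ℝ) * ((x i : ℝ) / k) = ((∑ i, S.A r i * x i : ℤ) : ℝ) / k := by
    push_cast
    rw [Finset.sum_div]
    exact Finset.sum_congr rfl fun i _ => by rw [mul_div_assoc]
  show ∑ i, (S.A r i : ℝ) * ((x i : ℝ) / k) ≤ (S.b r : ℝ) + (j : ℝ) / k * (S.c r : ℝ)
  rw [h2, div_le_iff₀ hk']
  have h3 : ((S.b r : ℝ) + (j : ℝ) / k * (S.c r : ℝ)) * k =
      (k : ℝ) * (S.b r : ℝ) + (j : ℝ) * (S.c r : ℝ) := by
    field_simp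
  rw [h3]
  exact h1

/-- There are finitely many lattice points. -/
theorem t1_finite {ι κ : Type} [Fintype ι] (S : Sys ι κ) {R : ℝ}
    (hb : ∀ (s : ℝ) (x : ι → ℝ), x ∈ S.P s → ∀ i, |x i| ≤ R) {k : ℕ} (hk : 0 < k) (j : ℤ) :
    Finite {x : ι → ℤ // ∀ r, ((∑ i, S.A r i * x i : ℤ) : ℚ) ≤
      (k : ℚ) * S.b r + (j : ℚ) * S.c r} := by
  classical
  have hk' : (0 : ℝ) < k := by exact_mod_cast hk
  have hsub : {x : ι → ℤ | ∀ r, ((∑ i, S.A r i * x i : ℤ) : ℚ) ≤
      (k : ℚ) * S.b r + (j : ℚ) * S.c r} ⊆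
      Set.Icc (fun _ => -⌈R * k⌉) (fun _ => ⌈R * k⌉) := by
    intro x hx
    have h1 := hb _ _ (t1_scale S hk hx)
    have h2 : ∀ i, |(x i : ℝ)| ≤ R * k := by
      intro i
      have h3 := h1 i
      rw [abs_div, abs_of_pos hk', div_le_iff₀ hk'] at h3
      exact h3
    refine ⟨fun i => ?_, fun i => ?_⟩
    · have h4 := (abs_le.mp (h2 i)).1
      have h5 : -((⌈R * k⌉ : ℤ) : ℝ) ≤ (x i : ℝ) := by
        have := Int.le_ceil (R * k)
        linarith
      exact_mod_cast h5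
    · have h4 := (abs_le.mp (h2 i)).2
      have h5 : (x i : ℝ) ≤ ((⌈R * k⌉ : ℤ) : ℝ) := h4.trans (Int.le_ceil _)
      exact_mod_cast h5
  exact ((Set.finite_Icc _ _).subset hsub).to_subtype

/-- The parameters with a nonempty slice form an interval. -/
theorem t1_convex {ι κ : Type} [Fintype ι] (S : Sys ι κ) :
    Convex ℝ {s : ℝ | (S.P s).Nonempty} := by
  rintro s ⟨x, hx⟩ t ⟨y, hy⟩ a b ha hb hab
  refine ⟨fun i => a * x i + b * y i, fun r => ?_⟩
  have h1 := mul_le_mul_of_nonneg_left (hx r) ha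
  have h2 := mul_le_mul_of_nonneg_left (hy r) hb
  have h3 : ∑ i, (S.A r i : ℝ) * (a * x i + b * y i) =
      a * ∑ i, (S.A r i : ℝ) * x i + b * ∑ i, (S.A r i : ℝ) * y i := by
    rw [Finset.mul_sum, Finset.mul_sum, ← Finset.sum_add_distrib]
    exact Finset.sum_congr rfl fun i _ => by ring
  rw [h3]
  have h4 : (S.b r : ℝ) = a * (S.b r : ℝ) + b * (S.b r : ℝ) := by rw [← add_mul, hab, one_mul]
  simp only [smul_eq_mul]
  nlinarith

theorem exists_last {ι κ : Type} [Fintype ι] [Finite κ] (S : Sys ι κ) {q : ℕ} (hS : S.Nice q) :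
    ∃ T : ℚ, 1 / 2 ≤ T ∧ T ≤ 1 ∧ IsGreatest {s : ℝ | (S.P s).Nonempty} (T : ℝ) ∧
      (∀ s : ℝ, 1 - (T : ℝ) ≤ s → s ≤ (T : ℝ) → (S.P s).Nonempty) ∧
      ∃ (k : ℕ) (j : ℤ), 1 ≤ k ∧ q ∣ k ∧ (j : ℚ) = k * T ∧ 0 < S.L k j := by
  classical
  obtain ⟨R, hR⟩ := hS.bdd
  have hRb : ∀ (s : ℝ) (x : ι → ℝ), x ∈ S.P s → |s| ≤ max R 1 ∧ ∀ i, |x i| ≤ max R 1 := by
    intro s x hx
    obtain ⟨h0, h1, h2⟩ := hR s x hx
    exact ⟨(abs_le.mpr ⟨by linarith, h1⟩).trans (le_max_right _ _),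
      fun i => (h2 i).trans (le_max_left _ _)⟩
  obtain ⟨T, y, hy, hmax⟩ := t1_max S hRb hS.ne
  have hT : (T : ℝ) ∈ {s : ℝ | (S.P s).Nonempty} := ⟨_, hy⟩
  have hTh : (1 / 2 : ℝ) ≤ (T : ℝ) := hmax _ hS.ne
  have hT1 : (T : ℝ) ≤ 1 := (hR _ _ hy).2.1
  obtain ⟨P, hP⟩ : ∃ P : ℕ, P = ∏ i, (y i).den := ⟨_, rfl⟩
  have hPpos : 0 < P := by
    rw [hP]
    exact Finset.prod_pos fun i _ => (y i).den_pos
  obtain ⟨k, hk⟩ : ∃ k : ℕ, k = q * (T.den * P) := ⟨_, rfl⟩
  have hkpos : 0 < k := by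
    rw [hk]
    exact Nat.mul_pos hS.q_pos (Nat.mul_pos T.den_pos hPpos)
  have hqk : q ∣ k := ⟨T.den * P, hk⟩
  obtain ⟨j, hj⟩ : ∃ j : ℤ, j = T.num * (q * P : ℕ) := ⟨_, rfl⟩
  have hjT : (j : ℚ) = k * T := by
    have h := Rat.mul_den_eq_num T
    rw [hj, hk]
    push_cast
    rw [← h]
    ring
  have hXi : ∀ i, ∃ X : ℤ, (X : ℚ) = k * y i := by
    intro i
    have hdvd : (y i).den ∣ P := by
      rw [hP]
      exact Finset.dvd_prod_of_mem (fun i => (y i).den) (Finset.mem_univ i)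
    obtain ⟨m, hm⟩ := hdvd
    refine ⟨(y i).num * (q * (T.den * m) : ℕ), ?_⟩
    have h := Rat.mul_den_eq_num (y i)
    rw [hk, hm]
    push_cast
    rw [← h]
    ring
  choose X hX using hXi
  have hXr : ∀ r, ((∑ i, S.A r i * X i : ℤ) : ℚ) ≤ (k : ℚ) * S.b r + (j : ℚ) * S.c r := by
    intro r
    have h1 : ∑ i, (S.A r i : ℝ) * (y i : ℝ) ≤ (S.b r : ℝ) + (T : ℝ) * (S.c r : ℝ) := hy r
    have h2 : ∑ i, (S.A r i : ℚ) * y i ≤ S.b r + T * S.c r := by exact_mod_cast h1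
    have h3 : ((∑ i, S.A r i * X i : ℤ) : ℚ) = k * ∑ i, (S.A r i : ℚ) * y i := by
      push_cast
      rw [Finset.mul_sum]
      refine Finset.sum_congr rfl fun i _ => ?_
      rw [hX i]
      ring
    have hk0 : (0 : ℚ) ≤ k := by positivity
    have h4 := mul_le_mul_of_nonneg_left h2 hk0
    rw [h3, hjT]
    linarith
  have hfin := t1_finite S (fun s x hx => (hRb s x hx).2) hkpos
  have hL : 0 < S.L k j := by
    have := hfin j
    have : Nonempty {x : ι → ℤ // ∀ r, ((∑ i, S.A r i * x i : ℤ) : ℚ) ≤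
      (k : ℚ) * S.b r + (j : ℚ) * S.c r} := ⟨⟨X, hXr⟩⟩
    exact Nat.card_pos
  have hL' : 0 < S.L k ((k : ℤ) - j) := by
    rw [← hS.symm k hqk j]
    exact hL
  have hk' : (0 : ℝ) < k := by exact_mod_cast hkpos
  have hjr : (j : ℝ) = k * (T : ℝ) := by exact_mod_cast hjT
  have hne1 : (S.P (1 - (T : ℝ))).Nonempty := by
    have h5 : Nonempty {x : ι → ℤ // ∀ r, ((∑ i, S.A r i * x i : ℤ) : ℚ) ≤
        (k : ℚ) * S.b r + (((k : ℤ) - j : ℤ) : ℚ) * S.c r} := by
      by_contra hcon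
      rw [not_nonempty_iff] at hcon
      have : S.L k ((k : ℤ) - j) = 0 := Nat.card_of_isEmpty
      omega
    obtain ⟨x, hx⟩ := h5
    have h6 := t1_scale S hkpos hx
    have h7 : ((((k : ℤ) - j : ℤ) : ℝ)) / k = 1 - (T : ℝ) := by
      rw [div_eq_iff hk'.ne']
      push_cast
      rw [hjr]
      ring
    rw [h7] at h6
    exact ⟨_, h6⟩
  refine ⟨T, ?_, ?_, ⟨hT, fun s hs => hmax s hs⟩, ?_, k, j, hkpos, hqk, hjT, hL⟩
  · have h8 : (((1 / 2 : ℚ)) : ℝ) ≤ (T : ℝ) := by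
      push_cast
      exact hTh
    exact Rat.cast_le.mp h8
  · exact_mod_cast hT1
  · intro s hs1 hs2
    exact (t1_convex S).ordConnected.out hne1 hT ⟨hs1, hs2⟩

end H73TR
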